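import Pool.Agent.Lib.MP_6e5bed_ag_PN.Two

set_option autoImplicit false
set_option linter.unusedVariables false

/-!
# MP_6e5bed_ag, THEOREM G: presheaves of bimodules in two variables, the other order

The mirror image of `Two.lean`: for `M : PB2 A B` and a chart `a` in the first variable
`M.snd a` is the presheaf `b ↦ M a b` in the second variable, with constant left algebra `A a`;
`M.push2 L c` is the presheaf `a ↦ cBL (M.snd a) L c` in the first variable, with constant right
algebra the Čech algebra of `B`.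
-/

noncomputable section

namespace Pool.Agent.MP_6e5bed_ag_PN

open Pool.Agent.MP_6e5bed_ag_NC Pool.Agent.MP_6e5bed_ag_NS

universe u

variable {k : Type u} [CommRing k] {ι : Type} {κ : Type} {A : PA k ι} {B : PA k κ}

/-! ### The presheaves in the second variable -/

/-- The presheaf in the second variable, for a fixed chart `a` in the first variable. -/
def PB2.snd (M : PB2 A B) (a : Ch ι) : PB (PA.con κ (A.A a)) B where
  M := fun b => M.M a b
  ρ := fun {b b'} h' => gmk (DHom.id _) (B.r h') (M.ρ (le_refl a) h').f (M.ρ (le_refl a) h').deg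
    (fun r x => (gm_l (M.ρ (le_refl a) h') r x).trans
      (congrArg (fun z => (M.M a b').l z ((M.ρ (le_refl a) h').f x)) (A.r_id (le_refl a) r)))
    (fun r x => gm_r (M.ρ (le_refl a) h') r x)
  dd := fun {b b'} h' => gmk_dd _ _ _ _ _ _ (fun x => gm_d (M.dd (le_refl a) h') x)
  ρ_id := fun h' x => M.ρ_id (le_refl a) h' x
  ρ_ρ := fun h h' x => M.ρ_ρ (le_refl a) h (le_refl a) h' x

theorem PB2.snd_ρ (M : PB2 A B) (a : Ch ι) {b b' : Ch κ} (h' : b ≤ b') (x : (M.M a b).M) :
    ((M.snd a).ρ h').f x = (M.ρ (le_refl a) h').f x := rfl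

/-- The restriction in the first variable. -/
def PB2.fn (M : PB2 A B) {a a' : Ch ι} (h : a ≤ a') : PCH (M.snd a).pc (M.snd a').pc where
  f := fun b => gch (M.ρ h (le_refl b)) (M.dd h (le_refl b))
  nat := fun {b b'} h' x => (M.ρ_ρ h (le_refl b) (le_refl a') h' x).trans
    (M.ρ_ρ (le_refl a) h' h (le_refl b') x).symm

section push2

variable (M : PB2 A B) (L : List κ) (c : FS κ)

/-- the underlying map of the restriction in the first variable -/
def PB2.fnf {a a' : Ch ι} (h : a ≤ a') : CHom (bcx (cBL (M.snd a) L c))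
    (bcx (cBL (M.snd a') L c)) := (cH (M.fn h) L).g c

theorem PB2.fnf_l {a a' : Ch ι} (h : a ≤ a') (r : (A.A a).A) (x : (cBL (M.snd a) L c).M) :
    (M.fnf L c h).f ((cBL (M.snd a) L c).l r x) =
      (cBL (M.snd a') L c).l ((A.r h).f r) ((M.fnf L c h).f x) := by
  refine (cH_mul (p := (M.snd a).pl) (q := (M.snd a').pl) (PA.cn κ A h) (M.fn h) (M.fn h)
    (fun b r x => ?_) L c ((kX (acx (A.A a)) L c).f r) x).trans ?_
  · exact gm_l (M.ρ h (le_refl b)) r x
  · exact congrArg (fun z => ((cP (M.snd a').pl L).q c).m z (((cH (M.fn h) L).g c).f x))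
      (kX_nat (dch (A.r h)) (PA.cn κ A h) (fun _ _ => rfl) L c r)

theorem PB2.fnf_r {a a' : Ch ι} (h : a ≤ a') (r : (cA B L c).A)
    (x : (cBL (M.snd a) L c).M) :
    (M.fnf L c h).f ((cBL (M.snd a) L c).r r x) =
      (cBL (M.snd a') L c).r r ((M.fnf L c h).f x) := by
  refine (cH_mul (p := (M.snd a).pr) (q := (M.snd a').pr) (M.fn h) (PCH.id B.pc) (M.fn h)
    (fun b x r => ?_) L c x r).trans ?_
  · exact (gm_r (M.ρ h (le_refl b)) r x).trans
      (congrArg (fun z => (M.M a' b).r z ((M.ρ h (le_refl b)).f x)) (B.r_id (le_refl b) r))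
  · exact congrArg (fun z => ((cP (M.snd a').pr L).q c).m (((cH (M.fn h) L).g c).f x) z)
      (cH_id B.pc L c r)

/-- the restriction in the first variable -/
def PB2.fnm {a a' : Ch ι} (h : a ≤ a') : GMap 0 (cBL (M.snd a) L c)
    (res (A.r h) (DHom.id _) (cBL (M.snd a') L c)) :=
  cgm _ _ (M.fnf L c h) (fun r x => M.fnf_l L c h r x) (fun r x => M.fnf_r L c h r x)

theorem PB2.fnm_f {a a' : Ch ι} (h : a ≤ a') (x : (cBL (M.snd a) L c).M) :
    (M.fnm L c h).f x = ((cH (M.fn h) L).g c).f x := rfl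

/-- The presheaf in the first variable of the Čech bimodules with respect to the second
variable. -/
def PB2.push2 : PB A (PA.con ι (cA B L c)) where
  M := fun a => cBL (M.snd a) L c
  ρ := fun h => M.fnm L c h
  dd := fun h => cgm_dd _ _ _ _ _
  ρ_id := fun {a} h x => by
    refine Eq.trans ?_ (cH_id (M.snd a).pc L c x)
    exact cH_ext (fun b x => M.ρ_id h (le_refl b) x) L c x
  ρ_ρ := fun {a a' a''} h h' x => by
    refine (cH_comp (M.fn h) (M.fn h') L c x).symm.trans ?_
    exact cH_ext (fun b x => M.ρ_ρ h (le_refl b) h' (le_refl b) x) L c x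

theorem PB2.push2_M (a : Ch ι) : (M.push2 L c).M a = cBL (M.snd a) L c := rfl

theorem PB2.push2_ρ {a a' : Ch ι} (h : a ≤ a') (x : (cBL (M.snd a) L c).M) :
    ((M.push2 L c).ρ h).f x = ((cH (M.fn h) L).g c).f x := rfl

theorem PB2.push2_bcx (a : Ch ι) :
    bcx ((M.push2 L c).M a) = (cC (M.snd a).pc L).X c := rfl

/-- The double Čech complex in the other order, as a bimodule. -/
def cB2' (L' : List ι) (c' : FS ι) : Bim (cA A L' c') (cA B L c) := cBR (M.push2 L c) L' c'

theorem cB2'_bcx (L' : List ι) (c' : FS ι) :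
    bcx (cB2' M L c L' c') = (cC (M.push2 L c).pc L').X c' := rfl

end push2

/-! ### Morphisms -/

variable {M N : PB2 A B}

/-- for a fixed chart in the first variable -/
def PB2H.snd (f : PB2H M N) (a : Ch ι) : PBH (M.snd a) (N.snd a) where
  f := fun b => f.f a b
  dd := fun b => f.dd a b
  nat := fun h' x => f.nat (le_refl a) h' x

/-- on the Čech bimodules with respect to the second variable -/
def PB2H.push2 (f : PB2H M N) (L : List κ) (c : FS κ) : PBH (M.push2 L c) (N.push2 L c) where
  f := fun a => (f.snd a).gmapL L c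
  dd := fun a => (f.snd a).gmapL_dd L c
  nat := fun {a a'} h x => by
    refine (cH_comp (f.snd a).pch (N.fn h) L c x).symm.trans ?_
    refine Eq.trans ?_ (cH_comp (M.fn h) (f.snd a').pch L c x)
    exact cH_ext (fun b x => f.nat h (le_refl b) x) L c x

theorem PB2H.push2_f (f : PB2H M N) (L : List κ) (c : FS κ) (a : Ch ι)
    (x : (cBL (M.snd a) L c).M) :
    ((f.push2 L c).f a).f x = ((cH (f.snd a).pch L).g c).f x := rfl

/-- A morphism which is a quasi-isomorphism on all charts. -/
theorem PB2H.qiso_push2 (f : PB2H M N) (h : ∀ a b, QIso (f.f a b)) (L : List κ) (c : FS κ)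
    (a : Ch ι) : QIso ((f.push2 L c).f a) := (f.snd a).qisoL (fun b => h a b) L c

/-- on the double Čech complexes in the other order -/
def PB2H.gmap' (f : PB2H M N) (L : List κ) (c : FS κ) (L' : List ι) (c' : FS ι) :
    GMap 0 (cB2' M L c L' c') (cB2' N L c L' c') := (f.push2 L c).gmapR L' c'

theorem PB2H.gmap'_dd (f : PB2H M N) (L : List κ) (c : FS κ) (L' : List ι) (c' : FS ι) :
    (f.gmap' L c L' c').dd = 0 := (f.push2 L c).gmapR_dd L' c'

theorem PB2H.qiso' (f : PB2H M N) (h : ∀ a b, QIso (f.f a b)) (L : List κ) (c : FS κ)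
    (L' : List ι) (c' : FS ι) : QIso (f.gmap' L c L' c') :=
  (f.push2 L c).qisoR (fun a => f.qiso_push2 h L c a) L' c'

theorem PB2Ex.push2 {M' M M'' : PB2 A B} {i : PB2H M' M} {p : PB2H M M''} (h : PB2Ex i p)
    (L : List κ) (c : FS κ) : PBEx (i.push2 L c) (p.push2 L c) := fun a =>
  ⟨cH_inj (i.snd a).pch (fun b => (h a b).1) L c, cH_surj (p.snd a).pch (fun b => (h a b).2.1) L c,
    fun x => cH_exact (i.snd a).pch (p.snd a).pch (fun b => (h a b).2.2) L c x⟩

/-- A morphism which is bijective on all charts. -/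
theorem PB2H.bij_push2 (f : PB2H M N) (h : ∀ a b, Function.Bijective (f.f a b).f) (L : List κ)
    (c : FS κ) (a : Ch ι) : Function.Bijective ((f.push2 L c).f a).f :=
  ⟨cH_inj (f.snd a).pch (fun b => (h a b).1) L c, cH_surj (f.snd a).pch (fun b => (h a b).2) L c⟩

end Pool.Agent.MP_6e5bed_ag_PN
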