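import Pool.Agent.Lib.MP_6e5bed_ag_PN.TbL

set_option autoImplicit false
set_option linter.unusedVariables false

/-!
# MP_6e5bed_ag, THEOREM G: the external tensor product over a constant dg algebra (3.5)

`PB.ext V N` is the presheaf `V a ⊗_W N b` in two variables, and
`cB2 (V.ext N) ≅ cBR V ⊗_W cBL N` (`ext_biso`).
-/

noncomputable section

namespace Pool.Agent.MP_6e5bed_ag_PN

open Pool.Agent.MP_6e5bed_ag_NC Pool.Agent.MP_6e5bed_ag_NS

universe u

variable {k : Type u} [CommRing k] {ι κ : Type} {A : PA k ι} {B : PA k κ} {W D : DGA k}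

/-! ### Tensor products with a fixed bimodule -/

/-- The presheaf `b ↦ X ⊗_W N b`. -/
def PB.tbL (X : Bim D W) (N : PB (PA.con κ W) B) : PB (PA.con κ D) B where
  M := fun b => tb X (N.M b)
  ρ := fun {b b'} h => gT (α := DHom.id D) (γ := DHom.id W) (β := B.r h) (idr X) (N.ρ h)
  dd := fun h => gT_dd _ _ (idr_dd X) (N.dd h)
  ρ_id := fun {b} h x => gT_id (α := DHom.id D) (γ := DHom.id W) (β := B.r h) (idr X) (N.ρ h)
    (fun _ => rfl) (fun n => N.ρ_id h n) x
  ρ_ρ := fun {b b' b''} h h' x => gT_comp (α := DHom.id D) (γ := DHom.id W) (β := B.r h)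
    (α' := DHom.id D) (γ' := DHom.id W) (β' := B.r h') (α'' := DHom.id D) (γ'' := DHom.id W)
    (β'' := B.r (h.trans h')) (idr X) (N.ρ h) (idr X) (N.ρ h') (idr X) (N.ρ (h.trans h'))
    (fun _ => rfl) (fun n => N.ρ_ρ h h' n) x

theorem PB.tbL_ρ (X : Bim D W) (N : PB (PA.con κ W) B) {b b' : Ch κ} (h : b ≤ b') (x : X.M)
    (n : (N.M b).M) : ((PB.tbL X N).ρ h).f (tm x n) =
      tm (M := X) (N := N.M b') x ((N.ρ h).f n) := gT_tm (idr X) (N.ρ h) x n

/-- The presheaf `a ↦ V a ⊗_W Y`. -/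
def PB.tbR (V : PB A (PA.con ι W)) (Y : Bim W D) : PB A (PA.con ι D) where
  M := fun a => tb (V.M a) Y
  ρ := fun {a a'} h => gT (α := A.r h) (γ := DHom.id W) (β := DHom.id D) (V.ρ h) (idr Y)
  dd := fun h => gT_dd _ _ (V.dd h) (idr_dd Y)
  ρ_id := fun {a} h x => gT_id (α := A.r h) (γ := DHom.id W) (β := DHom.id D) (V.ρ h) (idr Y)
    (fun m => V.ρ_id h m) (fun _ => rfl) x
  ρ_ρ := fun {a a' a''} h h' x => gT_comp (α := A.r h) (γ := DHom.id W) (β := DHom.id D)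
    (α' := A.r h') (γ' := DHom.id W) (β' := DHom.id D) (α'' := A.r (h.trans h'))
    (γ'' := DHom.id W) (β'' := DHom.id D) (V.ρ h) (idr Y) (V.ρ h') (idr Y)
    (V.ρ (h.trans h')) (idr Y) (fun m => V.ρ_ρ h h' m) (fun _ => rfl) x

theorem PB.tbR_ρ (V : PB A (PA.con ι W)) (Y : Bim W D) {a a' : Ch ι} (h : a ≤ a')
    (m : (V.M a).M) (y : Y.M) : ((PB.tbR V Y).ρ h).f (tm m y) =
      tm (M := V.M a') (N := Y) ((V.ρ h).f m) y := gT_tm (V.ρ h) (idr Y) m y

/-- the identities -/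
def exL (X : Bim D W) (N : PB (PA.con κ W) B) : ExL X N (PB.tbL X N) where
  β := fun b => GMap.id _
  dd := fun b => LinearMap.ext GMap.dd_id
  nat := fun h x n => PB.tbL_ρ X N h x n

/-- the identities -/
def exR (V : PB A (PA.con ι W)) (Y : Bim W D) : ExR V Y (PB.tbR V Y) where
  β := fun a => GMap.id _
  dd := fun a => LinearMap.ext GMap.dd_id
  nat := fun h m y => PB.tbR_ρ V Y h m y

/-- `X ⊗_W G_r(N) = G_r(X ⊗_W N)` -/
theorem tbL_biso (X : Bim D W) (N : PB (PA.con κ W) B) (L : List κ) (c : FS κ) :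
    BIso (tb X (cBL N L c)) (cBL (PB.tbL X N) L c) :=
  BIso.of_bij ((exL X N).th L c) ((exL X N).th_dd L c)
    ((exL X N).th_bij (fun b => Function.bijective_id) L c)

/-- `G_l(V) ⊗_W Y = G_l(V ⊗_W Y)` -/
theorem tbR_biso (V : PB A (PA.con ι W)) (Y : Bim W D) (L : List ι) (c : FS ι) :
    BIso (tb (cBR V L c) Y) (cBR (PB.tbR V Y) L c) :=
  BIso.of_bij ((exR V Y).th L c) ((exR V Y).th_dd L c)
    ((exR V Y).th_bij (fun a => Function.bijective_id) L c)

/-! ### The external tensor product -/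

/-- The presheaf `V a ⊗_W N b` in two variables. -/
def PB.ext (V : PB A (PA.con ι W)) (N : PB (PA.con κ W) B) : PB2 A B where
  M := fun a b => tb (V.M a) (N.M b)
  ρ := fun {a a' b b'} h h' => gT (α := A.r h) (γ := DHom.id W) (β := B.r h') (V.ρ h) (N.ρ h')
  dd := fun h h' => gT_dd _ _ (V.dd h) (N.dd h')
  ρ_id := fun {a b} h h' x => gT_id (α := A.r h) (γ := DHom.id W) (β := B.r h') (V.ρ h)
    (N.ρ h') (fun m => V.ρ_id h m) (fun n => N.ρ_id h' n) x
  ρ_ρ := fun {a a' a'' b b' b''} h h' e e' x => gT_comp (α := A.r h) (γ := DHom.id W)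
    (β := B.r h') (α' := A.r e) (γ' := DHom.id W) (β' := B.r e') (α'' := A.r (h.trans e))
    (γ'' := DHom.id W) (β'' := B.r (h'.trans e')) (V.ρ h) (N.ρ h') (V.ρ e) (N.ρ e')
    (V.ρ (h.trans e)) (N.ρ (h'.trans e')) (fun m => V.ρ_ρ h e m) (fun n => N.ρ_ρ h' e' n) x

theorem PB.ext_ρ (V : PB A (PA.con ι W)) (N : PB (PA.con κ W) B) {a a' : Ch ι} {b b' : Ch κ}
    (h : a ≤ a') (h' : b ≤ b') (m : (V.M a).M) (n : (N.M b).M) :
    ((PB.ext V N).ρ h h').f (tm m n) =
      tm (M := V.M a') (N := N.M b') ((V.ρ h).f m) ((N.ρ h').f n) :=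
  gT_tm (V.ρ h) (N.ρ h') m n

/-- the identities -/
def ext1 (V : PB A (PA.con ι W)) (N : PB (PA.con κ W) B) (b : Ch κ) :
    ExR V (N.M b) ((PB.ext V N).fst b) where
  β := fun a => GMap.id _
  dd := fun a => LinearMap.ext GMap.dd_id
  nat := fun {a a'} h m y => by
    refine (PB.ext_ρ V N h (le_refl b) m y).trans ?_
    rw [N.ρ_id]
    rfl

/-- the restriction of `N`, as a morphism of constant presheaves -/
def PB.cn (ι : Type) (N : PB (PA.con κ W) B) {b b' : Ch κ} (h' : b ≤ b') :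
    PCH (PC.con ι (bcx (N.M b))) (PC.con ι (bcx (N.M b'))) where
  f := fun _ => gch (N.ρ h') (N.dd h')
  nat := fun _ _ => rfl

/-- the isomorphisms in the first variable -/
def ext2 (V : PB A (PA.con ι W)) (N : PB (PA.con κ W) B) (L : List ι) (c : FS ι) :
    ExL (cBR V L c) N ((PB.ext V N).push L c) where
  β := fun b => (ext1 V N b).th L c
  dd := fun b => (ext1 V N b).th_dd L c
  nat := fun {b b'} h' x n => by
    refine (congrArg (((PB.ext V N).push L c).ρ h').f ((ext1 V N b).th_tm L c x n)).trans ?_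
    refine Eq.trans ?_ ((ext1 V N b').th_tm L c x _).symm
    refine (cH_mul (p := (ext1 V N b).pp) (q := (ext1 V N b').pp) (PCH.id V.pc)
      (PB.cn ι N h') ((PB.ext V N).sn h') (fun a m y => ?_) L c x
      ((kX (bcx (N.M b)) L c).f n)).trans ?_
    · refine (PB.ext_ρ V N (le_refl a) h' m y).trans ?_
      rw [V.ρ_id]
      rfl
    · exact congrArg₂ (fun z w => ((cP (ext1 V N b').pp L).q c).m z w) (cH_id V.pc L c x)
        (kX_nat (gch (N.ρ h') (N.dd h')) (PB.cn ι N h') (fun _ _ => rfl) L c n)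

/-- `G_l(V) ⊗_W G_r(N)` is the double Čech complex of `V a ⊗_W N b`. -/
theorem ext_biso (V : PB A (PA.con ι W)) (N : PB (PA.con κ W) B) (L : List ι) (c : FS ι)
    (L' : List κ) (c' : FS κ) :
    BIso (tb (cBR V L c) (cBL N L' c')) (cB2 (PB.ext V N) L c L' c') :=
  BIso.of_bij ((ext2 V N L c).th L' c') ((ext2 V N L c).th_dd L' c')
    ((ext2 V N L c).th_bij (fun b => (ext1 V N b).th_bij (fun a => Function.bijective_id) L c)
      L' c')

/-- (3.5): `BB (X_a ⊗_W Z ⊗_W Y_b) = G_l X ⊗_W (Z ⊗_W G_r Y)` -/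
theorem ext_biso3 {W' : DGA k} (V : PB A (PA.con ι W)) (Z : Bim W W')
    (N : PB (PA.con κ W') B) (L : List ι) (c : FS ι) (L' : List κ) (c' : FS κ) :
    BIso (tb (cBR V L c) (tb Z (cBL N L' c'))) (cB2 (PB.ext V (PB.tbL Z N)) L c L' c') :=
  ((tbL (cBR V L c) (cA B L' c')).biso (tbL_biso Z N L' c')).trans
    (ext_biso V (PB.tbL Z N) L c L' c')

end Pool.Agent.MP_6e5bed_ag_PN
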