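import Pool.Agent.Lib.MP_6e5bed_ag_PN.Cx
import Pool.Agent.Lib.MP_6e5bed_ag_NC.FTb

set_option autoImplicit false
set_option linter.unusedVariables false

/-!
# MP_6e5bed_ag, THEOREM G: tensor products of maps over morphisms of dg algebras

`gT φ ψ : M ⊗_W N → M' ⊗_W' N'` for maps `φ : M → M'`, `ψ : N → N'` of degree zero over morphisms
`α : A → A'`, `γ : W → W'`, `β : B → B'` of dg algebras; and linear maps `tbf f N` for maps `f` which
are only linear over `k` and on the right over `W`.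
-/

noncomputable section

namespace Pool.Agent.MP_6e5bed_ag_PN

open Pool.Agent.MP_6e5bed_ag_NC Pool.Agent.MP_6e5bed_ag_NS

universe u

variable {k : Type u} [CommRing k] {A A' A'' W W' W'' B B' B'' : DGA k}

section gT

variable {α : DHom A A'} {γ : DHom W W'} {β : DHom B B'} {M : Bim A W} {M' : Bim A' W'}
  {N : Bim W B} {N' : Bim W' B'}

private theorem gT_bal (φ : GMap 0 M (res α γ M')) (ψ : GMap 0 N (res γ β N')) (m : M.M)
    (b : W.A) (n : N.M) : ((tmB M' N').compl₁₂ φ.f ψ.f) (M.r b m) n =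
      ((tmB M' N').compl₁₂ φ.f ψ.f) m (N.l b n) := by
  have h1 : φ.f (M.r b m) = M'.r (γ.f b) (φ.f m) := φ.map_r b m
  have h2 : ψ.f (N.l b n) = N'.l (γ.f b) (ψ.f n) := by
    have h3 := ψ.map_l b n
    rw [Dg.sp_zero] at h3
    exact h3
  have e : ∀ (x : M.M) (y : N.M), ((tmB M' N').compl₁₂ φ.f ψ.f) x y =
      tm (M := M') (N := N') (φ.f x) (ψ.f y) := fun x y => rfl
  rw [e, e, h1, h2]
  exact tm_r_l (M := M') (N := N') _ _ _

/-- the underlying linear map -/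
private def gTf (φ : GMap 0 M (res α γ M')) (ψ : GMap 0 N (res γ β N')) :
    (tb M N).M →ₗ[k] (tb M' N').M := tlift ((tmB M' N').compl₁₂ φ.f ψ.f) (gT_bal φ ψ)

private theorem gTf_tm (φ : GMap 0 M (res α γ M')) (ψ : GMap 0 N (res γ β N')) (m : M.M)
    (n : N.M) : gTf φ ψ (tm m n) = (tm (φ.f m) (ψ.f n) : (tb M' N').M) :=
  tlift_tm _ (gT_bal φ ψ) m n

private theorem gTf_deg (φ : GMap 0 M (res α γ M')) (ψ : GMap 0 N (res γ β N')) {i : ℤ}
    {x : (tb M N).M} (hx : (tb M N).dg.IsDeg i x) : (tb M' N').dg.IsDeg (i + 0) (gTf φ ψ x) := by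
  refine tb_degMap (Z := (tb M' N').dg) (n := 0) (gTf φ ψ) (fun {i j v w} hv hw => ?_) hx
  rw [gTf_tm, add_zero]
  have h1 : M'.dg.IsDeg (i + 0) (φ.f v) := φ.deg hv
  have h2 : N'.dg.IsDeg (j + 0) (ψ.f w) := ψ.deg hw
  rw [add_zero] at h1 h2
  exact tb_deg (M := M') (N := N') h1 h2

private theorem gTf_l (φ : GMap 0 M (res α γ M')) (ψ : GMap 0 N (res γ β N')) (a : A.A)
    (x : (tb M N).M) : gTf φ ψ ((tb M N).l a x) = (tb M' N').l (α.f a) (gTf φ ψ x) := by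
  refine tb_ind (P := fun x => gTf φ ψ ((tb M N).l a x) = (tb M' N').l (α.f a) (gTf φ ψ x))
    ?_ ?_ ?_ x
  · simp only [map_zero]
  · intro x y hx hy
    rw [map_add, map_add, map_add, map_add, hx, hy]
  · intro m n
    have h1 : φ.f (M.l a m) = M'.l (α.f a) (φ.f m) := by
      have h3 := φ.map_l a m
      rw [Dg.sp_zero] at h3
      exact h3
    rw [tb_l, gTf_tm, gTf_tm, tb_l, h1]

private theorem gTf_r (φ : GMap 0 M (res α γ M')) (ψ : GMap 0 N (res γ β N')) (b : B.A)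
    (x : (tb M N).M) : gTf φ ψ ((tb M N).r b x) = (tb M' N').r (β.f b) (gTf φ ψ x) := by
  refine tb_ind (P := fun x => gTf φ ψ ((tb M N).r b x) = (tb M' N').r (β.f b) (gTf φ ψ x))
    ?_ ?_ ?_ x
  · simp only [map_zero]
  · intro x y hx hy
    rw [map_add, map_add, map_add, map_add, hx, hy]
  · intro m n
    have h1 : ψ.f (N.r b n) = N'.r (β.f b) (ψ.f n) := ψ.map_r b n
    rw [tb_r, gTf_tm, gTf_tm, tb_r, h1]

/-- maps of bimodules of degree zero over morphisms of dg algebras -/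
def gmk (α : DHom A A') (β : DHom B B') {X : Bim A B} {Y : Bim A' B'} (f : X.M →ₗ[k] Y.M)
    (hd : ∀ {i : ℤ} {x : X.M}, X.dg.IsDeg i x → Y.dg.IsDeg (i + 0) (f x))
    (hl : ∀ a x, f (X.l a x) = Y.l (α.f a) (f x))
    (hr : ∀ b x, f (X.r b x) = Y.r (β.f b) (f x)) : GMap 0 X (res α β Y) where
  f := f
  deg := hd
  map_l := fun a x => by
    rw [Dg.sp_zero]
    exact hl a x
  map_r := hr

/-- The tensor product of two maps of degree zero. -/
def gT (φ : GMap 0 M (res α γ M')) (ψ : GMap 0 N (res γ β N')) :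
    GMap 0 (tb M N) (res α β (tb M' N')) :=
  gmk α β (gTf φ ψ) (gTf_deg φ ψ) (gTf_l φ ψ) (gTf_r φ ψ)

theorem gT_tm (φ : GMap 0 M (res α γ M')) (ψ : GMap 0 N (res γ β N')) (m : M.M) (n : N.M) :
    (gT φ ψ).f (tm m n) = (tm (φ.f m) (ψ.f n) : (tb M' N').M) := gTf_tm φ ψ m n

theorem gT_dd (φ : GMap 0 M (res α γ M')) (ψ : GMap 0 N (res γ β N')) (hφ : φ.dd = 0)
    (hψ : ψ.dd = 0) : (gT φ ψ).dd = 0 := by
  refine LinearMap.ext (fun x => ?_)
  rw [GMap.dd_apply, sg_zero, one_smul, LinearMap.zero_apply, sub_eq_zero]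
  change (tb M' N').dg.d (gTf φ ψ x) = gTf φ ψ ((tb M N).dg.d x)
  refine tb_ind (P := fun x => (tb M' N').dg.d (gTf φ ψ x) = gTf φ ψ ((tb M N).dg.d x))
    ?_ ?_ ?_ x
  · simp only [map_zero]
  · intro x y hx hy
    rw [map_add, map_add, map_add, map_add, hx, hy]
  · intro m n
    have h1 : M'.dg.d (φ.f m) = φ.f (M.dg.d m) := GMap.d_f_zero hφ m
    have h2 : N'.dg.d (ψ.f n) = ψ.f (N.dg.d n) := GMap.d_f_zero hψ n
    have h3 : M'.dg.s (φ.f m) = φ.f (M.dg.s m) := by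
      have h4 := GMap.s_f φ m
      rw [sg_zero, one_smul] at h4
      exact h4
    rw [gTf_tm, tb_d, tb_d, map_add, gTf_tm, gTf_tm, h1, h2, h3]

end gT

theorem gT_id {α : DHom A A} {γ : DHom W W} {β : DHom B B} {M : Bim A W} {N : Bim W B}
    (φ : GMap 0 M (res α γ M)) (ψ : GMap 0 N (res γ β N)) (h1 : ∀ m, φ.f m = m)
    (h2 : ∀ n, ψ.f n = n) (x : (tb M N).M) : (gT φ ψ).f x = x := by
  change gTf φ ψ x = x
  refine tb_ind (P := fun x => gTf φ ψ x = x) ?_ ?_ ?_ x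
  · rw [map_zero]
  · intro x y hx hy
    rw [map_add, hx, hy]
  · intro m n
    rw [gTf_tm, h1, h2]

theorem gT_comp {α : DHom A A'} {γ : DHom W W'} {β : DHom B B'} {α' : DHom A' A''}
    {γ' : DHom W' W''} {β' : DHom B' B''} {α'' : DHom A A''} {γ'' : DHom W W''}
    {β'' : DHom B B''} {M : Bim A W} {M' : Bim A' W'} {M'' : Bim A'' W''}
    {N : Bim W B} {N' : Bim W' B'} {N'' : Bim W'' B''}
    (φ : GMap 0 M (res α γ M')) (ψ : GMap 0 N (res γ β N'))
    (φ' : GMap 0 M' (res α' γ' M'')) (ψ' : GMap 0 N' (res γ' β' N''))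
    (φ'' : GMap 0 M (res α'' γ'' M'')) (ψ'' : GMap 0 N (res γ'' β'' N''))
    (h1 : ∀ m, φ'.f (φ.f m) = φ''.f m) (h2 : ∀ n, ψ'.f (ψ.f n) = ψ''.f n) (x : (tb M N).M) :
    (gT φ' ψ').f ((gT φ ψ).f x) = (gT φ'' ψ'').f x := by
  change gTf φ' ψ' (gTf φ ψ x) = gTf φ'' ψ'' x
  refine tb_ind (P := fun x => gTf φ' ψ' (gTf φ ψ x) = gTf φ'' ψ'' x) ?_ ?_ ?_ x
  · rw [map_zero, map_zero, map_zero]
  · intro x y hx hy
    rw [map_add, map_add, map_add, hx, hy]
  · intro m n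
    rw [gTf_tm, gTf_tm, gTf_tm, h1, h2]

/-- the identity, as a map to the restriction along the identities -/
def idr (M : Bim A B) : GMap 0 M (res (DHom.id A) (DHom.id B) M) where
  f := LinearMap.id
  deg := fun {i m} h => by
    rw [add_zero]
    exact h
  map_l := fun a m => by
    rw [Dg.sp_zero]
    rfl
  map_r := fun b m => rfl

theorem idr_f (M : Bim A B) (m : M.M) : (idr M).f m = m := rfl

theorem idr_dd (M : Bim A B) : (idr M).dd = 0 := by
  refine LinearMap.ext (fun x => ?_)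
  rw [GMap.dd_apply, sg_zero, one_smul, LinearMap.zero_apply, sub_eq_zero]
  rfl

/-! ### Linear maps which are only linear on the inner side -/

section tbf

variable {M : Bim A W} {M' : Bim A' W} {M'' : Bim A'' W}

/-- `f ⊗ 1` for a map `f` which is linear over `k` and over `W` on the right -/
def tbf (f : M.M →ₗ[k] M'.M) (hf : ∀ w m, f (M.r w m) = M'.r w (f m)) (N : Bim W B) :
    (tb M N).M →ₗ[k] (tb M' N).M :=
  tlift ((tmB M' N).comp f) (fun m b n => by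
    rw [LinearMap.comp_apply, LinearMap.comp_apply, hf, tmB_apply, tmB_apply, tm_r_l])

theorem tbf_tm (f : M.M →ₗ[k] M'.M) (hf : ∀ w m, f (M.r w m) = M'.r w (f m)) (N : Bim W B)
    (m : M.M) (n : N.M) : tbf f hf N (tm m n) = tm (f m) n :=
  tlift_tm _ _ m n

theorem tbf_comp (f : M.M →ₗ[k] M'.M) (hf : ∀ w m, f (M.r w m) = M'.r w (f m))
    (g : M'.M →ₗ[k] M''.M) (hg : ∀ w m, g (M'.r w m) = M''.r w (g m))
    (e : M.M →ₗ[k] M''.M) (he : ∀ w m, e (M.r w m) = M''.r w (e m))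
    (h : ∀ m, g (f m) = e m) (N : Bim W B) (x : (tb M N).M) :
    tbf g hg N (tbf f hf N x) = tbf e he N x := by
  refine tb_ind (P := fun x => tbf g hg N (tbf f hf N x) = tbf e he N x) ?_ ?_ ?_ x
  · simp only [map_zero]
  · intro x y hx hy
    rw [map_add, map_add, map_add, hx, hy]
  · intro m n
    rw [tbf_tm, tbf_tm, tbf_tm, h]

theorem tbf_id (f : M.M →ₗ[k] M.M) (hf : ∀ w m, f (M.r w m) = M.r w (f m))
    (h : ∀ m, f m = m) (N : Bim W B) (x : (tb M N).M) : tbf f hf N x = x := by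
  refine tb_ind (P := fun x => tbf f hf N x = x) ?_ ?_ ?_ x
  · rw [map_zero]
  · intro x y hx hy
    rw [map_add, hx, hy]
  · intro m n
    rw [tbf_tm, h]

theorem tbf_zero (f : M.M →ₗ[k] M'.M) (hf : ∀ w m, f (M.r w m) = M'.r w (f m))
    (h : ∀ m, f m = 0) (N : Bim W B) (x : (tb M N).M) : tbf f hf N x = 0 := by
  refine tb_ind (P := fun x => tbf f hf N x = 0) ?_ ?_ ?_ x
  · rw [map_zero]
  · intro x y hx hy
    rw [map_add, hx, hy, add_zero]
  · intro m n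
    rw [tbf_tm, h, tm_zero_left]

end tbf

section tbg

variable {N : Bim W B} {N' : Bim W B'} {N'' : Bim W B''}

/-- `m ⊗ n ↦ s^e m ⊗ g n`, for a map `g` which is linear over `k`, and over `W` on the left up to
the sign `s^e` -/
def tbg (e : ℤ) (M : Bim A W) (g : N.M →ₗ[k] N'.M)
    (hg : ∀ w n, g (N.l w n) = N'.l (W.dg.sp e w) (g n)) :
    (tb M N).M →ₗ[k] (tb M N').M :=
  tlift ((tmB M N').compl₁₂ (M.dg.sp e) g) (fun m b n => by
    rw [LinearMap.compl₁₂_apply, LinearMap.compl₁₂_apply, hg, tmB_apply, tmB_apply, M.sp_r,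
      tm_r_l])

theorem tbg_tm (e : ℤ) (M : Bim A W) (g : N.M →ₗ[k] N'.M)
    (hg : ∀ w n, g (N.l w n) = N'.l (W.dg.sp e w) (g n)) (m : M.M) (n : N.M) :
    tbg e M g hg (tm m n) = tm (M.dg.sp e m) (g n) :=
  tlift_tm _ _ m n

theorem tbg_comp {e e' : ℤ} (M : Bim A W) (g : N.M →ₗ[k] N'.M)
    (hg : ∀ w n, g (N.l w n) = N'.l (W.dg.sp e w) (g n)) (g' : N'.M →ₗ[k] N''.M)
    (hg' : ∀ w n, g' (N'.l w n) = N''.l (W.dg.sp e' w) (g' n)) (f : N.M →ₗ[k] N''.M)
    (hf : ∀ w n, f (N.l w n) = N''.l (W.dg.sp (e' + e) w) (f n))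
    (h : ∀ n, g' (g n) = f n) (x : (tb M N).M) :
    tbg e' M g' hg' (tbg e M g hg x) = tbg (e' + e) M f hf x := by
  refine tb_ind (P := fun x => tbg e' M g' hg' (tbg e M g hg x) = tbg (e' + e) M f hf x)
    ?_ ?_ ?_ x
  · simp only [map_zero]
  · intro x y hx hy
    rw [map_add, map_add, map_add, hx, hy]
  · intro m n
    rw [tbg_tm, tbg_tm, tbg_tm, h, Dg.sp_add]

theorem tbg_id {e : ℤ} (he : Even e) (M : Bim A W) (g : N.M →ₗ[k] N.M)
    (hg : ∀ w n, g (N.l w n) = N.l (W.dg.sp e w) (g n)) (h : ∀ n, g n = n)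
    (x : (tb M N).M) : tbg e M g hg x = x := by
  refine tb_ind (P := fun x => tbg e M g hg x = x) ?_ ?_ ?_ x
  · rw [map_zero]
  · intro x y hx hy
    rw [map_add, hx, hy]
  · intro m n
    rw [tbg_tm, h, Dg.sp_even he]

theorem tbg_zero {e : ℤ} (M : Bim A W) (g : N.M →ₗ[k] N'.M)
    (hg : ∀ w n, g (N.l w n) = N'.l (W.dg.sp e w) (g n)) (h : ∀ n, g n = 0)
    (x : (tb M N).M) : tbg e M g hg x = 0 := by
  refine tb_ind (P := fun x => tbg e M g hg x = 0) ?_ ?_ ?_ x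
  · rw [map_zero]
  · intro x y hx hy
    rw [map_add, hx, hy, add_zero]
  · intro m n
    rw [tbg_tm, h, tm_zero_right]

end tbg

end Pool.Agent.MP_6e5bed_ag_PN
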