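import Mathlib

set_option autoImplicit false

/-!
# MP_6e5bed_ag, THEOREM G: finitely generated subquotients of modules with an action of a
commutative Noetherian ring (section 4.4)

`D` is a commutative `k`-algebra which acts on the `k`-module `V` by `φ : D →ₐ[k] End V`; no
`D`-module structure is put on `V`.
-/

namespace Pool.Agent.MP_6e5bed_ag_PN

universe u v

variable {k : Type u} [CommRing k] {D : Type v} [CommRing D] [Algebra k D]
  {U V W : Type u} [AddCommGroup U] [Module k U] [AddCommGroup V] [Module k V]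
  [AddCommGroup W] [Module k W]

/-- `Z / B` is a finitely generated `D`-module: there are finitely many elements of `Z` such that
every element of `Z` is a `D`-linear combination of them, modulo `B`. -/
def FGq (φ : D →ₐ[k] Module.End k V) (Z B : Submodule k V) : Prop :=
  ∃ (n : ℕ) (s : Fin n → V), (∀ i, s i ∈ Z) ∧
    ∀ x ∈ Z, ∃ r : Fin n → D, x - ∑ i, φ (r i) (s i) ∈ B

/-- stable under the action of `D` -/
def Stb (φ : D →ₐ[k] Module.End k V) (Z : Submodule k V) : Prop :=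
  ∀ (r : D) x, x ∈ Z → φ r x ∈ Z

variable {φU : D →ₐ[k] Module.End k U} {φ : D →ₐ[k] Module.End k V}
  {φW : D →ₐ[k] Module.End k W} {ZU BU : Submodule k U} {Z B : Submodule k V}
  {ZW BW : Submodule k W}

theorem Stb.sum {Z : Submodule k V} (h : Stb φ Z) {n : ℕ} {s : Fin n → V} (hs : ∀ i, s i ∈ Z)
    (r : Fin n → D) : ∑ i, φ (r i) (s i) ∈ Z :=
  Submodule.sum_mem _ fun i _ => h _ _ (hs i)

/-- The zero module. -/
theorem FGq.of_le (h : Z ≤ B) : FGq φ Z B :=
  ⟨0, Fin.elim0, fun i => i.elim0, fun x hx => ⟨Fin.elim0, by simpa using h hx⟩⟩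

/-- an arbitrary finite index set -/
theorem FGq.of_fintype {I : Type*} [Fintype I] (s : I → V) (hs : ∀ i, s i ∈ Z)
    (h : ∀ x ∈ Z, ∃ r : I → D, x - ∑ i, φ (r i) (s i) ∈ B) : FGq φ Z B := by
  refine ⟨Fintype.card I, fun j => s ((Fintype.equivFin I).symm j), fun _ => hs _, fun x hx => ?_⟩
  obtain ⟨r, hr⟩ := h x hx
  refine ⟨fun j => r ((Fintype.equivFin I).symm j), ?_⟩
  rw [Equiv.sum_comp (Fintype.equivFin I).symm (fun i => φ (r i) (s i))]
  exact hr

/-- Quotients. -/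
theorem FGq.of_surj (f : U →ₗ[k] V) (hf : ∀ r x, f (φU r x) = φ r (f x))
    (hZ : ∀ x ∈ ZU, f x ∈ Z) (hB : ∀ x ∈ BU, f x ∈ B)
    (hs : ∀ y ∈ Z, ∃ x ∈ ZU, y - f x ∈ B) (h : FGq φU ZU BU) : FGq φ Z B := by
  obtain ⟨n, s, hs1, hs2⟩ := h
  refine ⟨n, fun i => f (s i), fun i => hZ _ (hs1 i), fun y hy => ?_⟩
  obtain ⟨x, hx, hx'⟩ := hs y hy
  obtain ⟨r, hr⟩ := hs2 x hx
  refine ⟨r, ?_⟩
  have h1 : y - ∑ i, φ (r i) (f (s i)) = (y - f x) + f (x - ∑ i, φU (r i) (s i)) := by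
    rw [map_sub, map_sum]
    simp only [hf]
    abel
  rw [h1]
  exact B.add_mem hx' (hB _ hr)

/-- If `U → V → W` is exact (where the maps are relations `F`, `G`) and the subquotients of `U`
and `W` are finitely generated, then so is the one of `V`. -/
theorem FGq.exact' [IsNoetherianRing D] (F : U → V → Prop)
    (hFa : ∀ x x' y y', F x y → F x' y' → F (x + x') (y + y'))
    (hFs : ∀ (r : D) x y, F x y → F (φU r x) (φ r y))
    (hF1 : ∀ x ∈ ZU, ∃ y ∈ Z, F x y) (hF2 : ∀ x y, x ∈ BU → y ∈ Z → F x y → y ∈ B)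
    (hZ : Stb φ Z)
    (hBW : Stb φW BW) (G : V → W → Prop) (hG0 : G 0 0)
    (hGa : ∀ y y' w w', G y w → G y' w' → G (y + y') (w + w'))
    (hGs : ∀ (r : D) y w, G y w → G (φ r y) (φW r w))
    (h1 : ∀ y ∈ Z, ∃ w ∈ ZW, G y w)
    (h2 : ∀ y w, y ∈ Z → w ∈ BW → G y w → ∃ x ∈ ZU, ∃ y' ∈ Z, F x y' ∧ y - y' ∈ B)
    (hU : FGq φU ZU BU) (hW : FGq φW ZW BW) : FGq φ Z B := by
  obtain ⟨n, s, hs1, hs2⟩ := hU
  obtain ⟨m, t, ht1, ht2⟩ := hW
  choose s' hs1' hs2' using fun i => hF1 (s i) (hs1 i)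
  have hsum : ∀ {V W : Type u} [AddCommGroup V] [Module k V] [AddCommGroup W] [Module k W]
      {φ : D →ₐ[k] Module.End k V} {φW : D →ₐ[k] Module.End k W} (G : V → W → Prop)
      (_ : ∀ y y' w w', G y w → G y' w' → G (y + y') (w + w'))
      (_ : ∀ (r : D) y w, G y w → G (φ r y) (φW r w)) (v : V) (w : W) (_ : G v w)
      {I : Type} (S : Finset I) (c : I → D) (y : I → V) (z : I → W),
      (∀ i ∈ S, G (y i) (z i)) →
        G (v + ∑ i ∈ S, φ (c i) (y i)) (w + ∑ i ∈ S, φW (c i) (z i)) := by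
    classical
    intro V W _ _ _ _ φ φW G hGa hGs v w hvw I S
    induction S using Finset.induction_on with
    | empty => intro c y w _; simpa using hvw
    | insert a S ha ih =>
      intro c y z h
      rw [Finset.sum_insert ha, Finset.sum_insert ha, add_left_comm, add_left_comm w]
      exact hGa _ _ _ _ (hGs _ _ _ (h a (Finset.mem_insert_self a S)))
        (ih c y z fun i hi => h i (Finset.mem_insert_of_mem hi))
  let N : Submodule D (Fin m → D) :=
    { carrier := {r | ∃ y ∈ Z, ∃ w, G y w ∧ w - ∑ i, φW (r i) (t i) ∈ BW}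
      zero_mem' := ⟨0, Z.zero_mem, 0, hG0, by simp⟩
      add_mem' := by
        rintro r r' ⟨y, hy, w, hw, hw'⟩ ⟨y', hy', w', hw1, hw1'⟩
        refine ⟨y + y', Z.add_mem hy hy', w + w', hGa _ _ _ _ hw hw1, ?_⟩
        have e : w + w' - ∑ i, φW ((r + r') i) (t i) =
            (w - ∑ i, φW (r i) (t i)) + (w' - ∑ i, φW (r' i) (t i)) := by
          simp only [Pi.add_apply, map_add, LinearMap.add_apply, Finset.sum_add_distrib]
          abel
        rw [e]
        exact BW.add_mem hw' hw1'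
      smul_mem' := by
        rintro c r ⟨y, hy, w, hw, hw'⟩
        refine ⟨φ c y, hZ c y hy, φW c w, hGs c _ _ hw, ?_⟩
        have e : φW c w - ∑ i, φW ((c • r) i) (t i) = φW c (w - ∑ i, φW (r i) (t i)) := by
          simp only [Pi.smul_apply, smul_eq_mul, map_mul, map_sub, map_sum,
            Module.End.mul_apply]
        rw [e]
        exact hBW c _ hw' }
  obtain ⟨p, T, hT⟩ := Submodule.fg_iff_exists_fin_generating_family.1
    ((isNoetherian_def.1 (inferInstance : IsNoetherian D (Fin m → D))) N)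
  have hTN : ∀ a : Fin p, T a ∈ N := fun a => by
    rw [← hT]
    exact Submodule.subset_span ⟨a, rfl⟩
  choose yy hyy ww hww hww' using hTN
  refine FGq.of_fintype (I := Fin n ⊕ Fin p) (Sum.elim s' yy) ?_ ?_
  · rintro (i | a)
    · exact hs1' i
    · exact hyy a
  · intro y hy
    obtain ⟨w, hw, hw'⟩ := h1 y hy
    obtain ⟨r, hr⟩ := ht2 w hw
    have hrN : r ∈ N := ⟨y, hy, w, hw', hr⟩
    rw [← hT] at hrN
    obtain ⟨c, hc⟩ := (Submodule.mem_span_range_iff_exists_fun D).1 hrN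
    have hG1 : G (y + ∑ a, φ (-c a) (yy a)) (w + ∑ a, φW (-c a) (ww a)) :=
      hsum G hGa hGs y w hw' _ _ _ _ fun a _ => hww a
    have hZ1 : y + ∑ a, φ (-c a) (yy a) ∈ Z :=
      Z.add_mem hy (Submodule.sum_mem _ fun a _ => hZ _ _ (hyy a))
    have hB1 : w + ∑ a, φW (-c a) (ww a) ∈ BW := by
      have e : w + ∑ a, φW (-c a) (ww a) = (w - ∑ i, φW (r i) (t i)) +
          ∑ a, φW (-c a) (ww a - ∑ i, φW (T a i) (t i)) := by
        have e1 : ∑ a, φW (-c a) (∑ i, φW (T a i) (t i)) = - ∑ i, φW (r i) (t i) := by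
          rw [← hc, ← Finset.sum_neg_distrib]
          simp only [map_sum]
          rw [Finset.sum_comm]
          refine Finset.sum_congr rfl fun i _ => ?_
          simp only [Finset.sum_apply, Pi.smul_apply, smul_eq_mul, map_sum, LinearMap.sum_apply,
            map_neg, LinearMap.neg_apply, map_mul, Module.End.mul_apply,
            Finset.sum_neg_distrib]
        simp only [map_sub, Finset.sum_sub_distrib]
        rw [e1]
        abel
      rw [e]
      exact BW.add_mem hr (Submodule.sum_mem _ fun a _ => hBW _ _ (hww' a))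
    obtain ⟨x, hx, y', hy', hF, hB'⟩ := h2 _ _ hZ1 hB1 hG1
    obtain ⟨q, hq⟩ := hs2 x hx
    have hq' : y' + ∑ i, φ (-q i) (s' i) ∈ B := by
      refine hF2 _ _ ?_ (Z.add_mem hy' (Submodule.sum_mem _ fun i _ => hZ _ _ (hs1' i)))
        (hsum F hFa hFs x y' hF Finset.univ (fun i => -q i) s s' fun i _ => hs2' i)
      simp only [map_neg, LinearMap.neg_apply, Finset.sum_neg_distrib]
      rwa [← sub_eq_add_neg]
    refine ⟨Sum.elim q c, ?_⟩
    have e : y - ∑ i : Fin n ⊕ Fin p, φ (Sum.elim q c i) (Sum.elim s' yy i) =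
        (y + ∑ a, φ (-c a) (yy a) - y') + (y' + ∑ i, φ (-q i) (s' i)) := by
      rw [Fintype.sum_sum_type]
      simp only [Sum.elim_inl, Sum.elim_inr, map_neg, LinearMap.neg_apply,
        Finset.sum_neg_distrib]
      abel
    rw [e]
    exact B.add_mem hB' hq'

/-- If `U → V → W` is exact (where `V → W` is a relation `G`) and the subquotients of `U` and `W`
are finitely generated, then so is the one of `V`. -/
theorem FGq.exact [IsNoetherianRing D] (f : U →ₗ[k] V) (hf : ∀ r x, f (φU r x) = φ r (f x))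
    (hfZ : ∀ x ∈ ZU, f x ∈ Z) (hfB : ∀ x ∈ BU, f x ∈ B) (hZ : Stb φ Z)
    (hBW : Stb φW BW) (G : V → W → Prop) (hG0 : G 0 0)
    (hGa : ∀ y y' w w', G y w → G y' w' → G (y + y') (w + w'))
    (hGs : ∀ (r : D) y w, G y w → G (φ r y) (φW r w))
    (h1 : ∀ y ∈ Z, ∃ w ∈ ZW, G y w)
    (h2 : ∀ y w, y ∈ Z → w ∈ BW → G y w → ∃ x ∈ ZU, y - f x ∈ B)
    (hU : FGq φU ZU BU) (hW : FGq φW ZW BW) : FGq φ Z B := by
  refine FGq.exact' (fun x y => f x = y) ?_ ?_ (fun x hx => ⟨f x, hfZ x hx, rfl⟩) ?_ hZ hBW G hG0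
    hGa hGs h1 ?_ hU hW
  · rintro x x' _ _ rfl rfl
    exact map_add _ _ _
  · rintro r x _ rfl
    exact hf r x
  · rintro x _ hx _ rfl
    exact hfB x hx
  · intro y w hy hw h
    obtain ⟨x, hx, hx'⟩ := h2 y w hy hw h
    exact ⟨x, hx, f x, hfZ x hx, rfl, hx'⟩

/-- Isomorphic subquotients. -/
theorem FGq.of_inj (f : U →ₗ[k] V) (hf : ∀ r x, f (φU r x) = φ r (f x))
    (hZ : ∀ x ∈ ZU, f x ∈ Z) (hB : ∀ x ∈ ZU, f x ∈ B → x ∈ BU) (hZU : Stb φU ZU)
    (hBs : Stb φ B) (hs : ∀ y ∈ Z, ∃ x ∈ ZU, y - f x ∈ B) (h : FGq φ Z B) :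
    FGq φU ZU BU := by
  obtain ⟨n, s, hs1, hs2⟩ := h
  choose s' hs1' hs2' using fun i => hs (s i) (hs1 i)
  refine ⟨n, s', hs1', fun x hx => ?_⟩
  obtain ⟨r, hr⟩ := hs2 (f x) (hZ x hx)
  refine ⟨r, hB _ (ZU.sub_mem hx (hZU.sum hs1' r)) ?_⟩
  have e : f (x - ∑ i, φU (r i) (s' i)) = (f x - ∑ i, φ (r i) (s i)) +
      ∑ i, φ (r i) (s i - f (s' i)) := by
    rw [map_sub, map_sum]
    simp only [map_sub, hf, Finset.sum_sub_distrib]
    abel
  rw [e]
  exact B.add_mem hr (hBs.sum hs2' r)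

/-- Direct summands. -/
theorem FGq.of_retract (f : U →ₗ[k] V) (g : V →ₗ[k] U) (hg : ∀ r x, g (φ r x) = φU r (g x))
    (hfZ : ∀ x ∈ ZU, f x ∈ Z) (hgZ : ∀ x ∈ Z, g x ∈ ZU) (hgB : ∀ x ∈ B, g x ∈ BU)
    (hgf : ∀ x ∈ ZU, x - g (f x) ∈ BU) (h : FGq φ Z B) : FGq φU ZU BU :=
  FGq.of_surj g hg hgZ hgB (fun y hy => ⟨f y, hfZ y hy, hgf y hy⟩) h

/-- Change of rings. -/
theorem FGq.of_comp {D' : Type*} [CommRing D'] [Algebra k D'] (ψ : D →ₐ[k] D')
    {φ' : D' →ₐ[k] Module.End k V} (h : ∀ r x, φ' (ψ r) x = φ r x) (hD : FGq φ Z B) :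
    FGq φ' Z B := by
  obtain ⟨n, s, hs1, hs2⟩ := hD
  refine ⟨n, s, hs1, fun x hx => ?_⟩
  obtain ⟨r, hr⟩ := hs2 x hx
  exact ⟨fun i => ψ (r i), by simpa only [h] using hr⟩

/-- Change of rings for a surjective homomorphism. -/
theorem FGq.of_comp_surj {D' : Type*} [CommRing D'] [Algebra k D'] (ψ : D →ₐ[k] D')
    (hψ : Function.Surjective ψ) {φ' : D' →ₐ[k] Module.End k V}
    (h : ∀ r x, φ' (ψ r) x = φ r x) (hD : FGq φ' Z B) : FGq φ Z B := by
  obtain ⟨n, s, hs1, hs2⟩ := hD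
  refine ⟨n, s, hs1, fun x hx => ?_⟩
  obtain ⟨r, hr⟩ := hs2 x hx
  choose q hq using fun i => hψ (r i)
  refine ⟨q, ?_⟩
  have e : ∀ i, φ (q i) (s i) = φ' (r i) (s i) := fun i => by rw [← h, hq]
  simpa only [e] using hr

/-- Union of finitely many families. -/
theorem FGq.of_iSup {I : Type*} [Fintype I] (Z' : I → Submodule k V) (hZ' : ∀ i, Z' i ≤ Z)
    (hsum : ∀ x ∈ Z, ∃ y : I → V, (∀ i, y i ∈ Z' i) ∧ x - ∑ i, y i ∈ B)
    (h : ∀ i, FGq φ (Z' i) B) : FGq φ Z B := by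
  choose n s hs1 hs2 using h
  refine FGq.of_fintype (I := Σ i, Fin (n i)) (fun q => s q.1 q.2) (fun q => hZ' _ (hs1 _ _)) ?_
  intro x hx
  obtain ⟨y, hy, hy'⟩ := hsum x hx
  choose r hr using fun i => hs2 i (y i) (hy i)
  refine ⟨fun q => r q.1 q.2, ?_⟩
  rw [Fintype.sum_sigma]
  have e : x - ∑ i, ∑ j, φ (r i j) (s i j) = (x - ∑ i, y i) +
      ∑ i, (y i - ∑ j, φ (r i j) (s i j)) := by
    rw [Finset.sum_sub_distrib]
    abel
  rw [e]
  exact B.add_mem hy' (Submodule.sum_mem _ fun i _ => hr i)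

/-- In terms of modules. -/
theorem FGq.iff_fg {E : Type u} [AddCommGroup E] [Module k E] [Module D E] [IsScalarTower k D E]
    {φ : D →ₐ[k] Module.End k E} (h : ∀ r x, φ r x = r • x) (Z B : Submodule D E) :
    FGq φ (Z.restrictScalars k) (B.restrictScalars k) ↔
      Module.Finite D (Z ⧸ B.comap Z.subtype) := by
  constructor
  · rintro ⟨n, s, hs1, hs2⟩
    refine ⟨Submodule.fg_iff_exists_fin_generating_family.2
      ⟨n, fun i => Submodule.Quotient.mk ⟨s i, hs1 i⟩, ?_⟩⟩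
    refine eq_top_iff.2 fun q _ => ?_
    obtain ⟨⟨x, hx⟩, rfl⟩ := Submodule.mkQ_surjective _ q
    obtain ⟨r, hr⟩ := hs2 x hx
    rw [Submodule.mem_span_range_iff_exists_fun]
    refine ⟨r, ?_⟩
    rw [← sub_eq_zero, ← neg_eq_zero, neg_sub, Submodule.mkQ_apply]
    have e : (∑ i, r i • (Submodule.Quotient.mk ⟨s i, hs1 i⟩ : Z ⧸ B.comap Z.subtype)) =
        Submodule.Quotient.mk (∑ i, r i • (⟨s i, hs1 i⟩ : Z)) := by
      rw [← Submodule.mkQ_apply, map_sum]
      rfl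
    rw [e, ← Submodule.Quotient.mk_sub, Submodule.Quotient.mk_eq_zero, Submodule.mem_comap]
    have e2 : Z.subtype ((⟨x, hx⟩ : Z) - ∑ i, r i • (⟨s i, hs1 i⟩ : Z)) =
        x - ∑ i, φ (r i) (s i) := by
      rw [map_sub, map_sum]
      simp only [h, map_smul]
      rfl
    rw [e2]
    exact hr
  · intro hf
    obtain ⟨n, s, hs⟩ := Submodule.fg_iff_exists_fin_generating_family.1 hf.fg_top
    choose s' hs' using fun i => Submodule.mkQ_surjective (B.comap Z.subtype) (s i)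
    refine ⟨n, fun i => (s' i : E), fun i => (s' i).2, fun x hx => ?_⟩
    have h1 : Submodule.mkQ (B.comap Z.subtype) ⟨x, hx⟩ ∈
        Submodule.span D (Set.range s) := by
      rw [hs]
      exact Submodule.mem_top
    obtain ⟨r, hr⟩ := (Submodule.mem_span_range_iff_exists_fun D).1 h1
    refine ⟨r, ?_⟩
    have h2 : Submodule.mkQ (B.comap Z.subtype) ((⟨x, hx⟩ : Z) - ∑ i, r i • s' i) = 0 := by
      rw [map_sub, map_sum, sub_eq_zero, ← hr]
      refine Finset.sum_congr rfl fun i _ => ?_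
      rw [map_smul, hs']
    rw [Submodule.mkQ_apply, Submodule.Quotient.mk_eq_zero, Submodule.mem_comap] at h2
    have e2 : Z.subtype ((⟨x, hx⟩ : Z) - ∑ i, r i • s' i) = x - ∑ i, φ (r i) (s' i : E) := by
      rw [map_sub, map_sum]
      simp only [h, map_smul]
      rfl
    rw [e2] at h2
    exact h2

end Pool.Agent.MP_6e5bed_ag_PN
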