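import Pool.Agent.Lib.MP_6e5bed_ag_NS.Cx
import Pool.Agent.Lib.MP_6e5bed_ag_PN.FGq

set_option autoImplicit false

/-!
# MP_6e5bed_ag, THEOREM G: complexes with an action of a commutative ring (section 4.4)
-/

noncomputable section

namespace Pool.Agent.MP_6e5bed_ag_PN

open Pool.Agent.MP_6e5bed_ag_NC Pool.Agent.MP_6e5bed_ag_NS

universe u v

variable {k : Type u} [CommRing k]

/-- An action of the commutative algebra `D` on a complex. -/
structure DAct (D : Type v) [CommRing D] [Algebra k D] (X : Cx k) where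
  φ : D →ₐ[k] Module.End k X.V
  deg : ∀ {j : ℤ} (r : D) {x : X.V}, X.dg.IsDeg j x → X.dg.IsDeg j (φ r x)
  d : ∀ (r : D) (x : X.V), X.dg.d (φ r x) = φ r (X.dg.d x)

/-- the cocycles of degree `j` -/
def Zc (X : Cx k) (j : ℤ) : Submodule k X.V where
  carrier := {x | X.dg.IsDeg j x ∧ X.dg.d x = 0}
  zero_mem' := ⟨Dg.IsDeg.zero _, map_zero _⟩
  add_mem' := fun ⟨h1, h2⟩ ⟨h3, h4⟩ => ⟨h1.add h3, by rw [map_add, h2, h4, add_zero]⟩
  smul_mem' := fun c _ ⟨h1, h2⟩ => ⟨h1.smul c, by rw [map_smul, h2, smul_zero]⟩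

theorem mem_Zc {X : Cx k} {j : ℤ} {x : X.V} : x ∈ Zc X j ↔ X.dg.IsDeg j x ∧ X.dg.d x = 0 :=
  Iff.rfl

variable {D : Type v} [CommRing D] [Algebra k D] {X Y W : Cx k}

/-- The cohomology in degree `j` is finitely generated. -/
def DAct.FG (a : DAct D X) (j : ℤ) : Prop := FGq a.φ (Zc X j) (LinearMap.range X.dg.d)

/-- The total cohomology is finitely generated. -/
def DAct.FGt (a : DAct D X) : Prop := FGq a.φ (LinearMap.ker X.dg.d) (LinearMap.range X.dg.d)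

/-- equivariant morphisms -/
def DAct.Eqv (a : DAct D X) (b : DAct D Y) (f : CHom X Y) : Prop :=
  ∀ r x, f.f (a.φ r x) = b.φ r (f.f x)

theorem DAct.stb_Z (a : DAct D X) (j : ℤ) : Stb a.φ (Zc X j) := fun r x hx =>
  ⟨a.deg r hx.1, by rw [a.d, hx.2, map_zero]⟩

theorem DAct.stb_ker (a : DAct D X) : Stb a.φ (LinearMap.ker X.dg.d) := fun r x hx => by
  rw [LinearMap.mem_ker] at hx ⊢
  rw [a.d, hx, map_zero]

theorem DAct.stb_range (a : DAct D X) : Stb a.φ (LinearMap.range X.dg.d) := by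
  rintro r _ ⟨x, rfl⟩
  exact ⟨a.φ r x, a.d r x⟩

/-- the component of degree `j` -/
theorem ρ_hom (f : CHom X Y) (x : X.V) (j : ℤ) : Y.dg.ρ (f.f x) j = f.f (X.dg.ρ x j) := by
  have h := (Dg.degMap_iff (X := X.dg) (Y := Y.dg) (n := 0) f.f).1
    (fun j v hv => by rw [add_zero]; exact f.deg hv) x j
  rwa [add_zero] at h

/-- the component of degree `j` of a boundary -/
theorem ρ_d' (X : Cx k) (x : X.V) (j : ℤ) : X.dg.ρ (X.dg.d x) j = X.dg.d (X.dg.ρ x (j - 1)) := by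
  have h := X.dg.ρ_d x (j - 1)
  rwa [sub_add_cancel] at h

theorem ρ_self {X : Cx k} {x : X.V} {j : ℤ} (h : X.dg.IsDeg j x) : X.dg.ρ x j = x := by
  have h' : X.dg.ρ x = Finsupp.single j x := h
  rw [h', Finsupp.single_eq_same]

theorem ρ_cocyc (X : Cx k) {x : X.V} (h : X.dg.d x = 0) (j : ℤ) : X.dg.ρ x j ∈ Zc X j := by
  refine ⟨Dg.isDeg_ρ _ _, ?_⟩
  rw [← X.dg.ρ_d, h, map_zero, Finsupp.zero_apply]

/-- a boundary of degree `j` is the boundary of an element of degree `j - 1` -/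
theorem exists_deg_d {X : Cx k} {x y : X.V} {j : ℤ} (h : X.dg.IsDeg j x) (hy : X.dg.d y = x) :
    ∃ z, X.dg.IsDeg (j - 1) z ∧ X.dg.d z = x :=
  ⟨X.dg.ρ y (j - 1), Dg.isDeg_ρ _ _, by rw [← ρ_d', hy, ρ_self h]⟩

/-- a preimage of degree `j` -/
theorem exists_deg_hom {f : CHom X Y} {y : Y.V} {j : ℤ} (hf : ∃ x, f.f x = y)
    (h : Y.dg.IsDeg j y) : ∃ x, X.dg.IsDeg j x ∧ f.f x = y := by
  obtain ⟨x, hx⟩ := hf
  exact ⟨X.dg.ρ x j, Dg.isDeg_ρ _ _, by rw [← ρ_hom, hx, ρ_self h]⟩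

/-- Vanishing. -/
theorem DAct.FG.of_zero (a : DAct D X) {j : ℤ} (h : ∀ x, X.dg.IsDeg j x → x = 0) : a.FG j :=
  FGq.of_le fun x hx => by
    rw [h x hx.1]
    exact Submodule.zero_mem _

theorem DAct.FG.of_acyc (a : DAct D X) (h : ∀ x, X.dg.d x = 0 → ∃ y, X.dg.d y = x) (j : ℤ) :
    a.FG j := FGq.of_le fun x hx => h x hx.2

theorem DAct.FGt.of_acyc (a : DAct D X) (h : ∀ x, X.dg.d x = 0 → ∃ y, X.dg.d y = x) :
    a.FGt := FGq.of_le fun x hx => h x hx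

section exact

variable {i : CHom W X} {p : CHom X Y} {a : DAct D W} {b : DAct D X} {c : DAct D Y}

/-- The middle term of a short exact sequence. -/
theorem DAct.FG.mid [IsNoetherianRing D] (hi : Function.Injective i.f)
    (hp : Function.Surjective p.f) (hex : ∀ x, p.f x = 0 ↔ ∃ y, i.f y = x)
    (hai : a.Eqv b i) (hbp : b.Eqv c p) {j : ℤ} (ha : a.FG j) (hc : c.FG j) : b.FG j := by
  refine FGq.exact (G := fun y w => p.f y = w) i.f hai ?_ ?_ (b.stb_Z j) c.stb_range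
    (map_zero _) ?_ ?_ ?_ ?_ ha hc
  · exact fun x hx => ⟨i.deg hx.1, by rw [i.d, hx.2, map_zero]⟩
  · rintro _ ⟨x, rfl⟩
    exact ⟨i.f x, i.d x⟩
  · rintro y y' w w' rfl rfl
    exact map_add _ _ _
  · rintro r y w rfl
    exact hbp r y
  · exact fun y hy => ⟨p.f y, ⟨p.deg hy.1, by rw [p.d, hy.2, map_zero]⟩, rfl⟩
  · rintro y w hy ⟨z, hz⟩ hw
    subst hw
    obtain ⟨z', hz', hz1⟩ := exists_deg_d (p.deg hy.1) hz
    obtain ⟨x, hx, hx'⟩ := exists_deg_hom (hp z') hz'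
    have hxd : X.dg.IsDeg j (X.dg.d x) := by
      have := hx.d
      rwa [sub_add_cancel] at this
    obtain ⟨u, hud, hu⟩ := exists_deg_hom ((hex (y - X.dg.d x)).1
      (by rw [map_sub, ← p.d, hx', hz1, sub_self])) (hy.1.sub hxd)
    refine ⟨u, ⟨hud, hi ?_⟩, ?_⟩
    · rw [← i.d, hu, map_sub, hy.2, X.dg.d_d, sub_zero, map_zero]
    · rw [hu, sub_sub_cancel]
      exact ⟨x, rfl⟩

/-- The right term of a short exact sequence. -/
theorem DAct.FG.right [IsNoetherianRing D] (hi : Function.Injective i.f)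
    (hp : Function.Surjective p.f) (hex : ∀ x, p.f x = 0 ↔ ∃ y, i.f y = x)
    (hai : a.Eqv b i) (hbp : b.Eqv c p) {j : ℤ} (hb : b.FG j) (ha : a.FG (j + 1)) : c.FG j := by
  refine FGq.exact (G := fun y w => ∃ x, X.dg.IsDeg j x ∧ p.f x = y ∧ i.f w = X.dg.d x) p.f hbp
    ?_ ?_ (c.stb_Z j) a.stb_range ⟨0, Dg.IsDeg.zero _, map_zero _, by rw [map_zero, map_zero]⟩
    ?_ ?_ ?_ ?_ hb ha
  · exact fun x hx => ⟨p.deg hx.1, by rw [p.d, hx.2, map_zero]⟩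
  · rintro _ ⟨x, rfl⟩
    exact ⟨p.f x, p.d x⟩
  · rintro y y' w w' ⟨x, hx, h1, h2⟩ ⟨x', hx', h1', h2'⟩
    exact ⟨x + x', hx.add hx', by rw [map_add, h1, h1'], by rw [map_add, map_add, h2, h2']⟩
  · rintro r y w ⟨x, hx, h1, h2⟩
    exact ⟨b.φ r x, b.deg r hx, by rw [hbp, h1], by rw [hai, h2, b.d]⟩
  · rintro y hy
    obtain ⟨x, hx, rfl⟩ := exists_deg_hom (hp y) hy.1
    obtain ⟨w, hw, hw'⟩ := exists_deg_hom ((hex (X.dg.d x)).1 (by rw [← p.d, hy.2])) hx.d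
    exact ⟨w, ⟨hw, hi (by rw [← i.d, hw', X.dg.d_d, map_zero])⟩, x, hx, rfl, hw'⟩
  · rintro y _ hy ⟨z, rfl⟩ ⟨x, hx, rfl, h2⟩
    have h3 : W.dg.IsDeg (j + 1) (W.dg.d z) := by
      obtain ⟨w, hw, hw'⟩ := exists_deg_hom ⟨_, h2⟩ hx.d
      have h4 : w = W.dg.d z := hi (hw'.trans h2.symm)
      rwa [← h4]
    obtain ⟨z', hz', hz1⟩ := exists_deg_d h3 rfl
    rw [add_sub_cancel_right] at hz'
    refine ⟨x - i.f z', ⟨hx.sub (i.deg hz'), ?_⟩, ?_⟩
    · rw [map_sub, i.d, hz1, h2, sub_self]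
    · rw [map_sub, (hex (i.f z')).2 ⟨z', rfl⟩, sub_zero, sub_self]
      exact Submodule.zero_mem _

/-- The left term of a short exact sequence. -/
theorem DAct.FG.left [IsNoetherianRing D] (hi : Function.Injective i.f)
    (hp : Function.Surjective p.f) (hex : ∀ x, p.f x = 0 ↔ ∃ y, i.f y = x)
    (hai : a.Eqv b i) (hbp : b.Eqv c p) {j : ℤ} (hc : c.FG (j - 1)) (hb : b.FG j) : a.FG j := by
  refine FGq.exact' (fun y w => ∃ x, X.dg.IsDeg (j - 1) x ∧ p.f x = y ∧ i.f w = X.dg.d x)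
    ?_ ?_ ?_ ?_ (a.stb_Z j) b.stb_range (fun y w => i.f y = w) (map_zero _) ?_ ?_ ?_ ?_ hc hb
  · rintro y y' w w' ⟨x, hx, h1, h2⟩ ⟨x', hx', h1', h2'⟩
    exact ⟨x + x', hx.add hx', by rw [map_add, h1, h1'], by rw [map_add, map_add, h2, h2']⟩
  · rintro r y w ⟨x, hx, h1, h2⟩
    exact ⟨b.φ r x, b.deg r hx, by rw [hbp, h1], by rw [hai, h2, b.d]⟩
  · rintro y hy
    obtain ⟨x, hx, rfl⟩ := exists_deg_hom (hp y) hy.1
    have hxd : X.dg.IsDeg j (X.dg.d x) := by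
      have := hx.d
      rwa [sub_add_cancel] at this
    obtain ⟨w, hw, hw'⟩ := exists_deg_hom ((hex (X.dg.d x)).1 (by rw [← p.d, hy.2])) hxd
    exact ⟨w, ⟨hw, hi (by rw [← i.d, hw', X.dg.d_d, map_zero])⟩, x, hx, rfl, hw'⟩
  · rintro _ w ⟨z, rfl⟩ hw ⟨x, hx, h1, h2⟩
    obtain ⟨z', hz', hz1⟩ := exists_deg_d (by
      have := p.deg hx
      rwa [h1] at this) rfl
    obtain ⟨x', hx', rfl⟩ := exists_deg_hom (hp z') hz'
    obtain ⟨u, hu⟩ := (hex (x - X.dg.d x')).1 (by rw [map_sub, ← p.d, hz1, h1, sub_self])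
    refine ⟨u, hi ?_⟩
    rw [← i.d, hu, map_sub, X.dg.d_d, sub_zero, h2]
  · rintro y y' w w' rfl rfl
    exact map_add _ _ _
  · rintro r y w rfl
    exact hai r y
  · exact fun y hy => ⟨i.f y, ⟨i.deg hy.1, by rw [i.d, hy.2, map_zero]⟩, rfl⟩
  · rintro y _ hy ⟨z, rfl⟩ hw
    obtain ⟨z', hz', hz1⟩ := exists_deg_d (by
      have := i.deg hy.1
      rwa [hw] at this) rfl
    have h1 : p.f z' ∈ Zc Y (j - 1) := by
      refine ⟨p.deg hz', ?_⟩
      rw [p.d, hz1, ← hw]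
      exact (hex _).2 ⟨y, rfl⟩
    exact ⟨p.f z', h1, y, hy, ⟨z', hz', rfl, by rw [hz1, hw]⟩, by
      rw [sub_self]
      exact Submodule.zero_mem _⟩

/-- The middle term of a short exact sequence. -/
theorem DAct.FGt.mid [IsNoetherianRing D] (hi : Function.Injective i.f)
    (hp : Function.Surjective p.f) (hex : ∀ x, p.f x = 0 ↔ ∃ y, i.f y = x)
    (hai : a.Eqv b i) (hbp : b.Eqv c p) (ha : a.FGt) (hc : c.FGt) : b.FGt := by
  refine FGq.exact (G := fun y w => p.f y = w) i.f hai ?_ ?_ b.stb_ker c.stb_range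
    (map_zero _) ?_ ?_ ?_ ?_ ha hc
  · exact fun x hx => (i.d x).trans ((congrArg _ hx).trans (map_zero _))
  · rintro _ ⟨x, rfl⟩
    exact ⟨i.f x, i.d x⟩
  · rintro y y' w w' rfl rfl
    exact map_add _ _ _
  · rintro r y w rfl
    exact hbp r y
  · exact fun y hy => ⟨p.f y, (p.d y).trans ((congrArg _ hy).trans (map_zero _)), rfl⟩
  · rintro y w hy ⟨z, hz⟩ hw
    subst hw
    obtain ⟨x, rfl⟩ := hp z
    obtain ⟨u, hu⟩ := (hex (y - X.dg.d x)).1 (by rw [map_sub, ← p.d, hz, sub_self])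
    refine ⟨u, hi ?_, ?_⟩
    · rw [← i.d, hu, map_sub, show X.dg.d y = 0 from hy, X.dg.d_d, sub_zero, map_zero]
    · rw [hu, sub_sub_cancel]
      exact ⟨x, rfl⟩

/-- The right term of a short exact sequence. -/
theorem DAct.FGt.right [IsNoetherianRing D] (hi : Function.Injective i.f)
    (hp : Function.Surjective p.f) (hex : ∀ x, p.f x = 0 ↔ ∃ y, i.f y = x)
    (hai : a.Eqv b i) (hbp : b.Eqv c p) (hb : b.FGt) (ha : a.FGt) : c.FGt := by
  refine FGq.exact (G := fun y w => ∃ x, p.f x = y ∧ i.f w = X.dg.d x) p.f hbp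
    ?_ ?_ c.stb_ker a.stb_range ⟨0, map_zero _, by rw [map_zero, map_zero]⟩
    ?_ ?_ ?_ ?_ hb ha
  · exact fun x hx => (p.d x).trans ((congrArg _ hx).trans (map_zero _))
  · rintro _ ⟨x, rfl⟩
    exact ⟨p.f x, p.d x⟩
  · rintro y y' w w' ⟨x, h1, h2⟩ ⟨x', h1', h2'⟩
    exact ⟨x + x', by rw [map_add, h1, h1'], by rw [map_add, map_add, h2, h2']⟩
  · rintro r y w ⟨x, h1, h2⟩
    exact ⟨b.φ r x, by rw [hbp, h1], by rw [hai, h2, b.d]⟩
  · rintro y hy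
    obtain ⟨x, rfl⟩ := hp y
    obtain ⟨w, hw'⟩ := (hex (X.dg.d x)).1 ((p.d x).symm.trans hy)
    exact ⟨w, hi (by rw [← i.d, hw', X.dg.d_d, map_zero]), x, rfl, hw'⟩
  · rintro y _ hy ⟨z, rfl⟩ ⟨x, rfl, h2⟩
    refine ⟨x - i.f z, ?_, ?_⟩
    · rw [LinearMap.mem_ker, map_sub, i.d, h2, sub_self]
    · rw [map_sub, (hex (i.f z)).2 ⟨z, rfl⟩, sub_zero, sub_self]
      exact Submodule.zero_mem _

/-- The left term of a short exact sequence. -/
theorem DAct.FGt.left [IsNoetherianRing D] (hi : Function.Injective i.f)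
    (hp : Function.Surjective p.f) (hex : ∀ x, p.f x = 0 ↔ ∃ y, i.f y = x)
    (hai : a.Eqv b i) (hbp : b.Eqv c p) (hc : c.FGt) (hb : b.FGt) : a.FGt := by
  refine FGq.exact' (fun y w => ∃ x, p.f x = y ∧ i.f w = X.dg.d x)
    ?_ ?_ ?_ ?_ a.stb_ker b.stb_range (fun y w => i.f y = w) (map_zero _) ?_ ?_ ?_ ?_ hc hb
  · rintro y y' w w' ⟨x, h1, h2⟩ ⟨x', h1', h2'⟩
    exact ⟨x + x', by rw [map_add, h1, h1'], by rw [map_add, map_add, h2, h2']⟩
  · rintro r y w ⟨x, h1, h2⟩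
    exact ⟨b.φ r x, by rw [hbp, h1], by rw [hai, h2, b.d]⟩
  · rintro y hy
    obtain ⟨x, rfl⟩ := hp y
    obtain ⟨w, hw'⟩ := (hex (X.dg.d x)).1 ((p.d x).symm.trans hy)
    exact ⟨w, hi (by rw [← i.d, hw', X.dg.d_d, map_zero]), x, rfl, hw'⟩
  · rintro _ w ⟨z, rfl⟩ hw ⟨x, h1, h2⟩
    obtain ⟨x', rfl⟩ := hp z
    obtain ⟨u, hu⟩ := (hex (x - X.dg.d x')).1 (by rw [map_sub, ← p.d, h1, sub_self])
    refine ⟨u, hi ?_⟩
    rw [← i.d, hu, map_sub, X.dg.d_d, sub_zero, h2]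
  · rintro y y' w w' rfl rfl
    exact map_add _ _ _
  · rintro r y w rfl
    exact hai r y
  · exact fun y hy => ⟨i.f y, (i.d y).trans ((congrArg _ hy).trans (map_zero _)), rfl⟩
  · rintro y _ hy ⟨z, rfl⟩ hw
    have h1 : Y.dg.d (p.f z) = 0 := by
      rw [p.d, ← hw]
      exact (hex _).2 ⟨y, rfl⟩
    exact ⟨p.f z, h1, y, hy, ⟨z, rfl, hw⟩, by
      rw [sub_self]
      exact Submodule.zero_mem _⟩

end exact

section qi

variable {f : CHom X Y} {a : DAct D X} {b : DAct D Y}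

/-- the quasi-isomorphism conditions in the degree `j` -/
theorem qi_deg (h : (∀ x, X.dg.d x = 0 → (∃ y, Y.dg.d y = f.f x) → ∃ z, X.dg.d z = x) ∧
    ∀ y, Y.dg.d y = 0 → ∃ x, X.dg.d x = 0 ∧ ∃ z, Y.dg.d z = y - f.f x) {j : ℤ} {y : Y.V}
    (hy : y ∈ Zc Y j) : ∃ x ∈ Zc X j, y - f.f x ∈ LinearMap.range Y.dg.d := by
  obtain ⟨x, hx, z, hz⟩ := h.2 y hy.2
  refine ⟨X.dg.ρ x j, ρ_cocyc X hx j, Y.dg.ρ z (j - 1), ?_⟩
  rw [← ρ_d', hz, map_sub, Finsupp.sub_apply, ρ_self hy.1, ρ_hom]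

/-- Quasi-isomorphisms. -/
theorem DAct.FG.qi (h : (∀ x, X.dg.d x = 0 → (∃ y, Y.dg.d y = f.f x) → ∃ z, X.dg.d z = x) ∧
    ∀ y, Y.dg.d y = 0 → ∃ x, X.dg.d x = 0 ∧ ∃ z, Y.dg.d z = y - f.f x) (he : a.Eqv b f) {j : ℤ} :
    a.FG j ↔ b.FG j := by
  constructor
  · refine FGq.of_surj f.f he ?_ ?_ fun y hy => qi_deg h hy
    · exact fun x hx => ⟨f.deg hx.1, by rw [f.d, hx.2, map_zero]⟩
    · rintro _ ⟨x, rfl⟩
      exact ⟨f.f x, f.d x⟩
  · refine FGq.of_inj f.f he ?_ ?_ (a.stb_Z j) b.stb_range fun y hy => qi_deg h hy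
    · exact fun x hx => ⟨f.deg hx.1, by rw [f.d, hx.2, map_zero]⟩
    · exact fun x hx hy => h.1 x hx.2 hy

/-- Quasi-isomorphisms. -/
theorem DAct.FGt.qi (h : (∀ x, X.dg.d x = 0 → (∃ y, Y.dg.d y = f.f x) → ∃ z, X.dg.d z = x) ∧
    ∀ y, Y.dg.d y = 0 → ∃ x, X.dg.d x = 0 ∧ ∃ z, Y.dg.d z = y - f.f x) (he : a.Eqv b f) :
    a.FGt ↔ b.FGt := by
  constructor
  · refine FGq.of_surj f.f he ?_ ?_ h.2
    · exact fun x hx => (f.d x).trans ((congrArg _ hx).trans (map_zero _))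
    · rintro _ ⟨x, rfl⟩
      exact ⟨f.f x, f.d x⟩
  · refine FGq.of_inj f.f he ?_ ?_ a.stb_ker b.stb_range h.2
    · exact fun x hx => (f.d x).trans ((congrArg _ hx).trans (map_zero _))
    · exact fun x hx hy => h.1 x hx hy

/-- Direct summands in the cohomology. -/
theorem DAct.FG.retract {g : CHom Y X} (hgf : ∀ x, X.dg.d x = 0 → ∃ z, X.dg.d z = x - g.f (f.f x))
    (he : b.Eqv a g) {j : ℤ} (h : b.FG j) : a.FG j := by
  refine FGq.of_retract f.f g.f he ?_ ?_ ?_ ?_ h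
  · exact fun x hx => ⟨f.deg hx.1, by rw [f.d, hx.2, map_zero]⟩
  · exact fun x hx => ⟨g.deg hx.1, by rw [g.d, hx.2, map_zero]⟩
  · rintro _ ⟨x, rfl⟩
    exact ⟨g.f x, g.d x⟩
  · exact fun x hx => hgf x hx.2

/-- Direct summands in the cohomology. -/
theorem DAct.FGt.retract {g : CHom Y X}
    (hgf : ∀ x, X.dg.d x = 0 → ∃ z, X.dg.d z = x - g.f (f.f x))
    (he : b.Eqv a g) (h : b.FGt) : a.FGt := by
  refine FGq.of_retract f.f g.f he ?_ ?_ ?_ ?_ h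
  · exact fun x hx => (f.d x).trans ((congrArg _ hx).trans (map_zero _))
  · exact fun x hx => (g.d x).trans ((congrArg _ hx).trans (map_zero _))
  · rintro _ ⟨x, rfl⟩
    exact ⟨g.f x, g.d x⟩
  · exact fun x hx => hgf x hx

end qi

/-- The total cohomology and the cohomology in the single degrees. -/
theorem DAct.FGt.of_FG {a : DAct D X} (m n : ℤ)
    (h0 : ∀ (j : ℤ) (x : X.V), X.dg.IsDeg j x → j < m ∨ n ≤ j → x = 0) (h : ∀ j, a.FG j) :
    a.FGt := by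
  refine FGq.of_iSup (I := Finset.Ico m n) (fun j => Zc X j) (fun j x hx => hx.2) ?_
    (fun j => h j)
  intro x hx
  refine ⟨fun j => X.dg.ρ x j, fun j => ρ_cocyc X hx j, ?_⟩
  have h1 : ∑ j : Finset.Ico m n, X.dg.ρ x j = x := by
    rw [Finset.sum_coe_sort (Finset.Ico m n) (fun j => X.dg.ρ x j)]
    refine Eq.trans ?_ (X.dg.sum_ρ x)
    rw [Finsupp.sum]
    refine (Finset.sum_subset ?_ ?_).symm
    · intro j hj
      rw [Finset.mem_Ico]
      by_contra hcon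
      exact (Finsupp.mem_support_iff.1 hj) (h0 j _ (Dg.isDeg_ρ _ _) (by omega))
    · intro j _ hj
      exact Finsupp.notMem_support_iff.1 hj
  rw [h1, sub_self]
  exact Submodule.zero_mem _

/-- The single degrees and the total cohomology. -/
theorem DAct.FG.of_FGt {a : DAct D X} (h : a.FGt) (j : ℤ) : a.FG j := by
  obtain ⟨n, s, hs1, hs2⟩ := h
  refine ⟨n, fun i => X.dg.ρ (s i) j, fun i => ρ_cocyc X (hs1 i) j, fun x hx => ?_⟩
  obtain ⟨r, z, hz⟩ := hs2 x hx.2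
  refine ⟨r, X.dg.ρ z (j - 1), ?_⟩
  have e : ∀ (r : D) (y : X.V), X.dg.ρ (a.φ r y) j = a.φ r (X.dg.ρ y j) := fun r y =>
    ρ_hom ⟨a.φ r, fun h => a.deg r h, a.d r⟩ y j
  rw [← ρ_d', hz, map_sub, Finsupp.sub_apply, ρ_self hx.1, map_sum, Finsupp.finsetSum_apply]
  simp only [e]

/-- the trivial action -/
def DAct.triv (X : Cx k) : DAct k X where
  φ := Algebra.ofId k (Module.End k X.V)
  deg := fun r _ hx => hx.smul r
  d := fun r x => map_smul X.dg.d r x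

theorem DAct.k_apply (a : DAct k X) (r : k) (x : X.V) : a.φ r x = r • x := by
  have h : a.φ r = algebraMap k (Module.End k X.V) r := a.φ.commutes r
  rw [h]
  rfl

/-- Finite-dimensional cohomology. -/
theorem DAct.finCoh (a : DAct k X) : a.FGt ↔ X.dg.FinCoh :=
  FGq.iff_fg (D := k) (φ := a.φ) a.k_apply (LinearMap.ker X.dg.d) (LinearMap.range X.dg.d)

end Pool.Agent.MP_6e5bed_ag_PN
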