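import Pool.Agent.Lib.MP_6e5bed_ag_NC.FieldCx
import Pool.Agent.Lib.MP_6e5bed_ag_PN.DAct

set_option autoImplicit false

/-!
# MP_6e5bed_ag, THEOREM G: the Künneth formula over a field (section 4.4)
-/

noncomputable section

namespace Pool.Agent.MP_6e5bed_ag_PN

open Pool.Agent.MP_6e5bed_ag_NC Pool.Agent.MP_6e5bed_ag_NS
open scoped TensorProduct

universe u v

section

variable {k : Type u} [CommRing k] {D : Type v} [CommRing D] [Algebra k D]
  {D' : Type v} [CommRing D'] [Algebra k D'] {X Y : Cx k}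

/-- The tensor product of two complexes. -/
def tcx (X Y : Cx k) : Cx k where
  V := X.V ⊗[k] Y.V
  dg := X.dg.tensor Y.dg

/-- The action of `D ⊗ D'` on a tensor product. -/
def tφ (a : DAct D X) (b : DAct D' Y) : D ⊗[k] D' →ₐ[k] Module.End k (X.V ⊗[k] Y.V) :=
  (Module.endTensorEndAlgHom (R := k) (S := k) (A := k) (M := X.V) (N := Y.V)).comp
    (Algebra.TensorProduct.map a.φ b.φ)

theorem tφ_tmul (a : DAct D X) (b : DAct D' Y) (r : D) (r' : D') (x : X.V) (y : Y.V) :
    tφ a b (r ⊗ₜ r') (x ⊗ₜ y) = a.φ r x ⊗ₜ b.φ r' y := rfl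

/-- The action of `D ⊗ D'` on a tensor product. -/
def DAct.tens (a : DAct D X) (b : DAct D' Y) : DAct (D ⊗[k] D') (tcx X Y) where
  φ := tφ a b
  deg := fun {j} r x hx => by
    induction r using TensorProduct.induction_on with
    | zero =>
      rw [map_zero]
      exact Dg.IsDeg.zero _
    | add r r' h h' =>
      rw [map_add]
      exact h.add h'
    | tmul r r' =>
      have h := Dg.tensor_degMap (X := X.dg) (Y := Y.dg) (Z := X.dg.tensor Y.dg) (n := 0)
        (tφ a b (r ⊗ₜ r')) (fun i j v w hv hw => by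
          rw [tφ_tmul, add_zero]
          exact Dg.tensor_deg (a.deg r hv) (b.deg r' hw)) hx
      rwa [add_zero] at h
  d := fun r x => by
    induction r using TensorProduct.induction_on with
    | zero =>
      rw [map_zero]
      exact map_zero _
    | add r r' h h' =>
      rw [map_add]
      exact (map_add _ _ _).trans (congrArg₂ (· + ·) h h')
    | tmul r r' =>
      change (X.dg.tensor Y.dg).d (tφ a b (r ⊗ₜ r') x) = tφ a b (r ⊗ₜ r')
        ((X.dg.tensor Y.dg).d x)
      change X.V ⊗[k] Y.V at x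
      induction x using TensorProduct.induction_on with
      | zero => rw [map_zero, map_zero, map_zero]
      | add x y h h' => rw [map_add, map_add, map_add, map_add, h, h']
      | tmul x y =>
        have hs : X.dg.s (a.φ r x) = a.φ r (X.dg.s x) :=
          Dg.s_degMap_even (n := 0) Even.zero (a.φ r)
            (fun h => by rw [add_zero]; exact a.deg r h) x
        rw [tφ_tmul, Dg.tensor_d, Dg.tensor_d, map_add, tφ_tmul, tφ_tmul, a.d, b.d, hs]

end

variable {k : Type u} [Field k] {D : Type v} [CommRing D] [Algebra k D]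
  {D' : Type v} [CommRing D'] [Algebra k D'] {X Y : Cx k}

/-- a linear map `g` of degree `-1` with `d g d = d` -/
theorem exists_hty (X : Cx k) : ∃ e : X.V →ₗ[k] X.V,
    (∀ {i : ℤ} {v : X.V}, X.dg.IsDeg i v → X.dg.IsDeg (i + -1) (e v)) ∧
    ∀ v, X.dg.d (e (X.dg.d v)) = X.dg.d v := by
  obtain ⟨s, hs⟩ := LinearMap.exists_rightInverse_of_surjective X.dg.d.rangeRestrict
    (LinearMap.range_rangeRestrict X.dg.d)
  obtain ⟨g, hg⟩ := LinearMap.exists_extend s
  have hdgd : ∀ v, X.dg.d (g (X.dg.d v)) = X.dg.d v := fun v => by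
    have h1 : g (X.dg.d v) = s (X.dg.d.rangeRestrict v) :=
      LinearMap.congr_fun hg (X.dg.d.rangeRestrict v)
    have h2 : X.dg.d.rangeRestrict (s (X.dg.d.rangeRestrict v)) = X.dg.d.rangeRestrict v :=
      LinearMap.congr_fun hs (X.dg.d.rangeRestrict v)
    rw [h1]
    exact congrArg Subtype.val h2
  obtain ⟨e, hdeg, he⟩ := exists_comp X.dg X.dg g (-1)
  refine ⟨e, hdeg, ?_⟩
  have h1 : X.dg.d.comp (e.comp X.dg.d) = X.dg.d := X.dg.hom_ext (fun i v hv => by
    rw [LinearMap.comp_apply, LinearMap.comp_apply, he _ _ hv.d, add_neg_cancel_right,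
      ← X.dg.ρ_d, hdgd]
    have h2 : X.dg.ρ (X.dg.d v) = Finsupp.single (i + 1) (X.dg.d v) := hv.d
    rw [h2, Finsupp.single_eq_same])
  exact fun v => LinearMap.congr_fun h1 v

/-- Every cocycle of the tensor product is cohomologous to a sum of products of cocycles. -/
theorem kun_cocyc (z : X.V ⊗[k] Y.V) (hz : (X.dg.tensor Y.dg).d z = 0) :
    ∃ w ∈ Submodule.span k {w : X.V ⊗[k] Y.V | ∃ x y, X.dg.d x = 0 ∧ Y.dg.d y = 0 ∧
      w = x ⊗ₜ[k] y}, z - w ∈ LinearMap.range (X.dg.tensor Y.dg).d := by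
  obtain ⟨e, he, he'⟩ := exists_hty X
  obtain ⟨f, hf, hf'⟩ := exists_hty Y
  let π : X.V →ₗ[k] X.V := LinearMap.id - X.dg.d ∘ₗ e - e ∘ₗ X.dg.d
  let ρ : Y.V →ₗ[k] Y.V := LinearMap.id - Y.dg.d ∘ₗ f - f ∘ₗ Y.dg.d
  have hπ : ∀ x, π x = x - X.dg.d (e x) - e (X.dg.d x) := fun _ => rfl
  have hρ : ∀ x, ρ x = x - Y.dg.d (f x) - f (Y.dg.d x) := fun _ => rfl
  have hdπ : ∀ x, X.dg.d (π x) = 0 := fun x => by
    rw [hπ, map_sub, map_sub, X.dg.d_d, he', sub_zero, sub_self]
  have hdρ : ∀ x, Y.dg.d (ρ x) = 0 := fun x => by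
    rw [hρ, map_sub, map_sub, Y.dg.d_d, hf', sub_zero, sub_self]
  have hse : ∀ x, X.dg.s (e x) = - e (X.dg.s x) := fun x =>
    Dg.s_degMap_odd (n := -1) (by decide) e he x
  have hsf : ∀ x, Y.dg.s (f x) = - f (Y.dg.s x) := fun x =>
    Dg.s_degMap_odd (n := -1) (by decide) f hf x
  have hsπ : ∀ x, X.dg.s (π x) = π (X.dg.s x) := fun x => by
    rw [hπ, hπ, map_sub, map_sub, Dg.s_d, hse, hse, Dg.s_d, map_neg, map_neg]
    abel
  refine ⟨TensorProduct.map π ρ z, ?_, ?_⟩
  · clear hz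
    induction z using TensorProduct.induction_on with
    | zero => rw [map_zero]; exact Submodule.zero_mem _
    | add z w hz hw => rw [map_add]; exact Submodule.add_mem _ hz hw
    | tmul x y => exact Submodule.subset_span ⟨π x, ρ y, hdπ x, hdρ y, rfl⟩
  · have key : ∀ z : X.V ⊗[k] Y.V, z - TensorProduct.map π ρ z =
        (X.dg.tensor Y.dg).d (TensorProduct.map e LinearMap.id z +
          TensorProduct.map (π ∘ₗ X.dg.s) f z) +
        (TensorProduct.map e LinearMap.id ((X.dg.tensor Y.dg).d z) +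
          TensorProduct.map (π ∘ₗ X.dg.s) f ((X.dg.tensor Y.dg).d z)) := by
      intro z
      induction z using TensorProduct.induction_on with
      | zero => simp only [map_zero, sub_zero, add_zero]
      | add z w hz hw =>
        simp only [map_add] at hz hw ⊢
        rw [add_sub_add_comm, hz, hw]
        abel
      | tmul x y =>
        have h1 : X.dg.s (π (X.dg.s x)) = π x := by rw [hsπ, Dg.s_s]
        have h2 : X.dg.d (π (X.dg.s x)) = 0 := hdπ _
        have h3 : π (X.dg.s (X.dg.d x)) = 0 := by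
          rw [Dg.s_d, map_neg, hπ, X.dg.d_d, map_zero, he', sub_zero, sub_self, neg_zero]
        simp only [map_add, TensorProduct.map_tmul, Dg.tensor_d, LinearMap.id_apply,
          LinearMap.comp_apply]
        rw [h1, h2, h3, Dg.s_s, hse, hρ y]
        simp only [TensorProduct.zero_tmul, TensorProduct.tmul_sub, TensorProduct.neg_tmul,
          zero_add, hπ, TensorProduct.sub_tmul]
        abel
    rw [key z, hz, map_zero, map_zero, add_zero, add_zero]
    exact ⟨_, rfl⟩

/-- Künneth: the total cohomology of a tensor product is finitely generated. -/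
theorem DAct.FGt.tens {a : DAct D X} {b : DAct D' Y} (ha : a.FGt) (hb : b.FGt) :
    (a.tens b).FGt := by
  obtain ⟨n, s, hs1, hs2⟩ := ha
  obtain ⟨m, t, ht1, ht2⟩ := hb
  have hs1' : ∀ i, X.dg.d (s i) = 0 := hs1
  have ht1' : ∀ i, Y.dg.d (t i) = 0 := ht1
  refine FGq.of_fintype (I := Fin n × Fin m)
    (fun p => (s p.1 ⊗ₜ[k] t p.2 : X.V ⊗[k] Y.V)) ?_ ?_
  · intro p
    change (X.dg.tensor Y.dg).d (s p.1 ⊗ₜ[k] t p.2) = 0
    rw [Dg.tensor_d, hs1', ht1', TensorProduct.zero_tmul, TensorProduct.tmul_zero, add_zero]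
  · intro z hz
    have hz' : (X.dg.tensor Y.dg).d z = 0 := hz
    obtain ⟨w, hw, hw'⟩ := kun_cocyc z hz'
    have key : ∀ w ∈ Submodule.span k {w : X.V ⊗[k] Y.V | ∃ x y, X.dg.d x = 0 ∧ Y.dg.d y = 0 ∧
        w = x ⊗ₜ[k] y}, ∃ r : Fin n × Fin m → D ⊗[k] D',
        w - ∑ p, tφ a b (r p) (s p.1 ⊗ₜ[k] t p.2) ∈ LinearMap.range (X.dg.tensor Y.dg).d := by
      intro w hw
      induction hw using Submodule.span_induction with
      | zero => exact ⟨0, by simp⟩
      | add w w' _ _ h h' =>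
        obtain ⟨r, hr⟩ := h
        obtain ⟨r', hr'⟩ := h'
        refine ⟨r + r', ?_⟩
        have e : w + w' - ∑ p, tφ a b ((r + r') p) (s p.1 ⊗ₜ[k] t p.2) =
            (w - ∑ p, tφ a b (r p) (s p.1 ⊗ₜ[k] t p.2)) +
            (w' - ∑ p, tφ a b (r' p) (s p.1 ⊗ₜ[k] t p.2)) := by
          simp only [Pi.add_apply, map_add, LinearMap.add_apply, Finset.sum_add_distrib]
          abel
        rw [e]
        exact Submodule.add_mem _ hr hr'
      | smul c w _ h =>
        obtain ⟨r, hr⟩ := h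
        refine ⟨c • r, ?_⟩
        have e : c • w - ∑ p, tφ a b ((c • r) p) (s p.1 ⊗ₜ[k] t p.2) =
            c • (w - ∑ p, tφ a b (r p) (s p.1 ⊗ₜ[k] t p.2)) := by
          simp only [Pi.smul_apply, map_smul, LinearMap.smul_apply, smul_sub, Finset.smul_sum]
        rw [e]
        exact Submodule.smul_mem _ _ hr
      | mem w hw =>
        obtain ⟨x, y, hx, hy, rfl⟩ := hw
        obtain ⟨r, x', hx'⟩ := hs2 x hx
        obtain ⟨r', y', hy'⟩ := ht2 y hy
        refine ⟨fun p => r p.1 ⊗ₜ r' p.2, ?_⟩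
        have e3 : ∑ p : Fin n × Fin m, tφ a b (r p.1 ⊗ₜ r' p.2) (s p.1 ⊗ₜ[k] t p.2) =
            (∑ i, a.φ (r i) (s i)) ⊗ₜ[k] (∑ i, b.φ (r' i) (t i)) := by
          rw [TensorProduct.sum_tmul, Fintype.sum_prod_type]
          refine Finset.sum_congr rfl fun i _ => ?_
          rw [TensorProduct.tmul_sum]
          rfl
        have hd : X.dg.d (∑ i, a.φ (r i) (s i)) = 0 := by
          rw [map_sum]
          refine Finset.sum_eq_zero fun i _ => ?_
          rw [a.d, hs1', map_zero]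
        refine ⟨x' ⊗ₜ y + X.dg.s (∑ i, a.φ (r i) (s i)) ⊗ₜ y', ?_⟩
        rw [e3, map_add, Dg.tensor_d, Dg.tensor_d, hy, TensorProduct.tmul_zero, add_zero,
          ← neg_neg (X.dg.d (X.dg.s _)), ← Dg.s_d, hd, map_zero, neg_zero,
          TensorProduct.zero_tmul, zero_add, Dg.s_s, hx', hy', TensorProduct.sub_tmul,
          TensorProduct.tmul_sub]
        abel
    obtain ⟨r, hr⟩ := key w hw
    refine ⟨r, ?_⟩
    have e : ∀ z w v : X.V ⊗[k] Y.V, z - v = (z - w) + (w - v) := fun z w v => by abel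
    have e' := e z w (∑ p, tφ a b (r p) (s p.1 ⊗ₜ[k] t p.2))
    have h := Submodule.add_mem _ hw' hr
    rw [← e'] at h
    exact h

end Pool.Agent.MP_6e5bed_ag_PN
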