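import Pool.Agent.Lib.MP_6e5bed_ag_PN.WA

set_option autoImplicit false

/-!
# MP_6e5bed_ag, THEOREM G: quasi-isomorphisms of Čech complexes, arbitrary index type
-/

noncomputable section

namespace Pool.Agent.MP_6e5bed_ag_PN

open Pool.Agent.MP_6e5bed_ag_NC Pool.Agent.MP_6e5bed_ag_NS

universe u

variable {k : Type u} [CommRing k] {ι : Type}

/-- The Čech complexes preserve quasi-isomorphisms. -/
theorem cH_qi {V V' : PC k ι} (f : PCH V V') (h : ∀ c, Qi (f.f c)) (L : List ι) (c : FS ι) :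
    Qi ((cH f L).g c) := by
  induction L generalizing c with
  | nil =>
    exact ⟨fun x _ _ => ⟨0, rfl⟩, fun y _ => ⟨0, rfl, 0, rfl⟩⟩
  | cons l L ih =>
    exact co_map_qi (fun x => (cH f L).nat _ x) (fun x => ((cH f L).a _ x).symm)
      (ih c) (h (c.ins l)) (ih (c.ins l).fs)

/-- The bimodule maps which forget the head of the list. -/
theorem cB_pr_qiso {A B : PA k ι} (M : PB A B) (l : ι) (L : List ι) (c : FS ι)
    (h : Qi ((cC M.pc L).a (c.ins l))) : QIso (cB.pr M l L c) :=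
  ⟨cB.pr_dd M l L c, co_pr0_qi ((cC M.pc L).ρ (le_ins c l)) h⟩

end Pool.Agent.MP_6e5bed_ag_PN
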