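import Pool.Agent.Lib.MP_6e5bed_ag_PN.Cst
import Pool.Agent.Lib.MP_6e5bed_ag_PN.QiB
import Pool.Agent.Lib.MP_6e5bed_ag_NC.FTb
import Mathlib.Algebra.Colimit.Module

set_option autoImplicit false
set_option linter.unusedVariables false

/-!
# MP_6e5bed_ag, THEOREM G, LOC (L3): directed colimits of modules, Čech complexes, tensor products and
quasi-isomorphisms

`Col e i`: the maps `i s : V s → U` make `U` the colimit of the direct system `V s`, `e s t h`.
-/

noncomputable section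

namespace Pool.Agent.MP_6e5bed_ag_PN

open Pool.Agent.MP_6e5bed_ag_NC Pool.Agent.MP_6e5bed_ag_NS

universe u w

variable {k : Type u} [CommRing k] {S : Type w} [Preorder S]

/-- `U` is the colimit of the direct system `V`. -/
structure Col {V : S → Type u} [∀ s, AddCommGroup (V s)] [∀ s, Module k (V s)]
    (e : ∀ s t, s ≤ t → (V s →ₗ[k] V t)) {U : Type u} [AddCommGroup U] [Module k U]
    (i : ∀ s, V s →ₗ[k] U) : Prop where
  id : ∀ {s : S} (h : s ≤ s) (x : V s), e s s h x = x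
  ee : ∀ {s t r : S} (h : s ≤ t) (h' : t ≤ r) (x : V s), e t r h' (e s t h x) =
    e s r (h.trans h') x
  ie : ∀ {s t : S} (h : s ≤ t) (x : V s), i t (e s t h x) = i s x
  surj : ∀ y : U, ∃ s x, i s x = y
  inj : ∀ (s : S) (x : V s), i s x = 0 → ∃ t, ∃ h : s ≤ t, e s t h x = 0

section basic

variable {V : S → Type u} [∀ s, AddCommGroup (V s)] [∀ s, Module k (V s)]
  {e : ∀ s t, s ≤ t → (V s →ₗ[k] V t)} {U : Type u} [AddCommGroup U] [Module k U]
  {i : ∀ s, V s →ₗ[k] U}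

/-- Injective maps. -/
theorem Col.of_inj (id : ∀ {s : S} (h : s ≤ s) (x : V s), e s s h x = x) (ee : ∀ {s t r : S} (h : s ≤ t) (h' : t ≤ r) (x : V s),
      e t r h' (e s t h x) = e s r (h.trans h') x)
    (ie : ∀ {s t : S} (h : s ≤ t) (x : V s), i t (e s t h x) = i s x)
    (surj : ∀ y : U, ∃ s x, i s x = y) (inj : ∀ s x, i s x = 0 → x = 0) : Col e i :=
  ⟨id, ee, ie, surj, fun s x hx => ⟨s, le_refl s, by
    rw [inj s x hx, map_zero]⟩⟩

theorem Col.later (h : Col e i) {s t : S} (hst : s ≤ t) {x : V s} (hx : e s t hst x = 0) {r : S}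
    (htr : t ≤ r) (hsr : s ≤ r) : e s r hsr x = 0 := by
  rw [← h.ee hst htr x, hx, map_zero]

/-- Elements with the same image. -/
theorem Col.eq [IsDirectedOrder S] (h : Col e i) {s t : S} (x : V s) (y : V t) (hxy : i s x = i t y) :
    ∃ r, ∃ (h1 : s ≤ r) (h2 : t ≤ r), e s r h1 x = e t r h2 y := by
  obtain ⟨r, h1, h2⟩ := exists_ge_ge s t
  obtain ⟨r', h3, h4⟩ := h.inj r (e s r h1 x - e t r h2 y) (by
    rw [map_sub, h.ie, h.ie, hxy, sub_self])
  refine ⟨r', h1.trans h3, h2.trans h3, ?_⟩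
  rw [map_sub, sub_eq_zero, h.ee, h.ee] at h4
  exact h4

end basic

section prod

variable [IsDirectedOrder S]
  {V1 V2 V3 : S → Type u} [∀ s, AddCommGroup (V1 s)] [∀ s, Module k (V1 s)]
  [∀ s, AddCommGroup (V2 s)] [∀ s, Module k (V2 s)] [∀ s, AddCommGroup (V3 s)]
  [∀ s, Module k (V3 s)] {e1 : ∀ s t, s ≤ t → (V1 s →ₗ[k] V1 t)}
  {e2 : ∀ s t, s ≤ t → (V2 s →ₗ[k] V2 t)} {e3 : ∀ s t, s ≤ t → (V3 s →ₗ[k] V3 t)}
  {U1 U2 U3 : Type u} [AddCommGroup U1] [Module k U1] [AddCommGroup U2] [Module k U2]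
  [AddCommGroup U3] [Module k U3] {i1 : ∀ s, V1 s →ₗ[k] U1} {i2 : ∀ s, V2 s →ₗ[k] U2}
  {i3 : ∀ s, V3 s →ₗ[k] U3}

/-- Products. -/
theorem Col.prod3 (h1 : Col e1 i1) (h2 : Col e2 i2) (h3 : Col e3 i3) :
    Col (V := fun s => (V1 s × V2 s) × V3 s)
      (fun s t h => ((e1 s t h).prodMap (e2 s t h)).prodMap (e3 s t h))
      (fun s => ((i1 s).prodMap (i2 s)).prodMap (i3 s)) where
  id := fun h x => Prod.ext (Prod.ext (h1.id h _) (h2.id h _)) (h3.id h _)
  ee := fun h h' x => Prod.ext (Prod.ext (h1.ee h h' _) (h2.ee h h' _)) (h3.ee h h' _)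
  ie := fun h x => Prod.ext (Prod.ext (h1.ie h _) (h2.ie h _)) (h3.ie h _)
  surj := fun y => by
    obtain ⟨s1, x1, hx1⟩ := h1.surj y.1.1
    obtain ⟨s2, x2, hx2⟩ := h2.surj y.1.2
    obtain ⟨s3, x3, hx3⟩ := h3.surj y.2
    obtain ⟨r, g1, g2⟩ := exists_ge_ge s1 s2
    obtain ⟨t, g4, g3⟩ := exists_ge_ge r s3
    refine ⟨t, ((e1 s1 t (g1.trans g4) x1, e2 s2 t (g2.trans g4) x2), e3 s3 t g3 x3), ?_⟩
    refine Prod.ext (Prod.ext ?_ ?_) ?_
    · exact (h1.ie _ _).trans hx1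
    · exact (h2.ie _ _).trans hx2
    · exact (h3.ie _ _).trans hx3
  inj := fun s x hx => by
    obtain ⟨t1, g1, k1⟩ := h1.inj s x.1.1 (congrArg (fun z => z.1.1) hx)
    obtain ⟨t2, g2, k2⟩ := h2.inj s x.1.2 (congrArg (fun z => z.1.2) hx)
    obtain ⟨t3, g3, k3⟩ := h3.inj s x.2 (congrArg (fun z => z.2) hx)
    obtain ⟨r, l1, l2⟩ := exists_ge_ge t1 t2
    obtain ⟨t, l4, l3⟩ := exists_ge_ge r t3
    refine ⟨t, g3.trans l3, Prod.ext (Prod.ext ?_ ?_) ?_⟩
    · exact h1.later g1 k1 (l1.trans l4) _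
    · exact h2.later g2 k2 (l2.trans l4) _
    · exact h3.later g3 k3 l3 _

end prod

/-! ### Čech complexes -/

section cech

variable [IsDirectedOrder S] [Nonempty S] {ι : Type} {V : S → PC k ι} {U : PC k ι}

theorem cC_col (e : ∀ s t, s ≤ t → PCH (V s) (V t)) (i : ∀ s, PCH (V s) U)
    (h : ∀ c, Col (V := fun s => ((V s).X c).V) (fun s t h => ((e s t h).f c).f)
      (fun s => ((i s).f c).f)) : ∀ (L : List ι) (c : FS ι),
    Col (V := fun s => ((cC (V s) L).X c).V) (fun s t h => ((cH (e s t h) L).g c).f)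
      (fun s => ((cH (i s) L).g c).f)
  | [], c => {
      id := fun _ _ => rfl
      ee := fun _ _ _ => rfl
      ie := fun _ _ => rfl
      surj := fun y => ⟨Classical.arbitrary S, 0, rfl⟩
      inj := fun s x hx => ⟨s, le_refl s, rfl⟩ }
  | l :: L, c => (cC_col e i h L c).prod3 (h (c.ins l)) (cC_col e i h L (c.ins l).fs)

end cech

/-! ### Quasi-isomorphisms -/

section qi

variable [IsDirectedOrder S] {X X' : S → Cx k} {Y Y' : Cx k}

/-- A directed colimit of quasi-isomorphisms is a quasi-isomorphism. -/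
theorem Col.qi (e : ∀ s t, s ≤ t → CHom (X s) (X t)) (i : ∀ s, CHom (X s) Y)
    (e' : ∀ s t, s ≤ t → CHom (X' s) (X' t)) (i' : ∀ s, CHom (X' s) Y')
    (h : Col (V := fun s => (X s).V) (fun s t h => (e s t h).f) (fun s => (i s).f))
    (h' : Col (V := fun s => (X' s).V) (fun s t h => (e' s t h).f) (fun s => (i' s).f))
    (φ : ∀ s, CHom (X s) (X' s)) (ψ : CHom Y Y')
    (ne : ∀ s t (h : s ≤ t) x, (φ t).f ((e s t h).f x) = (e' s t h).f ((φ s).f x))
    (ni : ∀ s x, ψ.f ((i s).f x) = (i' s).f ((φ s).f x)) (hq : ∀ s, Qi (φ s)) : Qi ψ := by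
  constructor
  · rintro x hx ⟨y, hy⟩
    obtain ⟨s, x0, rfl⟩ := h.surj x
    obtain ⟨s', y0, rfl⟩ := h'.surj y
    obtain ⟨t1, g1, k1⟩ := h.inj s ((X s).dg.d x0) (by rw [← (i s).d]; exact hx)
    obtain ⟨t2, g2, g3⟩ := exists_ge_ge t1 s'
    have k2 : (X t2).dg.d ((e s t2 (g1.trans g2)).f x0) = 0 := by
      rw [(e s t2 (g1.trans g2)).d]
      exact h.later g1 k1 g2 _
    obtain ⟨t3, g4, k4⟩ := h'.inj t2 ((φ t2).f ((e s t2 (g1.trans g2)).f x0) -
      (X' t2).dg.d ((e' s' t2 g3).f y0)) (by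
        have a1 := ni t2 ((e s t2 (g1.trans g2)).f x0)
        have a2 : (i' t2).f ((X' t2).dg.d ((e' s' t2 g3).f y0)) = Y'.dg.d ((i' s').f y0) := by
          rw [← (i' t2).d]
          exact congrArg Y'.dg.d (h'.ie g3 y0)
        rw [map_sub, a2, ← a1, hy, sub_eq_zero]
        exact congrArg ψ.f (h.ie (g1.trans g2) x0))
    rw [map_sub, sub_eq_zero, ← ne, ← (e' t2 t3 g4).d] at k4
    obtain ⟨z, hz⟩ := (hq t3).1 ((e t2 t3 g4).f ((e s t2 (g1.trans g2)).f x0)) (by
      rw [(e t2 t3 g4).d, k2, map_zero]) ⟨_, k4.symm⟩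
    refine ⟨(i t3).f z, ?_⟩
    rw [(i t3).d, hz]
    exact (h.ie g4 _).trans (h.ie (g1.trans g2) x0)
  · intro y hy
    obtain ⟨s, y0, rfl⟩ := h'.surj y
    obtain ⟨t, g, k1⟩ := h'.inj s ((X' s).dg.d y0) (by rw [← (i' s).d]; exact hy)
    obtain ⟨x, hx, z, hz⟩ := (hq t).2 ((e' s t g).f y0) (by
      rw [(e' s t g).d]
      exact k1)
    refine ⟨(i t).f x, by rw [(i t).d, hx, map_zero], (i' t).f z, ?_⟩
    rw [(i' t).d, hz, map_sub, ni]
    exact congrArg (fun w => w - (i' t).f ((φ t).f x)) (h'.ie g y0)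

end qi

/-! ### Tensor products -/

section tb

variable [IsDirectedOrder S] {A W B : DGA k} {X : S → Bim A W} {Y : Bim A W}

/-- Tensor products over a dg algebra commute with directed colimits. -/
theorem Col.tb {e : ∀ s t, s ≤ t → GMap 0 (X s) (X t)} {i : ∀ s, GMap 0 (X s) Y}
    (h : Col (V := fun s => (X s).M) (fun s t h => (e s t h).f) (fun s => (i s).f))
    (Z : Bim W B) :
    Col (V := fun s => (MP_6e5bed_ag_NC.tb (X s) Z).M) (fun s t h => ((e s t h).tbR Z).f)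
      (fun s => ((i s).tbR Z).f) := by
  classical
  have ee : ∀ {s t r : S} (h1 : s ≤ t) (h' : t ≤ r) (x : (MP_6e5bed_ag_NC.tb (X s) Z).M),
      ((e t r h').tbR Z).f (((e s t h1).tbR Z).f x) = ((e s r (h1.trans h')).tbR Z).f x := by
    intro s t r h1 h'
    refine tb_ind ?_ ?_ ?_
    · rw [map_zero, map_zero, map_zero]
    · intro x y hx hy
      rw [map_add, map_add, map_add, hx, hy]
    · intro m n
      rw [GMap.tbR_tm, GMap.tbR_tm, GMap.tbR_tm]
      exact congrArg (fun z => (tm z n : (MP_6e5bed_ag_NC.tb (X r) Z).M)) (h.ee h1 h' m)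
  have ie : ∀ {s t : S} (h1 : s ≤ t) (x : (MP_6e5bed_ag_NC.tb (X s) Z).M),
      ((i t).tbR Z).f (((e s t h1).tbR Z).f x) = ((i s).tbR Z).f x := by
    intro s t h1
    refine tb_ind ?_ ?_ ?_
    · rw [map_zero, map_zero, map_zero]
    · intro x y hx hy
      rw [map_add, map_add, map_add, hx, hy]
    · intro m n
      rw [GMap.tbR_tm, GMap.tbR_tm, GMap.tbR_tm]
      exact congrArg (fun z => (tm z n : (MP_6e5bed_ag_NC.tb Y Z).M)) (h.ie h1 m)
  have eid : ∀ {s : S} (h1 : s ≤ s) (x : (MP_6e5bed_ag_NC.tb (X s) Z).M),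
      ((e s s h1).tbR Z).f x = x := by
    intro s h1
    refine tb_ind ?_ ?_ ?_
    · rw [map_zero]
    · intro x y hx hy
      rw [map_add, hx, hy]
    · intro m n
      rw [GMap.tbR_tm]
      exact congrArg (fun z => (tm z n : (MP_6e5bed_ag_NC.tb (X s) Z).M)) (h.id h1 m)
  refine ⟨eid, ee, ie, ?_, ?_⟩
  · refine tb_ind ?_ ?_ ?_
    · obtain ⟨s, x, hx⟩ := h.surj 0
      exact ⟨s, 0, map_zero _⟩
    · rintro x y ⟨s, x0, rfl⟩ ⟨t, y0, rfl⟩
      obtain ⟨r, g1, g2⟩ := exists_ge_ge s t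
      refine ⟨r, ((e s r g1).tbR Z).f x0 + ((e t r g2).tbR Z).f y0, ?_⟩
      rw [map_add, ie, ie]
    · intro m n
      obtain ⟨s, x, rfl⟩ := h.surj m
      exact ⟨s, tm x n, GMap.tbR_tm _ _ _ _⟩
  · intro s0 x0 hx0
    haveI : Nonempty S := ⟨s0⟩
    let G : S → Type u := fun s => (MP_6e5bed_ag_NC.tb (X s) Z).M
    let f : ∀ s t, s ≤ t → G s →ₗ[k] G t := fun s t h => ((e s t h).tbR Z).f
    haveI : DirectedSystem G (fun s t h => f s t h) :=
      { map_self := fun {s} x => eid _ x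
        map_map := fun {s t r} h1 h' x => ee h1 h' x }
    let o : ∀ s, G s →ₗ[k] Module.DirectLimit G f := fun s => Module.DirectLimit.of k S G f s
    have of_f : ∀ {s t : S} (g : s ≤ t) (x : G s), o t (f s t g x) = o s x := fun g x =>
      Module.DirectLimit.of_f
    -- the bilinear map
    choose sg lg hlg using h.surj
    have key : ∀ (s t : S) (x : (X s).M) (y : (X t).M), (i s).f x = (i t).f y → ∀ n : Z.M,
        o s (tm x n) = o t (tm y n) := by
      intro s t x y hxy n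
      obtain ⟨r, g1, g2, hr⟩ := h.eq x y hxy
      rw [← of_f g1, ← of_f g2]
      refine congrArg (o r) ?_
      refine (GMap.tbR_tm _ _ _ _).trans (Eq.trans ?_ (GMap.tbR_tm _ _ _ _).symm)
      exact congrArg (fun z => (tm z n : (MP_6e5bed_ag_NC.tb (X r) Z).M)) hr
    let β : Y.M →ₗ[k] Z.M →ₗ[k] Module.DirectLimit G f := LinearMap.mk₂ k
      (fun y n => o (sg y) (tm (lg y) n))
      (fun y y' n => by
        obtain ⟨r, g1, g2⟩ := exists_ge_ge (sg y) (sg y')
        have h1 := key (sg (y + y')) r (lg (y + y'))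
          ((e _ r g1).f (lg y) + (e _ r g2).f (lg y')) (by
            rw [hlg, map_add]
            exact (congrArg₂ (· + ·) ((h.ie g1 _).trans (hlg y))
              ((h.ie g2 _).trans (hlg y'))).symm) n
        rw [h1, tm_add_left, map_add]
        refine congrArg₂ (· + ·) ?_ ?_
        · exact (key _ _ _ _ (h.ie g1 _).symm n).symm
        · exact (key _ _ _ _ (h.ie g2 _).symm n).symm)
      (fun c y n => by
        have h1 := key (sg (c • y)) (sg y) (lg (c • y)) (c • lg y) (by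
          rw [hlg, map_smul]
          exact (congrArg (c • ·) (hlg y)).symm) n
        rw [h1, tm_smul_left, map_smul])
      (fun y n n' => by rw [tm_add_right, map_add])
      (fun c y n => by rw [tm_smul_right, map_smul])
    have hβ : ∀ y b n, β (Y.r b y) n = β y (Z.l b n) := by
      intro y b n
      have h1 := key (sg (Y.r b y)) (sg y) (lg (Y.r b y)) ((X (sg y)).r b (lg y)) (by
        rw [(i (sg y)).map_r]
        exact (hlg _).trans (congrArg (Y.r b) (hlg y)).symm) n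
      refine h1.trans ?_
      rw [tm_r_l]
      rfl
    have hc : ∀ x : G s0, tlift β hβ (((i s0).tbR Z).f x) = o s0 x := by
      refine tb_ind ?_ ?_ ?_
      · rw [map_zero, map_zero, map_zero]
      · intro x y hx hy
        rw [map_add, map_add, map_add, hx, hy]
      · intro m n
        rw [GMap.tbR_tm, tlift_tm]
        exact key _ _ _ _ (hlg _) n
    have h0 : o s0 x0 = 0 := by
      rw [← hc, hx0, map_zero]
    obtain ⟨t, ht, ht'⟩ := Module.DirectLimit.of.zero_exact h0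
    exact ⟨t, ht, ht'⟩

end tb

end Pool.Agent.MP_6e5bed_ag_PN
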