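import Pool.Agent.Lib.MP_6e5bed_ag_PN.QiB

set_option autoImplicit false

/-!
# MP_6e5bed_ag, THEOREM G: the Čech complex on a chart which is contained in one of the open sets

This is the first part of `Lib/MP_6e5bed_ag_NS/Loc.lean` with an arbitrary index type.
-/

noncomputable section

namespace Pool.Agent.MP_6e5bed_ag_PN

open Pool.Agent.MP_6e5bed_ag_NC Pool.Agent.MP_6e5bed_ag_NS

universe u

variable {k : Type u} [CommRing k] {ι : Type}

/-! ### an open set of the list which contains the chart -/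

private def Loc_pr1 {X0 X1 X01 : Cx k} (r0 : CHom X0 X01) (r1 : CHom X1 X01) :
    CHom (co r0 r1) X1 where
  f := LinearMap.snd k X0.V X1.V ∘ₗ LinearMap.fst k (X0.V × X1.V) X01.V
  deg := fun {i x} h => by
    obtain ⟨⟨x0, x1⟩, ξ⟩ := x
    exact (co_deg.1 h).2.1
  d := fun x => by
    obtain ⟨⟨x0, x1⟩, ξ⟩ := x
    exact (congrArg (fun z => z.1.2) (co_d (r0 := r0) (r1 := r1) x0 x1 ξ)).symm

private theorem Loc_pr1_qi {X0 X1 X01 : Cx k} {r0 : CHom X0 X01} (r1 : CHom X1 X01)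
    (h : Function.Bijective r0.f) : Qi (Loc_pr1 r0 r1) := by
  refine Qi.of_surj ?_ ?_
  · intro x1
    exact ⟨co.mk r0 r1 0 x1 0, rfl⟩
  · rintro ⟨⟨x0, x1⟩, ξ⟩ hx hd
    have hx1 : x1 = 0 := hx
    subst hx1
    have e := (co_d (r0 := r0) (r1 := r1) x0 0 ξ).symm.trans hd
    have e1 : X0.dg.d x0 = 0 := congrArg (fun z => z.1.1) e
    have e2 : r1.f 0 - r0.f x0 - X01.dg.d ξ = 0 := congrArg (fun z => z.2) e
    obtain ⟨w, rfl⟩ := h.2 ξ
    refine ⟨co.mk r0 r1 (-w) 0 0, rfl, ?_⟩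
    refine (co_d (r0 := r0) (r1 := r1) (-w) 0 0).trans ?_
    have e3 : X0.dg.d (-w) = x0 := by
      apply h.1
      rw [map_neg, map_neg, ← r0.d]
      rw [map_zero, zero_sub] at e2
      rw [sub_eq_zero] at e2
      rw [← e2, neg_neg]
    refine Prod.ext (Prod.ext e3 (map_zero X1.dg.d)) ?_
    change r1.f 0 - r0.f (-w) - X01.dg.d 0 = r0.f w
    rw [map_zero, map_zero, map_neg, zero_sub, neg_neg, sub_zero]

private theorem Loc_bij {V : PC k ι} {c d : Ch ι} (h : c ≤ d) (h' : d ≤ c) :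
    Function.Bijective (V.ρ h).f := by
  refine ⟨fun x y hxy => ?_, fun x => ⟨(V.ρ h').f x, ?_⟩⟩
  · have e := congrArg (V.ρ h').f hxy
    rw [V.ρ_ρ, V.ρ_ρ, V.ρ_id, V.ρ_id] at e
    exact e
  · rw [V.ρ_ρ, V.ρ_id]

private theorem Loc_bij' {V : PC k ι} {W : WC V} {c d : FS ι} (h : c ≤ d) (h' : d ≤ c) :
    Function.Bijective (W.ρ h).f := by
  refine ⟨fun x y hxy => ?_, fun x => ⟨(W.ρ h').f x, ?_⟩⟩
  · have e := congrArg (W.ρ h').f hxy
    rw [W.ρ_ρ, W.ρ_ρ, W.ρ_id, W.ρ_id] at e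
    exact e
  · rw [W.ρ_ρ, W.ρ_id]

/-- If one of the open sets of the list contains the chart `c`, then the augmentation
`V c → (cC V L).X c` is a quasi-isomorphism. -/
theorem aug_mem (V : PC k ι) (l : ι) : ∀ (L : List ι), l ∈ L → ∀ c : Ch ι,
    l ∈ c.1 → Qi ((cC V L).a c)
  | [], h, _, _ => absurd h (List.not_mem_nil)
  | l' :: L, h, c, hl => by
    by_cases e : l ∈ L
    · have q1 := aug_mem V l L e c hl
      have q2 := aug_mem V l L e (c.fs.ins l') (Set.mem_insert_of_mem _ hl)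
      exact Qi.of_right (g := co.pr0 ((cC V L).ρ (le_ins c.fs l')) ((cC V L).a (c.fs.ins l')))
        (fun x => rfl) (co_pr0_qi _ q2) q1
    · have e1 : l = l' := (List.mem_cons.1 h).resolve_right e
      subst e1
      have h1 : c.fs.ins l ≤ c := Set.insert_subset hl (le_refl _)
      exact Qi.of_right
        (g := Loc_pr1 ((cC V L).ρ (le_ins c.fs l)) ((cC V L).a (c.fs.ins l)))
        (h := V.ρ (le_ins' c l)) (fun x => rfl) (Loc_pr1_qi _ (Loc_bij' _ h1))
        (Qi.of_bij (Loc_bij _ h1))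

/-- All open sets are in the list: then the augmentations on all charts are quasi-isomorphisms. -/
theorem aug_qi (V : PC k ι) {L : List ι} (hL : ∀ l, l ∈ L) (c : Ch ι) : Qi ((cC V L).a c) := by
  obtain ⟨l, hl⟩ := c.2.1
  exact aug_mem V l L (hL l) c hl

end Pool.Agent.MP_6e5bed_ag_PN
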