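import Pool.Agent.Lib.MP_6e5bed_ag_PN.Pc
import Pool.Agent.Lib.MP_6e5bed_ag_PN.Aug

set_option autoImplicit false
set_option linter.unusedVariables false

/-!
# MP_6e5bed_ag, THEOREM G: the augmentation of a presheaf which does not change under `c → c ∪ l`
(3.1b)
-/

noncomputable section

namespace Pool.Agent.MP_6e5bed_ag_PN

open Pool.Agent.MP_6e5bed_ag_NC Pool.Agent.MP_6e5bed_ag_NS

universe u

variable {k : Type u} [CommRing k] {ι : Type}

/-- The projection `(x0, x1, ξ) ↦ x1`. -/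
def co_pr1 {X0 X1 X01 : Cx k} (r0 : CHom X0 X01) (r1 : CHom X1 X01) : CHom (co r0 r1) X1 where
  f := LinearMap.snd k X0.V X1.V ∘ₗ LinearMap.fst k (X0.V × X1.V) X01.V
  deg := fun {i x} h => by
    obtain ⟨⟨x0, x1⟩, ξ⟩ := x
    exact (co_deg.1 h).2.1
  d := fun x => by
    obtain ⟨⟨x0, x1⟩, ξ⟩ := x
    exact (congrArg (fun z => z.1.2) (co_d (r0 := r0) (r1 := r1) x0 x1 ξ)).symm

/-- If `X0 → X01` is a quasi-isomorphism, so is the projection to `X1`. -/
theorem co_pr1_qi {X0 X1 X01 : Cx k} {r0 : CHom X0 X01} (r1 : CHom X1 X01) (h : Qi r0) :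
    Qi (co_pr1 r0 r1) := by
  constructor
  · rintro ⟨⟨x0, x1⟩, ξ⟩ hx ⟨z1, hz1⟩
    have ex := (co_d (r0 := r0) (r1 := r1) x0 x1 ξ).symm.trans hx
    have ex0 : X0.dg.d x0 = 0 := congrArg (fun z => z.1.1) ex
    have exx : r1.f x1 - r0.f x0 - X01.dg.d ξ = 0 := congrArg (fun z => z.2) ex
    have hz1' : X1.dg.d z1 = x1 := hz1
    obtain ⟨z0, hz0⟩ := h.1 x0 ex0 ⟨r1.f z1 - ξ, by
      rw [map_sub, r1.d, hz1', ← sub_eq_zero.1 exx]
      abel⟩
    obtain ⟨a0, ha0, β, hβ⟩ := h.2 (r1.f z1 - ξ - r0.f z0) (by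
      rw [map_sub, map_sub, r1.d, r0.d, hz1', hz0, ← sub_eq_zero.1 exx]
      abel)
    refine ⟨((z0 + a0, z1), β), (co_d (r0 := r0) (r1 := r1) _ _ _).trans ?_⟩
    refine Prod.ext (Prod.ext ?_ hz1') ?_
    · change X0.dg.d (z0 + a0) = x0
      rw [map_add, hz0, ha0, add_zero]
    · change r1.f z1 - r0.f (z0 + a0) - X01.dg.d β = ξ
      rw [hβ, map_add]
      abel
  · intro x1 hx1
    obtain ⟨x0, hx0, β, hβ⟩ := h.2 (r1.f x1) (by rw [r1.d, hx1, map_zero])
    refine ⟨((x0, x1), β), (co_d (r0 := r0) (r1 := r1) _ _ _).trans ?_, 0, ?_⟩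
    · refine Prod.ext (Prod.ext hx0 hx1) ?_
      change r1.f x1 - r0.f x0 - X01.dg.d β = 0
      rw [hβ]
      abel
    · change X1.dg.d 0 = x1 - x1
      rw [map_zero, sub_self]

private theorem augE_V {V : PC k ι} {l : ι} (hρ : ∀ c : Ch ι, Qi (V.ρ (le_ins' c l)))
    {c d : Ch ι} (h : c ≤ d) (hd : d = c.fs.ins l) : Qi (V.ρ h) := by
  subst hd
  exact hρ c

/-- The restriction `(cC V L).X c → (cC V L).X (c ∪ l)`. -/
theorem augE_ρ {V : PC k ι} {l : ι} (hρ : ∀ c : Ch ι, Qi (V.ρ (le_ins' c l))) :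
    ∀ (L : List ι) (c d : FS ι) (h : c ≤ d), d = (c.ins l).fs → Qi ((cC V L).ρ h)
  | [], c, d, h, hd => ⟨fun x _ _ => ⟨0, rfl⟩, fun y _ => ⟨0, rfl, 0, rfl⟩⟩
  | l' :: L, c, d, h, hd => by
    have e1 : d.ins l' = (c.ins l').fs.ins l := by
      subst hd
      exact Subtype.ext (Set.insert_comm l' l c.1)
    have h0 := augE_ρ hρ L c d h hd
    have h1 := augE_V hρ (ins_mono h l') e1
    have h2 := augE_ρ hρ L (c.ins l').fs (d.ins l').fs (fs_mono (ins_mono h l'))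
      (congrArg Ch.fs e1)
    exact co_map_qi (fun x => by rw [(cC V L).ρ_ρ, (cC V L).ρ_ρ])
      (fun x => ((cC V L).a_ρ _ x).symm) h0 h1 h2

/-- If all restrictions `V c → V (c ∪ l)` are quasi-isomorphisms and `l ∈ L`, then the
augmentations `V c → (cC V L).X c` are quasi-isomorphisms. -/
theorem augE_a {V : PC k ι} {l : ι} (hρ : ∀ c : Ch ι, Qi (V.ρ (le_ins' c l))) :
    ∀ (L : List ι), l ∈ L → ∀ c : Ch ι, Qi ((cC V L).a c)
  | [], hl, c => absurd hl List.not_mem_nil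
  | l' :: L, hl, c => by
    by_cases hl' : l' = l
    · subst hl'
      exact Qi.of_right (f := (cC V (l' :: L)).a c)
        (g := co_pr1 ((cC V L).ρ (le_ins c.fs l')) ((cC V L).a (c.fs.ins l')))
        (h := V.ρ (le_ins' c l')) (fun x => rfl)
        (co_pr1_qi _ (augE_ρ hρ L c.fs (c.fs.ins l').fs (le_ins c.fs l') rfl)) (hρ c)
    · have hL : l ∈ L := by
        rcases List.mem_cons.1 hl with h | h
        · exact absurd h.symm hl'
        · exact h
      exact Qi.of_right (f := (cC V (l' :: L)).a c)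
        (g := co.pr0 ((cC V L).ρ (le_ins c.fs l')) ((cC V L).a (c.fs.ins l')))
        (h := (cC V L).a c) (fun x => rfl)
        (co_pr0_qi _ (augE_a hρ L hL (c.fs.ins l'))) (augE_a hρ L hL c)

/-- (3.1b): compatible maps `X → V c`. If all restrictions `V c → V (c ∪ l)` and `X → V {l}` are
quasi-isomorphisms and `l ∈ L`, then `X → (cC V L).X ∅` is a quasi-isomorphism. -/
theorem augE {X : Cx k} {V : PC k ι} (f : PCC X V) {l : ι}
    (hρ : ∀ c : Ch ι, Qi (V.ρ (le_ins' c l))) (hf : Qi (f.f ((FS.e ι).ins l))) :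
    ∀ (L : List ι), l ∈ L → Qi ((f.aug L).g (FS.e ι))
  | [], hl => absurd hl List.not_mem_nil
  | l' :: L, hl => by
    by_cases hl' : l' = l
    · subst hl'
      exact Qi.of_right (f := (f.aug (l' :: L)).g (FS.e ι))
        (g := co_pr1 ((cC V L).ρ (le_ins (FS.e ι) l')) ((cC V L).a ((FS.e ι).ins l')))
        (h := f.f ((FS.e ι).ins l')) (fun x => rfl)
        (co_pr1_qi _ (augE_ρ hρ L (FS.e ι) ((FS.e ι).ins l').fs (le_ins (FS.e ι) l') rfl)) hf
    · have hL : l ∈ L := by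
        rcases List.mem_cons.1 hl with h | h
        · exact absurd h.symm hl'
        · exact h
      exact Qi.of_right (f := (f.aug (l' :: L)).g (FS.e ι))
        (g := co.pr0 ((cC V L).ρ (le_ins (FS.e ι) l')) ((cC V L).a ((FS.e ι).ins l')))
        (h := (f.aug L).g (FS.e ι)) (fun x => rfl)
        (co_pr0_qi _ (augE_a hρ L hL ((FS.e ι).ins l'))) (augE f hρ hf L hL)

/-- The constant augmentation is natural. -/
theorem aug_nat {X X' : Cx k} {V V' : PC k ι} (f : PCC X V) (f' : PCC X' V') (α : CHom X X')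
    (φ : PCH V V') (h : ∀ c x, (φ.f c).f ((f.f c).f x) = (f'.f c).f (α.f x)) :
    ∀ (L : List ι) (c : FS ι) x,
      ((cH φ L).g c).f (((f.aug L).g c).f x) = ((f'.aug L).g c).f (α.f x)
  | [], c, x => rfl
  | l :: L, c, x => by
    refine Prod.ext (Prod.ext (aug_nat f f' α φ h L c x) (h _ x)) ?_
    exact map_zero ((cH φ L).g (c.ins l).fs).f

/-- Quasi-isomorphic augmentations. -/
theorem aug_qi_iff {X X' : Cx k} {V V' : PC k ι} (f : PCC X V) (f' : PCC X' V') (α : CHom X X')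
    (φ : PCH V V') (h : ∀ c x, (φ.f c).f ((f.f c).f x) = (f'.f c).f (α.f x)) (hα : Qi α)
    (hφ : ∀ c, Qi (φ.f c)) (L : List ι) (c : FS ι) :
    Qi ((f.aug L).g c) ↔ Qi ((f'.aug L).g c) := by
  have hc := cH_qi φ hφ L c
  have hn := aug_nat f f' α φ h L c
  constructor
  · intro hf
    exact Qi.of_left (f := α) (g := (f'.aug L).g c) (h := ((f.aug L).g c).comp ((cH φ L).g c))
      (fun x => (hn x).symm) hα (hf.comp hc)
  · intro hf
    exact Qi.of_right (f := (f.aug L).g c) (g := (cH φ L).g c) (h := α.comp ((f'.aug L).g c))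
      (fun x => hn x) hc (hα.comp hf)

/-- The Čech complexes of presheaves of acyclic complexes are acyclic. -/
theorem cC_acy {V : PC k ι} (h : ∀ c, Acy (V.X c)) (L : List ι) (c : FS ι) :
    Acy ((cC V L).X c) := by
  induction L generalizing c with
  | nil => exact fun x _ => ⟨0, rfl⟩
  | cons l L ih =>
    rintro ⟨⟨x0, x1⟩, ξ⟩ hx
    have ex := (co_d (r0 := (cC V L).ρ (le_ins c l)) (r1 := (cC V L).a (c.ins l)) x0 x1
      ξ).symm.trans hx
    have ex0 : ((cC V L).X c).dg.d x0 = 0 := congrArg (fun z => z.1.1) ex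
    have ex1 : (V.X (c.ins l)).dg.d x1 = 0 := congrArg (fun z => z.1.2) ex
    have exx : ((cC V L).a (c.ins l)).f x1 - ((cC V L).ρ (le_ins c l)).f x0 -
      ((cC V L).X (c.ins l).fs).dg.d ξ = 0 := congrArg (fun z => z.2) ex
    obtain ⟨z0, hz0⟩ := ih c x0 ex0
    obtain ⟨z1, hz1⟩ := h (c.ins l) x1 ex1
    obtain ⟨ζ, hζ⟩ := ih (c.ins l).fs (((cC V L).a (c.ins l)).f z1 -
      ((cC V L).ρ (le_ins c l)).f z0 - ξ) (by
        rw [map_sub, map_sub, ((cC V L).a (c.ins l)).d, ((cC V L).ρ (le_ins c l)).d, hz0, hz1]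
        exact exx)
    refine ⟨((z0, z1), ζ), (co_d (r0 := (cC V L).ρ (le_ins c l)) (r1 := (cC V L).a (c.ins l))
      _ _ _).trans ?_⟩
    refine Prod.ext (Prod.ext hz0 hz1) ?_
    change ((cC V L).a (c.ins l)).f z1 - ((cC V L).ρ (le_ins c l)).f z0 -
      ((cC V L).X (c.ins l).fs).dg.d ζ = ξ
    rw [hζ]
    abel

end Pool.Agent.MP_6e5bed_ag_PN
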