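import Pool.Agent.Lib.MP_6e5bed_ag_PN.Two
import Pool.Agent.Lib.MP_6e5bed_ag_CV.Ses

set_option autoImplicit false
set_option linter.unusedVariables false

/-!
# MP_6e5bed_ag, THEOREM G: exact sequences of presheaves give exact sequences of Čech bimodules
-/

noncomputable section

namespace Pool.Agent.MP_6e5bed_ag_PN

open Pool.Agent.MP_6e5bed_ag_NC Pool.Agent.MP_6e5bed_ag_NS

universe u

variable {k : Type u} [Field k] {ι κ : Type} {A : PA k ι} {B : PA k κ} {C : DGA k}

/-- Exact sequences of presheaves give exact sequences of Čech bimodules. -/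
theorem PBEx.ses {A B : PA k ι} {M' M M'' : PB A B} {i : PBH M' M} {p : PBH M M''}
    (h : PBEx i p) (L : List ι) (c : FS ι) : IsSes (cB M' L c) (cB M L c) (cB M'' L c) := by
  exact ⟨i.gmap L c, p.gmap L c, i.gmap_dd L c, p.gmap_dd L c,
    cH_inj i.pch (fun c => (h c).1) L c, cH_surj p.pch (fun c => (h c).2.1) L c,
    fun x => cH_exact i.pch p.pch (fun c => (h c).2.2) L c x⟩

/-- Exact sequences. -/
theorem PBEx.sesR {M' M M'' : PB A (PA.con ι C)} {i : PBH M' M} {p : PBH M M''} (h : PBEx i p)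
    (L : List ι) (c : FS ι) : IsSes (cBR M' L c) (cBR M L c) (cBR M'' L c) :=
  (h.ses L c).res _ _

/-- Exact sequences. -/
theorem PBEx.sesL {M' M M'' : PB (PA.con κ C) B} {i : PBH M' M} {p : PBH M M''} (h : PBEx i p)
    (L : List κ) (c : FS κ) : IsSes (cBL M' L c) (cBL M L c) (cBL M'' L c) :=
  (h.ses L c).res _ _

/-- Exact sequences of presheaves give exact sequences of bimodules. -/
theorem PB2Ex.ses {M' M M'' : PB2 A B} {i : PB2H M' M} {p : PB2H M M''} (h : PB2Ex i p)
    (L : List ι) (c : FS ι) (L' : List κ) (c' : FS κ) :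
    IsSes (cB2 M' L c L' c') (cB2 M L c L' c') (cB2 M'' L c L' c') :=
  (h.push L c).sesL L' c'

end Pool.Agent.MP_6e5bed_ag_PN
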