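import Pool.Agent.Lib.MP_6e5bed_ag_PN.Dg
import Pool.Agent.Lib.MP_6e5bed_ag_CV.FCRes

set_option autoImplicit false
set_option linter.unusedVariables false

/-!
# MP_6e5bed_ag, THEOREM G: the class of the diagonal bisheaf, over a field
-/

noncomputable section

namespace Pool.Agent.MP_6e5bed_ag_PN

open Pool.Agent.MP_6e5bed_ag_NC Pool.Agent.MP_6e5bed_ag_NS

universe u

variable {k : Type u} [Field k] {ι : Type}

theorem dg_hasRes (A : PA k ι) {L : List ι} (hL : ∀ l, l ∈ L)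
    (hS : Smooth (cA A L (FS.e ι))) : HasRes (cB2 (PA.dg A) L (FS.e ι) L (FS.e ι)) :=
  HasRes.of_qiso' hS.hasRes_diag (dgF A L) (dgF_qi A L (fun c => aug_qi A.pc hL c))

/-- The class of the double Čech complex of the diagonal bisheaf is the unit. -/
theorem dg_rcls (A : PA k ι) {L : List ι} (hL : ∀ l, l ∈ L)
    (hS : Smooth (cA A L (FS.e ι))) (hP : Proper (cA A L (FS.e ι)))
    (h : HasRes (cB2 (PA.dg A) L (FS.e ι) L (FS.e ι))) :
    rcls (cB2 (PA.dg A) L (FS.e ι) L (FS.e ι)) h = K0Q.one hS :=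
  (rcls_qiso h hS.hasRes_diag (dgF A L) (dgF_qi A L (fun c => aug_qi A.pc hL c))).trans
    (rcls_diag hS hP hS.hasRes_diag)

/-- The cohomology of the Čech algebra is finite-dimensional if the cohomology of the double Čech
complex of the diagonal bisheaf is. -/
theorem dg_finCoh (A : PA k ι) {L : List ι} (hL : ∀ l, l ∈ L) :
    (cB2 (PA.dg A) L (FS.e ι) L (FS.e ι)).dg.FinCoh ↔ (cA A L (FS.e ι)).dg.FinCoh :=
  QIso.finCoh (dgF A L) (dgF_qi A L (fun c => aug_qi A.pc hL c))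

theorem dg_proper (A : PA k ι) {L : List ι} (hL : ∀ l, l ∈ L) :
    (cB2 (PA.dg A) L (FS.e ι) L (FS.e ι)).dg.FinCoh ↔ Proper (cA A L (FS.e ι)) :=
  (dg_finCoh A hL).trans (proper_iff _).symm

end Pool.Agent.MP_6e5bed_ag_PN
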