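import Pool.Agent.Lib.MP_6e5bed_ag_PN.DAct
import Pool.Agent.Lib.MP_6e5bed_ag_PN.Ac

set_option autoImplicit false
set_option linter.unusedVariables false

/-!
# MP_6e5bed_ag, THEOREM G: actions of commutative rings on Čech complexes (section 4.4)
-/

noncomputable section

namespace Pool.Agent.MP_6e5bed_ag_PN

open Pool.Agent.MP_6e5bed_ag_NC Pool.Agent.MP_6e5bed_ag_NS

universe u v

variable {k : Type u} [CommRing k] {ι : Type} {D : Type v} [CommRing D] [Algebra k D]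

/-! ### Finitely generated complexes -/

/-- If the whole module is finitely generated over the Noetherian ring `D`, then so are all
subquotients. -/
theorem FGq.of_top [IsNoetherianRing D] {V : Type u} [AddCommGroup V] [Module k V]
    {φ : D →ₐ[k] Module.End k V} {Z B : Submodule k V} (hZ : Stb φ Z) (h : FGq φ ⊤ ⊥) :
    FGq φ Z B := by
  refine FGq.exact' (φU := φ) (φW := φ) (ZU := ⊥) (BU := ⊥) (ZW := ⊤) (BW := ⊥)
    (fun x y => x = y) ?_ ?_ ?_ ?_ hZ ?_ (fun y w => y = w) rfl ?_ ?_ ?_ ?_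
    (FGq.of_le le_rfl) h
  · rintro x x' _ _ rfl rfl
    rfl
  · rintro r x _ rfl
    rfl
  · rintro x hx
    rw [Submodule.mem_bot] at hx
    subst hx
    exact ⟨0, Z.zero_mem, rfl⟩
  · rintro x _ hx _ rfl
    rw [Submodule.mem_bot] at hx
    subst hx
    exact B.zero_mem
  · rintro r x hx
    rw [Submodule.mem_bot] at hx
    subst hx
    rw [map_zero]
    exact Submodule.zero_mem _
  · rintro y y' _ _ rfl rfl
    rfl
  · rintro r y _ rfl
    rfl
  · exact fun y _ => ⟨y, Submodule.mem_top, rfl⟩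
  · rintro y _ hy hw rfl
    rw [Submodule.mem_bot] at hw
    subst hw
    exact ⟨0, Submodule.zero_mem _, 0, Z.zero_mem, rfl, by
      rw [sub_zero]
      exact B.zero_mem⟩

/-- The complex is finitely generated over `D`. -/
def DAct.FGm {X : Cx k} (a : DAct D X) : Prop := FGq a.φ ⊤ ⊥

theorem DAct.fin_iff {X : Cx k} (a : DAct D X) : a.FGm ↔
    ∃ (n : ℕ) (s : Fin n → X.V), ∀ x, ∃ r : Fin n → D, x = ∑ i, a.φ (r i) (s i) := by
  constructor
  · rintro ⟨n, s, -, h⟩
    refine ⟨n, s, fun x => ?_⟩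
    obtain ⟨r, hr⟩ := h x Submodule.mem_top
    exact ⟨r, sub_eq_zero.1 ((Submodule.mem_bot k).1 hr)⟩
  · rintro ⟨n, s, h⟩
    refine ⟨n, s, fun _ => Submodule.mem_top, fun x _ => ?_⟩
    obtain ⟨r, hr⟩ := h x
    exact ⟨r, (Submodule.mem_bot k).2 (sub_eq_zero.2 hr)⟩

/-- an arbitrary finite index set -/
theorem DAct.FGm.of_fintype {X : Cx k} {a : DAct D X} {I : Type*} [Fintype I] (s : I → X.V)
    (h : ∀ x, ∃ r : I → D, x = ∑ i, a.φ (r i) (s i)) : a.FGm :=
  FGq.of_fintype s (fun _ => Submodule.mem_top) fun x _ => by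
    obtain ⟨r, hr⟩ := h x
    exact ⟨r, (Submodule.mem_bot k).2 (sub_eq_zero.2 hr)⟩

theorem DAct.FGm.fgt [IsNoetherianRing D] {X : Cx k} {a : DAct D X} (h : a.FGm) : a.FGt :=
  FGq.of_top a.stb_ker h

theorem DAct.FGm.fg [IsNoetherianRing D] {X : Cx k} {a : DAct D X} (h : a.FGm) (j : ℤ) :
    a.FG j :=
  FGq.of_top (a.stb_Z j) h

/-- Finite modules. -/
theorem DAct.FGm.of_module {E : Type u} [AddCommGroup E] [Module k E] [Module D E]
    [Module.Finite D E] {a : DAct D (Cx.conc k E)}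
    (h : ∀ (r : D) (x : E), a.φ r x = (r • x : E)) : a.FGm := by
  obtain ⟨n, s, hs⟩ := Submodule.fg_iff_exists_fin_generating_family.1
    (Module.Finite.fg_top (R := D) (M := E))
  have key : ∀ x : E, ∃ r : Fin n → D, x = ∑ i, r i • s i := fun x => by
    have h1 : x ∈ Submodule.span D (Set.range s) := by
      rw [hs]
      exact Submodule.mem_top
    obtain ⟨r, hr⟩ := (Submodule.mem_span_range_iff_exists_fun D).1 h1
    exact ⟨r, hr.symm⟩
  refine DAct.FGm.of_fintype (a := a) (I := Fin n) s fun x => ?_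
  obtain ⟨r, hr⟩ := key x
  exact ⟨r, hr.trans (Finset.sum_congr rfl fun i _ => (h _ _).symm)⟩

/-- Quotients. -/
theorem DAct.FGm.of_surj {X Y : Cx k} {a : DAct D X} {b : DAct D Y} (f : CHom X Y)
    (hf : Function.Surjective f.f) (he : a.Eqv b f) (h : a.FGm) : b.FGm :=
  FGq.of_surj f.f he (fun _ _ => Submodule.mem_top)
    (fun x hx => by
      rw [Submodule.mem_bot] at hx
      subst hx
      rw [map_zero]
      exact Submodule.zero_mem _)
    (fun y _ => by
      obtain ⟨x, rfl⟩ := hf y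
      exact ⟨x, Submodule.mem_top, by
        rw [sub_self]
        exact Submodule.zero_mem _⟩) h

/-! ### The complex of a cospan -/

/-- The action on the zero complex. -/
def DAct.zero : DAct D (Cx.zero k) where
  φ :=
    { toFun := fun _ => 0
      map_one' := LinearMap.ext fun _ => rfl
      map_mul' := fun _ _ => LinearMap.ext fun _ => rfl
      map_zero' := LinearMap.ext fun _ => rfl
      map_add' := fun _ _ => LinearMap.ext fun _ => rfl
      commutes' := fun _ => LinearMap.ext fun _ => rfl }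
  deg := fun _ _ _ => Dg.IsDeg.zero _
  d := fun _ _ => rfl

section co

variable {X0 X1 X01 : Cx k} {r0 : CHom X0 X01} {r1 : CHom X1 X01}

/-- The action on the complex of a cospan. -/
def DAct.co (a0 : DAct D X0) (a1 : DAct D X1) (a01 : DAct D X01) (h0 : a0.Eqv a01 r0)
    (h1 : a1.Eqv a01 r1) : DAct D (MP_6e5bed_ag_NS.co r0 r1) where
  φ := (LinearMap.prodMapAlgHom k (X0.V × X1.V) X01.V).comp
    (AlgHom.prod ((LinearMap.prodMapAlgHom k X0.V X1.V).comp (a0.φ.prod a1.φ)) a01.φ)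
  deg := fun {j} r x hx => by
    obtain ⟨⟨x0, x1⟩, ξ⟩ := x
    have h := co_deg.1 hx
    exact co_deg.2 ⟨a0.deg r h.1, a1.deg r h.2.1, a01.deg r h.2.2⟩
  d := fun r x => by
    obtain ⟨⟨x0, x1⟩, ξ⟩ := x
    have e1 := co_d (r0 := r0) (r1 := r1) (a0.φ r x0) (a1.φ r x1) (a01.φ r ξ)
    have e2 := co_d (r0 := r0) (r1 := r1) x0 x1 ξ
    refine Eq.trans e1 (Eq.trans ?_ (congrArg _ e2.symm))
    refine Prod.ext (Prod.ext (a0.d r x0) (a1.d r x1)) ?_
    change r1.f (a1.φ r x1) - r0.f (a0.φ r x0) - X01.dg.d (a01.φ r ξ) =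
      a01.φ r (r1.f x1 - r0.f x0 - X01.dg.d ξ)
    rw [h0, h1, a01.d, map_sub, map_sub]

theorem DAct.co_φ (a0 : DAct D X0) (a1 : DAct D X1) (a01 : DAct D X01) (h0 : a0.Eqv a01 r0)
    (h1 : a1.Eqv a01 r1) (r : D) (x0 : X0.V) (x1 : X1.V) (ξ : X01.V) :
    (DAct.co a0 a1 a01 h0 h1).φ r (co.mk r0 r1 x0 x1 ξ) =
      co.mk r0 r1 (a0.φ r x0) (a1.φ r x1) (a01.φ r ξ) := rfl

theorem DAct.FGm.co {a0 : DAct D X0} {a1 : DAct D X1} {a01 : DAct D X01}
    {h0 : a0.Eqv a01 r0} {h1 : a1.Eqv a01 r1} (f0 : a0.FGm) (f1 : a1.FGm) (f01 : a01.FGm) :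
    (DAct.co a0 a1 a01 h0 h1).FGm := by
  obtain ⟨n, s, hs⟩ := a0.fin_iff.1 f0
  obtain ⟨m, t, ht⟩ := a1.fin_iff.1 f1
  obtain ⟨p, w, hw⟩ := a01.fin_iff.1 f01
  refine DAct.FGm.of_fintype (I := (Fin n ⊕ Fin m) ⊕ Fin p)
    (Sum.elim (Sum.elim (fun i => co.mk r0 r1 (s i) 0 0) (fun i => co.mk r0 r1 0 (t i) 0))
      (fun i => co.mk r0 r1 0 0 (w i))) ?_
  rintro ⟨⟨x0, x1⟩, ξ⟩
  obtain ⟨r, hr⟩ := hs x0
  obtain ⟨q, hq⟩ := ht x1
  obtain ⟨z, hz⟩ := hw ξ
  refine ⟨Sum.elim (Sum.elim r q) z, ?_⟩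
  rw [Fintype.sum_sum_type, Fintype.sum_sum_type]
  simp only [Sum.elim_inl, Sum.elim_inr]
  have e1 : ∑ i, (DAct.co a0 a1 a01 h0 h1).φ (r i) (co.mk r0 r1 (s i) 0 0) =
      co.mk r0 r1 x0 0 0 := by
    have e : ∀ i, (DAct.co a0 a1 a01 h0 h1).φ (r i) (co.mk r0 r1 (s i) 0 0) =
        co.mk r0 r1 (a0.φ (r i) (s i)) 0 0 := fun i => by
      rw [DAct.co_φ, map_zero, map_zero]
    rw [hr, Finset.sum_congr rfl fun i _ => e i]
    refine Prod.ext (Prod.ext ?_ ?_) ?_
    · exact ((congrArg Prod.fst Prod.fst_sum).trans Prod.fst_sum)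
    · refine ((congrArg Prod.snd Prod.fst_sum).trans Prod.snd_sum).trans ?_
      exact Finset.sum_eq_zero fun _ _ => rfl
    · exact Prod.snd_sum.trans (Finset.sum_eq_zero fun _ _ => rfl)
  have e2 : ∑ i, (DAct.co a0 a1 a01 h0 h1).φ (q i) (co.mk r0 r1 0 (t i) 0) =
      co.mk r0 r1 0 x1 0 := by
    have e : ∀ i, (DAct.co a0 a1 a01 h0 h1).φ (q i) (co.mk r0 r1 0 (t i) 0) =
        co.mk r0 r1 0 (a1.φ (q i) (t i)) 0 := fun i => by
      rw [DAct.co_φ, map_zero, map_zero]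
    rw [hq, Finset.sum_congr rfl fun i _ => e i]
    refine Prod.ext (Prod.ext ?_ ?_) ?_
    · refine ((congrArg Prod.fst Prod.fst_sum).trans Prod.fst_sum).trans ?_
      exact Finset.sum_eq_zero fun _ _ => rfl
    · exact ((congrArg Prod.snd Prod.fst_sum).trans Prod.snd_sum)
    · exact Prod.snd_sum.trans (Finset.sum_eq_zero fun _ _ => rfl)
  have e3 : ∑ i, (DAct.co a0 a1 a01 h0 h1).φ (z i) (co.mk r0 r1 0 0 (w i)) =
      co.mk r0 r1 0 0 ξ := by
    have e : ∀ i, (DAct.co a0 a1 a01 h0 h1).φ (z i) (co.mk r0 r1 0 0 (w i)) =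
        co.mk r0 r1 0 0 (a01.φ (z i) (w i)) := fun i => by
      rw [DAct.co_φ, map_zero, map_zero]
    rw [hz, Finset.sum_congr rfl fun i _ => e i]
    refine Prod.ext (Prod.ext ?_ ?_) ?_
    · refine ((congrArg Prod.fst Prod.fst_sum).trans Prod.fst_sum).trans ?_
      exact Finset.sum_eq_zero fun _ _ => rfl
    · refine ((congrArg Prod.snd Prod.fst_sum).trans Prod.snd_sum).trans ?_
      exact Finset.sum_eq_zero fun _ _ => rfl
    · exact Prod.snd_sum
  rw [e1, e2, e3]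
  refine Prod.ext (Prod.ext ?_ ?_) ?_
  · change x0 = x0 + 0 + 0
    rw [add_zero, add_zero]
  · change x1 = 0 + x1 + 0
    rw [add_zero, zero_add]
  · change ξ = 0 + 0 + ξ
    rw [add_zero, zero_add]

end co

/-! ### Presheaves of complexes -/

/-- An action of `D` on a presheaf of complexes. -/
structure PDA (D : Type v) [CommRing D] [Algebra k D] (V : PC k ι) where
  a : ∀ c, DAct D (V.X c)
  eqv : ∀ {c d : Ch ι} (h : c ≤ d), (a c).Eqv (a d) (V.ρ h)

/-- Actions over an action. -/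
structure WDA {V : PC k ι} (P : PDA D V) (W : WC V) where
  b : ∀ c, DAct D (W.X c)
  ρ : ∀ {c d : FS ι} (h : c ≤ d), (b c).Eqv (b d) (W.ρ h)
  α : ∀ c : Ch ι, (P.a c).Eqv (b c.fs) (W.a c)

/-- The zero complexes. -/
def WDA.nil {V : PC k ι} (P : PDA D V) : WDA P (WC.nil V) where
  b := fun _ => DAct.zero
  ρ := fun _ _ _ => rfl
  α := fun _ _ _ => rfl

/-- The step of the recursion. -/
def WDA.cons {V : PC k ι} {P : PDA D V} {W : WC V} (w : WDA P W) (l : ι) :
    WDA P (W.cons l) where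
  b := fun c => DAct.co (w.b c) (P.a (c.ins l)) (w.b (c.ins l).fs) (w.ρ (le_ins c l))
    (w.α (c.ins l))
  ρ := fun {c d} h r x => by
    obtain ⟨⟨x0, x1⟩, ξ⟩ := x
    exact Prod.ext (Prod.ext (w.ρ h r x0) (P.eqv (ins_mono h l) r x1))
      (w.ρ (fs_mono (ins_mono h l)) r ξ)
  α := fun c r x => by
    refine Prod.ext (Prod.ext (w.α c r x) (P.eqv (le_ins' c l) r x)) ?_
    exact (map_zero ((w.b (c.fs.ins l).fs).φ r)).symm

namespace PDA

variable {V V' : PC k ι}

/-- The actions on the Čech complexes. -/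
def wc (P : PDA D V) : ∀ L : List ι, WDA P (MP_6e5bed_ag_PN.cC V L)
  | [] => WDA.nil P
  | l :: L => (P.wc L).cons l

/-- The action on the Čech complex. -/
def cC (P : PDA D V) (L : List ι) (c : FS ι) : DAct D ((MP_6e5bed_ag_PN.cC V L).X c) := (P.wc L).b c

theorem cC_ρ (P : PDA D V) (L : List ι) {c d : FS ι} (h : c ≤ d) :
    (P.cC L c).Eqv (P.cC L d) ((MP_6e5bed_ag_PN.cC V L).ρ h) := (P.wc L).ρ h

theorem cC_a (P : PDA D V) (L : List ι) (c : Ch ι) :
    (P.a c).Eqv (P.cC L c.fs) ((MP_6e5bed_ag_PN.cC V L).a c) := (P.wc L).α c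

/-- Equivariant morphisms of presheaves induce equivariant morphisms of the Čech complexes. -/
theorem cH (P : PDA D V) (P' : PDA D V') (f : PCH V V')
    (h : ∀ c, (P.a c).Eqv (P'.a c) (f.f c)) (L : List ι) (c : FS ι) :
    (P.cC L c).Eqv (P'.cC L c) ((MP_6e5bed_ag_PN.cH f L).g c) := by
  induction L generalizing c with
  | nil => exact fun _ _ => rfl
  | cons l L ih =>
    rintro r ⟨⟨x0, x1⟩, ξ⟩
    exact Prod.ext (Prod.ext (ih c r x0) (h (c.ins l) r x1)) (ih (c.ins l).fs r ξ)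

/-- Čech complexes of finitely generated modules. -/
theorem cC_Fin (P : PDA D V) (h : ∀ c, (P.a c).FGm) (L : List ι) (c : FS ι) :
    (P.cC L c).FGm := by
  induction L generalizing c with
  | nil =>
    exact DAct.FGm.of_fintype (I := Empty) (fun i => i.elim) fun x => ⟨fun i => i.elim, rfl⟩
  | cons l L ih =>
    exact DAct.FGm.co (h0 := P.cC_ρ L _) (h1 := P.cC_a L _) (ih c) (h (c.ins l))
      (ih (c.ins l).fs)

/-- As `cC_Fin`, with the additional hypothesis that all charts which occur are contained in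
`S` and contain `e`. -/
theorem cC_FinS (P : PDA D V) (S : Set ι) (e : FS ι)
    (h : ∀ c : Ch ι, c.1 ⊆ S → e.1 ⊆ c.1 → (P.a c).FGm) (L : List ι) (hL : ∀ l ∈ L, l ∈ S)
    (c : FS ι) (hc : c.1 ⊆ S) (hc' : e.1 ⊆ c.1) : (P.cC L c).FGm := by
  induction L generalizing c with
  | nil =>
    exact DAct.FGm.of_fintype (I := Empty) (fun i => i.elim) fun x => ⟨fun i => i.elim, rfl⟩
  | cons l L ih =>
    have h1 : (c.ins l).1 ⊆ S := Set.insert_subset (hL l List.mem_cons_self) hc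
    have h2 : e.1 ⊆ (c.ins l).1 := hc'.trans (Set.subset_insert l c.1)
    have hL' : ∀ l ∈ L, l ∈ S := fun l' hl' => hL l' (List.mem_cons_of_mem l hl')
    exact DAct.FGm.co (h0 := P.cC_ρ L _) (h1 := P.cC_a L _) (ih hL' c hc hc')
      (h (c.ins l) h1 h2) (ih hL' (c.ins l).fs h1 h2)

theorem cC_fin [IsNoetherianRing D] (P : PDA D V) (h : ∀ c, (P.a c).FGm) (L : List ι)
    (c : FS ι) : (P.cC L c).FGt := (P.cC_Fin h L c).fgt

/-- The trivial action. -/
def triv (V : PC k ι) : PDA k V where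
  a := fun c => DAct.triv (V.X c)
  eqv := fun h r x => map_smul (V.ρ h).f r x

end PDA

/-- The trivial action of `k` on the Čech complex is the induced action. -/
theorem PDA.fgt_triv {V : PC k ι} (P : PDA k V) (L : List ι) (c : FS ι) :
    (DAct.triv ((MP_6e5bed_ag_PN.cC V L).X c)).FGt ↔ (P.cC L c).FGt :=
  (DAct.finCoh _).trans (DAct.finCoh _).symm

/-! ### Degrees -/

/-- There are no nonzero elements of degree `< n`. -/
def Lo (X : Cx k) (n : ℤ) : Prop := ∀ (j : ℤ) (x : X.V), X.dg.IsDeg j x → j < n → x = 0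

/-- There are no nonzero elements of degree `> m`. -/
def Up (X : Cx k) (m : ℤ) : Prop := ∀ (j : ℤ) (x : X.V), X.dg.IsDeg j x → m < j → x = 0

theorem Lo.mono {X : Cx k} {n n' : ℤ} (h : Lo X n) (hn : n' ≤ n) : Lo X n' :=
  fun j x hx hj => h j x hx (lt_of_lt_of_le hj hn)

theorem Up.mono {X : Cx k} {m m' : ℤ} (h : Up X m) (hm : m ≤ m') : Up X m' :=
  fun j x hx hj => h j x hx (lt_of_le_of_lt hm hj)

private theorem PDA_conc {E : Type u} [AddCommGroup E] (j : ℤ) (x : E)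
    (h : (Finsupp.single 0 x : ℤ →₀ E) = Finsupp.single j x) (hj : j ≠ 0) : x = 0 := by
  have h2 := DFunLike.congr_fun h 0
  rw [Finsupp.single_eq_same, Finsupp.single_eq_of_ne (Ne.symm hj)] at h2
  exact h2

/-- the complex of a module -/
theorem conc_lo (E : Type u) [AddCommGroup E] [Module k E] : Lo (Cx.conc k E) 0 :=
  fun j x hx hj => PDA_conc (E := E) j x hx (by omega)

theorem conc_up (E : Type u) [AddCommGroup E] [Module k E] : Up (Cx.conc k E) 0 :=
  fun j x hx hj => PDA_conc (E := E) j x hx (by omega)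

/-- The Čech complexes begin in the same degree. -/
theorem cC_lo {V : PC k ι} {n : ℤ} (h : ∀ c, Lo (V.X c) n) (L : List ι) (c : FS ι) :
    Lo ((cC V L).X c) n := by
  induction L generalizing c with
  | nil => exact fun _ _ _ _ => rfl
  | cons l L ih =>
    rintro j ⟨⟨x0, x1⟩, ξ⟩ hx hj
    have h1 := co_deg.1 hx
    refine Prod.ext (Prod.ext (ih c j x0 h1.1 hj) (h _ j x1 h1.2.1 hj)) ?_
    exact ih _ (j + -1) ξ h1.2.2 (by omega)

/-- The Čech complexes end at most `L.length` degrees later. -/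
theorem cC_up {V : PC k ι} {m : ℤ} (h : ∀ c, Up (V.X c) m) (L : List ι) (c : FS ι) :
    Up ((cC V L).X c) (m + L.length) := by
  induction L generalizing c with
  | nil => exact fun _ _ _ _ => rfl
  | cons l L ih =>
    rintro j ⟨⟨x0, x1⟩, ξ⟩ hx hj
    rw [List.length_cons, Nat.cast_add, Nat.cast_one] at hj
    have h1 := co_deg.1 hx
    refine Prod.ext (Prod.ext (ih c j x0 h1.1 (by omega)) (h _ j x1 h1.2.1 (by omega))) ?_
    exact ih _ (j + -1) ξ h1.2.2 (by omega)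

/-- The cohomology vanishes above `m`. -/
theorem DAct.FG.of_up {X : Cx k} {m : ℤ} (h : Up X m) (a : DAct D X) {j : ℤ} (hj : m < j) :
    a.FG j := DAct.FG.of_zero a fun x hx => h j x hx hj

theorem DAct.FG.of_lo {X : Cx k} {n : ℤ} (h : Lo X n) (a : DAct D X) {j : ℤ} (hj : j < n) :
    a.FG j := DAct.FG.of_zero a fun x hx => h j x hx hj

/-- Bounded complexes. -/
theorem DAct.FGt.of_FG' {X : Cx k} {a : DAct D X} {m n : ℤ} (h0 : Lo X n) (h1 : Up X m)
    (h : ∀ j, a.FG j) : a.FGt :=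
  DAct.FGt.of_FG n (m + 1) (fun j x hx hj => by
    rcases hj with hj | hj
    · exact h0 j x hx hj
    · exact h1 j x hx (by omega)) h

end Pool.Agent.MP_6e5bed_ag_PN
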