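import Pool.Agent.Lib.MP_6e5bed_ag_PN.Kn
import Pool.Agent.Lib.MP_6e5bed_ag_PS.SPJ

set_option autoImplicit false
set_option linter.unusedVariables false

/-!
# MP_6e5bed_ag, THEOREM G: the Čech algebra of a product (3.7), consequences; tensor products of
algebras in degree zero
-/

noncomputable section

namespace Pool.Agent.MP_6e5bed_ag_PN

open Pool.Agent.MP_6e5bed_ag_NC
open Pool.Agent.MP_6e5bed_ag_NS
open Pool.Agent.MP_6e5bed_ag_PS (tenC tenH Ten_d tenH_qi dqi_tensor SPJ SPJ.up SPJ.down)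
open scoped TensorProduct

universe u

variable {k : Type u} [Field k] {κ ι ι' : Type}

/-- The Čech algebras of `c ↦ A (p c) ⊗ A' (p' c)` and `T A ⊗ T A'`. -/
theorem spj_kn {Good : DGA k → Prop} (A : PA k ι) (A' : PA k ι') {L : List ι} {L' : List ι'}
    (p : κ → ι) (p' : κ → ι') {M : List κ} (hM : ∀ l l', ∃ x ∈ M, p x = l ∧ p' x = l')
    (hL : ∀ l, l ∈ L) (hL' : ∀ l, l ∈ L')
    (h : SPJ Good ((cA A L (FS.e ι)).tensor (cA A' L' (FS.e ι')))) :
    SPJ Good (cA (PA.ten (A.pull p) (A'.pull p')) M (FS.e κ)) :=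
  SPJ.down (knB A A' L L' p p' M) (knB_qi A A' L L' p p' M hL hL')
    (SPJ.up (knA A A' L L' p p' M) (knA_qi A A' L L' p p' M hM) h)

/-- The same for a presheaf `P` of dg algebras with a quasi-isomorphism `A (p c) ⊗ A' (p' c) → P c`
on all charts. -/
theorem spj_kn_map {Good : DGA k → Prop} (A : PA k ι) (A' : PA k ι') {L : List ι} {L' : List ι'}
    (p : κ → ι) (p' : κ → ι') {M : List κ} (hM : ∀ l l', ∃ x ∈ M, p x = l ∧ p' x = l')
    (hL : ∀ l, l ∈ L) (hL' : ∀ l, l ∈ L') {P : PA k κ}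
    (φ : PAH (PA.ten (A.pull p) (A'.pull p')) P) (hφ : ∀ c, Qi (dch (φ.f c)))
    (h : SPJ Good ((cA A L (FS.e ι)).tensor (cA A' L' (FS.e ι')))) :
    SPJ Good (cA P M (FS.e κ)) :=
  SPJ.up (φ.map M (FS.e κ)) (φ.dqi hφ M (FS.e κ)) (spj_kn A A' p p' hM hL hL' h)

/-! ### Degree zero -/

section ring

variable {R S U : Type u} [Ring R] [Algebra k R] [Ring S] [Algebra k S] [Ring U] [Algebra k U]

private theorem rt_bil {V W U : Type u} [AddCommGroup V] [Module k V] [AddCommGroup W]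
    [Module k W] [AddCommGroup U] [Module k U] (F : V ⊗[k] W →ₗ[k] U)
    (ν : V ⊗[k] W →ₗ[k] V ⊗[k] W →ₗ[k] V ⊗[k] W) (μ : U →ₗ[k] U →ₗ[k] U)
    (h : ∀ v w v' w', F (ν (v ⊗ₜ[k] w) (v' ⊗ₜ[k] w')) = μ (F (v ⊗ₜ[k] w)) (F (v' ⊗ₜ[k] w')))
    (x y : V ⊗[k] W) : F (ν x y) = μ (F x) (F y) := by
  induction x using TensorProduct.induction_on with
  | zero => rw [LinearMap.map_zero₂, map_zero, LinearMap.map_zero₂]
  | add x x' hx hx' => rw [LinearMap.map_add₂, map_add, hx, hx', map_add, LinearMap.map_add₂]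
  | tmul m n =>
    induction y using TensorProduct.induction_on with
    | zero => rw [map_zero, map_zero, map_zero]
    | add y y' hy hy' => rw [map_add, map_add, hy, hy', map_add, map_add]
    | tmul m' n' => exact h m n m' n'

theorem rt_mul (m m' : R) (n n' : S) : ((ring k R).tensor (ring k S)).mul
    (m ⊗ₜ[k] n : R ⊗[k] S) (m' ⊗ₜ[k] n' : R ⊗[k] S) = (m * m') ⊗ₜ[k] (n * n') :=
  kz_even (Dg.o_of_even (Dg.conc_deg n) Even.zero) m m' n'

theorem rt_d (x : R ⊗[k] S) : ((Dg.conc k R).tensor (Dg.conc k S)).d x = 0 := by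
  induction x using TensorProduct.induction_on with
  | zero => exact map_zero _
  | add x y hx hy => rw [map_add, hx, hy, add_zero]
  | tmul a b =>
    rw [Dg.tensor_d]
    change (0 : R) ⊗ₜ[k] b + _ ⊗ₜ[k] (0 : S) = 0
    rw [TensorProduct.zero_tmul, TensorProduct.tmul_zero, add_zero]

/-- The morphism of dg algebras to `U` given by a morphism of algebras `R ⊗ S → U`. -/
def ringTen (F : R ⊗[k] S →ₐ[k] U) : DHom ((ring k R).tensor (ring k S)) (ring k U) where
  f := F.toLinearMap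
  deg := fun {i x} hx => by
    have h := Dg.tensor_degMap (X := Dg.conc k R) (Y := Dg.conc k S)
      (Z := Dg.conc k U) (n := 0) F.toLinearMap (fun i j v w hv hw => by
        rcases Dg.conc_cases hv with rfl | rfl
        · rcases Dg.conc_cases hw with rfl | rfl
          · exact Dg.conc_deg _
          · rw [TensorProduct.tmul_zero, map_zero]
            exact Dg.IsDeg.zero _
        · rw [TensorProduct.zero_tmul, map_zero]
          exact Dg.IsDeg.zero _) hx
    rwa [add_zero] at h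
  d := fun x => ((congrArg F.toLinearMap (rt_d (R := R) (S := S) x)).trans
    (map_zero F.toLinearMap)).symm
  one := map_one F
  mul := rt_bil F.toLinearMap _ _ (fun m n m' n' => by
    refine (congrArg F.toLinearMap (rt_mul m m' n n')).trans ?_
    change F ((m * m') ⊗ₜ[k] (n * n')) = F (m ⊗ₜ[k] n) * F (m' ⊗ₜ[k] n')
    rw [← map_mul, Algebra.TensorProduct.tmul_mul_tmul])

theorem ringTen_f (F : R ⊗[k] S →ₐ[k] U) (x : R ⊗[k] S) : (ringTen F).f x = F x := rfl

theorem ringTen_qi (F : R ⊗[k] S →ₐ[k] U) (h : Function.Bijective F) : Qi (dch (ringTen F)) :=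
  Qi.of_bij h

end ring

end Pool.Agent.MP_6e5bed_ag_PN
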