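import Pool.Agent.Lib.MP_6e5bed_ag_PN.Pc
import Pool.Agent.Lib.MP_6e5bed_ag_PN.Ex

set_option autoImplicit false
set_option linter.unusedVariables false

/-!
# MP_6e5bed_ag, THEOREM G: constant presheaves, Čech bimodules with a constant algebra on one side

`PA.con ι C` is the constant presheaf `C`, and `kD C L c : C → cA (PA.con ι C) L c` the constant
augmentation. For a presheaf `M` of dg bimodules over the presheaf `A` and the constant presheaf
`C`, `cBR M L c` is its Čech complex as bimodule over the Čech algebra of `A` and `C`; similarly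
`cBL` for a constant algebra on the left.
-/

noncomputable section

namespace Pool.Agent.MP_6e5bed_ag_PN

open Pool.Agent.MP_6e5bed_ag_NC Pool.Agent.MP_6e5bed_ag_NS

universe u

variable {k : Type u} [CommRing k] {ι : Type}

/-! ### Constant presheaves -/

/-- The constant presheaf of complexes. -/
def PC.con (ι : Type) (X : Cx k) : PC k ι where
  X := fun _ => X
  ρ := fun _ => CHom.id X
  ρ_id := fun _ _ => rfl
  ρ_ρ := fun _ _ _ => rfl

/-- The constant presheaf of dg algebras. -/
def PA.con (ι : Type) (C : DGA k) : PA k ι where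
  A := fun _ => C
  r := fun _ => DHom.id C
  r_id := fun _ _ => rfl
  r_r := fun _ _ _ => rfl

/-- The constant augmentation, on the charts. -/
def kC (ι : Type) (X : Cx k) : PCC X (PC.con ι X) where
  f := fun _ => CHom.id X
  nat := fun _ _ => rfl

/-- The constant augmentation, on the charts. -/
def kA (ι : Type) (C : DGA k) : PAC C (PA.con ι C) where
  f := fun _ => DHom.id C
  nat := fun _ _ => rfl

/-- The constant augmentation `X → (cC (PC.con ι X) L).X c`. -/
def kX (X : Cx k) (L : List ι) (c : FS ι) : CHom X ((cC (PC.con ι X) L).X c) :=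
  ((kC ι X).aug L).g c

/-- The constant augmentation `C → RΓ(C)`. -/
def kD (C : DGA k) (L : List ι) (c : FS ι) : DHom C (cA (PA.con ι C) L c) := (kA ι C).dh L c

theorem con_pc (C : DGA k) : (PA.con ι C).pc = PC.con ι (acx C) := rfl

theorem kX_ρ (X : Cx k) (L : List ι) {c d : FS ι} (h : c ≤ d) (x : X.V) :
    ((cC (PC.con ι X) L).ρ h).f ((kX X L c).f x) = (kX X L d).f x :=
  ((kC ι X).aug L).nat h x

theorem kX_a (X : Cx k) (L : List ι) (c : Ch ι) (x : X.V) :
    ((cC (PC.con ι X) L).a c).f x = (kX X L c.fs).f x :=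
  ((kC ι X).aug L).a c x

theorem kX_s (X : Cx k) (L : List ι) (c : FS ι) (x : X.V) :
    ((cC (PC.con ι X) L).X c).dg.s ((kX X L c).f x) = (kX X L c).f (X.dg.s x) :=
  (kX X L c).s x

theorem kX_cons (X : Cx k) (l : ι) (L : List ι) (c : FS ι) (x : X.V) :
    (kX X (l :: L) c).f x = (((kX X L c).f x, x), 0) := rfl

theorem kD_f (C : DGA k) (L : List ι) (c : FS ι) (x : C.A) :
    (kD C L c).f x = (kX (acx C) L c).f x := rfl

/-- The constant augmentation is natural. -/
theorem kX_nat {X Y : Cx k} (f : CHom X Y) (F : PCH (PC.con ι X) (PC.con ι Y))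
    (hF : ∀ c x, (F.f c).f x = f.f x) : ∀ (L : List ι) (c : FS ι) (x : X.V),
      ((cH F L).g c).f ((kX X L c).f x) = (kX Y L c).f (f.f x)
  | [], c, x => rfl
  | l :: L, c, x => by
    refine Prod.ext (Prod.ext (kX_nat f F hF L c x) (hF _ x)) ?_
    exact map_zero ((cH F L).g (c.ins l).fs).f

/-! ### Cup products with constants -/

/-- Multiplication with a constant from the right. -/
theorem cP_kR {V V' : PC k ι} {X : Cx k} (p : PP V (PC.con ι X) V') (l : ι) (L : List ι)
    (c : FS ι) (x0 : ((cC V L).X c).V) (x1 : (V.X (c.ins l)).V)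
    (ξ : ((cC V L).X (c.ins l).fs).V) (y : X.V) :
    ((cP p (l :: L)).q c).m ((x0, x1), ξ) ((kX X (l :: L) c).f y) =
      ((((cP p L).q c).m x0 ((kX X L c).f y), (p.p (c.ins l)).m x1 y),
        ((cP p L).q (c.ins l).fs).m ξ ((kX X L (c.ins l).fs).f y)) := by
  refine Prod.ext rfl ?_
  change ((cP p L).q (c.ins l).fs).m (((cC V L).ρ (le_ins c l)).f (((cC V L).X c).dg.s x0)) 0 +
    ((cP p L).q (c.ins l).fs).m ξ (((cC (PC.con ι X) L).a (c.ins l)).f y) = _
  rw [map_zero, zero_add, kX_a]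

/-- Multiplication with a constant from the left. -/
theorem cP_kL {V V' : PC k ι} {X : Cx k} (p : PP (PC.con ι X) V V') (l : ι) (L : List ι)
    (c : FS ι) (x0 : ((cC V L).X c).V) (x1 : (V.X (c.ins l)).V)
    (ξ : ((cC V L).X (c.ins l).fs).V) (y : X.V) :
    ((cP p (l :: L)).q c).m ((kX X (l :: L) c).f y) ((x0, x1), ξ) =
      ((((cP p L).q c).m ((kX X L c).f y) x0, (p.p (c.ins l)).m y x1),
        ((cP p L).q (c.ins l).fs).m ((kX X L (c.ins l).fs).f (X.dg.s y)) ξ) := by
  refine Prod.ext rfl ?_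
  change ((cP p L).q (c.ins l).fs).m (((cC (PC.con ι X) L).ρ (le_ins c l)).f
    (((cC (PC.con ι X) L).X c).dg.s ((kX X L c).f y))) ξ +
    ((cP p L).q (c.ins l).fs).m 0 (((cC V L).a (c.ins l)).f x1) = _
  rw [map_zero, LinearMap.zero_apply, add_zero, kX_s, kX_ρ]

/-- Multiplication with a constant from the right, and restriction. -/
theorem cP_kR_a {V V' : PC k ι} {X : Cx k} (p : PP V (PC.con ι X) V') (L : List ι) (c : Ch ι)
    (x : (V.X c).V) (y : X.V) :
    ((cP p L).q c.fs).m (((cC V L).a c).f x) ((kX X L c.fs).f y) =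
      ((cC V' L).a c).f ((p.p c).m x y) := by
  rw [(cP p L).a, kX_a]

/-- Multiplication with a constant from the left, and restriction. -/
theorem cP_kL_a {V V' : PC k ι} {X : Cx k} (p : PP (PC.con ι X) V V') (L : List ι) (c : Ch ι)
    (x : (V.X c).V) (y : X.V) :
    ((cP p L).q c.fs).m ((kX X L c.fs).f y) (((cC V L).a c).f x) =
      ((cC V' L).a c).f ((p.p c).m y x) := by
  rw [(cP p L).a, kX_a]

/-! ### Čech bimodules with a constant algebra on one side -/

variable {A B : PA k ι} {C : DGA k}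

/-- The Čech bimodule of a presheaf of bimodules with constant right algebra. -/
def cBR (M : PB A (PA.con ι C)) (L : List ι) (c : FS ι) : Bim (cA A L c) C :=
  res (DHom.id _) (kD C L c) (cB M L c)

/-- The Čech bimodule of a presheaf of bimodules with constant left algebra. -/
def cBL (M : PB (PA.con ι C) B) (L : List ι) (c : FS ι) : Bim C (cA B L c) :=
  res (kD C L c) (DHom.id _) (cB M L c)

theorem bcx_cBR (M : PB A (PA.con ι C)) (L : List ι) (c : FS ι) :
    bcx (cBR M L c) = (cC M.pc L).X c := rfl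

theorem bcx_cBL (M : PB (PA.con ι C) B) (L : List ι) (c : FS ι) :
    bcx (cBL M L c) = (cC M.pc L).X c := rfl

/-- the map of Čech bimodules -/
def PBH.gmapR {M N : PB A (PA.con ι C)} (f : PBH M N) (L : List ι) (c : FS ι) :
    GMap 0 (cBR M L c) (cBR N L c) := (f.gmap L c).res _ _

/-- the map of Čech bimodules -/
def PBH.gmapL {M N : PB (PA.con ι C) B} (f : PBH M N) (L : List ι) (c : FS ι) :
    GMap 0 (cBL M L c) (cBL N L c) := (f.gmap L c).res _ _

theorem PBH.gmapR_dd {M N : PB A (PA.con ι C)} (f : PBH M N) (L : List ι) (c : FS ι) :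
    (f.gmapR L c).dd = 0 := f.gmap_dd L c

theorem PBH.gmapL_dd {M N : PB (PA.con ι C) B} (f : PBH M N) (L : List ι) (c : FS ι) :
    (f.gmapL L c).dd = 0 := f.gmap_dd L c

theorem PBH.gmap_f {M N : PB A B} (f : PBH M N) (L : List ι) (c : FS ι) (x : (cB M L c).M) :
    (f.gmap L c).f x = ((cH f.pch L).g c).f x := rfl

theorem PBH.gmapR_f {M N : PB A (PA.con ι C)} (f : PBH M N) (L : List ι) (c : FS ι)
    (x : (cBR M L c).M) : (f.gmapR L c).f x = ((cH f.pch L).g c).f x := rfl

theorem PBH.gmapL_f {M N : PB (PA.con ι C) B} (f : PBH M N) (L : List ι) (c : FS ι)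
    (x : (cBL M L c).M) : (f.gmapL L c).f x = ((cH f.pch L).g c).f x := rfl

/-- Quasi-isomorphisms of presheaves of bimodules. -/
theorem PBH.qiso {M N : PB A B} (f : PBH M N) (h : ∀ c, QIso (f.f c)) (L : List ι) (c : FS ι) :
    QIso (f.gmap L c) :=
  ⟨f.gmap_dd L c, cH_qi f.pch (fun c => (h c).2) L c⟩

theorem PBH.qisoR {M N : PB A (PA.con ι C)} (f : PBH M N) (h : ∀ c, QIso (f.f c)) (L : List ι)
    (c : FS ι) : QIso (f.gmapR L c) := f.qiso h L c

theorem PBH.qisoL {M N : PB (PA.con ι C) B} (f : PBH M N) (h : ∀ c, QIso (f.f c)) (L : List ι)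
    (c : FS ι) : QIso (f.gmapL L c) := f.qiso h L c

/-- The right action of a constant. -/
theorem cBR_r (M : PB A (PA.con ι C)) (l : ι) (L : List ι) (c : FS ι) (b : C.A)
    (x0 : (cBR M L c).M) (x1 : (M.M (c.ins l)).M) (ξ : (cBR M L (c.ins l).fs).M) :
    (cBR M (l :: L) c).r b ((x0, x1), ξ) =
      (((cBR M L c).r b x0, (M.M (c.ins l)).r b x1), (cBR M L (c.ins l).fs).r b ξ) :=
  cP_kR (V := M.pc) (V' := M.pc) (X := acx C) M.pr l L c x0 x1 ξ b

/-- The left action of a constant. -/
theorem cBL_l (M : PB (PA.con ι C) B) (l : ι) (L : List ι) (c : FS ι) (b : C.A)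
    (x0 : (cBL M L c).M) (x1 : (M.M (c.ins l)).M) (ξ : (cBL M L (c.ins l).fs).M) :
    (cBL M (l :: L) c).l b ((x0, x1), ξ) =
      (((cBL M L c).l b x0, (M.M (c.ins l)).l b x1),
        (cBL M L (c.ins l).fs).l (C.dg.s b) ξ) :=
  cP_kL (V := M.pc) (V' := M.pc) (X := acx C) M.pl l L c x0 x1 ξ b

end Pool.Agent.MP_6e5bed_ag_PN
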