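import Pool.Agent.Lib.MP_6e5bed_ag_NS.Cx

set_option autoImplicit false
set_option linter.unusedVariables false

/-!
# MP_6e5bed_ag, THEOREM G: complexes over a commutative ring

The definitions and lemmas of `Lib/MP_6e5bed_ag_NS/{WC,WA,Qi,QiB,Dia}.lean` on single complexes, over
a commutative ring. `Qi f` is `NS.CHom.QI f`, over a commutative ring.
-/

noncomputable section

namespace Pool.Agent.MP_6e5bed_ag_PN

open Pool.Agent.MP_6e5bed_ag_NC Pool.Agent.MP_6e5bed_ag_NS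

universe u

variable {k : Type u} [CommRing k]

/-- the zero map to the zero complex -/
def toZero (X : Cx k) : CHom X (Cx.zero k) where
  f := 0
  deg := fun _ => Dg.IsDeg.zero _
  d := fun _ => rfl

/-- the zero pairing -/
def zPr (X Y : Cx k) : CPr X Y (Cx.zero k) where
  m := 0
  deg := fun _ _ => Dg.IsDeg.zero _
  d := fun _ _ => rfl

/-- the complex of a dg algebra -/
def acx (A : DGA k) : Cx k := ⟨A.A, A.dg⟩

/-- the complex of a bimodule -/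
def bcx {A B : DGA k} (M : Bim A B) : Cx k := ⟨M.M, M.dg⟩

/-- a morphism of dg algebras as a morphism of complexes -/
def dch {A B : DGA k} (f : DHom A B) : CHom (acx A) (acx B) := ⟨f.f, f.deg, f.d⟩

/-- a closed map of degree zero as a morphism of complexes -/
def gch {A B A' B' : DGA k} {M : Bim A B} {N : Bim A' B'} {α : DHom A A'} {β : DHom B B'}
    (f : GMap 0 M (res α β N)) (h : f.dd = 0) : CHom (bcx M) (bcx N) where
  f := f.f
  deg := fun {i x} hx => by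
    have h1 := f.deg hx
    rw [add_zero] at h1
    exact h1
  d := GMap.d_f_zero h

/-- a morphism of complexes as a map of degree zero -/
def cgm {A B A' B' : DGA k} {M : Bim A B} {N : Bim A' B'} (α : DHom A A') (β : DHom B B')
    (f : CHom (bcx M) (bcx N)) (hl : ∀ a x, f.f (M.l a x) = N.l (α.f a) (f.f x))
    (hr : ∀ b x, f.f (M.r b x) = N.r (β.f b) (f.f x)) : GMap 0 M (res α β N) where
  f := f.f
  deg := fun {i x} hx => by
    rw [add_zero]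
    exact f.deg hx
  map_l := fun a x => by
    rw [Dg.sp_zero]
    exact hl a x
  map_r := fun b x => hr b x

theorem cgm_dd {A B A' B' : DGA k} {M : Bim A B} {N : Bim A' B'} (α : DHom A A')
    (β : DHom B B') (f : CHom (bcx M) (bcx N))
    (hl : ∀ a x, f.f (M.l a x) = N.l (α.f a) (f.f x))
    (hr : ∀ b x, f.f (M.r b x) = N.r (β.f b) (f.f x)) : (cgm α β f hl hr).dd = 0 := by
  refine LinearMap.ext fun x => ?_
  rw [GMap.dd_apply, sg_zero, one_smul, LinearMap.zero_apply, sub_eq_zero]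
  exact f.d x

/-! ### Quasi-isomorphisms -/

/-- injective and surjective in cohomology -/
def Qi {X Y : Cx k} (f : CHom X Y) : Prop :=
  (∀ x, X.dg.d x = 0 → (∃ y, Y.dg.d y = f.f x) → ∃ z, X.dg.d z = x) ∧
    ∀ y, Y.dg.d y = 0 → ∃ x, X.dg.d x = 0 ∧ ∃ z, Y.dg.d z = y - f.f x

theorem Qi.comp {X Y Z : Cx k} {f : CHom X Y} {g : CHom Y Z} (hf : Qi f) (hg : Qi g) :
    Qi (f.comp g) := by
  refine ⟨fun x hx h => ?_, fun z hz => ?_⟩
  · exact hf.1 x hx (hg.1 (f.f x) (by rw [f.d, hx, map_zero]) h)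
  · obtain ⟨y, hy, w, hw⟩ := hg.2 z hz
    obtain ⟨x, hx, v, hv⟩ := hf.2 y hy
    refine ⟨x, hx, w + g.f v, ?_⟩
    change Z.dg.d (w + g.f v) = z - g.f (f.f x)
    rw [map_add, hw, g.d, hv, map_sub]
    abel

theorem Qi.of_left {X Y Z : Cx k} {f : CHom X Y} {g : CHom Y Z} {h : CHom X Z}
    (hc : ∀ x, g.f (f.f x) = h.f x) (hf : Qi f) (hh : Qi h) : Qi g := by
  refine ⟨fun y hy hw => ?_, fun z hz => ?_⟩
  · obtain ⟨w, hw⟩ := hw
    obtain ⟨x, hx, v, hv⟩ := hf.2 y hy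
    obtain ⟨x', hx'⟩ := hh.1 x hx ⟨w - g.f v, by
      rw [map_sub, hw, g.d, hv, map_sub, hc]
      abel⟩
    refine ⟨f.f x' + v, ?_⟩
    rw [map_add, f.d, hx', hv]
    abel
  · obtain ⟨x, hx, w, hw⟩ := hh.2 z hz
    exact ⟨f.f x, by rw [f.d, hx, map_zero], w, by rw [hc, hw]⟩

theorem Qi.of_right {X Y Z : Cx k} {f : CHom X Y} {g : CHom Y Z} {h : CHom X Z}
    (hc : ∀ x, g.f (f.f x) = h.f x) (hg : Qi g) (hh : Qi h) : Qi f := by
  refine ⟨fun x hx hy => ?_, fun y hy => ?_⟩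
  · obtain ⟨y, hy⟩ := hy
    exact hh.1 x hx ⟨g.f y, by rw [g.d, hy, hc]⟩
  · obtain ⟨x, hx, w, hw⟩ := hh.2 (g.f y) (by rw [g.d, hy, map_zero])
    refine ⟨x, hx, ?_⟩
    refine hg.1 (y - f.f x) (by rw [map_sub, hy, f.d, hx, map_zero, sub_zero]) ⟨w, ?_⟩
    rw [hw, map_sub, hc]

theorem Qi.of_bij {X Y : Cx k} {f : CHom X Y} (h : Function.Bijective f.f) : Qi f := by
  refine ⟨fun x _ hy => ?_, fun y hy => ?_⟩
  · obtain ⟨y, hy⟩ := hy
    obtain ⟨z, rfl⟩ := h.2 y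
    exact ⟨z, h.1 (by rw [← f.d, hy])⟩
  · obtain ⟨x, rfl⟩ := h.2 y
    refine ⟨x, h.1 (by rw [← f.d, hy, map_zero]), 0, ?_⟩
    rw [map_zero, sub_self]

/-- a surjective map with acyclic kernel -/
theorem Qi.of_surj {X Y : Cx k} {f : CHom X Y} (h : Function.Surjective f.f)
    (hk : ∀ x, f.f x = 0 → X.dg.d x = 0 → ∃ z, f.f z = 0 ∧ X.dg.d z = x) : Qi f := by
  refine ⟨fun x hx hy => ?_, fun y hy => ?_⟩
  · obtain ⟨y, hy⟩ := hy
    obtain ⟨u, rfl⟩ := h y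
    obtain ⟨z, -, hz⟩ := hk (x - X.dg.d u) (by rw [map_sub, ← f.d, hy, sub_self])
      (by rw [map_sub, hx, X.dg.d_d, sub_zero])
    exact ⟨z + u, by rw [map_add, hz, sub_add_cancel]⟩
  · obtain ⟨x, rfl⟩ := h y
    obtain ⟨z, hz0, hz⟩ := hk (X.dg.d x) (by rw [← f.d, hy]) (X.dg.d_d x)
    refine ⟨x - z, by rw [map_sub, hz, sub_self], 0, ?_⟩
    rw [map_zero, map_sub, hz0, sub_zero, sub_self]

/-- Proof: five lemma for `0 → X01[-1] → co → X0 × X1 → 0`, or directly: a cycle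
`(x0, x1, ξ)` whose image is the boundary of `(y0, y1, υ)`: `x0 = d z0`, `x1 = d z1`; subtract
`d (z0, z1, 0)`; the new `y0, y1` are cycles, so they are images of cycles up to boundaries; subtract
these too; then `y0 = y1 = 0` without loss of generality, and `ξ` is a cycle whose image is a
boundary. Surjectivity is similar. -/
theorem co_map_qi {X0 X1 X01 Y0 Y1 Y01 : Cx k} {r0 : CHom X0 X01} {r1 : CHom X1 X01}
    {s0 : CHom Y0 Y01} {s1 : CHom Y1 Y01} {f0 : CHom X0 Y0} {f1 : CHom X1 Y1}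
    {f01 : CHom X01 Y01} (h0 : ∀ x, s0.f (f0.f x) = f01.f (r0.f x))
    (h1 : ∀ x, s1.f (f1.f x) = f01.f (r1.f x)) (q0 : Qi f0) (q1 : Qi f1) (q01 : Qi f01) :
    Qi (co.map r0 r1 s0 s1 f0 f1 f01 h0 h1) := by
  constructor
  · rintro ⟨⟨x0, x1⟩, ξ⟩ hx ⟨⟨⟨y0, y1⟩, υ⟩, hy⟩
    have ex := (co_d (r0 := r0) (r1 := r1) x0 x1 ξ).symm.trans hx
    have ey := (co_d (r0 := s0) (r1 := s1) y0 y1 υ).symm.trans hy
    have ex0 : X0.dg.d x0 = 0 := congrArg (fun z => z.1.1) ex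
    have ex1 : X1.dg.d x1 = 0 := congrArg (fun z => z.1.2) ex
    have exx : r1.f x1 - r0.f x0 - X01.dg.d ξ = 0 := congrArg (fun z => z.2) ex
    have ey0 : Y0.dg.d y0 = f0.f x0 := congrArg (fun z => z.1.1) ey
    have ey1 : Y1.dg.d y1 = f1.f x1 := congrArg (fun z => z.1.2) ey
    have eyy : s1.f y1 - s0.f y0 - Y01.dg.d υ = f01.f ξ := congrArg (fun z => z.2) ey
    obtain ⟨z0, hz0⟩ := q0.1 x0 ex0 ⟨y0, ey0⟩
    obtain ⟨z1, hz1⟩ := q1.1 x1 ex1 ⟨y1, ey1⟩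
    obtain ⟨a0, ha0, b0, hb0⟩ := q0.2 (y0 - f0.f z0) (by
      rw [map_sub, ey0, f0.d, hz0, sub_self])
    obtain ⟨a1, ha1, b1, hb1⟩ := q1.2 (y1 - f1.f z1) (by
      rw [map_sub, ey1, f1.d, hz1, sub_self])
    have e0 : f0.f (z0 + a0) = y0 - Y0.dg.d b0 := by
      rw [hb0, map_add]
      abel
    have e1 : f1.f (z1 + a1) = y1 - Y1.dg.d b1 := by
      rw [hb1, map_add]
      abel
    have hd0 : X0.dg.d (z0 + a0) = x0 := by rw [map_add, hz0, ha0, add_zero]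
    have hd1 : X1.dg.d (z1 + a1) = x1 := by rw [map_add, hz1, ha1, add_zero]
    obtain ⟨ζ, hζ⟩ := q01.1 (ξ - (r1.f (z1 + a1) - r0.f (z0 + a0)))
      (by
        rw [map_sub, map_sub, r1.d, r0.d, hd0, hd1]
        have := sub_eq_zero.1 exx
        rw [← this, sub_self])
      ⟨- υ + s1.f b1 - s0.f b0, by
        rw [map_sub, map_add, map_neg, s1.d, s0.d, map_sub, map_sub, ← h1, ← h0, e0, e1, ← eyy,
          map_sub, map_sub]
        abel⟩
    refine ⟨((z0 + a0, z1 + a1), -ζ), (co_d (r0 := r0) (r1 := r1) _ _ _).trans ?_⟩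
    refine Prod.ext (Prod.ext hd0 hd1) ?_
    change r1.f (z1 + a1) - r0.f (z0 + a0) - X01.dg.d (-ζ) = ξ
    rw [map_neg, hζ]
    abel
  · rintro ⟨⟨y0, y1⟩, υ⟩ hy
    have ey := (co_d (r0 := s0) (r1 := s1) y0 y1 υ).symm.trans hy
    have ey0 : Y0.dg.d y0 = 0 := congrArg (fun z => z.1.1) ey
    have ey1 : Y1.dg.d y1 = 0 := congrArg (fun z => z.1.2) ey
    have eyy : s1.f y1 - s0.f y0 - Y01.dg.d υ = 0 := congrArg (fun z => z.2) ey
    obtain ⟨a0, ha0, b0, hb0⟩ := q0.2 y0 ey0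
    obtain ⟨a1, ha1, b1, hb1⟩ := q1.2 y1 ey1
    have e0 : f0.f a0 = y0 - Y0.dg.d b0 := by rw [hb0]; abel
    have e1 : f1.f a1 = y1 - Y1.dg.d b1 := by rw [hb1]; abel
    obtain ⟨ξ, hξ⟩ := q01.1 (r1.f a1 - r0.f a0)
      (by rw [map_sub, r1.d, r0.d, ha0, ha1, map_zero, map_zero, sub_self])
      ⟨υ - s1.f b1 + s0.f b0, by
        rw [map_add, map_sub, s1.d, s0.d, map_sub, ← h1, ← h0, e0, e1, map_sub, map_sub,
          ← sub_eq_zero.1 eyy]
        abel⟩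
    obtain ⟨α, hα, β, hβ⟩ := q01.2 (υ - f01.f ξ - s1.f b1 + s0.f b0) (by
      rw [map_add, map_sub, map_sub, f01.d, hξ, s1.d, s0.d, map_sub, ← h1, ← h0, e0, e1,
        map_sub, map_sub, ← sub_eq_zero.1 eyy]
      abel)
    refine ⟨((a0, a1), ξ + α), ?_, ((b0, b1), -β), ?_⟩
    · refine (co_d (r0 := r0) (r1 := r1) _ _ _).trans ?_
      refine Prod.ext (Prod.ext ha0 ha1) ?_
      change r1.f a1 - r0.f a0 - X01.dg.d (ξ + α) = 0
      rw [map_add, hξ, hα]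
      abel
    · refine (co_d (r0 := s0) (r1 := s1) _ _ _).trans ?_
      refine Prod.ext (Prod.ext hb0 hb1) ?_
      change s1.f b1 - s0.f b0 - Y01.dg.d (-β) = υ - f01.f (ξ + α)
      rw [map_neg, hβ, map_add]
      abel

/-- If `X1 → X01` is a quasi-isomorphism, so is the projection to `X0` (its kernel is
`(0, x1, ξ)`, the cone of `X1 → X01`). -/
theorem co_pr0_qi {X0 X1 X01 : Cx k} (r0 : CHom X0 X01) {r1 : CHom X1 X01} (h : Qi r1) :
    Qi (co.pr0 r0 r1) := by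
  constructor
  · rintro ⟨⟨x0, x1⟩, ξ⟩ hx ⟨z0, hz0⟩
    have ex := (co_d (r0 := r0) (r1 := r1) x0 x1 ξ).symm.trans hx
    have ex1 : X1.dg.d x1 = 0 := congrArg (fun z => z.1.2) ex
    have exx : r1.f x1 - r0.f x0 - X01.dg.d ξ = 0 := congrArg (fun z => z.2) ex
    have hz0' : X0.dg.d z0 = x0 := hz0
    obtain ⟨z1, hz1⟩ := h.1 x1 ex1 ⟨ξ + r0.f z0, by
      rw [map_add, r0.d, hz0', ← sub_eq_zero.1 exx]
      abel⟩
    obtain ⟨a1, ha1, β, hβ⟩ := h.2 (ξ + r0.f z0 - r1.f z1) (by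
      rw [map_sub, map_add, r0.d, r1.d, hz0', hz1, ← sub_eq_zero.1 exx]
      abel)
    refine ⟨((z0, z1 + a1), -β), (co_d (r0 := r0) (r1 := r1) _ _ _).trans ?_⟩
    refine Prod.ext (Prod.ext hz0' ?_) ?_
    · change X1.dg.d (z1 + a1) = x1
      rw [map_add, hz1, ha1, add_zero]
    · change r1.f (z1 + a1) - r0.f z0 - X01.dg.d (-β) = ξ
      rw [map_neg, hβ, map_add]
      abel
  · intro x0 hx0
    obtain ⟨x1, hx1, β, hβ⟩ := h.2 (r0.f x0) (by rw [r0.d, hx0, map_zero])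
    refine ⟨((x0, x1), -β), (co_d (r0 := r0) (r1 := r1) _ _ _).trans ?_, 0, ?_⟩
    · refine Prod.ext (Prod.ext hx0 hx1) ?_
      change r1.f x1 - r0.f x0 - X01.dg.d (-β) = 0
      rw [map_neg, hβ]
      abel
    · change X0.dg.d 0 = x0 - x0
      rw [map_zero, sub_self]

/-- a morphism of complexes is a quasi-isomorphism if it is one as a map of dg bimodules -/
theorem qiso_iff {A B A' B' : DGA k} {M : Bim A B} {N : Bim A' B'} {α : DHom A A'}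
    {β : DHom B B'} (f : GMap 0 M (res α β N)) (h : f.dd = 0) : QIso f ↔ Qi (gch f h) :=
  ⟨fun q => q.2, fun q => ⟨h, q⟩⟩

/-- acyclic -/
def Acy (X : Cx k) : Prop := ∀ x, X.dg.d x = 0 → ∃ y, X.dg.d y = x

/-! ### Pairings with a fixed complex -/

/-- `p01` twisted by the sign of the first factor -/
def co.pmR {X Y0 Y1 Y01 Z0 Z1 Z01 : Cx k} (p0 : CPr X Y0 Z0) (p1 : CPr X Y1 Z1)
    (p01 : CPr X Y01 Z01) :
    X.V →ₗ[k] ((Y0.V × Y1.V) × Y01.V) →ₗ[k] ((Z0.V × Z1.V) × Z01.V) :=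
  LinearMap.mk₂ k (fun x y => ((p0.m x y.1.1, p1.m x y.1.2), p01.m (X.dg.s x) y.2))
    (fun x x' y => by ext <;> simp)
    (fun c x y => by ext <;> simp)
    (fun x y y' => by ext <;> simp)
    (fun c x y => by ext <;> simp)

/-- `x (y0, y1, υ) = (x y0, x y1, (s x) υ)` -/
def co.pairR {X Y0 Y1 Y01 Z0 Z1 Z01 : Cx k} (s0 : CHom Y0 Y01) (s1 : CHom Y1 Y01)
    (t0 : CHom Z0 Z01) (t1 : CHom Z1 Z01) (p0 : CPr X Y0 Z0) (p1 : CPr X Y1 Z1)
    (p01 : CPr X Y01 Z01) (h0 : ∀ x y, t0.f (p0.m x y) = p01.m x (s0.f y))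
    (h1 : ∀ x y, t1.f (p1.m x y) = p01.m x (s1.f y)) : CPr X (co s0 s1) (co t0 t1) where
  m := co.pmR p0 p1 p01
  deg := fun {i j x y} hx hy => by
    obtain ⟨⟨y0, y1⟩, υ⟩ := y
    have hy' := co_deg.1 hy
    refine co_deg.2 ⟨p0.deg hx hy'.1, p1.deg hx hy'.2.1, ?_⟩
    rw [add_assoc]
    exact p01.deg hx.s hy'.2.2
  d := fun x y => by
    obtain ⟨⟨y0, y1⟩, υ⟩ := y
    have e2 := co_d (r0 := s0) (r1 := s1) y0 y1 υ
    have e4 := co_d (r0 := t0) (r1 := t1) (p0.m x y0) (p1.m x y1) (p01.m (X.dg.s x) υ)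
    refine Eq.trans e4 ?_
    refine Eq.trans ?_ (congrArg (fun z => co.pmR p0 p1 p01 (X.dg.d x) ((y0, y1), υ) +
      co.pmR p0 p1 p01 (X.dg.s x) z) e2.symm)
    change ((Z0.dg.d (p0.m x y0), Z1.dg.d (p1.m x y1)),
      t1.f (p1.m x y1) - t0.f (p0.m x y0) - Z01.dg.d (p01.m (X.dg.s x) υ)) =
      ((p0.m (X.dg.d x) y0, p1.m (X.dg.d x) y1), p01.m (X.dg.s (X.dg.d x)) υ) +
      ((p0.m (X.dg.s x) (Y0.dg.d y0), p1.m (X.dg.s x) (Y1.dg.d y1)),
        p01.m (X.dg.s (X.dg.s x)) (s1.f y1 - s0.f y0 - Y01.dg.d υ))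
    rw [p0.d, p1.d, p01.d, h0, h1, Dg.s_s, Dg.s_d]
    simp only [Prod.mk_add_mk, map_sub, map_neg, LinearMap.neg_apply]
    congr 1
    abel

end Pool.Agent.MP_6e5bed_ag_PN
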