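import Pool.Agent.Lib.MP_6e5bed_ag_PN.Two

set_option autoImplicit false
set_option linter.unusedVariables false

/-!
# MP_6e5bed_ag, THEOREM G: `G_l(V) ⊗_W Y = G_l(V ⊗_W Y)`

`ExR V Y Q`: the presheaf `Q` of bimodules receives compatible maps from the `V a ⊗_W Y`. Then
`cBR V L c ⊗_W Y → cBR Q L c` (`ExR.th`), which is bijective if all maps on the charts are.
-/

noncomputable section

namespace Pool.Agent.MP_6e5bed_ag_PN

open Pool.Agent.MP_6e5bed_ag_NC Pool.Agent.MP_6e5bed_ag_NS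

universe u

variable {k : Type u} [CommRing k] {ι κ : Type}

/-- the constant pairing -/
def PP.con (ι : Type) {X Y Z : Cx k} (p : CPr X Y Z) :
    PP (PC.con ι X) (PC.con ι Y) (PC.con ι Z) where
  p := fun _ => p
  nat := fun _ _ _ => rfl

/-- the cup product of constants -/
theorem cP_con {X Y Z : Cx k} (p : CPr X Y Z) : ∀ (L : List ι) (c : FS ι) (x : X.V) (y : Y.V),
    ((cP (PP.con ι p) L).q c).m ((kX X L c).f x) ((kX Y L c).f y) = (kX Z L c).f (p.m x y)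
  | [], c, x, y => rfl
  | l :: L, c, x, y => by
    refine (cP_kR (PP.con ι p) l L c _ _ _ y).trans ?_
    refine Prod.ext (Prod.ext (cP_con p L c x y) rfl) ?_
    change ((cP (PP.con ι p) L).q (c.ins l).fs).m 0 ((kX Y L (c.ins l).fs).f y) = 0
    rw [map_zero, LinearMap.zero_apply]

/-- the right action as a pairing -/
def cprR {A B : DGA k} (M : Bim A B) : CPr (bcx M) (acx B) (bcx M) where
  m := M.r.flip
  deg := fun hx hy => M.r_deg hx hy
  d := fun x b => M.d_r b x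

/-- the left action as a pairing -/
def cprL {A B : DGA k} (M : Bim A B) : CPr (acx A) (bcx M) (bcx M) where
  m := M.l
  deg := fun hx hy => M.l_deg hx hy
  d := fun a x => M.d_l a x

/-- the tensor product followed by a closed map, as a pairing -/
def cprT {A W B : DGA k} {M : Bim A W} {N : Bim W B} {Q : Bim A B} (β : GMap 0 (tb M N) Q)
    (h : β.dd = 0) : CPr (bcx M) (bcx N) (bcx Q) where
  m := (tmB M N).compr₂ β.f
  deg := fun {i j x y} hx hy => by
    have h1 := β.deg (tb_deg (M := M) (N := N) hx hy)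
    rw [add_zero] at h1
    exact h1
  d := fun x y => by
    change Q.dg.d (β.f (tm x y)) = β.f (tm (M.dg.d x) y) + β.f (tm (M.dg.s x) (N.dg.d y))
    rw [GMap.d_f_zero h, tb_d, map_add]

theorem cprT_m {A W B : DGA k} {M : Bim A W} {N : Bim W B} {Q : Bim A B}
    (β : GMap 0 (tb M N) Q) (h : β.dd = 0) (x : M.M) (y : N.M) :
    (cprT β h).m x y = β.f (tm x y) := rfl

variable {A : PA k ι} {W D : DGA k}

/-- Compatible maps `V a ⊗_W Y → Q a`. -/
structure ExR (V : PB A (PA.con ι W)) (Y : Bim W D) (Q : PB A (PA.con ι D)) where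
  β : ∀ a, GMap 0 (tb (V.M a) Y) (Q.M a)
  dd : ∀ a, (β a).dd = 0
  nat : ∀ {a a' : Ch ι} (h : a ≤ a') (m : (V.M a).M) (y : Y.M),
    (Q.ρ h).f ((β a).f (tm m y)) = (β a').f (tm (M := V.M a') (N := Y) ((V.ρ h).f m) y)

variable {V : PB A (PA.con ι W)} {Y : Bim W D} {Q : PB A (PA.con ι D)}

namespace ExR

variable (E : ExR V Y Q)

/-- the pairing of the presheaf `V` with the constant presheaf `Y` -/
def pp : PP V.pc (PC.con ι (bcx Y)) Q.pc where
  p := fun a => cprT (E.β a) (E.dd a)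
  nat := fun {a a'} h x y => E.nat h x y

theorem ch_l (b : Ch ι) (a : (A.A b).A) (m : (V.M b).M) (y : Y.M) :
    (E.β b).f (tm (M := V.M b) (N := Y) ((V.M b).l a m) y) =
      (Q.M b).l a ((E.β b).f (tm m y)) := by
  have h1 := (E.β b).map_l a (tm m y)
  rw [Dg.sp_zero, tb_l] at h1
  exact h1

theorem ch_r (b : Ch ι) (m : (V.M b).M) (y : Y.M) (d : D.A) :
    (Q.M b).r d ((E.β b).f (tm m y)) = (E.β b).f (tm (M := V.M b) (N := Y) m (Y.r d y)) := by
  have h1 := (E.β b).map_r d (tm m y)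
  rw [tb_r] at h1
  exact h1.symm

variable (L : List ι) (c : FS ι)

/-- the bilinear map -/
def bl : (cBR V L c).M →ₗ[k] Y.M →ₗ[k] (cBR Q L c).M :=
  ((cP E.pp L).q c).m.compl₂ (kX (bcx Y) L c).f

theorem bl_apply (x : (cBR V L c).M) (y : Y.M) :
    E.bl L c x y = ((cP E.pp L).q c).m x ((kX (bcx Y) L c).f y) := rfl

theorem bl_bal (x : (cBR V L c).M) (w : W.A) (y : Y.M) :
    E.bl L c ((cBR V L c).r w x) y = E.bl L c x (Y.l w y) := by
  refine (cP_assoc V.pr E.pp (PP.con ι (cprL Y)) E.pp (fun a m w y => ?_) L c x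
    ((kX (acx W) L c).f w) ((kX (bcx Y) L c).f y)).trans ?_
  · exact congrArg (E.β a).f (tm_r_l (M := V.M a) (N := Y) m w y)
  · exact congrArg (((cP E.pp L).q c).m x) (cP_con (cprL Y) L c w y)

theorem bl_l (a : (cA A L c).A) (x : (cBR V L c).M) (y : Y.M) :
    E.bl L c ((cBR V L c).l a x) y = (cBR Q L c).l a (E.bl L c x y) := by
  exact cP_assoc V.pl E.pp E.pp Q.pl (fun b a m y => E.ch_l b a m y) L c a x
    ((kX (bcx Y) L c).f y)

theorem bl_r (d : D.A) (x : (cBR V L c).M) (y : Y.M) :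
    E.bl L c x (Y.r d y) = (cBR Q L c).r d (E.bl L c x y) := by
  have h := cP_assoc E.pp Q.pr (PP.con ι (cprR Y)) E.pp (fun b m y d => E.ch_r b m y d) L c x
    ((kX (bcx Y) L c).f y) ((kX (acx D) L c).f d)
  exact (h.trans (congrArg (((cP E.pp L).q c).m x) (cP_con (cprR Y) L c y d))).symm

/-- the underlying linear map -/
def thf : (tb (cBR V L c) Y).M →ₗ[k] (cBR Q L c).M := tlift (E.bl L c) (E.bl_bal L c)

theorem thf_tm (x : (cBR V L c).M) (y : Y.M) :
    E.thf L c (tm x y) = ((cP E.pp L).q c).m x ((kX (bcx Y) L c).f y) :=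
  tlift_tm _ (E.bl_bal L c) x y

theorem thf_deg {i : ℤ} {x : (tb (cBR V L c) Y).M} (hx : (tb (cBR V L c) Y).dg.IsDeg i x) :
    (cBR Q L c).dg.IsDeg (i + 0) (E.thf L c x) := by
  refine tb_degMap (Z := (cBR Q L c).dg) (n := 0) (E.thf L c) (fun {i j v w} hv hw => ?_) hx
  rw [E.thf_tm, add_zero]
  exact ((cP E.pp L).q c).deg hv ((kX (bcx Y) L c).deg hw)

theorem thf_l (a : (cA A L c).A) (x : (tb (cBR V L c) Y).M) :
    E.thf L c ((tb (cBR V L c) Y).l a x) = (cBR Q L c).l a (E.thf L c x) := by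
  refine tb_ind (P := fun x => E.thf L c ((tb (cBR V L c) Y).l a x) =
    (cBR Q L c).l a (E.thf L c x)) ?_ ?_ ?_ x
  · simp only [map_zero]
  · intro x y hx hy
    rw [map_add, map_add, map_add, map_add, hx, hy]
  · intro m n
    rw [tb_l, E.thf_tm, E.thf_tm]
    exact E.bl_l L c a m n

theorem thf_r (d : D.A) (x : (tb (cBR V L c) Y).M) :
    E.thf L c ((tb (cBR V L c) Y).r d x) = (cBR Q L c).r d (E.thf L c x) := by
  refine tb_ind (P := fun x => E.thf L c ((tb (cBR V L c) Y).r d x) =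
    (cBR Q L c).r d (E.thf L c x)) ?_ ?_ ?_ x
  · simp only [map_zero]
  · intro x y hx hy
    rw [map_add, map_add, map_add, map_add, hx, hy]
  · intro m n
    rw [tb_r, E.thf_tm, E.thf_tm]
    exact E.bl_r L c d m n

theorem thf_d (x : (tb (cBR V L c) Y).M) :
    (cBR Q L c).dg.d (E.thf L c x) = E.thf L c ((tb (cBR V L c) Y).dg.d x) := by
  refine tb_ind (P := fun x => (cBR Q L c).dg.d (E.thf L c x) =
    E.thf L c ((tb (cBR V L c) Y).dg.d x)) ?_ ?_ ?_ x
  · simp only [map_zero]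
  · intro x y hx hy
    rw [map_add, map_add, map_add, map_add, hx, hy]
  · intro m n
    rw [tb_d, map_add, E.thf_tm, E.thf_tm, E.thf_tm]
    refine (((cP E.pp L).q c).d m ((kX (bcx Y) L c).f n)).trans ?_
    exact congrArg (fun z => ((cP E.pp L).q c).m (((cC V.pc L).X c).dg.d m)
      ((kX (bcx Y) L c).f n) + ((cP E.pp L).q c).m (((cC V.pc L).X c).dg.s m) z)
      ((kX (bcx Y) L c).d n)

/-- The map `G_l(V) ⊗_W Y → G_l(Q)`. -/
def th : GMap 0 (tb (cBR V L c) Y) (cBR Q L c) where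
  f := E.thf L c
  deg := fun hx => E.thf_deg L c hx
  map_l := fun a x => by
    rw [Dg.sp_zero]
    exact E.thf_l L c a x
  map_r := fun d x => E.thf_r L c d x

theorem th_tm (x : (cBR V L c).M) (y : Y.M) :
    (E.th L c).f (tm x y) = ((cP E.pp L).q c).m x ((kX (bcx Y) L c).f y) := E.thf_tm L c x y

theorem th_dd : (E.th L c).dd = 0 := by
  refine LinearMap.ext (fun x => ?_)
  rw [GMap.dd_apply, sg_zero, one_smul, LinearMap.zero_apply, sub_eq_zero]
  exact E.thf_d L c x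

/-! ### Bijectivity -/

section comp

variable (V) (l : ι)

/-- the components of the Čech complex -/
def q0 : (cBR V (l :: L) c).M →ₗ[k] (cBR V L c).M :=
  LinearMap.fst k (cBR V L c).M (V.M (c.ins l)).M ∘ₗ
    LinearMap.fst k ((cBR V L c).M × (V.M (c.ins l)).M) (cBR V L (c.ins l).fs).M

def q1 : (cBR V (l :: L) c).M →ₗ[k] (V.M (c.ins l)).M :=
  LinearMap.snd k (cBR V L c).M (V.M (c.ins l)).M ∘ₗ
    LinearMap.fst k ((cBR V L c).M × (V.M (c.ins l)).M) (cBR V L (c.ins l).fs).M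

def q01 : (cBR V (l :: L) c).M →ₗ[k] (cBR V L (c.ins l).fs).M :=
  LinearMap.snd k ((cBR V L c).M × (V.M (c.ins l)).M) (cBR V L (c.ins l).fs).M

def i0 : (cBR V L c).M →ₗ[k] (cBR V (l :: L) c).M :=
  LinearMap.inl k ((cBR V L c).M × (V.M (c.ins l)).M) (cBR V L (c.ins l).fs).M ∘ₗ
    LinearMap.inl k (cBR V L c).M (V.M (c.ins l)).M

def i1 : (V.M (c.ins l)).M →ₗ[k] (cBR V (l :: L) c).M :=
  LinearMap.inl k ((cBR V L c).M × (V.M (c.ins l)).M) (cBR V L (c.ins l).fs).M ∘ₗ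
    LinearMap.inr k (cBR V L c).M (V.M (c.ins l)).M

def i01 : (cBR V L (c.ins l).fs).M →ₗ[k] (cBR V (l :: L) c).M :=
  LinearMap.inr k ((cBR V L c).M × (V.M (c.ins l)).M) (cBR V L (c.ins l).fs).M

theorem q0_r (w : W.A) (x : (cBR V (l :: L) c).M) :
    q0 V L c l ((cBR V (l :: L) c).r w x) = (cBR V L c).r w (q0 V L c l x) := by
  obtain ⟨⟨x0, x1⟩, ξ⟩ := x
  exact congrArg (fun z => z.1.1) (cBR_r V l L c w x0 x1 ξ)

theorem q1_r (w : W.A) (x : (cBR V (l :: L) c).M) :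
    q1 V L c l ((cBR V (l :: L) c).r w x) = (V.M (c.ins l)).r w (q1 V L c l x) := by
  obtain ⟨⟨x0, x1⟩, ξ⟩ := x
  exact congrArg (fun z => z.1.2) (cBR_r V l L c w x0 x1 ξ)

theorem q01_r (w : W.A) (x : (cBR V (l :: L) c).M) :
    q01 V L c l ((cBR V (l :: L) c).r w x) = (cBR V L (c.ins l).fs).r w (q01 V L c l x) := by
  obtain ⟨⟨x0, x1⟩, ξ⟩ := x
  exact congrArg (fun z => z.2) (cBR_r V l L c w x0 x1 ξ)

theorem i0_r (w : W.A) (x : (cBR V L c).M) :
    i0 V L c l ((cBR V L c).r w x) = (cBR V (l :: L) c).r w (i0 V L c l x) := by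
  refine Eq.trans ?_ (cBR_r V l L c w x 0 0).symm
  rw [map_zero, map_zero]
  rfl

theorem i1_r (w : W.A) (x : (V.M (c.ins l)).M) :
    i1 V L c l ((V.M (c.ins l)).r w x) = (cBR V (l :: L) c).r w (i1 V L c l x) := by
  refine Eq.trans ?_ (cBR_r V l L c w 0 x 0).symm
  rw [map_zero, map_zero]
  rfl

theorem i01_r (w : W.A) (x : (cBR V L (c.ins l).fs).M) :
    i01 V L c l ((cBR V L (c.ins l).fs).r w x) = (cBR V (l :: L) c).r w (i01 V L c l x) := by
  refine Eq.trans ?_ (cBR_r V l L c w 0 0 x).symm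
  rw [map_zero, map_zero]
  rfl

theorem qi_sum (x : (cBR V (l :: L) c).M) : i0 V L c l (q0 V L c l x) +
    (i1 V L c l (q1 V L c l x) + i01 V L c l (q01 V L c l x)) = x := by
  obtain ⟨⟨x0, x1⟩, ξ⟩ := x
  refine Prod.ext (Prod.ext ?_ ?_) ?_
  · have h : x0 + ((0 : ((cC V.pc L).X c).V) + 0) = x0 := by rw [add_zero, add_zero]
    exact h
  · have h : (0 : (V.pc.X (c.ins l)).V) + (x1 + 0) = x1 := by rw [add_zero, zero_add]
    exact h
  · have h : (0 : ((cC V.pc L).X (c.ins l).fs).V) + (0 + ξ) = ξ := by rw [zero_add, zero_add]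
    exact h

variable (Y)

/-- the components of the tensor product -/
def P0 : (tb (cBR V (l :: L) c) Y).M →ₗ[k] (tb (cBR V L c) Y).M :=
  tbf (q0 V L c l) (q0_r V L c l) Y

def P1 : (tb (cBR V (l :: L) c) Y).M →ₗ[k] (tb (V.M (c.ins l)) Y).M :=
  tbf (q1 V L c l) (q1_r V L c l) Y

def P01 : (tb (cBR V (l :: L) c) Y).M →ₗ[k] (tb (cBR V L (c.ins l).fs) Y).M :=
  tbf (q01 V L c l) (q01_r V L c l) Y

def J0 : (tb (cBR V L c) Y).M →ₗ[k] (tb (cBR V (l :: L) c) Y).M :=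
  tbf (i0 V L c l) (i0_r V L c l) Y

def J1 : (tb (V.M (c.ins l)) Y).M →ₗ[k] (tb (cBR V (l :: L) c) Y).M :=
  tbf (i1 V L c l) (i1_r V L c l) Y

def J01 : (tb (cBR V L (c.ins l).fs) Y).M →ₗ[k] (tb (cBR V (l :: L) c) Y).M :=
  tbf (i01 V L c l) (i01_r V L c l) Y

theorem P0_tm (m : (cBR V (l :: L) c).M) (y : Y.M) :
    P0 V Y L c l (tm m y) = tm (q0 V L c l m) y := tbf_tm _ _ _ _ _

theorem P1_tm (m : (cBR V (l :: L) c).M) (y : Y.M) :
    P1 V Y L c l (tm m y) = tm (q1 V L c l m) y := tbf_tm _ _ _ _ _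

theorem P01_tm (m : (cBR V (l :: L) c).M) (y : Y.M) :
    P01 V Y L c l (tm m y) = tm (q01 V L c l m) y := tbf_tm _ _ _ _ _

theorem J0_tm (m : (cBR V L c).M) (y : Y.M) :
    J0 V Y L c l (tm m y) = tm (i0 V L c l m) y := tbf_tm _ _ _ _ _

theorem J1_tm (m : (V.M (c.ins l)).M) (y : Y.M) :
    J1 V Y L c l (tm m y) = tm (i1 V L c l m) y := tbf_tm _ _ _ _ _

theorem J01_tm (m : (cBR V L (c.ins l).fs).M) (y : Y.M) :
    J01 V Y L c l (tm m y) = tm (i01 V L c l m) y := tbf_tm _ _ _ _ _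

theorem tb_sum (z : (tb (cBR V (l :: L) c) Y).M) :
    J0 V Y L c l (P0 V Y L c l z) + (J1 V Y L c l (P1 V Y L c l z) +
      J01 V Y L c l (P01 V Y L c l z)) = z := by
  have h : J0 V Y L c l ∘ₗ P0 V Y L c l + (J1 V Y L c l ∘ₗ P1 V Y L c l +
      J01 V Y L c l ∘ₗ P01 V Y L c l) = LinearMap.id := by
    refine tb_hom_ext (fun m n => ?_)
    rw [LinearMap.add_apply, LinearMap.add_apply, LinearMap.comp_apply, LinearMap.comp_apply,
      LinearMap.comp_apply, P0_tm, P1_tm, P01_tm, J0_tm, J1_tm, J01_tm, ← tm_add_left,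
      ← tm_add_left, qi_sum, LinearMap.id_apply]
  exact LinearMap.congr_fun h z

theorem P0_J0 (z : (tb (cBR V L c) Y).M) : P0 V Y L c l (J0 V Y L c l z) = z :=
  (tbf_comp _ _ _ _ LinearMap.id (fun _ _ => rfl) (fun _ => rfl) Y z).trans
    (tbf_id _ _ (fun _ => rfl) Y z)

theorem P1_J1 (z : (tb (V.M (c.ins l)) Y).M) : P1 V Y L c l (J1 V Y L c l z) = z :=
  (tbf_comp _ _ _ _ LinearMap.id (fun _ _ => rfl) (fun _ => rfl) Y z).trans
    (tbf_id _ _ (fun _ => rfl) Y z)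

theorem P01_J01 (z : (tb (cBR V L (c.ins l).fs) Y).M) :
    P01 V Y L c l (J01 V Y L c l z) = z :=
  (tbf_comp _ _ _ _ LinearMap.id (fun _ _ => rfl) (fun _ => rfl) Y z).trans
    (tbf_id _ _ (fun _ => rfl) Y z)

theorem P0_J1 (z : (tb (V.M (c.ins l)) Y).M) : P0 V Y L c l (J1 V Y L c l z) = 0 :=
  (tbf_comp _ _ _ _ 0 (fun _ _ => (map_zero _).symm) (fun _ => rfl) Y z).trans
    (tbf_zero _ _ (fun _ => rfl) Y z)

theorem P0_J01 (z : (tb (cBR V L (c.ins l).fs) Y).M) : P0 V Y L c l (J01 V Y L c l z) = 0 :=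
  (tbf_comp _ _ _ _ 0 (fun _ _ => (map_zero _).symm) (fun _ => rfl) Y z).trans
    (tbf_zero _ _ (fun _ => rfl) Y z)

theorem P1_J0 (z : (tb (cBR V L c) Y).M) : P1 V Y L c l (J0 V Y L c l z) = 0 :=
  (tbf_comp _ _ _ _ 0 (fun _ _ => (map_zero _).symm) (fun _ => rfl) Y z).trans
    (tbf_zero _ _ (fun _ => rfl) Y z)

theorem P1_J01 (z : (tb (cBR V L (c.ins l).fs) Y).M) : P1 V Y L c l (J01 V Y L c l z) = 0 :=
  (tbf_comp _ _ _ _ 0 (fun _ _ => (map_zero _).symm) (fun _ => rfl) Y z).trans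
    (tbf_zero _ _ (fun _ => rfl) Y z)

theorem P01_J0 (z : (tb (cBR V L c) Y).M) : P01 V Y L c l (J0 V Y L c l z) = 0 :=
  (tbf_comp _ _ _ _ 0 (fun _ _ => (map_zero _).symm) (fun _ => rfl) Y z).trans
    (tbf_zero _ _ (fun _ => rfl) Y z)

theorem P01_J1 (z : (tb (V.M (c.ins l)) Y).M) : P01 V Y L c l (J1 V Y L c l z) = 0 :=
  (tbf_comp _ _ _ _ 0 (fun _ _ => (map_zero _).symm) (fun _ => rfl) Y z).trans
    (tbf_zero _ _ (fun _ => rfl) Y z)

end comp

theorem thf_cons (l : ι) (z : (tb (cBR V (l :: L) c) Y).M) :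
    E.thf (l :: L) c z = ((E.thf L c (P0 V Y L c l z), (E.β (c.ins l)).f (P1 V Y L c l z)),
      E.thf L (c.ins l).fs (P01 V Y L c l z)) := by
  obtain ⟨G, hG⟩ : ∃ G : (tb (cBR V (l :: L) c) Y).M →ₗ[k] (cBR Q (l :: L) c).M,
      G = ((E.thf L c ∘ₗ P0 V Y L c l).prod ((E.β (c.ins l)).f ∘ₗ P1 V Y L c l)).prod
        (E.thf L (c.ins l).fs ∘ₗ P01 V Y L c l) := ⟨_, rfl⟩
  have h : E.thf (l :: L) c = G := by
    refine tb_hom_ext (fun m n => ?_)
    obtain ⟨⟨x0, x1⟩, ξ⟩ := m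
    rw [E.thf_tm, hG]
    refine (cP_kR E.pp l L c x0 x1 ξ n).trans ?_
    refine Prod.ext (Prod.ext ?_ ?_) ?_
    · refine Eq.trans ?_ (congrArg (E.thf L c) (P0_tm V Y L c l ((x0, x1), ξ) n)).symm
      exact (E.thf_tm L c x0 n).symm
    · refine Eq.trans ?_ (congrArg (E.β (c.ins l)).f (P1_tm V Y L c l ((x0, x1), ξ) n)).symm
      rfl
    · refine Eq.trans ?_ (congrArg (E.thf L (c.ins l).fs)
        (P01_tm V Y L c l ((x0, x1), ξ) n)).symm
      exact (E.thf_tm L (c.ins l).fs ξ n).symm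
  rw [h, hG]
  rfl

theorem thf_bij (h : ∀ a, Function.Bijective (E.β a).f) : ∀ (L : List ι) (c : FS ι),
    Function.Bijective (E.thf L c)
  | [], c => by
    refine ⟨fun x y _ => ?_, fun y => ⟨0, rfl⟩⟩
    have h0 : ∀ z : (tb (cBR V [] c) Y).M, z = 0 := by
      refine tb_ind rfl (fun x y hx hy => by rw [hx, hy, add_zero]) (fun m n => ?_)
      have h1 : m = 0 := rfl
      rw [h1, tm_zero_left]
    rw [h0 x, h0 y]
  | l :: L, c => by
    have b0 := thf_bij h L c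
    have b1 := h (c.ins l)
    have b01 := thf_bij h L (c.ins l).fs
    constructor
    · rw [injective_iff_map_eq_zero]
      intro z hz
      rw [E.thf_cons] at hz
      have e0 : E.thf L c (P0 V Y L c l z) = 0 := congrArg (fun y => y.1.1) hz
      have e1 : (E.β (c.ins l)).f (P1 V Y L c l z) = 0 := congrArg (fun y => y.1.2) hz
      have e01 : E.thf L (c.ins l).fs (P01 V Y L c l z) = 0 := congrArg (fun y => y.2) hz
      have f0 := (injective_iff_map_eq_zero _).1 b0.1 _ e0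
      have f1 := (injective_iff_map_eq_zero _).1 b1.1 _ e1
      have f01 := (injective_iff_map_eq_zero _).1 b01.1 _ e01
      rw [← tb_sum V Y L c l z, f0, f1, f01, map_zero, map_zero, map_zero, add_zero, add_zero]
    · rintro ⟨⟨y0, y1⟩, υ⟩
      obtain ⟨z0, h0⟩ := b0.2 y0
      obtain ⟨z1, h1⟩ := b1.2 y1
      obtain ⟨z01, h01⟩ := b01.2 υ
      refine ⟨J0 V Y L c l z0 + (J1 V Y L c l z1 + J01 V Y L c l z01), ?_⟩
      rw [E.thf_cons]
      refine Prod.ext (Prod.ext ?_ ?_) ?_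
      · refine Eq.trans (congrArg (E.thf L c) ?_) h0
        rw [map_add, map_add, P0_J0, P0_J1, P0_J01, add_zero, add_zero]
      · refine Eq.trans (congrArg (E.β (c.ins l)).f ?_) h1
        rw [map_add, map_add, P1_J0, P1_J1, P1_J01, add_zero, zero_add]
      · refine Eq.trans (congrArg (E.thf L (c.ins l).fs) ?_) h01
        rw [map_add, map_add, P01_J0, P01_J1, P01_J01, zero_add, zero_add]

/-- `G_l(V) ⊗_W Y → G_l(Q)` is bijective if the maps `V a ⊗_W Y → Q a` are. -/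
theorem th_bij (h : ∀ a, Function.Bijective (E.β a).f) (L : List ι) (c : FS ι) :
    Function.Bijective (E.th L c).f := E.thf_bij h L c

end ExR

end Pool.Agent.MP_6e5bed_ag_PN
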