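import Pool.Agent.Lib.MP_6e5bed_ag_PN.Dia
import Pool.Agent.Lib.MP_6e5bed_ag_PN.Cst
import Pool.Agent.Lib.MP_6e5bed_ag_PN.TbR
import Pool.Agent.Lib.MP_6e5bed_ag_PN.QiB

set_option autoImplicit false
set_option linter.unusedVariables false

/-!
# MP_6e5bed_ag, THEOREM G: the total multiplication of the double Čech complex is linear on both
sides (3.6)
-/

noncomputable section

namespace Pool.Agent.MP_6e5bed_ag_PN

open Pool.Agent.MP_6e5bed_ag_NC Pool.Agent.MP_6e5bed_ag_NS

universe u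

variable {k : Type u} [CommRing k] {ι : Type} {V V' V'' : PC k ι}

/-- the empty set is contained in every set -/
theorem e_le (c : FS ι) : FS.e ι ≤ c := Set.empty_subset c.1

/-! ### The left action -/

/-- The pairing `(x, z) ↦ x|_b z` of the Čech complex of `V` at `∅` with the presheaf of the Čech
complexes of `V'` -/
def pL (p : PP V V' V'') (L : List ι) :
    PP (PC.con ι ((cC V L).X (FS.e ι))) (cC V' L).pc (cC V'' L).pc where
  p := fun b =>
    { m := ((cP p L).q b.fs).m ∘ₗ ((cC V L).ρ (e_le b.fs)).f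
      deg := fun {i j x y} hx hy => ((cP p L).q b.fs).deg (((cC V L).ρ (e_le b.fs)).deg hx) hy
      d := fun x y => by
        change ((cC V'' L).X b.fs).dg.d (((cP p L).q b.fs).m (((cC V L).ρ _).f x) y) =
          ((cP p L).q b.fs).m (((cC V L).ρ _).f (((cC V L).X _).dg.d x)) y +
          ((cP p L).q b.fs).m (((cC V L).ρ _).f (((cC V L).X _).dg.s x))
            (((cC V' L).X b.fs).dg.d y)
        rw [((cP p L).q b.fs).d, ((cC V L).ρ _).d, ((cC V L).ρ _).s] }
  nat := fun {c d} h x y => by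
    change ((cC V'' L).ρ (fs_mono h)).f (((cP p L).q c.fs).m (((cC V L).ρ _).f x) y) =
      ((cP p L).q d.fs).m (((cC V L).ρ _).f x) (((cC V' L).ρ (fs_mono h)).f y)
    rw [(cP p L).nat, (cC V L).ρ_ρ]

theorem pL_m (p : PP V V' V'') (L : List ι) (b : Ch ι) (x : ((cC V L).X (FS.e ι)).V)
    (y : ((cC V' L).X b.fs).V) : ((pL p L).p b).m x y =
      ((cP p L).q b.fs).m (((cC V L).ρ (e_le b.fs)).f x) y := rfl

/-- the projection, as a morphism of constant presheaves -/
private def diaC_pr (V : PC k ι) (l : ι) (L : List ι) :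
    PCH (PC.con ι ((cC V (l :: L)).X (FS.e ι))) (PC.con ι ((cC V L).X (FS.e ι))) where
  f := fun _ => ((cC V L).pr l).g (FS.e ι)
  nat := fun _ _ => rfl

private theorem diaC_outerL (p : PP V V' V'') (l : ι) (L M : List ι) (c : FS ι)
    (x : ((cC V (l :: L)).X (FS.e ι)).V) (z : ((cC (cC V' (l :: L)).pc M).X c).V) :
    ((cH ((cC V'' L).prc l) M).g c).f (((cP (pL p (l :: L)) M).q c).m
      ((kX ((cC V (l :: L)).X (FS.e ι)) M c).f x) z) =
      ((cP (pL p L) M).q c).m ((kX ((cC V L).X (FS.e ι)) M c).f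
        ((((cC V L).pr l).g (FS.e ι)).f x)) (((cH ((cC V' L).prc l) M).g c).f z) := by
  refine (cH_mul (p := pL p (l :: L)) (q := pL p L) (diaC_pr V l L) ((cC V' L).prc l)
    ((cC V'' L).prc l) (fun b x y => ?_) M c _ z).trans ?_
  · obtain ⟨⟨x0, x1⟩, ξ⟩ := x
    obtain ⟨⟨y0, y1⟩, υ⟩ := y
    rfl
  · exact congrArg (fun w => ((cP (pL p L) M).q c).m w (((cH ((cC V' L).prc l) M).g c).f z))
      (kX_nat (((cC V L).pr l).g (FS.e ι)) (diaC_pr V l L) (fun _ _ => rfl) M c x)

/-- The total multiplication is linear on the left. -/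
theorem dia_l (p : PP V V' V'') : ∀ (L : List ι) (c : FS ι) (x : ((cC V L).X (FS.e ι)).V)
    (z : ((cC (cC V' L).pc L).X c).V),
    ((dia V'' L).π c).f (((cP (pL p L) L).q c).m ((kX ((cC V L).X (FS.e ι)) L c).f x) z) =
      ((cP p L).q c).m (((cC V L).ρ (e_le c)).f x) (((dia V' L).π c).f z) := by
  intro L
  induction L with
  | nil => exact fun c x z => rfl
  | cons l L ih =>
    have key : ∀ (c : FS ι) (x : ((cC V (l :: L)).X (FS.e ι)).V)
        (z : ((cC (cC V' (l :: L)).pc L).X c).V),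
        ((dia V'' L).π c).f (((cH ((cC V'' L).prc l) L).g c).f
          (((cP (pL p (l :: L)) L).q c).m ((kX ((cC V (l :: L)).X (FS.e ι)) L c).f x) z)) =
        ((cP p L).q c).m (((cC V L).ρ (e_le c)).f ((((cC V L).pr l).g (FS.e ι)).f x))
          (((dia V' L).π c).f (((cH ((cC V' L).prc l) L).g c).f z)) := by
      intro c x z
      exact (congrArg ((dia V'' L).π c).f (diaC_outerL p l L L c x z)).trans (ih c _ _)
    intro c x z
    have e1 := cP_kL (pL p (l :: L)) l L c z.1.1 z.1.2 z.2 x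
    refine (congrArg ((dia V'' (l :: L)).π c).f e1).trans ?_
    obtain ⟨⟨z0, ⟨⟨z10, z11⟩, ζ1⟩⟩, ζ⟩ := z
    have hs := (((cC V L).pr l).g (FS.e ι)).s x
    have kx := key (c.ins l).fs (((cC V (l :: L)).X (FS.e ι)).dg.s x) ζ
    obtain ⟨⟨x0, x1⟩, ξ⟩ := x
    refine Prod.ext (Prod.ext (key c _ z0) ?_) ?_
    · change (V''.ρ (ins_ins c l)).f ((p.p _).m ((V.ρ _).f x1) z11) =
        (p.p (c.ins l)).m ((V.ρ _).f x1) ((V'.ρ (ins_ins c l)).f z11)
      rw [p.nat, V.ρ_ρ]
    · change ((dia V'' L).π (c.ins l).fs).f (((cH ((cC V'' L).prc l) L).g (c.ins l).fs).f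
          (((cP (pL p (l :: L)) L).q (c.ins l).fs).m
            ((kX ((cC V (l :: L)).X (FS.e ι)) L (c.ins l).fs).f
              (((cC V (l :: L)).X (FS.e ι)).dg.s ((x0, x1), ξ))) ζ)) +
          ((cC V'' L).ρ (fs_mono (ins_ins c l))).f
            (((cP p L).q _).m (((cC V L).ρ _).f (((cC V L).X _).dg.s (((cC V L).ρ _).f x0))) ζ1 +
              ((cP p L).q _).m (((cC V L).ρ _).f ξ) (((cC V' L).a _).f z11)) =
        ((cP p L).q _).m (((cC V L).ρ _).f (((cC V L).X c).dg.s (((cC V L).ρ _).f x0)))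
            (((dia V' L).π (c.ins l).fs).f (((cH ((cC V' L).prc l) L).g (c.ins l).fs).f ζ) +
              ((cC V' L).ρ (fs_mono (ins_ins c l))).f ζ1) +
          ((cP p L).q _).m (((cC V L).ρ _).f ξ)
            (((cC V' L).a _).f ((V'.ρ (ins_ins c l)).f z11))
      have hs2 : (((cC V L).pr l).g (FS.e ι)).f
          (((cC V (l :: L)).X (FS.e ι)).dg.s ((x0, x1), ξ)) =
          ((cC V L).X (FS.e ι)).dg.s x0 := hs.symm
      rw [kx, hs2, map_add, (cP p L).nat, (cP p L).nat, map_add, (cC V' L).a_ρ,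
        ((cC V L).ρ _).s, ((cC V L).ρ _).s, (cC V L).ρ_ρ, (cC V L).ρ_ρ, (cC V L).ρ_ρ,
        (cC V L).ρ_ρ, add_assoc]

/-! ### The right action -/

/-- The pairing `(z, y) ↦ z y|_b` of the presheaf of the Čech complexes of `V` with `V'` -/
def pR (p : PP V V' V'') (L : List ι) : PP (cC V L).pc V' (cC V'' L).pc where
  p := fun b =>
    { m := ((cP p L).q b.fs).m.compl₂ ((cC V' L).a b).f
      deg := fun {i j x y} hx hy => ((cP p L).q b.fs).deg hx (((cC V' L).a b).deg hy)
      d := fun x y => by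
        change ((cC V'' L).X b.fs).dg.d (((cP p L).q b.fs).m x (((cC V' L).a b).f y)) =
          ((cP p L).q b.fs).m (((cC V L).X b.fs).dg.d x) (((cC V' L).a b).f y) +
          ((cP p L).q b.fs).m (((cC V L).X b.fs).dg.s x) (((cC V' L).a b).f ((V'.X b).dg.d y))
        rw [((cP p L).q b.fs).d, ((cC V' L).a b).d] }
  nat := fun {c d} h x y => by
    change ((cC V'' L).ρ (fs_mono h)).f (((cP p L).q c.fs).m x (((cC V' L).a c).f y)) =
      ((cP p L).q d.fs).m (((cC V L).ρ (fs_mono h)).f x) (((cC V' L).a d).f ((V'.ρ h).f y))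
    rw [(cP p L).nat, (cC V' L).a_ρ]

theorem pR_m (p : PP V V' V'') (L : List ι) (b : Ch ι) (x : ((cC V L).X b.fs).V)
    (y : (V'.X b).V) : ((pR p L).p b).m x y =
      ((cP p L).q b.fs).m x (((cC V' L).a b).f y) := rfl

private theorem diaC_outerR (p : PP V V' V'') (l : ι) (L M : List ι) (c : FS ι)
    (z : ((cC (cC V (l :: L)).pc M).X c).V) (y : ((cC V' M).X c).V) :
    ((cH ((cC V'' L).prc l) M).g c).f (((cP (pR p (l :: L)) M).q c).m z y) =
      ((cP (pR p L) M).q c).m (((cH ((cC V L).prc l) M).g c).f z) y := by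
  refine (cH_mul (p := pR p (l :: L)) (q := pR p L) ((cC V L).prc l) (PCH.id V')
    ((cC V'' L).prc l) (fun b x y => ?_) M c z y).trans ?_
  · obtain ⟨⟨x0, x1⟩, ξ⟩ := x
    rfl
  · exact congrArg (((cP (pR p L) M).q c).m (((cH ((cC V L).prc l) M).g c).f z))
      (cH_id V' M c y)

/-- The total multiplication is linear on the right. -/
theorem dia_r (p : PP V V' V'') : ∀ (L : List ι) (c : FS ι) (z : ((cC (cC V L).pc L).X c).V)
    (y : ((cC V' L).X c).V),
    ((dia V'' L).π c).f (((cP (pR p L) L).q c).m z y) =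
      ((cP p L).q c).m (((dia V L).π c).f z) y := by
  intro L
  induction L with
  | nil => exact fun c z y => rfl
  | cons l L ih =>
    have key : ∀ (c : FS ι) (z : ((cC (cC V (l :: L)).pc L).X c).V) (y : ((cC V' L).X c).V),
        ((dia V'' L).π c).f (((cH ((cC V'' L).prc l) L).g c).f
          (((cP (pR p (l :: L)) L).q c).m z y)) =
        ((cP p L).q c).m (((dia V L).π c).f (((cH ((cC V L).prc l) L).g c).f z)) y := by
      intro c z y
      exact (congrArg ((dia V'' L).π c).f (diaC_outerR p l L L c z y)).trans (ih c _ y)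
    intro c z y
    obtain ⟨⟨z0, ⟨⟨z10, z11⟩, ζ1⟩⟩, ζ⟩ := z
    obtain ⟨⟨y0, y1⟩, υ⟩ := y
    refine Prod.ext (Prod.ext (key c z0 y0) ?_) ?_
    · change (V''.ρ (ins_ins c l)).f ((p.p _).m z11 ((V'.ρ _).f y1)) =
        (p.p (c.ins l)).m ((V.ρ (ins_ins c l)).f z11) y1
      rw [p.nat, V'.ρ_ρ, V'.ρ_id]
    · change ((dia V'' L).π (c.ins l).fs).f (((cH ((cC V'' L).prc l) L).g (c.ins l).fs).f
          (((cP (pR p (l :: L)) L).q (c.ins l).fs).m
            (((cC (cC V (l :: L)).pc L).ρ (le_ins c l)).f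
              (((cC (cC V (l :: L)).pc L).X c).dg.s z0)) υ +
            ((cP (pR p (l :: L)) L).q (c.ins l).fs).m ζ (((cC V' L).a (c.ins l)).f y1))) +
          ((cC V'' L).ρ (fs_mono (ins_ins c l))).f
            (((cP p L).q _).m (((cC V L).ρ _).f (((cC V L).X _).dg.s z10)) 0 +
              ((cP p L).q _).m ζ1 (((cC V' L).a _).f ((V'.ρ _).f y1))) =
        ((cP p L).q _).m (((cC V L).ρ _).f (((cC V L).X c).dg.s
            (((dia V L).π c).f (((cH ((cC V L).prc l) L).g c).f z0)))) υ +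
          ((cP p L).q _).m (((dia V L).π (c.ins l).fs).f
            (((cH ((cC V L).prc l) L).g (c.ins l).fs).f ζ) +
            ((cC V L).ρ (fs_mono (ins_ins c l))).f ζ1) (((cC V' L).a _).f y1)
      have h1 : ((dia V L).π (c.ins l).fs).f (((cH ((cC V L).prc l) L).g (c.ins l).fs).f
          (((cC (cC V (l :: L)).pc L).ρ (le_ins c l)).f
            (((cC (cC V (l :: L)).pc L).X c).dg.s z0))) =
          ((cC V L).ρ (le_ins c l)).f (((cC V L).X c).dg.s
            (((dia V L).π c).f (((cH ((cC V L).prc l) L).g c).f z0))) := by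
        refine (congrArg ((dia V L).π _).f
          ((cH ((cC V L).prc l) L).nat (le_ins c l) _).symm).trans ?_
        refine ((dia V L).nat (le_ins c l) _).symm.trans ?_
        refine congrArg ((cC V L).ρ (le_ins c l)).f ?_
        refine (congrArg ((dia V L).π c).f
          (((cH ((cC V L).prc l) L).g c).s z0).symm).trans ?_
        exact (((dia V L).π c).s _).symm
      have hA := (key (c.ins l).fs (((cC (cC V (l :: L)).pc L).ρ (le_ins c l)).f
        (((cC (cC V (l :: L)).pc L).X c).dg.s z0)) υ).trans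
          (congrArg (fun w => ((cP p L).q (c.ins l).fs).m w υ) h1)
      have hB := key (c.ins l).fs ζ (((cC V' L).a (c.ins l)).f y1)
      have hAB : ∀ A B, ((dia V'' L).π (c.ins l).fs).f
          (((cH ((cC V'' L).prc l) L).g (c.ins l).fs).f (A + B)) =
          ((dia V'' L).π (c.ins l).fs).f (((cH ((cC V'' L).prc l) L).g (c.ins l).fs).f A) +
          ((dia V'' L).π (c.ins l).fs).f
            (((cH ((cC V'' L).prc l) L).g (c.ins l).fs).f B) := by
        intro A B
        rw [map_add, map_add]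
      have hC : ((cC V'' L).ρ (fs_mono (ins_ins c l))).f
            (((cP p L).q _).m (((cC V L).ρ (le_ins (c.ins l).fs l)).f
              (((cC V L).X (c.ins l).fs).dg.s z10)) 0 +
              ((cP p L).q ((c.ins l).fs.ins l).fs).m ζ1
                (((cC V' L).a ((c.ins l).fs.ins l)).f ((V'.ρ (le_ins' (c.ins l) l)).f y1))) =
          ((cP p L).q (c.ins l).fs).m (((cC V L).ρ (fs_mono (ins_ins c l))).f ζ1)
            (((cC V' L).a (c.ins l)).f y1) := by
        rw [map_zero, zero_add, (cP p L).nat, (cC V' L).a_ρ (ins_ins c l), V'.ρ_ρ, V'.ρ_id]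
      refine (congrArg₂ (· + ·) ((hAB _ _).trans (congrArg₂ (· + ·) hA hB)) hC).trans ?_
      rw [LinearMap.map_add₂, add_assoc]

/-! ### The total multiplication is a quasi-isomorphism -/

/-- PROOF. `dι` is a quasi-isomorphism and `π ∘ dι` is the identity. -/
theorem dia_qi (V : PC k ι) (L : List ι) (h : ∀ c : Ch ι, Qi ((cC V L).a c)) (c : FS ι) :
    Qi ((dia V L).π c) :=
  Qi.of_left (f := (dι V L).g c) (h := CHom.id _) (fun x => dia_ι V L c x)
    (cH_qi (cC V L).av h L c) (Qi.of_bij Function.bijective_id)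

end Pool.Agent.MP_6e5bed_ag_PN
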