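import Pool.Agent.Lib.MP_6e5bed_ag_PN.Cst
import Pool.Agent.Lib.MP_6e5bed_ag_PN.GT

set_option autoImplicit false
set_option linter.unusedVariables false

/-!
# MP_6e5bed_ag, THEOREM G: presheaves of bimodules in two variables and their Čech bimodules

For presheaves `A` (charts `Ch ι`) and `B` (charts `Ch κ`) of dg algebras, `PB2 A B` are the
presheaves of bimodules `M a b : Bim (A a) (B b)` in two variables. `cB2 M L c L' c'` is the double
Čech complex, as bimodule over the Čech algebras of `A` and of `B`: first in the variable `a`, with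
constant right algebra `B b` (`cBR`), then in the variable `b`, with constant left algebra (`cBL`).
-/

noncomputable section

namespace Pool.Agent.MP_6e5bed_ag_PN

open Pool.Agent.MP_6e5bed_ag_NC Pool.Agent.MP_6e5bed_ag_NS

universe u

variable {k : Type u} [CommRing k] {ι : Type} {κ : Type}

/-- Presheaves of dg bimodules in two variables. -/
structure PB2 (A : PA k ι) (B : PA k κ) where
  M : ∀ (a : Ch ι) (b : Ch κ), Bim (A.A a) (B.A b)
  ρ : ∀ {a a' : Ch ι} {b b' : Ch κ} (h : a ≤ a') (h' : b ≤ b'),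
    GMap 0 (M a b) (res (A.r h) (B.r h') (M a' b'))
  dd : ∀ {a a' : Ch ι} {b b' : Ch κ} (h : a ≤ a') (h' : b ≤ b'), (ρ h h').dd = 0
  ρ_id : ∀ {a : Ch ι} {b : Ch κ} (h : a ≤ a) (h' : b ≤ b) x, (ρ h h').f x = x
  ρ_ρ : ∀ {a a' a'' : Ch ι} {b b' b'' : Ch κ} (h : a ≤ a') (h' : b ≤ b') (e : a' ≤ a'')
    (e' : b' ≤ b'') x, (ρ e e').f ((ρ h h').f x) = (ρ (h.trans e) (h'.trans e')).f x

variable {A : PA k ι} {B : PA k κ}

theorem gmk_dd {A A' B B' : DGA k} (α : DHom A A') (β : DHom B B') {X : Bim A B} {Y : Bim A' B'}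
    (f : X.M →ₗ[k] Y.M) (hd : ∀ {i : ℤ} {x : X.M}, X.dg.IsDeg i x → Y.dg.IsDeg (i + 0) (f x))
    (hl : ∀ a x, f (X.l a x) = Y.l (α.f a) (f x))
    (hr : ∀ b x, f (X.r b x) = Y.r (β.f b) (f x)) (h : ∀ x, Y.dg.d (f x) = f (X.dg.d x)) :
    (gmk α β f hd hl hr).dd = 0 := by
  refine LinearMap.ext fun x => ?_
  rw [GMap.dd_apply, sg_zero, one_smul, LinearMap.zero_apply, sub_eq_zero]
  exact h x

/-- a map of degree zero respects the left action -/
theorem gm_l {A A' B B' : DGA k} {α : DHom A A'} {β : DHom B B'} {X : Bim A B} {Y : Bim A' B'}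
    (f : GMap 0 X (res α β Y)) (a : A.A) (x : X.M) : f.f (X.l a x) = Y.l (α.f a) (f.f x) := by
  have h1 := f.map_l a x
  rw [Dg.sp_zero] at h1
  exact h1

/-- a map of degree zero respects the right action -/
theorem gm_r {A A' B B' : DGA k} {α : DHom A A'} {β : DHom B B'} {X : Bim A B} {Y : Bim A' B'}
    (f : GMap 0 X (res α β Y)) (b : B.A) (x : X.M) : f.f (X.r b x) = Y.r (β.f b) (f.f x) :=
  f.map_r b x

/-- a closed map of degree zero respects the differential -/
theorem gm_d {A A' B B' : DGA k} {α : DHom A A'} {β : DHom B B'} {X : Bim A B} {Y : Bim A' B'}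
    {f : GMap 0 X (res α β Y)} (h : f.dd = 0) (x : X.M) : Y.dg.d (f.f x) = f.f (X.dg.d x) :=
  GMap.d_f_zero h x

/-! ### The presheaves in the first variable -/

/-- The presheaf in the first variable, for a fixed chart `b` in the second variable. -/
def PB2.fst (M : PB2 A B) (b : Ch κ) : PB A (PA.con ι (B.A b)) where
  M := fun a => M.M a b
  ρ := fun {a a'} h => gmk (A.r h) (DHom.id _) (M.ρ h (le_refl b)).f (M.ρ h (le_refl b)).deg
    (fun r x => gm_l (M.ρ h (le_refl b)) r x)
    (fun r x => (gm_r (M.ρ h (le_refl b)) r x).trans (by rw [B.r_id]; rfl))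
  dd := fun {a a'} h => gmk_dd _ _ _ _ _ _ (fun x => gm_d (M.dd h (le_refl b)) x)
  ρ_id := fun h x => M.ρ_id h (le_refl b) x
  ρ_ρ := fun h h' x => M.ρ_ρ h (le_refl b) h' (le_refl b) x

theorem PB2.fst_ρ (M : PB2 A B) (b : Ch κ) {a a' : Ch ι} (h : a ≤ a') (x : (M.M a b).M) :
    ((M.fst b).ρ h).f x = (M.ρ h (le_refl b)).f x := rfl

/-- The restriction in the second variable. -/
def PB2.sn (M : PB2 A B) {b b' : Ch κ} (h' : b ≤ b') : PCH (M.fst b).pc (M.fst b').pc where
  f := fun a => gch (M.ρ (le_refl a) h') (M.dd (le_refl a) h')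
  nat := fun {a a'} h x => (M.ρ_ρ (le_refl a) h' h (le_refl b') x).trans
    (M.ρ_ρ h (le_refl b) (le_refl a') h' x).symm

/-- The restriction of the constants. -/
def PA.cn (ι : Type) (B : PA k κ) {b b' : Ch κ} (h' : b ≤ b') :
    PCH (PC.con ι (acx (B.A b))) (PC.con ι (acx (B.A b'))) where
  f := fun _ => dch (B.r h')
  nat := fun _ _ => rfl

section push

variable (M : PB2 A B) (L : List ι) (c : FS ι)

/-- the underlying map of the restriction in the second variable -/
def PB2.snf {b b' : Ch κ} (h' : b ≤ b') : CHom (bcx (cBR (M.fst b) L c))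
    (bcx (cBR (M.fst b') L c)) := (cH (M.sn h') L).g c

theorem PB2.snf_l {b b' : Ch κ} (h' : b ≤ b') (r : (cA A L c).A)
    (x : (cBR (M.fst b) L c).M) :
    (M.snf L c h').f ((cBR (M.fst b) L c).l r x) =
      (cBR (M.fst b') L c).l r ((M.snf L c h').f x) := by
  refine (cH_mul (p := (M.fst b).pl) (q := (M.fst b').pl) (PCH.id A.pc) (M.sn h') (M.sn h')
    (fun a r x => ?_) L c r x).trans ?_
  · refine (gm_l (M.ρ (le_refl a) h') r x).trans ?_
    rw [A.r_id]
    rfl
  · exact congrArg (fun z => ((cP (M.fst b').pl L).q c).m z (((cH (M.sn h') L).g c).f x))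
      (cH_id A.pc L c r)

theorem PB2.snf_r {b b' : Ch κ} (h' : b ≤ b') (r : (B.A b).A) (x : (cBR (M.fst b) L c).M) :
    (M.snf L c h').f ((cBR (M.fst b) L c).r r x) =
      (cBR (M.fst b') L c).r ((B.r h').f r) ((M.snf L c h').f x) := by
  refine (cH_mul (p := (M.fst b).pr) (q := (M.fst b').pr) (M.sn h') (PA.cn ι B h') (M.sn h')
    (fun a x r => ?_) L c x ((kX (acx (B.A b)) L c).f r)).trans ?_
  · exact gm_r (M.ρ (le_refl a) h') r x
  · exact congrArg (fun z => ((cP (M.fst b').pr L).q c).m (((cH (M.sn h') L).g c).f x) z)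
      (kX_nat (dch (B.r h')) (PA.cn ι B h') (fun _ _ => rfl) L c r)

/-- the restriction in the second variable -/
def PB2.snm {b b' : Ch κ} (h' : b ≤ b') : GMap 0 (cBR (M.fst b) L c)
    (res (DHom.id _) (B.r h') (cBR (M.fst b') L c)) :=
  cgm _ _ (M.snf L c h') (fun r x => M.snf_l L c h' r x) (fun r x => M.snf_r L c h' r x)

/-- The presheaf in the second variable of the Čech bimodules with respect to the first
variable. -/
def PB2.push : PB (PA.con κ (cA A L c)) B where
  M := fun b => cBR (M.fst b) L c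
  ρ := fun h' => M.snm L c h'
  dd := fun h' => cgm_dd _ _ _ _ _
  ρ_id := fun {b} h' x => by
    refine Eq.trans ?_ (cH_id (M.fst b).pc L c x)
    exact cH_ext (fun a x => M.ρ_id (le_refl a) h' x) L c x
  ρ_ρ := fun {b b' b''} h h' x => by
    refine (cH_comp (M.sn h) (M.sn h') L c x).symm.trans ?_
    exact cH_ext (fun a x => M.ρ_ρ (le_refl a) h (le_refl a) h' x) L c x

theorem PB2.push_ρ {b b' : Ch κ} (h' : b ≤ b') (x : (cBR (M.fst b) L c).M) :
    ((M.push L c).ρ h').f x = ((cH (M.sn h') L).g c).f x := rfl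

/-- The double Čech complex, as a bimodule. -/
def cB2 (L' : List κ) (c' : FS κ) : Bim (cA A L c) (cA B L' c') := cBL (M.push L c) L' c'

theorem cB2_bcx (L' : List κ) (c' : FS κ) :
    bcx (cB2 M L c L' c') = (cC (M.push L c).pc L').X c' := rfl

end push

/-! ### Morphisms -/

/-- Morphisms of presheaves of bimodules in two variables. -/
structure PB2H (M N : PB2 A B) where
  f : ∀ a b, GMap 0 (M.M a b) (N.M a b)
  dd : ∀ a b, (f a b).dd = 0
  nat : ∀ {a a' : Ch ι} {b b' : Ch κ} (h : a ≤ a') (h' : b ≤ b') x,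
    (N.ρ h h').f ((f a b).f x) = (f a' b').f ((M.ρ h h').f x)

variable {M N : PB2 A B}

/-- for a fixed chart in the second variable -/
def PB2H.fst (f : PB2H M N) (b : Ch κ) : PBH (M.fst b) (N.fst b) where
  f := fun a => f.f a b
  dd := fun a => f.dd a b
  nat := fun h x => f.nat h (le_refl b) x

/-- on the Čech bimodules with respect to the first variable -/
def PB2H.push (f : PB2H M N) (L : List ι) (c : FS ι) : PBH (M.push L c) (N.push L c) where
  f := fun b => (f.fst b).gmapR L c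
  dd := fun b => (f.fst b).gmapR_dd L c
  nat := fun {b b'} h' x => by
    refine (cH_comp (f.fst b).pch (N.sn h') L c x).symm.trans ?_
    refine Eq.trans ?_ (cH_comp (M.sn h') (f.fst b').pch L c x)
    exact cH_ext (fun a x => f.nat (le_refl a) h' x) L c x

/-- on the double Čech complexes -/
def PB2H.gmap (f : PB2H M N) (L : List ι) (c : FS ι) (L' : List κ) (c' : FS κ) :
    GMap 0 (cB2 M L c L' c') (cB2 N L c L' c') := (f.push L c).gmapL L' c'

theorem PB2H.gmap_dd (f : PB2H M N) (L : List ι) (c : FS ι) (L' : List κ) (c' : FS κ) :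
    (f.gmap L c L' c').dd = 0 := (f.push L c).gmapL_dd L' c'

/-- A morphism which is a quasi-isomorphism on all charts. -/
theorem PB2H.qiso (f : PB2H M N) (h : ∀ a b, QIso (f.f a b)) (L : List ι) (c : FS ι)
    (L' : List κ) (c' : FS κ) : QIso (f.gmap L c L' c') :=
  (f.push L c).qisoL (fun b => (f.fst b).qisoR (fun a => h a b) L c) L' c'

/-- Exact sequences of presheaves in two variables. -/
def PB2Ex {M' M M'' : PB2 A B} (i : PB2H M' M) (p : PB2H M M'') : Prop :=
  ∀ a b, Function.Injective (i.f a b).f ∧ Function.Surjective (p.f a b).f ∧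
    ∀ x, (p.f a b).f x = 0 ↔ ∃ y, (i.f a b).f y = x

theorem PB2Ex.push {M' M M'' : PB2 A B} {i : PB2H M' M} {p : PB2H M M''} (h : PB2Ex i p)
    (L : List ι) (c : FS ι) : PBEx (i.push L c) (p.push L c) := fun b =>
  ⟨cH_inj (i.fst b).pch (fun a => (h a b).1) L c, cH_surj (p.fst b).pch (fun a => (h a b).2.1) L c,
    fun x => cH_exact (i.fst b).pch (p.fst b).pch (fun a => (h a b).2.2) L c x⟩

/-- A morphism which is bijective on all charts. -/
theorem PB2H.biso (f : PB2H M N) (h : ∀ a b, Function.Bijective (f.f a b).f) (L : List ι)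
    (c : FS ι) (L' : List κ) (c' : FS κ) : BIso (cB2 M L c L' c') (cB2 N L c L' c') := by
  refine BIso.of_bij (f.gmap L c L' c') (f.gmap_dd L c L' c') ?_
  have h1 : ∀ b, Function.Bijective ((f.push L c).f b).f := fun b =>
    ⟨cH_inj (f.fst b).pch (fun a => (h a b).1) L c, cH_surj (f.fst b).pch (fun a => (h a b).2) L c⟩
  exact ⟨cH_inj (f.push L c).pch (fun b => (h1 b).1) L' c',
    cH_surj (f.push L c).pch (fun b => (h1 b).2) L' c'⟩

end Pool.Agent.MP_6e5bed_ag_PN
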