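import Pool.Agent.Lib.MP_6e5bed_ag_PN.Lam
import Pool.Agent.Lib.MP_6e5bed_ag_PN.DiaC
import Pool.Agent.Lib.MP_6e5bed_ag_PN.Two
import Pool.Agent.Lib.MP_6e5bed_ag_PN.Aug
import Pool.Agent.Lib.MP_6e5bed_ag_NC.Acy

set_option autoImplicit false
set_option linter.unusedVariables false

/-!
# MP_6e5bed_ag, THEOREM G: the diagonal bisheaf (3.6)

`PA.dg A : PB2 A A` is the presheaf of bimodules `(a, b) ↦ A (a ∪ b)`. Its double Čech complex is
quasi-isomorphic to the diagonal bimodule of the Čech algebra.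
-/

noncomputable section

namespace Pool.Agent.MP_6e5bed_ag_PN

open Pool.Agent.MP_6e5bed_ag_NC Pool.Agent.MP_6e5bed_ag_NS

universe u

variable {k : Type u} [CommRing k] {ι : Type}

theorem CPr_ext {X Y Z : Cx k} {p p' : CPr X Y Z} (h : ∀ x y, p.m x y = p'.m x y) : p = p' := by
  cases p
  cases p'
  congr 1
  exact LinearMap.ext fun x => LinearMap.ext fun y => h x y

theorem PP_ext {V V' V'' : PC k ι} {p p' : PP V V' V''}
    (h : ∀ c x y, (p.p c).m x y = (p'.p c).m x y) : p = p' := by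
  cases p
  cases p'
  congr 1
  exact funext fun c => CPr_ext (h c)

/-- The presheaf of bimodules `(a, b) ↦ A (a ∪ b)`. -/
def PA.dg (A : PA k ι) : PB2 A A where
  M := fun a b => res (A.r (le_supL a b)) (A.r (le_supR a b)) (diag (A.A (a.sup b)))
  ρ := fun {a a' b b'} h h' => gmk (A.r h) (A.r h') (A.r (sup_mono h h')).f
    (fun {i x} hx => by
      rw [add_zero]
      exact (A.r (sup_mono h h')).deg hx)
    (fun r x => by
      change (A.r (sup_mono h h')).f ((A.A (a.sup b)).mul ((A.r (le_supL a b)).f r) x) =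
        (A.A (a'.sup b')).mul ((A.r (le_supL a' b')).f ((A.r h).f r))
          ((A.r (sup_mono h h')).f x)
      rw [(A.r (sup_mono h h')).mul, A.r_r, A.r_r])
    (fun r x => by
      change (A.r (sup_mono h h')).f ((A.A (a.sup b)).mul x ((A.r (le_supR a b)).f r)) =
        (A.A (a'.sup b')).mul ((A.r (sup_mono h h')).f x)
          ((A.r (le_supR a' b')).f ((A.r h').f r))
      rw [(A.r (sup_mono h h')).mul, A.r_r, A.r_r])
  dd := fun {a a' b b'} h h' => gmk_dd _ _ _ _ _ _ (fun x => (A.r (sup_mono h h')).d x)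
  ρ_id := fun {a b} h h' x => A.r_id _ x
  ρ_ρ := fun {a a' a'' b b' b''} h h' e e' x => A.r_r _ _ x

section

variable (A : PA k ι) (L : List ι)

theorem dg_pc (b : Ch ι) : ((PA.dg A).fst b).pc = A.pc.sh b := rfl

theorem dg_pl (b : Ch ι) : (show PP A.pc (A.pc.sh b) (A.pc.sh b) from ((PA.dg A).fst b).pl) =
    A.pp.sL b := PP_ext fun _ _ _ => rfl

theorem dg_pr (b : Ch ι) : (show PP (A.pc.sh b) (PC.con ι (A.pc.X b)) (A.pc.sh b) from
    ((PA.dg A).fst b).pr) = A.pp.sR b := PP_ext fun _ _ _ => rfl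

/-- The presheaf `b ↦` the Čech algebra at `b`, with the left action of the Čech algebra at `∅`. -/
def dgS : PB (PA.con ι (cA A L (FS.e ι))) A where
  M := fun b => res (cA.ρ A L (e_le b.fs)) (cA.a A L b) (diag (cA A L b.fs))
  ρ := fun {b b'} h => gmk (DHom.id _) (A.r h) (cA.ρ A L (fs_mono h)).f
    (fun {i x} hx => by
      rw [add_zero]
      exact (cA.ρ A L (fs_mono h)).deg hx)
    (fun r x => by
      change (cA.ρ A L (fs_mono h)).f ((cA A L b.fs).mul ((cA.ρ A L (e_le b.fs)).f r) x) =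
        (cA A L b'.fs).mul ((cA.ρ A L (e_le b'.fs)).f r) ((cA.ρ A L (fs_mono h)).f x)
      rw [(cA.ρ A L (fs_mono h)).mul]
      exact congrArg (fun z => (cA A L b'.fs).mul z ((cA.ρ A L (fs_mono h)).f x))
        ((cC A.pc L).ρ_ρ (e_le b.fs) (fs_mono h) r))
    (fun r x => by
      change (cA.ρ A L (fs_mono h)).f ((cA A L b.fs).mul x ((cA.a A L b).f r)) =
        (cA A L b'.fs).mul ((cA.ρ A L (fs_mono h)).f x) ((cA.a A L b').f ((A.r h).f r))
      rw [(cA.ρ A L (fs_mono h)).mul]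
      exact congrArg ((cA A L b'.fs).mul ((cA.ρ A L (fs_mono h)).f x))
        ((cC A.pc L).a_ρ h r))
  dd := fun {b b'} h => gmk_dd _ _ _ _ _ _ (fun x => (cA.ρ A L (fs_mono h)).d x)
  ρ_id := fun {b} h x => (cC A.pc L).ρ_id _ x
  ρ_ρ := fun {b b' b''} h h' x => (cC A.pc L).ρ_ρ _ _ x

theorem dgS_pc : (dgS A L).pc = (cC A.pc L).pc := rfl

theorem dgS_pl : (show PP (PC.con ι ((cC A.pc L).X (FS.e ι))) (cC A.pc L).pc (cC A.pc L).pc from
    (dgS A L).pl) = pL A.pp L := PP_ext fun _ _ _ => rfl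

theorem dgS_pr : (show PP (cC A.pc L).pc A.pc (cC A.pc L).pc from (dgS A L).pr) = pR A.pp L :=
  PP_ext fun _ _ _ => rfl

theorem e_sub (b : Ch ι) : (FS.e ι).1 ∪ b.1 ⊆ b.fs.1 :=
  Set.union_subset (Set.empty_subset _) (subset_refl _)

theorem e_sup (b : Ch ι) : b.fs.1 ⊆ (FS.e ι).1 ∪ b.1 := Set.subset_union_right

theorem lamT_l (b : Ch ι) (r : (cA A L (FS.e ι)).A)
    (x : (cBR ((PA.dg A).fst b) L (FS.e ι)).M) :
    ((lam A.pc b L).g (FS.e ι) b.fs (e_sub b)).f ((cBR ((PA.dg A).fst b) L (FS.e ι)).l r x) =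
      (cA A L b.fs).mul ((cA.ρ A L (e_le b.fs)).f r)
        (((lam A.pc b L).g (FS.e ι) b.fs (e_sub b)).f x) := by
  refine Eq.trans ?_ (lam_l A.pp b L (FS.e ι) b.fs (e_sub b) r x)
  exact congrArg (fun p : PP A.pc (A.pc.sh b) (A.pc.sh b) =>
    ((lam A.pc b L).g (FS.e ι) b.fs (e_sub b)).f (((cP p L).q (FS.e ι)).m r x)) (dg_pl A b)

theorem lamT_r (b : Ch ι) (r : (A.A b).A) (x : (cBR ((PA.dg A).fst b) L (FS.e ι)).M) :
    ((lam A.pc b L).g (FS.e ι) b.fs (e_sub b)).f ((cBR ((PA.dg A).fst b) L (FS.e ι)).r r x) =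
      (cA A L b.fs).mul (((lam A.pc b L).g (FS.e ι) b.fs (e_sub b)).f x)
        ((cA.a A L b).f r) := by
  have h1 := lam_r A.pp b r L (FS.e ι) b.fs (e_sub b) x
  rw [(cC A.pc L).ρ_id] at h1
  refine Eq.trans ?_ h1
  exact congrArg (fun p : PP (A.pc.sh b) (PC.con ι (A.pc.X b)) (A.pc.sh b) =>
    ((lam A.pc b L).g (FS.e ι) b.fs (e_sub b)).f (((cP p L).q (FS.e ι)).m x
      ((kX (A.pc.X b) L (FS.e ι)).f r))) (dg_pr A b)

/-- The comparison of the Čech complexes in the first variable. -/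
def dgH : PBH ((PA.dg A).push L (FS.e ι)) (dgS A L) where
  f := fun b =>
    { f := ((lam A.pc b L).g (FS.e ι) b.fs (e_sub b)).f
      deg := fun {i x} hx => by
        rw [add_zero]
        exact ((lam A.pc b L).g (FS.e ι) b.fs (e_sub b)).deg hx
      map_l := fun r x => by
        rw [Dg.sp_zero]
        exact lamT_l A L b r x
      map_r := fun r x => lamT_r A L b r x }
  dd := fun b => by
    refine LinearMap.ext fun x => ?_
    rw [GMap.dd_apply, sg_zero, one_smul, LinearMap.zero_apply, sub_eq_zero]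
    exact ((lam A.pc b L).g (FS.e ι) b.fs (e_sub b)).d x
  nat := fun {b b'} h x => lam_nat A.pc h L (FS.e ι) b.fs b'.fs (fs_mono h) (e_sub b) (e_sub b') x

theorem dgH_bij (b : Ch ι) : Function.Bijective ((dgH A L).f b).f :=
  lam_bij A.pc b L (FS.e ι) b.fs (e_sub b) (e_sup b)

/-- The map to the diagonal bimodule. -/
def dgD : GMap 0 (cBL (dgS A L) L (FS.e ι)) (diag (cA A L (FS.e ι))) where
  f := ((dia A.pc L).π (FS.e ι)).f
  deg := fun {i x} hx => by
    rw [add_zero]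
    exact ((dia A.pc L).π (FS.e ι)).deg hx
  map_l := fun r x => by
    rw [Dg.sp_zero]
    have h1 := dia_l A.pp L (FS.e ι) r x
    rw [(cC A.pc L).ρ_id] at h1
    refine Eq.trans ?_ h1
    exact congrArg (fun p : PP (PC.con ι ((cC A.pc L).X (FS.e ι))) (cC A.pc L).pc
      (cC A.pc L).pc => ((dia A.pc L).π (FS.e ι)).f (((cP p L).q (FS.e ι)).m
        ((kX ((cC A.pc L).X (FS.e ι)) L (FS.e ι)).f r) x)) (dgS_pl A L)
  map_r := fun r x => by
    refine Eq.trans ?_ (dia_r A.pp L (FS.e ι) x r)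
    exact congrArg (fun p : PP (cC A.pc L).pc A.pc (cC A.pc L).pc =>
      ((dia A.pc L).π (FS.e ι)).f (((cP p L).q (FS.e ι)).m x r)) (dgS_pr A L)

theorem dgD_dd : (dgD A L).dd = 0 := by
  refine LinearMap.ext fun x => ?_
  rw [GMap.dd_apply, sg_zero, one_smul, LinearMap.zero_apply, sub_eq_zero]
  exact ((dia A.pc L).π (FS.e ι)).d x

theorem dgD_qi (h : ∀ c : Ch ι, Qi ((cC A.pc L).a c)) : QIso (dgD A L) :=
  ⟨dgD_dd A L, dia_qi A.pc L h (FS.e ι)⟩

/-- The double Čech complex of the diagonal bisheaf. -/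
theorem dg_biso : BIso (cB2 (PA.dg A) L (FS.e ι) L (FS.e ι)) (cBL (dgS A L) L (FS.e ι)) := by
  refine BIso.of_bij ((dgH A L).gmapL L (FS.e ι)) ((dgH A L).gmapL_dd L (FS.e ι)) ?_
  exact ⟨cH_inj (dgH A L).pch (fun b => (dgH_bij A L b).1) L (FS.e ι),
    cH_surj (dgH A L).pch (fun b => (dgH_bij A L b).2) L (FS.e ι)⟩

/-- The map from the double Čech complex of the diagonal bisheaf to the diagonal bimodule. -/
def dgF : GMap 0 (cB2 (PA.dg A) L (FS.e ι) L (FS.e ι)) (diag (cA A L (FS.e ι))) :=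
  ((dgH A L).gmapL L (FS.e ι)).comp (dgD A L) (add_zero 0)

theorem dgF_qi (h : ∀ c : Ch ι, Qi ((cC A.pc L).a c)) : QIso (dgF A L) := by
  have h1 : QIso ((dgH A L).gmapL L (FS.e ι)) :=
    (dgH A L).qisoL (fun b => ⟨(dgH A L).dd b, Qi.of_bij (f := (dgH A L).pch.f b)
      (dgH_bij A L b)⟩) L (FS.e ι)
  exact QIso.comp h1 (dgD_qi A L h)

end

end Pool.Agent.MP_6e5bed_ag_PN
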