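import Pool.Agent.Lib.MP_6e5bed_ag_PN.Dia

set_option autoImplicit false
set_option linter.unusedVariables false

/-!
# MP_6e5bed_ag, THEOREM G: cup products and the double Čech complex
-/

noncomputable section

namespace Pool.Agent.MP_6e5bed_ag_PN

open Pool.Agent.MP_6e5bed_ag_NC Pool.Agent.MP_6e5bed_ag_NS

universe u

variable {k : Type u} [CommRing k] {ι : Type}

private theorem DiaB_s {V : PC k ι} (W : WC V) {c d e : FS ι} (h : c ≤ d) (h' : d ≤ e)
    (h'' : c ≤ e) (x : (W.X c).V) :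
    (W.ρ h'').f ((W.X c).dg.s x) = (W.ρ h').f ((W.X d).dg.s ((W.ρ h).f x)) := by
  rw [(W.ρ h).s, W.ρ_ρ]

private theorem DiaB_outer {V V' V'' : PC k ι} (p : PP V V' V'') (l : ι) (L : List ι) :
    ∀ (M : List ι) (c : FS ι) (x : ((cC V (l :: L)).X (FS.e ι)).V)
      (y : ((cC V' M).X c).V),
      ((cH ((cC V'' L).prc l) M).g c).f (((cR (prC p (l :: L)) M).q c).m x y) =
        ((cR (prC p L) M).q c).m ((((cC V L).pr l).g (FS.e ι)).f x) y
  | [], c, x, y => rfl
  | m :: M, c, x, y => by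
    obtain ⟨⟨y0, y1⟩, υ⟩ := y
    have ih := DiaB_outer p l L M
    refine Prod.ext (Prod.ext (ih c x y0) rfl) ?_
    change ((cH ((cC V'' L).prc l) M).g _).f (((cR (prC p (l :: L)) M).q _).m
        (((cC V (l :: L)).X (FS.e ι)).dg.s x) υ) =
      ((cR (prC p L) M).q _).m (((cC V L).X (FS.e ι)).dg.s
        ((((cC V L).pr l).g (FS.e ι)).f x)) υ
    refine (ih _ _ υ).trans ?_
    exact congrArg (fun z => ((cR (prC p L) M).q (c.ins m).fs).m z υ)
      ((((cC V L).pr l).g (FS.e ι)).s x).symm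

/-- The cup product is the composition of the pairing with values in the double Čech complex with
the total multiplication. By induction on `L` (for all `c`); use that `cH (prc) L` applied to
`cR (prC p (l :: L)) L` is `cR (prC p L) L` applied to the projection of `x`
(a separate induction over the outer list). -/
theorem dia_cup {V V' V'' : PC k ι} (p : PP V V' V'') : ∀ (L : List ι) (c : FS ι)
    (x : ((cC V L).X (FS.e ι)).V) (y : ((cC V' L).X c).V),
    ((dia V'' L).π c).f (((cR (prC p L) L).q c).m x y) =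
      ((cP p L).q c).m (((cC V L).ρ (Set.empty_subset c.1 : FS.e ι ≤ c)).f x) y := by
  intro L
  induction L with
  | nil => exact fun c x y => rfl
  | cons l L ih =>
    have key : ∀ (c : FS ι) (x : ((cC V (l :: L)).X (FS.e ι)).V) (y : ((cC V' L).X c).V),
        ((dia V'' L).π c).f (((cH ((cC V'' L).prc l) L).g c).f
          (((cR (prC p (l :: L)) L).q c).m x y)) =
        ((cP p L).q c).m (((cC V L).ρ (Set.empty_subset c.1 : FS.e ι ≤ c)).f
          ((((cC V L).pr l).g (FS.e ι)).f x)) y := by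
      intro c x y
      exact (congrArg ((dia V'' L).π c).f (DiaB_outer p l L L c x y)).trans (ih c _ y)
    intro c x y
    obtain ⟨⟨y0, y1⟩, υ⟩ := y
    have hs := (((cC V L).pr l).g (FS.e ι)).s x
    obtain ⟨⟨x0, x1⟩, ξ⟩ := x
    refine Prod.ext (Prod.ext (key c _ y0) ?_) ?_
    · change (V''.ρ (ins_ins c l)).f ((p.p _).m ((V.ρ _).f x1) ((V'.ρ _).f y1)) =
        (p.p (c.ins l)).m ((V.ρ _).f x1) y1
      rw [p.nat, V.ρ_ρ, V'.ρ_ρ, V'.ρ_id]
    · change ((dia V'' L).π _).f (((cH ((cC V'' L).prc l) L).g _).f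
          (((cR (prC p (l :: L)) L).q _).m
            (((cC V (l :: L)).X (FS.e ι)).dg.s ((x0, x1), ξ)) υ)) +
          ((cC V'' L).ρ (fs_mono (ins_ins c l))).f
            (((cP p L).q _).m (((cC V L).ρ _).f (((cC V L).X _).dg.s (((cC V L).ρ _).f x0))) 0 +
              ((cP p L).q _).m (((cC V L).ρ _).f ξ) (((cC V' L).a _).f ((V'.ρ _).f y1))) =
        ((cP p L).q _).m (((cC V L).ρ _).f (((cC V L).X c).dg.s (((cC V L).ρ _).f x0))) υ +
          ((cP p L).q _).m (((cC V L).ρ _).f ξ) (((cC V' L).a _).f y1)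
      refine congrArg₂ (· + ·) ((key _ _ υ).trans ?_) ?_
      · refine congrArg (fun z => ((cP p L).q (c.ins l).fs).m z υ) ?_
        refine (congrArg (((cC V L).ρ _).f) hs.symm).trans ?_
        exact DiaB_s (cC V L) _ _ _ x0
      · rw [map_zero, zero_add, (cP p L).nat, (cC V L).ρ_ρ, (cC V' L).a_ρ (ins_ins c l),
          V'.ρ_ρ, V'.ρ_id]

end Pool.Agent.MP_6e5bed_ag_PN
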