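import Pool.Agent.Lib.MP_6e5bed_ag_PN.ExtP
import Pool.Agent.Lib.MP_6e5bed_ag_PN.AugE
import Pool.Agent.Lib.MP_6e5bed_ag_CV.RTb

set_option autoImplicit false
set_option linter.unusedVariables false

/-!
# MP_6e5bed_ag, THEOREM G: flatness of Čech bimodules
-/

noncomputable section

namespace Pool.Agent.MP_6e5bed_ag_PN

open Pool.Agent.MP_6e5bed_ag_NC Pool.Agent.MP_6e5bed_ag_NS

universe u

variable {k : Type u} [Field k] {ι : Type} {A : PA k ι} {W : DGA k}

/-- If all `V a` are flat on the right over `W`, then so is the Čech bimodule. -/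
theorem rflat_cBR (V : PB A (PA.con ι W)) (h : ∀ a, RFlat (V.M a)) (L : List ι) (c : FS ι) :
    RFlat (cBR V L c) := by
  intro D Y hY
  have h1 : Acyc (cBR (PB.tbR V Y) L c) :=
    cC_acy (V := (PB.tbR V Y).pc) (fun a => h a D Y hY) L c
  exact Acyc.iso (tbR_biso V Y L c).symm h1

end Pool.Agent.MP_6e5bed_ag_PN
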