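import Pool.Agent.Lib.MP_6e5bed_ag_PN.AugE

set_option autoImplicit false
set_option linter.unusedVariables false

/-!
# MP_6e5bed_ag, THEOREM G: constant augmentations of the complexes of cospans (for (3.7))
-/

noncomputable section

namespace Pool.Agent.MP_6e5bed_ag_PN

open Pool.Agent.MP_6e5bed_ag_NC
open Pool.Agent.MP_6e5bed_ag_NS

universe u

variable {k : Type u} [CommRing k] {ι : Type}

/-- The constant augmentation of the Čech complex of the charts in `L` is a quasi-isomorphism. -/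
def PCC.QIe {X : Cx k} {V : PC k ι} (f : PCC X V) (L : List ι) : Prop :=
  Qi ((f.aug L).g (FS.e ι))

theorem PCC.qie_iff {X X' : Cx k} {V V' : PC k ι} (f : PCC X V) (f' : PCC X' V') (α : CHom X X')
    (φ : PCH V V') (h : ∀ c x, (φ.f c).f ((f.f c).f x) = (f'.f c).f (α.f x)) (hα : Qi α)
    (hφ : ∀ c : Ch ι, Qi (φ.f c)) (L : List ι) : f.QIe L ↔ f'.QIe L :=
  aug_qi_iff f f' α φ h hα hφ L (FS.e ι)

variable {V0 V1 V01 : PC k ι} {X0 X1 X01 : Cx k}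

/-- the presheaf of the complexes of a cospan of presheaves -/
def coP (r0 : PCH V0 V01) (r1 : PCH V1 V01) : PC k ι where
  X := fun c => co (r0.f c) (r1.f c)
  ρ := fun h => co.map _ _ _ _ (V0.ρ h) (V1.ρ h) (V01.ρ h) (fun x => (r0.nat h x).symm)
    (fun x => (r1.nat h x).symm)
  ρ_id := fun {c} h x => by
    obtain ⟨⟨x0, x1⟩, ξ⟩ := x
    exact Prod.ext (Prod.ext (V0.ρ_id h x0) (V1.ρ_id h x1)) (V01.ρ_id h ξ)
  ρ_ρ := fun {c d e} h h' x => by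
    obtain ⟨⟨x0, x1⟩, ξ⟩ := x
    exact Prod.ext (Prod.ext (V0.ρ_ρ h h' x0) (V1.ρ_ρ h h' x1)) (V01.ρ_ρ h h' ξ)

/-- the constant augmentation of a cospan of presheaves -/
def coA {ρ0 : CHom X0 X01} {ρ1 : CHom X1 X01} {r0 : PCH V0 V01} {r1 : PCH V1 V01}
    (f0 : PCC X0 V0) (f1 : PCC X1 V1) (f01 : PCC X01 V01)
    (h0 : ∀ c x, (r0.f c).f ((f0.f c).f x) = (f01.f c).f (ρ0.f x))
    (h1 : ∀ c x, (r1.f c).f ((f1.f c).f x) = (f01.f c).f (ρ1.f x)) :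
    PCC (co ρ0 ρ1) (coP r0 r1) where
  f := fun c => co.map _ _ _ _ (f0.f c) (f1.f c) (f01.f c) (h0 c) (h1 c)
  nat := fun {c d} h x => by
    obtain ⟨⟨x0, x1⟩, ξ⟩ := x
    exact Prod.ext (Prod.ext (f0.nat h x0) (f1.nat h x1)) (f01.nat h ξ)

/-- the comparison of the Čech complex of a cospan with the cospan of the Čech complexes -/
private structure CoPPhi {r0 : PCH V0 V01} {r1 : PCH V1 V01} {W0 : WC V0} {W1 : WC V1}
    {W01 : WC V01} (W : WC (coP r0 r1)) (g0 : WCH r0 W0 W01) (g1 : WCH r1 W1 W01) where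
  P : ∀ c, CHom (W.X c) (co (g0.g c) (g1.g c))
  bij : ∀ c, Function.Bijective (P c).f
  nat : ∀ {c d : FS ι} (h : c ≤ d) x, (P d).f ((W.ρ h).f x) =
    (((W0.ρ h).f ((P c).f x).1.1, (W1.ρ h).f ((P c).f x).1.2), (W01.ρ h).f ((P c).f x).2)
  a : ∀ (c : Ch ι) x, (P c.fs).f ((W.a c).f x) =
    (((W0.a c).f x.1.1, (W1.a c).f x.1.2), (W01.a c).f x.2)

/-- the step, the linear map -/
private def CoPPhi.F {r0 : PCH V0 V01} {r1 : PCH V1 V01} {W0 : WC V0} {W1 : WC V1}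
    {W01 : WC V01} {W : WC (coP r0 r1)} {g0 : WCH r0 W0 W01} {g1 : WCH r1 W1 W01}
    (Q : CoPPhi W g0 g1) (l : ι) (c : FS ι) :
    ((W.cons l).X c).V →ₗ[k] (co ((g0.cons l).g c) ((g1.cons l).g c)).V where
  toFun := fun z => (((((((Q.P c).f z.1.1).1.1, z.1.2.1.1), ((Q.P (c.ins l).fs).f z.2).1.1),
      (((((Q.P c).f z.1.1).1.2, z.1.2.1.2), ((Q.P (c.ins l).fs).f z.2).1.2))),
    ((((Q.P c).f z.1.1).2, z.1.2.2), - ((Q.P (c.ins l).fs).f z.2).2)))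
  map_add' := fun z w => by
    obtain ⟨⟨x, v⟩, ξ⟩ := z
    obtain ⟨⟨x', v'⟩, ξ'⟩ := w
    have e1 := map_add (Q.P c).f x x'
    have e2 := map_add (Q.P (c.ins l).fs).f ξ ξ'
    refine Prod.ext (Prod.ext (Prod.ext (Prod.ext ?_ rfl) ?_) (Prod.ext (Prod.ext ?_ rfl) ?_))
      (Prod.ext (Prod.ext ?_ rfl) ?_)
    · exact congrArg (fun z => z.1.1) e1
    · exact congrArg (fun z => z.1.1) e2
    · exact congrArg (fun z => z.1.2) e1
    · exact congrArg (fun z => z.1.2) e2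
    · exact congrArg (fun z => z.2) e1
    · exact (congrArg (fun z => - z.2) e2).trans (neg_add _ _)
  map_smul' := fun r z => by
    obtain ⟨⟨x, v⟩, ξ⟩ := z
    have e1 := map_smul (Q.P c).f r x
    have e2 := map_smul (Q.P (c.ins l).fs).f r ξ
    refine Prod.ext (Prod.ext (Prod.ext (Prod.ext ?_ rfl) ?_) (Prod.ext (Prod.ext ?_ rfl) ?_))
      (Prod.ext (Prod.ext ?_ rfl) ?_)
    · exact congrArg (fun z => z.1.1) e1
    · exact congrArg (fun z => z.1.1) e2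
    · exact congrArg (fun z => z.1.2) e1
    · exact congrArg (fun z => z.1.2) e2
    · exact congrArg (fun z => z.2) e1
    · exact (congrArg (fun z => - z.2) e2).trans (smul_neg _ _).symm

/-- the step, the differential -/
private theorem CoPPhi.F_d {r0 : PCH V0 V01} {r1 : PCH V1 V01} {W0 : WC V0} {W1 : WC V1}
    {W01 : WC V01} {W : WC (coP r0 r1)} {g0 : WCH r0 W0 W01} {g1 : WCH r1 W1 W01}
    (Q : CoPPhi W g0 g1) (l : ι) (c : FS ι) (z : ((W.cons l).X c).V) :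
    (co ((g0.cons l).g c) ((g1.cons l).g c)).dg.d (Q.F l c z) =
      Q.F l c (((W.cons l).X c).dg.d z) := by
  obtain ⟨⟨x, v⟩, ξ⟩ := z
  obtain ⟨⟨v0, v1⟩, v01⟩ := v
  have e2 : (co (r0.f (c.ins l)) (r1.f (c.ins l))).dg.d ((v0, v1), v01) =
      (((V0.X _).dg.d v0, (V1.X _).dg.d v1),
        (r1.f (c.ins l)).f v1 - (r0.f (c.ins l)).f v0 - (V01.X _).dg.d v01) := co_d _ _ _
  have e1 : ((W.cons l).X c).dg.d ((x, ((v0, v1), v01)), ξ) =
      (((W.X c).dg.d x, (((V0.X _).dg.d v0, (V1.X _).dg.d v1),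
        (r1.f (c.ins l)).f v1 - (r0.f (c.ins l)).f v0 - (V01.X _).dg.d v01)),
        (W.a (c.ins l)).f ((v0, v1), v01) - (W.ρ (le_ins c l)).f x -
          (W.X (c.ins l).fs).dg.d ξ) := by
    refine (co_d _ _ _).trans ?_
    change (((W.X c).dg.d x, (co (r0.f (c.ins l)) (r1.f (c.ins l))).dg.d ((v0, v1), v01)), _) = _
    rw [e2]
    rfl
  rw [e1]
  have f1 := (Q.P c).d x
  have f2 := (Q.P (c.ins l).fs).d ξ
  have f3 := Q.nat (le_ins c l) x
  have f4 := Q.a (c.ins l) ((v0, v1), v01)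
  have f5 : (Q.P (c.ins l).fs).f ((W.a (c.ins l)).f ((v0, v1), v01) - (W.ρ (le_ins c l)).f x -
      (W.X (c.ins l).fs).dg.d ξ) = (Q.P (c.ins l).fs).f ((W.a (c.ins l)).f ((v0, v1), v01)) -
        (Q.P (c.ins l).fs).f ((W.ρ (le_ins c l)).f x) -
        (Q.P (c.ins l).fs).f ((W.X (c.ins l).fs).dg.d ξ) := by
    rw [map_sub, map_sub]
  rw [f3, f4, ← f2] at f5
  change (co ((g0.cons l).g c) ((g1.cons l).g c)).dg.d
    (((((((Q.P c).f x).1.1, v0), ((Q.P (c.ins l).fs).f ξ).1.1),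
      (((((Q.P c).f x).1.2, v1), ((Q.P (c.ins l).fs).f ξ).1.2))),
    ((((Q.P c).f x).2, v01), - ((Q.P (c.ins l).fs).f ξ).2))) =
    (((((((Q.P c).f ((W.X c).dg.d x)).1.1, (V0.X _).dg.d v0),
        ((Q.P (c.ins l).fs).f ((W.a (c.ins l)).f ((v0, v1), v01) - (W.ρ (le_ins c l)).f x -
          (W.X (c.ins l).fs).dg.d ξ)).1.1),
      (((((Q.P c).f ((W.X c).dg.d x)).1.2, (V1.X _).dg.d v1),
        ((Q.P (c.ins l).fs).f ((W.a (c.ins l)).f ((v0, v1), v01) - (W.ρ (le_ins c l)).f x -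
          (W.X (c.ins l).fs).dg.d ξ)).1.2))),
    ((((Q.P c).f ((W.X c).dg.d x)).2,
      (r1.f (c.ins l)).f v1 - (r0.f (c.ins l)).f v0 - (V01.X _).dg.d v01),
      - ((Q.P (c.ins l).fs).f ((W.a (c.ins l)).f ((v0, v1), v01) - (W.ρ (le_ins c l)).f x -
          (W.X (c.ins l).fs).dg.d ξ)).2)))
  rw [f5, ← f1]
  clear f1 f2 f3 f4 f5 e1 e2
  generalize (Q.P c).f x = p
  generalize (Q.P (c.ins l).fs).f ξ = q
  obtain ⟨⟨x0, x1⟩, x01⟩ := p
  obtain ⟨⟨ξ0, ξ1⟩, ξ01⟩ := q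
  have h1 : (co (g0.g c) (g1.g c)).dg.d ((x0, x1), x01) = (((W0.X c).dg.d x0, (W1.X c).dg.d x1),
    (g1.g c).f x1 - (g0.g c).f x0 - (W01.X c).dg.d x01) := co_d _ _ _
  have h2 : (co (g0.g (c.ins l).fs) (g1.g (c.ins l).fs)).dg.d ((ξ0, ξ1), ξ01) =
    (((W0.X _).dg.d ξ0, (W1.X _).dg.d ξ1),
    (g1.g _).f ξ1 - (g0.g _).f ξ0 - (W01.X _).dg.d ξ01) := co_d _ _ _
  rw [h1, h2]
  have k0 : ((W0.cons l).X c).dg.d ((x0, v0), ξ0) = (((W0.X c).dg.d x0, (V0.X _).dg.d v0),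
    (W0.a (c.ins l)).f v0 - (W0.ρ (le_ins c l)).f x0 - (W0.X _).dg.d ξ0) := co_d _ _ _
  have k1 : ((W1.cons l).X c).dg.d ((x1, v1), ξ1) = (((W1.X c).dg.d x1, (V1.X _).dg.d v1),
    (W1.a (c.ins l)).f v1 - (W1.ρ (le_ins c l)).f x1 - (W1.X _).dg.d ξ1) := co_d _ _ _
  have k2 : ((W01.cons l).X c).dg.d ((x01, v01), -ξ01) =
    (((W01.X c).dg.d x01, (V01.X _).dg.d v01),
    (W01.a (c.ins l)).f v01 - (W01.ρ (le_ins c l)).f x01 - (W01.X _).dg.d (-ξ01)) := co_d _ _ _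
  refine (co_d _ _ _).trans ?_
  refine Prod.ext (Prod.ext ?_ ?_) ?_
  · exact k0
  · exact k1
  · change ((g1.cons l).g c).f ((x1, v1), ξ1) - ((g0.cons l).g c).f ((x0, v0), ξ0) -
      ((W01.cons l).X c).dg.d ((x01, v01), -ξ01) = _
    rw [k2]
    refine Prod.ext rfl ?_
    change (g1.g _).f ξ1 - (g0.g _).f ξ0 -
      ((W01.a (c.ins l)).f v01 - (W01.ρ (le_ins c l)).f x01 - (W01.X _).dg.d (-ξ01)) =
      -((W01.a (c.ins l)).f v01 - (W01.ρ (le_ins c l)).f x01 -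
        ((g1.g _).f ξ1 - (g0.g _).f ξ0 - (W01.X _).dg.d ξ01))
    rw [map_neg]
    abel

/-- the step -/
private def CoPPhi.cons {r0 : PCH V0 V01} {r1 : PCH V1 V01} {W0 : WC V0} {W1 : WC V1}
    {W01 : WC V01} {W : WC (coP r0 r1)} {g0 : WCH r0 W0 W01} {g1 : WCH r1 W1 W01}
    (Q : CoPPhi W g0 g1) (l : ι) : CoPPhi (W.cons l) (g0.cons l) (g1.cons l) where
  P := fun c => ⟨Q.F l c, fun {i z} h => by
    obtain ⟨⟨x, v⟩, ξ⟩ := z
    obtain ⟨⟨v0, v1⟩, v01⟩ := v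
    have h1 := co_deg.1 h
    have h2 := (Q.P c).deg h1.1
    have h3 := co_deg.1 h1.2.1
    have h4 := (Q.P (c.ins l).fs).deg h1.2.2
    have h5 := co_deg.1 h2
    have h6 := co_deg.1 h4
    exact co_deg.2 ⟨co_deg.2 ⟨h5.1, h3.1, h6.1⟩, co_deg.2 ⟨h5.2.1, h3.2.1, h6.2.1⟩,
      co_deg.2 ⟨h5.2.2, h3.2.2, h6.2.2.neg⟩⟩, fun z => Q.F_d l c z⟩
  bij := fun c => by
    constructor
    · rintro ⟨⟨x, v⟩, ξ⟩ ⟨⟨x', v'⟩, ξ'⟩ h
      have h1 : (Q.P c).f x = (Q.P c).f x' := Prod.ext (Prod.ext (congrArg (fun z => z.1.1.1.1) h)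
        (congrArg (fun z => z.1.2.1.1) h)) (congrArg (fun z => z.2.1.1) h)
      have h2 : v = v' := Prod.ext (Prod.ext (congrArg (fun z => z.1.1.1.2) h)
        (congrArg (fun z => z.1.2.1.2) h)) (congrArg (fun z => z.2.1.2) h)
      have h3 : (Q.P (c.ins l).fs).f ξ = (Q.P (c.ins l).fs).f ξ' :=
        Prod.ext (Prod.ext (congrArg (fun z => z.1.1.2) h)
        (congrArg (fun z => z.1.2.2) h)) (neg_injective (congrArg (fun z => z.2.2) h))
      exact Prod.ext (Prod.ext ((Q.bij c).1 h1) h2) ((Q.bij _).1 h3)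
    · rintro ⟨⟨⟨⟨x0, v0⟩, ξ0⟩, ⟨⟨x1, v1⟩, ξ1⟩⟩, ⟨⟨x01, v01⟩, ξ01⟩⟩
      obtain ⟨x, hx⟩ := (Q.bij c).2 ((x0, x1), x01)
      obtain ⟨ξ, hξ⟩ := (Q.bij (c.ins l).fs).2 ((ξ0, ξ1), -ξ01)
      refine ⟨((x, ((v0, v1), v01)), ξ), ?_⟩
      refine Prod.ext (Prod.ext (Prod.ext (Prod.ext ?_ rfl) ?_) (Prod.ext (Prod.ext ?_ rfl) ?_))
        (Prod.ext (Prod.ext ?_ rfl) ?_)
      · exact congrArg (fun z => z.1.1) hx
      · exact congrArg (fun z => z.1.1) hξ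
      · exact congrArg (fun z => z.1.2) hx
      · exact congrArg (fun z => z.1.2) hξ
      · exact congrArg (fun z => z.2) hx
      · exact (congrArg (fun z => - z.2) hξ).trans (neg_neg _)
  nat := fun {c d} h z => by
    obtain ⟨⟨x, v⟩, ξ⟩ := z
    have h1 := Q.nat h x
    have h2 := Q.nat (fs_mono (ins_mono h l)) ξ
    refine Prod.ext (Prod.ext (Prod.ext (Prod.ext ?_ rfl) ?_) (Prod.ext (Prod.ext ?_ rfl) ?_))
        (Prod.ext (Prod.ext ?_ rfl) ?_)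
    · exact congrArg (fun z => z.1.1) h1
    · exact congrArg (fun z => z.1.1) h2
    · exact congrArg (fun z => z.1.2) h1
    · exact congrArg (fun z => z.1.2) h2
    · exact congrArg (fun z => z.2) h1
    · exact (congrArg (fun z => - z.2) h2).trans
        (map_neg (W01.ρ (fs_mono (ins_mono h l))).f _).symm
  a := fun c v => by
    have h1 := Q.a c v
    have h2 : (Q.P (c.fs.ins l).fs).f 0 = 0 := map_zero _
    refine Prod.ext (Prod.ext (Prod.ext (Prod.ext ?_ rfl) ?_) (Prod.ext (Prod.ext ?_ rfl) ?_))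
        (Prod.ext (Prod.ext ?_ rfl) ?_)
    · exact congrArg (fun z => z.1.1) h1
    · exact congrArg (fun z => z.1.1) h2
    · exact congrArg (fun z => z.1.2) h1
    · exact congrArg (fun z => z.1.2) h2
    · exact congrArg (fun z => z.2) h1
    · exact (congrArg (fun z => - z.2) h2).trans neg_zero

/-- the base case -/
private def CoPPhi.nil (r0 : PCH V0 V01) (r1 : PCH V1 V01) :
    CoPPhi (WC.nil (coP r0 r1)) (WCH.toNil r0 (WC.nil V0)) (WCH.toNil r1 (WC.nil V1)) where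
  P := fun c => ⟨0, fun _ => Dg.IsDeg.zero _, fun x => by
    rw [LinearMap.zero_apply, LinearMap.zero_apply, map_zero]⟩
  bij := fun c => ⟨fun _ _ _ => rfl, fun y => ⟨PUnit.unit, rfl⟩⟩
  nat := fun _ _ => rfl
  a := fun _ _ => rfl

/-- the comparison for the Čech complexes -/
private def CoPPhi.cech (r0 : PCH V0 V01) (r1 : PCH V1 V01) :
    ∀ L : List ι, CoPPhi (cC (coP r0 r1) L) (cH r0 L) (cH r1 L)
  | [] => CoPPhi.nil r0 r1
  | l :: L => (CoPPhi.cech r0 r1 L).cons l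

private theorem CoPPhi.aug {ρ0 : CHom X0 X01} {ρ1 : CHom X1 X01} {r0 : PCH V0 V01}
    {r1 : PCH V1 V01} (f0 : PCC X0 V0) (f1 : PCC X1 V1) (f01 : PCC X01 V01)
    (h0 : ∀ c x, (r0.f c).f ((f0.f c).f x) = (f01.f c).f (ρ0.f x))
    (h1 : ∀ c x, (r1.f c).f ((f1.f c).f x) = (f01.f c).f (ρ1.f x)) :
    ∀ (L : List ι) (c : FS ι) (x : (co ρ0 ρ1).V),
      ((CoPPhi.cech r0 r1 L).P c).f ((((coA f0 f1 f01 h0 h1).aug L).g c).f x) =
        ((((f0.aug L).g c).f x.1.1, ((f1.aug L).g c).f x.1.2), ((f01.aug L).g c).f x.2)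
  | [], c, x => rfl
  | l :: L, c, x => by
    have e1 := CoPPhi.aug f0 f1 f01 h0 h1 L c x
    have e2 : ((CoPPhi.cech r0 r1 L).P (c.ins l).fs).f 0 = 0 := map_zero _
    refine Prod.ext (Prod.ext (Prod.ext (Prod.ext ?_ rfl) ?_) (Prod.ext (Prod.ext ?_ rfl) ?_))
        (Prod.ext (Prod.ext ?_ rfl) ?_)
    · exact congrArg (fun z => z.1.1) e1
    · exact congrArg (fun z => z.1.1) e2
    · exact congrArg (fun z => z.1.2) e1
    · exact congrArg (fun z => z.1.2) e2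
    · exact congrArg (fun z => z.2) e1
    · exact (congrArg (fun z => - z.2) e2).trans neg_zero

/-- The constant augmentation of a cospan of presheaves is a quasi-isomorphism if the three
augmentations are.

PROOF. Construct by recursion on `L` for all `c : FS ι` a bijective morphism of complexes
`Φ L c : CHom ((cC (coP r0 r1) L).X c) (co ((cH r0 L).g c) ((cH r1 L).g c))`: for `L = []` both sides
are trivial; for `l :: L` an element of the left hand side is `((x, v), ξ)` with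
`x ∈ (cC (coP r0 r1) L).X c`, `v = ((v0, v1), v01) ∈ co (r0.f (c.ins l)) (r1.f (c.ins l))`,
`ξ ∈ (cC (coP r0 r1) L).X (c.ins l).fs`. If `Φ L c x = ((x0, x1), x01)` and
`Φ L (c.ins l).fs ξ = ((ξ0, ξ1), ξ01)`, then
`Φ (l :: L) c ((x, v), ξ) = ((((x0, v0), ξ0), ((x1, v1), ξ1)), ((x01, v01), - ξ01))`
(note the sign). Prove together: `Φ` commutes with `d` and preserves degrees (`co_d`, `co_deg`; the
last component of `d` of the left hand side is
`v01 - x01 - (r1 ξ1 - r0 ξ0 - d ξ01)` and that of the right hand side is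
`r1 ξ1 - r0 ξ0 - (v01 - x01 - d (- ξ01))`, up to the sign), is natural in `c`
(`co.map ((cC V0 L).ρ h) ((cC V1 L).ρ h) ((cC V01 L).ρ h)` on the right hand side), and on the
charts `c` commutes with the maps `a` (`co.map ((cC V0 L).a c) ...`). Moreover
`Φ L c (((coA f0 f1 f01 h0 h1).aug L).g c x) =
co.map ((f0.aug L).g c) ((f1.aug L).g c) ((f01.aug L).g c) x`. For `L = L`, `c = FS.e ι` the right
hand side is a quasi-isomorphism by `co_map_qi`, and `Φ` is one because it is bijective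
(`Qi.of_bij`); `Qi.of_right`. -/
theorem coA_qie {ρ0 : CHom X0 X01} {ρ1 : CHom X1 X01} {r0 : PCH V0 V01} {r1 : PCH V1 V01}
    (f0 : PCC X0 V0) (f1 : PCC X1 V1) (f01 : PCC X01 V01)
    (h0 : ∀ c x, (r0.f c).f ((f0.f c).f x) = (f01.f c).f (ρ0.f x))
    (h1 : ∀ c x, (r1.f c).f ((f1.f c).f x) = (f01.f c).f (ρ1.f x)) (L : List ι) (q0 : f0.QIe L)
    (q1 : f1.QIe L) (q01 : f01.QIe L) : (coA f0 f1 f01 h0 h1).QIe L := by
  have c0 := aug_nat f0 f01 ρ0 r0 h0 L (FS.e ι)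
  have c1 := aug_nat f1 f01 ρ1 r1 h1 L (FS.e ι)
  have h2 := co_map_qi (r0 := ρ0) (r1 := ρ1) (s0 := (cH r0 L).g (FS.e ι))
    (s1 := (cH r1 L).g (FS.e ι)) (f0 := (f0.aug L).g (FS.e ι))
    (f1 := (f1.aug L).g (FS.e ι)) (f01 := (f01.aug L).g (FS.e ι)) c0 c1 q0 q1 q01
  have h3 : Qi ((CoPPhi.cech r0 r1 L).P (FS.e ι)) :=
    Qi.of_bij ((CoPPhi.cech r0 r1 L).bij (FS.e ι))
  exact Qi.of_right (f := ((coA f0 f1 f01 h0 h1).aug L).g (FS.e ι))
    (g := (CoPPhi.cech r0 r1 L).P (FS.e ι))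
    (CoPPhi.aug f0 f1 f01 h0 h1 L (FS.e ι)) h3 h2

end Pool.Agent.MP_6e5bed_ag_PN
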