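import Pool.Agent.Lib.MP_6e5bed_ag_PN.KTen

set_option autoImplicit false
set_option linter.unusedVariables false

/-!
# MP_6e5bed_ag, THEOREM G: the Čech complex of a product (3.7), complexes

For presheaves `V`, `V'` on the charts of `ι`, `ι'` and maps `p : κ → ι`, `p' : κ → ι'`, the tensor
product of the Čech complexes of `V` and `V'` is quasi-isomorphic to the Čech complex of
`c ↦ (cC V L).X (p c) ⊗ (cC V' L').X (p' c)` on the charts of `κ`.
-/

noncomputable section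

namespace Pool.Agent.MP_6e5bed_ag_PN

open Pool.Agent.MP_6e5bed_ag_NC
open Pool.Agent.MP_6e5bed_ag_NS
open Pool.Agent.MP_6e5bed_ag_PS (tenC tenH Ten_d tenH_qi dqi_tensor)
open scoped TensorProduct

universe u

variable {k : Type u} [Field k] {κ ι ι' : Type}

theorem emp_le (c : FS κ) : FS.e κ ≤ c := Set.empty_subset c.1

/-- monotone maps of the finite sets, over a map `p` of the indices -/
structure Mo (p : κ → ι) where
  φ : FS κ → FS ι
  mono : ∀ {c d : FS κ}, c ≤ d → φ c ≤ φ d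
  ins : ∀ (c : FS κ) (x : κ), φ (c.ins x).fs ≤ ((φ c).ins (p x)).fs

/-- the image of a chart -/
def Ch.img (p : κ → ι) (c : Ch κ) : Ch ι := ⟨p '' c.1, c.2.1.image p, c.2.2.image p⟩

/-- the image -/
def Mo.img (p : κ → ι) : Mo p where
  φ := fun c => ⟨p '' c.1, c.2.image p⟩
  mono := fun h => Set.image_mono h
  ins := fun c x => by
    change p '' (insert x c.1) ⊆ insert (p x) (p '' c.1)
    rw [Set.image_insert_eq]

/-- the union with an index -/
def Mo.insr {p : κ → ι} (m : Mo p) (l : ι) : Mo p where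
  φ := fun c => ((m.φ c).ins l).fs
  mono := fun h => fs_mono (ins_mono (m.mono h) l)
  ins := fun c x => by
    refine (fs_mono (ins_mono (m.ins c x) l)).trans ?_
    exact (Set.insert_comm l (p x) (m.φ c).1).subset

theorem Mo.up {p : κ → ι} (m : Mo p) {x : κ} {l : ι} (h : p x = l) (c : FS κ) :
    (m.φ (c.ins x).fs).ins l ≤ (m.φ c).ins l := by
  subst h
  refine (ins_mono (m.ins c x) (p x)).trans ?_
  exact Set.insert_subset (Set.mem_insert _ _) le_rfl

section pull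

variable {V : PC k ι} {p : κ → ι}

/-- the presheaf `c ↦ W (m c)` -/
def WC.pl (W : WC V) (m : Mo p) : PC k κ where
  X := fun c => W.X (m.φ c.fs)
  ρ := fun h => W.ρ (m.mono (fs_mono h))
  ρ_id := fun h x => W.ρ_id _ x
  ρ_ρ := fun h h' x => W.ρ_ρ _ _ x

/-- the restrictions from the value at the empty set -/
def WC.pla (W : WC V) (m : Mo p) : PCC (W.X (m.φ (FS.e κ))) (W.pl m) where
  f := fun c => W.ρ (m.mono (emp_le c.fs))
  nat := fun h x => W.ρ_ρ _ _ x

/-- the presheaf `c ↦ V (m c ∪ l)` -/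
def PC.pl (V : PC k ι) (m : Mo p) (l : ι) : PC k κ where
  X := fun c => V.X ((m.φ c.fs).ins l)
  ρ := fun h => V.ρ (ins_mono (m.mono (fs_mono h)) l)
  ρ_id := fun h x => V.ρ_id _ x
  ρ_ρ := fun h h' x => V.ρ_ρ _ _ x

/-- the restrictions from the value at the empty set -/
def PC.pla (V : PC k ι) (m : Mo p) (l : ι) : PCC (V.X ((m.φ (FS.e κ)).ins l)) (V.pl m l) where
  f := fun c => V.ρ (ins_mono (m.mono (emp_le c.fs)) l)
  nat := fun h x => V.ρ_ρ _ _ x

/-- the restriction -/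
def WC.r0 (W : WC V) (m : Mo p) (l : ι) : PCH (W.pl m) (W.pl (m.insr l)) where
  f := fun c => W.ρ (le_ins _ l)
  nat := fun h x => (W.ρ_ρ _ _ x).trans (W.ρ_ρ _ _ x).symm

/-- the augmentation -/
def WC.r1 (W : WC V) (m : Mo p) (l : ι) : PCH (V.pl m l) (W.pl (m.insr l)) where
  f := fun c => W.a ((m.φ c.fs).ins l)
  nat := fun h x => W.a_ρ _ x

theorem pl_cons (W : WC V) (m : Mo p) (l : ι) :
    (W.cons l).pl m = coP (W.r0 m l) (W.r1 m l) := rfl

theorem pla_cons (W : WC V) (m : Mo p) (l : ι) : (W.cons l).pla m =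
    coA (ρ0 := W.ρ (le_ins (m.φ (FS.e κ)) l)) (ρ1 := W.a ((m.φ (FS.e κ)).ins l))
      (r0 := W.r0 m l) (r1 := W.r1 m l) (W.pla m) (V.pla m l) (W.pla (m.insr l))
      (fun c x => (W.ρ_ρ _ _ x).trans (W.ρ_ρ _ _ x).symm)
      (fun c x => (W.a_ρ _ x).symm) := rfl

end pull

/-! ### The induction -/

theorem tenC_zeroL {X Y : Cx k} (h : ∀ x : X.V, x = 0) (z : (tenC X Y).V) : z = 0 := by
  refine TensorProduct.induction_on (motive := fun z : X.V ⊗[k] Y.V => z = 0) z rfl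
    (fun x y => ?_) (fun a b ha hb => ?_)
  · rw [h x, TensorProduct.zero_tmul]
  · rw [ha, hb, add_zero]

theorem tenC_zeroR {X Y : Cx k} (h : ∀ x : Y.V, x = 0) (z : (tenC X Y).V) : z = 0 := by
  refine TensorProduct.induction_on (motive := fun z : X.V ⊗[k] Y.V => z = 0) z rfl
    (fun x y => ?_) (fun a b ha hb => ?_)
  · rw [h y, TensorProduct.tmul_zero]
  · rw [ha, hb, add_zero]

/-- The augmentation of a presheaf of zero complexes. -/
theorem qie_zero {X : Cx k} {V : PC k κ} (f : PCC X V) (h : ∀ x : X.V, x = 0)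
    (h' : ∀ c (x : (V.X c).V), x = 0) (L : List κ) : f.QIe L := by
  have hc : Acy ((cC V L).X (FS.e κ)) := cC_acy (fun c x _ => ⟨0, (h' c _).trans (h' c x).symm⟩)
    L (FS.e κ)
  refine ⟨fun x _ _ => ⟨0, (h _).trans (h x).symm⟩, fun y hy => ?_⟩
  obtain ⟨z, hz⟩ := hc y hy
  refine ⟨0, (h _), z, ?_⟩
  rw [hz, map_zero, sub_zero]

variable {V : PC k ι} {V' : PC k ι'} {p : κ → ι} {p' : κ → ι'}

/-- the augmentation of the step, in the form of `coA` -/
def WC.plc (W : WC V) (m : Mo p) (l : ι) :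
    PCC (co (W.ρ (le_ins (m.φ (FS.e κ)) l)) (W.a ((m.φ (FS.e κ)).ins l)))
      (coP (W.r0 m l) (W.r1 m l)) :=
  coA (ρ0 := W.ρ (le_ins (m.φ (FS.e κ)) l)) (ρ1 := W.a ((m.φ (FS.e κ)).ins l))
      (r0 := W.r0 m l) (r1 := W.r1 m l) (W.pla m) (V.pla m l) (W.pla (m.insr l))
      (fun c x => (W.ρ_ρ _ _ x).trans (W.ρ_ρ _ _ x).symm)
      (fun c x => (W.a_ρ _ x).symm)

theorem kn_stepL (W : WC V) {Y : Cx k} {U : PC k κ} (g : PCC Y U) (M : List κ) (m : Mo p) (l : ι)
    (q0 : ((W.pla m).ten g).QIe M) (q1 : ((V.pla m l).ten g).QIe M)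
    (q01 : ((W.pla (m.insr l)).ten g).QIe M) : ((W.plc m l).ten g).QIe M :=
  qie_ten_left (W.pla m) (V.pla m l) (W.pla (m.insr l)) _ _ g M q0 q1 q01

theorem kn_stepR (W : WC V) {Y : Cx k} {U : PC k κ} (g : PCC Y U) (M : List κ) (m : Mo p) (l : ι)
    (q0 : (g.ten (W.pla m)).QIe M) (q1 : (g.ten (V.pla m l)).QIe M)
    (q01 : (g.ten (W.pla (m.insr l))).QIe M) : (g.ten (W.plc m l)).QIe M :=
  qie_ten_right (W.pla m) (V.pla m l) (W.pla (m.insr l)) _ _ g M q0 q1 q01

theorem kn_left {Y : Cx k} {W : PC k κ} (g : PCC Y W) (M : List κ)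
    (h : ∀ (m : Mo p) (l : ι), ((V.pla m l).ten g).QIe M) (L : List ι) :
    ∀ (m : Mo p), (((cC V L).pla m).ten g).QIe M := by
  induction L with
  | nil =>
    intro m
    have hz : ∀ c (x : ((cC V []).X c).V), x = 0 := fun _ _ => rfl
    exact qie_zero (((cC V []).pla m).ten g)
      (fun x => tenC_zeroL (X := (cC V []).X (m.φ (FS.e κ))) (hz _) x)
      (fun c x => tenC_zeroL (X := (cC V []).X (m.φ c.fs)) (hz _) x) M
  | cons l L ih =>
    intro m
    exact kn_stepL (cC V L) g M m l (ih m) (h m l) (ih (m.insr l))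

theorem kn_right {Y : Cx k} {W : PC k κ} (g : PCC Y W) (M : List κ)
    (h : ∀ (m : Mo p) (l : ι), (g.ten (V.pla m l)).QIe M) (L : List ι) :
    ∀ (m : Mo p), (g.ten ((cC V L).pla m)).QIe M := by
  induction L with
  | nil =>
    intro m
    have hz : ∀ c (x : ((cC V []).X c).V), x = 0 := fun _ _ => rfl
    exact qie_zero (g.ten ((cC V []).pla m))
      (fun x => tenC_zeroR (Y := (cC V []).X (m.φ (FS.e κ))) (hz _) x)
      (fun c x => tenC_zeroR (Y := (cC V []).X (m.φ c.fs)) (hz _) x) M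
  | cons l L ih =>
    intro m
    exact kn_stepR (cC V L) g M m l (ih m) (h m l) (ih (m.insr l))

theorem pc_bij (V : PC k ι) {c d : Ch ι} (h : c ≤ d) (h' : d ≤ c) :
    Function.Bijective (V.ρ h).f := by
  refine ⟨fun x y hxy => ?_, fun x => ⟨(V.ρ h').f x, ?_⟩⟩
  · have e := congrArg (V.ρ h').f hxy
    rw [V.ρ_ρ, V.ρ_ρ, V.ρ_id, V.ρ_id] at e
    exact e
  · rw [V.ρ_ρ, V.ρ_id]

theorem wc_bij {V : PC k ι} (W : WC V) {c d : FS ι} (h : c ≤ d) (h' : d ≤ c) :
    Function.Bijective (W.ρ h).f := by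
  refine ⟨fun x y hxy => ?_, fun x => ⟨(W.ρ h').f x, ?_⟩⟩
  · have e := congrArg (W.ρ h').f hxy
    rw [W.ρ_ρ, W.ρ_ρ, W.ρ_id, W.ρ_id] at e
    exact e
  · rw [W.ρ_ρ, W.ρ_id]

/-- The case of two charts. -/
theorem kn_base (m : Mo p) (m' : Mo p') {l : ι} {l' : ι'} {x : κ} (h : p x = l) (h' : p' x = l')
    {M : List κ} (hM : x ∈ M) : ((V.pla m l).ten (V'.pla m' l')).QIe M := by
  refine augE ((V.pla m l).ten (V'.pla m' l')) (l := x) (fun c => ?_) ?_ M hM
  · exact tenH_Qi (Qi.of_bij (pc_bij V _ (m.up h c.fs))) (Qi.of_bij (pc_bij V' _ (m'.up h' c.fs)))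
  · exact tenH_Qi (Qi.of_bij (pc_bij V _ (m.up h (FS.e κ))))
      (Qi.of_bij (pc_bij V' _ (m'.up h' (FS.e κ))))

/-- (3.7), complexes. -/
theorem kn_main (M : List κ) (hM : ∀ l l', ∃ x ∈ M, p x = l ∧ p' x = l') (L : List ι)
    (L' : List ι') (m : Mo p) (m' : Mo p') :
    (((cC V L).pla m).ten ((cC V' L').pla m')).QIe M :=
  kn_left _ M (fun m l => kn_right _ M (fun m' l' => by
    obtain ⟨x, hx, h, h'⟩ := hM l l'
    exact kn_base m m' h h' hx) L' m') L m

/-! ### Algebras -/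

/-- the restrictions from the value at the empty set -/
def WC.pla0 (W : WC V) (m : Mo p) : PCC (W.X (FS.e ι)) (W.pl m) where
  f := fun c => W.ρ (emp_le _)
  nat := fun h x => W.ρ_ρ _ _ x

/-- (3.7), complexes, values at the empty set. -/
theorem kn_main0 (M : List κ) (hM : ∀ l l', ∃ x ∈ M, p x = l ∧ p' x = l') (L : List ι)
    (L' : List ι') (m : Mo p) (m' : Mo p') (he : m.φ (FS.e κ) ≤ FS.e ι)
    (he' : m'.φ (FS.e κ) ≤ FS.e ι') :
    (((cC V L).pla0 m).ten ((cC V' L').pla0 m')).QIe M := by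
  refine (PCC.qie_iff (((cC V L).pla0 m).ten ((cC V' L').pla0 m'))
    (((cC V L).pla m).ten ((cC V' L').pla m'))
    (tenH ((cC V L).ρ (emp_le _)) ((cC V' L').ρ (emp_le _))) (PCH.id _) (fun c x => ?_)
    (tenH_Qi (Qi.of_bij (wc_bij _ _ he)) (Qi.of_bij (wc_bij _ _ he')))
    (fun c => Qi.of_bij Function.bijective_id) M).2 (kn_main M hM L L' m m')
  change TensorProduct.map ((cC V L).ρ _).f ((cC V' L').ρ _).f x =
    TensorProduct.map ((cC V L).ρ _).f ((cC V' L').ρ _).f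
      (TensorProduct.map ((cC V L).ρ _).f ((cC V' L').ρ _).f x)
  rw [← LinearMap.comp_apply, ← TensorProduct.map_comp]
  refine congrFun (congrArg DFunLike.coe ?_) x
  refine congrArg₂ TensorProduct.map ?_ ?_
  · exact LinearMap.ext fun y => ((cC V L).ρ_ρ _ _ y).symm
  · exact LinearMap.ext fun y => ((cC V' L').ρ_ρ _ _ y).symm

/-- the presheaf `c ↦ cA A L (m c)` -/
def PA.plT (A : PA k ι) (L : List ι) (m : Mo p) : PA k κ where
  A := fun c => cA A L (m.φ c.fs)
  r := fun h => cA.ρ A L (m.mono (fs_mono h))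
  r_id := fun h x => (cC A.pc L).ρ_id _ x
  r_r := fun h h' x => (cC A.pc L).ρ_ρ _ _ x

/-- the restrictions from the value at the empty set -/
def PA.plA (A : PA k ι) (L : List ι) (m : Mo p) : PAC (cA A L (FS.e ι)) (A.plT L m) where
  f := fun c => cA.ρ A L (emp_le _)
  nat := fun h x => (cC A.pc L).ρ_ρ _ _ x

/-- the presheaf `c ↦ A (p c)` -/
def PA.pull (A : PA k ι) (p : κ → ι) : PA k κ where
  A := fun c => A.A (c.img p)
  r := fun {c d} h => A.r (show c.img p ≤ d.img p from Set.image_mono h)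
  r_id := fun h x => A.r_id _ x
  r_r := fun h h' x => A.r_r _ _ x

/-- the augmentation -/
def PA.plH (A : PA k ι) (L : List ι) (p : κ → ι) : PAH (A.pull p) (A.plT L (Mo.img p)) where
  f := fun c => cA.a A L (c.img p)
  nat := fun {c d} h x => (cC A.pc L).a_ρ (show c.img p ≤ d.img p from Set.image_mono h) x

section final

variable (A : PA k ι) (A' : PA k ι') (L : List ι) (L' : List ι') (p : κ → ι) (p' : κ → ι')
  (M : List κ)

/-- The dg algebra in the middle. -/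
def knZ : DGA k := cA (PA.ten (A.plT L (Mo.img p)) (A'.plT L' (Mo.img p'))) M (FS.e κ)

/-- The morphism from the tensor product of the Čech algebras. -/
def knA : DHom ((cA A L (FS.e ι)).tensor (cA A' L' (FS.e ι'))) (knZ A A' L L' p p' M) :=
  ((A.plA L (Mo.img p)).ten (A'.plA L' (Mo.img p'))).dh M (FS.e κ)

/-- The morphism from the Čech algebra of the product. -/
def knB : DHom (cA (PA.ten (A.pull p) (A'.pull p')) M (FS.e κ)) (knZ A A' L L' p p' M) :=
  ((A.plH L p).ten (A'.plH L' p')).map M (FS.e κ)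

theorem knA_qi (hM : ∀ l l', ∃ x ∈ M, p x = l ∧ p' x = l') : Qi (dch (knA A A' L L' p p' M)) :=
  kn_main0 (V := A.pc) (V' := A'.pc) M hM L L' (Mo.img p) (Mo.img p')
    (Set.image_empty p).subset (Set.image_empty p').subset

theorem knB_qi (hL : ∀ l, l ∈ L) (hL' : ∀ l, l ∈ L') : Qi (dch (knB A A' L L' p p' M)) :=
  PAH.dqi ((A.plH L p).ten (A'.plH L' p')) (fun c => tenH_Qi (aug_qi A.pc hL (c.img p))
    (aug_qi A'.pc hL' (c.img p'))) M (FS.e κ)

end final

end Pool.Agent.MP_6e5bed_ag_PN
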