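import Pool.Agent.Lib.MP_6e5bed_ag_PN.Cst

set_option autoImplicit false
set_option linter.unusedVariables false

/-!
# MP_6e5bed_ag, THEOREM G: the presheaf `a ↦ V (a ∪ b)` and its Čech complex

For a presheaf `V` and a chart `b`, the Čech complex of `a ↦ V (a ∪ b)` at `c` is the Čech complex
of `V` at `c ∪ b`. `lam V b L c d` is the comparison map for `c ∪ b ≤ d`.
-/

noncomputable section

namespace Pool.Agent.MP_6e5bed_ag_PN

open Pool.Agent.MP_6e5bed_ag_NC Pool.Agent.MP_6e5bed_ag_NS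

universe u

variable {k : Type u} [CommRing k] {ι : Type}

/-- the union of the index sets -/
def Ch.sup (c d : Ch ι) : Ch ι :=
  ⟨c.1 ∪ d.1, c.2.1.mono Set.subset_union_left, c.2.2.union d.2.2⟩

theorem le_supL (c d : Ch ι) : c ≤ c.sup d := Set.subset_union_left

theorem le_supR (c d : Ch ι) : d ≤ c.sup d := Set.subset_union_right

theorem sup_mono {c c' d d' : Ch ι} (h : c ≤ c') (h' : d ≤ d') : c.sup d ≤ c'.sup d' :=
  Set.union_subset_union h h'

/-- The presheaf `a ↦ V (a ∪ b)`. -/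
def PC.sh (V : PC k ι) (b : Ch ι) : PC k ι where
  X := fun a => V.X (a.sup b)
  ρ := fun h => V.ρ (sup_mono h le_rfl)
  ρ_id := fun h x => V.ρ_id _ x
  ρ_ρ := fun h h' x => V.ρ_ρ _ _ x

/-- the restriction in `b` -/
def PC.shρ (V : PC k ι) {b b' : Ch ι} (h : b ≤ b') : PCH (V.sh b) (V.sh b') where
  f := fun a => V.ρ (sup_mono le_rfl h)
  nat := fun h' x => (V.ρ_ρ _ _ x).trans (V.ρ_ρ _ _ x).symm

/-- Comparison maps. -/
structure LamH {V : PC k ι} (b : Ch ι) (W : WC (V.sh b)) (W' : WC V) where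
  g : ∀ c d : FS ι, c.1 ∪ b.1 ⊆ d.1 → CHom (W.X c) (W'.X d)
  nat : ∀ {c c' d d' : FS ι} (hc : c ≤ c') (hd : d ≤ d') (h : c.1 ∪ b.1 ⊆ d.1)
    (h' : c'.1 ∪ b.1 ⊆ d'.1) x, (W'.ρ hd).f ((g c d h).f x) = (g c' d' h').f ((W.ρ hc).f x)
  a : ∀ (c d : Ch ι) (h : c.1 ∪ b.1 ⊆ d.1) (x : (V.X (c.sup b)).V),
    (g c.fs d.fs h).f ((W.a c).f x) = (W'.a d).f ((V.ρ (show c.sup b ≤ d from h)).f x)

theorem ins_sub {b : Ch ι} {c d : FS ι} (h : c.1 ∪ b.1 ⊆ d.1) (l : ι) :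
    (c.ins l).1 ∪ b.1 ⊆ (d.ins l).1 := by
  rintro x (hx | hx)
  · rcases hx with rfl | hx
    · exact Or.inl rfl
    · exact Or.inr (h (Or.inl hx))
  · exact Or.inr (h (Or.inr hx))

/-- The step of the recursion. -/
def LamH.cons {V : PC k ι} {b : Ch ι} {W : WC (V.sh b)} {W' : WC V} (G : LamH b W W') (l : ι) :
    LamH b (W.cons l) (W'.cons l) where
  g := fun c d h => co.map _ _ _ _ (G.g c d h)
    (V.ρ (show (c.ins l).sup b ≤ d.ins l from ins_sub h l))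
    (G.g (c.ins l).fs (d.ins l).fs (ins_sub h l))
    (fun x => G.nat _ _ _ _ x) (fun x => (G.a (c.ins l) (d.ins l) (ins_sub h l) x).symm)
  nat := fun {c c' d d'} hc hd h h' x => by
    obtain ⟨⟨x0, x1⟩, ξ⟩ := x
    refine Prod.ext (Prod.ext (G.nat hc hd h h' x0) ?_) (G.nat _ _ _ _ ξ)
    exact (V.ρ_ρ _ _ x1).trans (V.ρ_ρ _ _ x1).symm
  a := fun c d h x => by
    refine Prod.ext (Prod.ext (G.a c d h x) ?_) ?_
    · exact (V.ρ_ρ _ _ x).trans (V.ρ_ρ _ _ x).symm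
    · exact map_zero (G.g (c.fs.ins l).fs (d.fs.ins l).fs (ins_sub h l)).f

/-- The comparison maps of the Čech complexes. -/
def lam (V : PC k ι) (b : Ch ι) : ∀ L : List ι, LamH b (cC (V.sh b) L) (cC V L)
  | [] => { g := fun _ _ _ => toZero _, nat := fun _ _ _ _ _ => rfl, a := fun _ _ _ _ => rfl }
  | l :: L => (lam V b L).cons l

/-- Bijectivity. -/
theorem lam_bij (V : PC k ι) (b : Ch ι) : ∀ (L : List ι) (c d : FS ι) (h : c.1 ∪ b.1 ⊆ d.1),
    d.1 ⊆ c.1 ∪ b.1 → Function.Bijective ((lam V b L).g c d h).f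
  | [], c, d, h, h' => ⟨fun _ _ _ => rfl, fun _ => ⟨0, rfl⟩⟩
  | l :: L, c, d, h, h' => by
    have h1 : (d.ins l).1 ⊆ (c.ins l).1 ∪ b.1 := by
      rintro x (rfl | hx)
      · exact Or.inl (Or.inl rfl)
      · rcases h' hx with hx | hx
        · exact Or.inl (Or.inr hx)
        · exact Or.inr hx
    have b0 := lam_bij V b L c d h h'
    have b01 := lam_bij V b L (c.ins l).fs (d.ins l).fs (ins_sub h l) h1
    have b1 : Function.Bijective
        (V.ρ (show (c.ins l).sup b ≤ d.ins l from ins_sub h l)).f := by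
      refine ⟨fun x y hxy => ?_, fun x => ⟨(V.ρ (show d.ins l ≤ (c.ins l).sup b from h1)).f x,
        ?_⟩⟩
      · have e := congrArg (V.ρ (show d.ins l ≤ (c.ins l).sup b from h1)).f hxy
        rw [V.ρ_ρ, V.ρ_ρ, V.ρ_id, V.ρ_id] at e
        exact e
      · rw [V.ρ_ρ, V.ρ_id]
    exact (b0.prodMap b1).prodMap b01

/-- Naturality in `b`. -/
theorem lam_nat (V : PC k ι) {b b' : Ch ι} (hb : b ≤ b') : ∀ (L : List ι) (c d d' : FS ι)
    (hd : d ≤ d') (h : c.1 ∪ b.1 ⊆ d.1) (h' : c.1 ∪ b'.1 ⊆ d'.1)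
    (x : ((cC (V.sh b) L).X c).V), ((cC V L).ρ hd).f (((lam V b L).g c d h).f x) =
      ((lam V b' L).g c d' h').f (((cH (V.shρ hb) L).g c).f x)
  | [], c, d, d', hd, h, h', x => rfl
  | l :: L, c, d, d', hd, h, h', x => by
    obtain ⟨⟨x0, x1⟩, ξ⟩ := x
    refine Prod.ext (Prod.ext (lam_nat V hb L c d d' hd h h' x0) ?_)
      (lam_nat V hb L (c.ins l).fs (d.ins l).fs (d'.ins l).fs _ _ _ ξ)
    exact (V.ρ_ρ _ _ x1).trans (V.ρ_ρ _ _ x1).symm

/-! ### Products -/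

variable {U V V'' : PC k ι}

/-- the pairing `(x, m) ↦ x|_{a ∪ b} m` -/
def PP.sL (p : PP U V V'') (b : Ch ι) : PP U (V.sh b) (V''.sh b) where
  p := fun a =>
    { m := (p.p (a.sup b)).m ∘ₗ (U.ρ (le_supL a b)).f
      deg := fun hx hy => (p.p (a.sup b)).deg ((U.ρ (le_supL a b)).deg hx) hy
      d := fun x y => by
        change (V''.X (a.sup b)).dg.d ((p.p (a.sup b)).m ((U.ρ (le_supL a b)).f x) y) =
          (p.p (a.sup b)).m ((U.ρ (le_supL a b)).f ((U.X a).dg.d x)) y +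
          (p.p (a.sup b)).m ((U.ρ (le_supL a b)).f ((U.X a).dg.s x))
            ((V.X (a.sup b)).dg.d y)
        rw [(p.p (a.sup b)).d, (U.ρ _).d, (U.ρ _).s] }
  nat := fun {a a'} h x y => by
    change (V''.ρ _).f ((p.p (a.sup b)).m ((U.ρ (le_supL a b)).f x) y) =
      (p.p (a'.sup b)).m ((U.ρ (le_supL a' b)).f ((U.ρ h).f x)) ((V.ρ _).f y)
    rw [p.nat, U.ρ_ρ, U.ρ_ρ]

theorem PP.sL_m (p : PP U V V'') (b a : Ch ι) (x : (U.X a).V) (y : (V.X (a.sup b)).V) :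
    ((p.sL b).p a).m x y = (p.p (a.sup b)).m ((U.ρ (le_supL a b)).f x) y := rfl

/-- The comparison maps are linear on the left. -/
theorem lam_l (p : PP U V V'') (b : Ch ι) : ∀ (L : List ι) (c d : FS ι)
    (h : c.1 ∪ b.1 ⊆ d.1) (x : ((cC U L).X c).V) (y : ((cC (V.sh b) L).X c).V),
    ((lam V'' b L).g c d h).f (((cP (p.sL b) L).q c).m x y) =
      ((cP p L).q d).m (((cC U L).ρ (show c ≤ d from Set.subset_union_left.trans h)).f x)
        (((lam V b L).g c d h).f y)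
  | [], c, d, h, x, y => rfl
  | l :: L, c, d, h, x, y => by
    obtain ⟨⟨x0, x1⟩, ξ⟩ := x
    obtain ⟨⟨y0, y1⟩, υ⟩ := y
    have ih := lam_l p b L
    refine Prod.ext (Prod.ext (ih c d h x0 y0) ?_) ?_
    · change (V''.ρ _).f ((p.p ((c.ins l).sup b)).m ((U.ρ (le_supL (c.ins l) b)).f x1) y1) =
        (p.p (d.ins l)).m ((U.ρ _).f x1) ((V.ρ _).f y1)
      rw [p.nat, U.ρ_ρ]
    · change ((lam V'' b L).g (c.ins l).fs (d.ins l).fs (ins_sub h l)).f
          (((cP (p.sL b) L).q (c.ins l).fs).m (((cC U L).ρ (le_ins c l)).f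
            (((cC U L).X c).dg.s x0)) υ +
          ((cP (p.sL b) L).q (c.ins l).fs).m ξ (((cC (V.sh b) L).a (c.ins l)).f y1)) =
        ((cP p L).q (d.ins l).fs).m (((cC U L).ρ (le_ins d l)).f
            (((cC U L).X d).dg.s (((cC U L).ρ _).f x0)))
            (((lam V b L).g (c.ins l).fs (d.ins l).fs (ins_sub h l)).f υ) +
          ((cP p L).q (d.ins l).fs).m (((cC U L).ρ _).f ξ)
            (((cC V L).a (d.ins l)).f ((V.ρ (show (c.ins l).sup b ≤ d.ins l from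
              ins_sub h l)).f y1))
      rw [map_add, ih, ih, ((cC U L).ρ _).s, (cC U L).ρ_ρ, (cC U L).ρ_ρ]
      refine congrArg₂ (· + ·) rfl (congrArg _ ?_)
      exact (lam V b L).a (c.ins l) (d.ins l) (ins_sub h l) y1

/-- the pairing `(m, β) ↦ m β|_{a ∪ b}` -/
def PP.sR (p : PP V U V'') (b : Ch ι) : PP (V.sh b) (PC.con ι (U.X b)) (V''.sh b) where
  p := fun a =>
    { m := (p.p (a.sup b)).m.compl₂ (U.ρ (le_supR a b)).f
      deg := fun hx hy => (p.p (a.sup b)).deg hx ((U.ρ (le_supR a b)).deg hy)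
      d := fun x y => by
        change (V''.X (a.sup b)).dg.d ((p.p (a.sup b)).m x ((U.ρ (le_supR a b)).f y)) =
          (p.p (a.sup b)).m ((V.X (a.sup b)).dg.d x) ((U.ρ (le_supR a b)).f y) +
          (p.p (a.sup b)).m ((V.X (a.sup b)).dg.s x)
            ((U.ρ (le_supR a b)).f ((U.X b).dg.d y))
        rw [(p.p (a.sup b)).d, (U.ρ _).d] }
  nat := fun {a a'} h x y => by
    change (V''.ρ _).f ((p.p (a.sup b)).m x ((U.ρ (le_supR a b)).f y)) =
      (p.p (a'.sup b)).m ((V.ρ _).f x) ((U.ρ (le_supR a' b)).f y)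
    rw [p.nat, U.ρ_ρ]

theorem PP.sR_m (p : PP V U V'') (b a : Ch ι) (x : (V.X (a.sup b)).V) (y : (U.X b).V) :
    ((p.sR b).p a).m x y = (p.p (a.sup b)).m x ((U.ρ (le_supR a b)).f y) := rfl

/-- The comparison maps are linear on the right. -/
theorem lam_r (p : PP V U V'') (b : Ch ι) (β : (U.X b).V) : ∀ (L : List ι) (c d : FS ι)
    (h : c.1 ∪ b.1 ⊆ d.1) (x : ((cC (V.sh b) L).X c).V),
    ((lam V'' b L).g c d h).f (((cP (p.sR b) L).q c).m x ((kX (U.X b) L c).f β)) =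
      ((cP p L).q d).m (((lam V b L).g c d h).f x)
        (((cC U L).ρ (show b.fs ≤ d from Set.subset_union_right.trans h)).f
          (((cC U L).a b).f β))
  | [], c, d, h, x => rfl
  | l :: L, c, d, h, x => by
    obtain ⟨⟨x0, x1⟩, ξ⟩ := x
    have ih := lam_r p b β L
    refine (congrArg ((lam V'' b (l :: L)).g c d h).f
      (cP_kR (p.sR b) l L c x0 x1 ξ β)).trans ?_
    refine Prod.ext (Prod.ext (ih c d h x0) ?_) ?_
    · change (V''.ρ _).f ((p.p ((c.ins l).sup b)).m x1 ((U.ρ (le_supR (c.ins l) b)).f β)) =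
        (p.p (d.ins l)).m ((V.ρ _).f x1) ((U.ρ _).f ((U.ρ _).f β))
      rw [p.nat, U.ρ_ρ, U.ρ_ρ]
    · change ((lam V'' b L).g (c.ins l).fs (d.ins l).fs (ins_sub h l)).f
          (((cP (p.sR b) L).q (c.ins l).fs).m ξ ((kX (U.X b) L (c.ins l).fs).f β)) =
        ((cP p L).q (d.ins l).fs).m (((cC V L).ρ (le_ins d l)).f
            (((cC V L).X d).dg.s (((lam V b L).g c d h).f x0)))
            (((cC U L).ρ _).f 0) +
          ((cP p L).q (d.ins l).fs).m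
            (((lam V b L).g (c.ins l).fs (d.ins l).fs (ins_sub h l)).f ξ)
            (((cC U L).a (d.ins l)).f ((U.ρ _).f ((U.ρ _).f β)))
      rw [ih, map_zero, map_zero, zero_add, U.ρ_ρ, ← (cC U L).a_ρ]

end Pool.Agent.MP_6e5bed_ag_PN
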