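import Pool.Agent.Lib.MP_6e5bed_ag_PN.Two

set_option autoImplicit false
set_option linter.unusedVariables false

/-!
# MP_6e5bed_ag, THEOREM G: presheaves of complexes in two variables and their Čech complexes

For `M : PC2 k ι κ` the presheaf `M.push L c` in the second variable consists of the Čech complexes
in the first variable; `M.push2 L' c'` is the other order.
-/

noncomputable section

namespace Pool.Agent.MP_6e5bed_ag_PN

open Pool.Agent.MP_6e5bed_ag_NC Pool.Agent.MP_6e5bed_ag_NS

universe u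

variable {k : Type u} [CommRing k] {ι κ : Type}

/-- Presheaves of complexes in two variables. -/
structure PC2 (k : Type u) [CommRing k] (ι κ : Type) where
  X : Ch ι → Ch κ → Cx k
  ρ : ∀ {a a' : Ch ι} {b b' : Ch κ}, a ≤ a' → b ≤ b' → CHom (X a b) (X a' b')
  ρ_id : ∀ {a : Ch ι} {b : Ch κ} (h : a ≤ a) (h' : b ≤ b) x, (ρ h h').f x = x
  ρ_ρ : ∀ {a a' a'' : Ch ι} {b b' b'' : Ch κ} (h : a ≤ a') (h' : b ≤ b') (e : a' ≤ a'')
    (e' : b' ≤ b'') x, (ρ e e').f ((ρ h h').f x) = (ρ (h.trans e) (h'.trans e')).f x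

/-- the underlying presheaf of complexes of a presheaf of bimodules -/
def PB2.pc2 {A : PA k ι} {B : PA k κ} (M : PB2 A B) : PC2 k ι κ where
  X := fun a b => bcx (M.M a b)
  ρ := fun h h' => gch (M.ρ h h') (M.dd h h')
  ρ_id := fun h h' x => M.ρ_id h h' x
  ρ_ρ := fun h h' e e' x => M.ρ_ρ h h' e e' x

namespace PC2

/-- exchange of the variables -/
def swap (M : PC2 k ι κ) : PC2 k κ ι where
  X := fun b a => M.X a b
  ρ := fun h h' => M.ρ h' h
  ρ_id := fun h h' x => M.ρ_id h' h x
  ρ_ρ := fun h h' e e' x => M.ρ_ρ h' h e' e x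

/-- the presheaf in the first variable -/
def fst (M : PC2 k ι κ) (b : Ch κ) : PC k ι where
  X := fun a => M.X a b
  ρ := fun h => M.ρ h (le_refl b)
  ρ_id := fun h x => M.ρ_id h (le_refl b) x
  ρ_ρ := fun h h' x => M.ρ_ρ h (le_refl b) h' (le_refl b) x

/-- the presheaf in the second variable -/
def snd (M : PC2 k ι κ) (a : Ch ι) : PC k κ where
  X := fun b => M.X a b
  ρ := fun h => M.ρ (le_refl a) h
  ρ_id := fun h x => M.ρ_id (le_refl a) h x
  ρ_ρ := fun h h' x => M.ρ_ρ (le_refl a) h (le_refl a) h' x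

/-- the restriction in the second variable -/
def sn (M : PC2 k ι κ) {b b' : Ch κ} (h' : b ≤ b') : PCH (M.fst b) (M.fst b') where
  f := fun a => M.ρ (le_refl a) h'
  nat := fun {a a'} h x => (M.ρ_ρ (le_refl a) h' h (le_refl b') x).trans
    (M.ρ_ρ h (le_refl b) (le_refl a') h' x).symm

/-- the Čech complexes in the first variable -/
def push (M : PC2 k ι κ) (L : List ι) (c : FS ι) : PC k κ where
  X := fun b => (cC (M.fst b) L).X c
  ρ := fun h' => (cH (M.sn h') L).g c
  ρ_id := fun {b} h' x => by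
    refine Eq.trans ?_ (cH_id (M.fst b) L c x)
    exact cH_ext (fun a x => M.ρ_id (le_refl a) h' x) L c x
  ρ_ρ := fun {b b' b''} h h' x => by
    refine (cH_comp (M.sn h) (M.sn h') L c x).symm.trans ?_
    exact cH_ext (fun a x => M.ρ_ρ (le_refl a) h (le_refl a) h' x) L c x

/-- the Čech complexes in the second variable -/
def push2 (M : PC2 k ι κ) (L' : List κ) (c' : FS κ) : PC k ι := M.swap.push L' c'

theorem snd_eq (M : PC2 k ι κ) (a : Ch ι) : M.snd a = M.swap.fst a := rfl

end PC2

theorem PB2.pc2_fst {A : PA k ι} {B : PA k κ} (M : PB2 A B) (b : Ch κ) :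
    (M.fst b).pc = M.pc2.fst b := rfl

theorem PB2.pc2_push {A : PA k ι} {B : PA k κ} (M : PB2 A B) (L : List ι) (c : FS ι) :
    (M.push L c).pc = M.pc2.push L c := rfl

/-- Morphisms of presheaves of complexes in two variables. -/
structure PC2H (M N : PC2 k ι κ) where
  f : ∀ a b, CHom (M.X a b) (N.X a b)
  nat : ∀ {a a' : Ch ι} {b b' : Ch κ} (h : a ≤ a') (h' : b ≤ b') x,
    (N.ρ h h').f ((f a b).f x) = (f a' b').f ((M.ρ h h').f x)

namespace PC2H

variable {M N P : PC2 k ι κ}

/-- exchange of the variables -/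
def swap (f : PC2H M N) : PC2H M.swap N.swap where
  f := fun b a => f.f a b
  nat := fun h h' x => f.nat h' h x

/-- for a fixed chart in the second variable -/
def fst (f : PC2H M N) (b : Ch κ) : PCH (M.fst b) (N.fst b) where
  f := fun a => f.f a b
  nat := fun h x => f.nat h (le_refl b) x

/-- for a fixed chart in the first variable -/
def snd (f : PC2H M N) (a : Ch ι) : PCH (M.snd a) (N.snd a) where
  f := fun b => f.f a b
  nat := fun h x => f.nat (le_refl a) h x

/-- on the Čech complexes in the first variable -/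
def push (f : PC2H M N) (L : List ι) (c : FS ι) : PCH (M.push L c) (N.push L c) where
  f := fun b => (cH (f.fst b) L).g c
  nat := fun {b b'} h' x => by
    refine (cH_comp (f.fst b) (N.sn h') L c x).symm.trans ?_
    refine Eq.trans ?_ (cH_comp (M.sn h') (f.fst b') L c x)
    exact cH_ext (fun a x => f.nat (le_refl a) h' x) L c x

/-- on the Čech complexes in the second variable -/
def push2 (f : PC2H M N) (L' : List κ) (c' : FS κ) : PCH (M.push2 L' c') (N.push2 L' c') :=
  f.swap.push L' c'

end PC2H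

/-- Short exact sequences of presheaves of complexes. -/
def PCEx {V' V V'' : PC k ι} (i : PCH V' V) (p : PCH V V'') : Prop :=
  ∀ c, Function.Injective (i.f c).f ∧ Function.Surjective (p.f c).f ∧
    ∀ x, (p.f c).f x = 0 ↔ ∃ y, (i.f c).f y = x

/-- The sequence of the Čech complexes is exact. -/
theorem PCEx.cC {V' V V'' : PC k ι} {i : PCH V' V} {p : PCH V V''} (h : PCEx i p) (L : List ι)
    (c : FS ι) : Function.Injective ((cH i L).g c).f ∧ Function.Surjective ((cH p L).g c).f ∧
      ∀ x, ((cH p L).g c).f x = 0 ↔ ∃ y, ((cH i L).g c).f y = x :=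
  ⟨cH_inj i (fun a => (h a).1) L c, cH_surj p (fun a => (h a).2.1) L c,
    fun x => cH_exact i p (fun a => (h a).2.2) L c x⟩

/-- Short exact sequences of presheaves of complexes in two variables. -/
def PC2Ex {M' M M'' : PC2 k ι κ} (i : PC2H M' M) (p : PC2H M M'') : Prop :=
  ∀ a b, Function.Injective (i.f a b).f ∧ Function.Surjective (p.f a b).f ∧
    ∀ x, (p.f a b).f x = 0 ↔ ∃ y, (i.f a b).f y = x

namespace PC2Ex

variable {M' M M'' : PC2 k ι κ} {i : PC2H M' M} {p : PC2H M M''}

theorem fst (h : PC2Ex i p) (b : Ch κ) : PCEx (i.fst b) (p.fst b) := fun a => h a b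

theorem snd (h : PC2Ex i p) (a : Ch ι) : PCEx (i.snd a) (p.snd a) := fun b => h a b

theorem swap (h : PC2Ex i p) : PC2Ex i.swap p.swap := fun b a => h a b

theorem push (h : PC2Ex i p) (L : List ι) (c : FS ι) : PCEx (i.push L c) (p.push L c) := fun b =>
  (h.fst b).cC L c

theorem push2 (h : PC2Ex i p) (L' : List κ) (c' : FS κ) : PCEx (i.push2 L' c') (p.push2 L' c') :=
  h.swap.push L' c'

end PC2Ex

end Pool.Agent.MP_6e5bed_ag_PN
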