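import Pool.Agent.Lib.MP_6e5bed_ag_PN.PDA
import Pool.Agent.Lib.MP_6e5bed_ag_PN.P2
import Pool.Agent.Lib.MP_6e5bed_ag_PN.AugE
import Pool.Agent.Lib.MP_6e5bed_ag_NS.Sh

set_option autoImplicit false
set_option linter.unusedVariables false

/-!
# MP_6e5bed_ag, THEOREM G: Čech complexes of monomial presheaves (section 4.3)

`MS k S` are the elements of the monoid algebra of `G` with support in `S`. A monomial presheaf
is `c ↦ MS k (S c)` for a monotone family of sets `S c` of exponents. It is decomposed according to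
a map `cls` from the exponents to a finite set.
-/

noncomputable section

namespace Pool.Agent.MP_6e5bed_ag_PN

open Pool.Agent.MP_6e5bed_ag_NC Pool.Agent.MP_6e5bed_ag_NS

universe u v

/-! ### Decompositions -/

section dec

variable {k : Type u} [CommRing k] {ι κ : Type} {D : Type v} [CommRing D] [Algebra k D]

/-- A complex which is decomposed into finitely many complexes with finitely generated
cohomology. -/
theorem DAct.FGt.of_dec {I : Type*} [Fintype I] {X : Cx k} {Y : I → Cx k} {a : DAct D X}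
    {b : ∀ q, DAct D (Y q)} (p : ∀ q, CHom X (Y q)) (e : ∀ q, CHom (Y q) X)
    (he : ∀ q, (b q).Eqv a (e q)) (h : ∀ x, ∑ q, (e q).f ((p q).f x) = x)
    (hb : ∀ q, (b q).FGt) : a.FGt := by
  choose n s hs1 hs2 using hb
  refine FGq.of_fintype (I := Σ q, Fin (n q)) (fun m => (e m.1).f (s m.1 m.2)) ?_ ?_
  · rintro ⟨q, m⟩
    exact ((e q).d _).trans ((congrArg _ (hs1 q m)).trans (map_zero _))
  · intro x hx
    have hx' : ∀ q, (p q).f x ∈ LinearMap.ker (Y q).dg.d := fun q =>
      ((p q).d x).trans ((congrArg _ hx).trans (map_zero _))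
    choose r hr using fun q => hs2 q _ (hx' q)
    choose w hw using hr
    refine ⟨fun m => r m.1 m.2, ∑ q, (e q).f (w q), ?_⟩
    rw [Fintype.sum_sigma, map_sum]
    have e1 : ∀ q, X.dg.d ((e q).f (w q)) =
        (e q).f ((p q).f x) - ∑ m, a.φ (r q m) ((e q).f (s q m)) := fun q => by
      rw [(e q).d, hw q, map_sub, map_sum]
      congr 1
      exact Finset.sum_congr rfl fun m _ => he q _ _
    rw [Finset.sum_congr rfl fun q _ => e1 q, Finset.sum_sub_distrib, h]

/-- Two actions which are the same map. -/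
theorem DAct.FGt.congr {X : Cx k} {a b : DAct D X} (h : ∀ r x, a.φ r x = b.φ r x)
    (ha : a.FGt) : b.FGt :=
  FGq.of_surj LinearMap.id (fun r x => h r x) (fun _ hx => hx) (fun _ hx => hx)
    (fun y hy => ⟨y, hy, by
      rw [LinearMap.id_apply, sub_self]
      exact Submodule.zero_mem _⟩) ha

/-- Two actions of `k`. -/
theorem DAct.FGm.of_k {X : Cx k} {a : DAct k X} (b : DAct k X) (ha : a.FGm) : b.FGm :=
  DAct.FGm.of_surj (a := a) (b := b) (CHom.id X) (fun x => ⟨x, rfl⟩)
    (fun r x => (a.k_apply r x).trans (b.k_apply r x).symm) ha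

/-- Equal actions on a presheaf. -/
theorem PDA.cC_congr {V : PC k ι} (P P' : PDA D V) (h : ∀ c r x, (P.a c).φ r x = (P'.a c).φ r x)
    (L : List ι) (c : FS ι) (r : D) (x : ((MP_6e5bed_ag_PN.cC V L).X c).V) :
    (P.cC L c).φ r x = (P'.cC L c).φ r x := by
  have h1 := PDA.cH P P' (PCH.id V) (fun c r x => h c r x) L c r x
  rw [cH_id, cH_id] at h1
  exact h1

theorem cC_sub {V : PC k ι} (h : ∀ c, Subsingleton (V.X c).V) (L : List ι) (c : FS ι) :
    Subsingleton ((cC V L).X c).V := by
  induction L generalizing c with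
  | nil => exact ⟨fun _ _ => rfl⟩
  | cons l L ih =>
    exact ⟨fun x y => Prod.ext (Prod.ext ((ih c).elim _ _) ((h _).elim _ _)) ((ih _).elim _ _)⟩

/-- The Čech complex in both variables. -/
abbrev T2 (M : PC2 k ι κ) (L : List ι) (L' : List κ) : Cx k :=
  (cC (M.push L (FS.e ι)) L').X (FS.e κ)

/-- the functoriality -/
def T2H {M N : PC2 k ι κ} (f : PC2H M N) (L : List ι) (L' : List κ) :
    CHom (T2 M L L') (T2 N L L') := (cH (f.push L (FS.e ι)) L').g (FS.e κ)

theorem T2_dec {M : PC2 k ι κ} {I : Type} [Fintype I] (M' : I → PC2 k ι κ)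
    (p : ∀ q, PC2H M (M' q)) (e : ∀ q, PC2H (M' q) M)
    (h : ∀ a b x, ∑ q, ((e q).f a b).f (((p q).f a b).f x) = x) (L : List ι) (L' : List κ)
    (x : (T2 M L L').V) : ∑ q, (T2H (e q) L L').f ((T2H (p q) L L').f x) = x :=
  cH_dec (fun q => (M' q).push L (FS.e ι)) (fun q => (p q).push L (FS.e ι))
    (fun q => (e q).push L (FS.e ι))
    (fun b x => cH_dec (fun q => (M' q).fst b) (fun q => (p q).fst b) (fun q => (e q).fst b)
      (fun a x => h a b x) L (FS.e ι) x) L' (FS.e κ) x

/-- Finite-dimensional sections. -/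
theorem T2_FGm {M : PC2 k ι κ} (h : ∀ a b, (DAct.triv (M.X a b)).FGm) (L : List ι)
    (L' : List κ) : (DAct.triv (T2 M L L')).FGm :=
  DAct.FGm.of_k _ ((PDA.triv (M.push L (FS.e ι))).cC_Fin
    (fun b => DAct.FGm.of_k _ ((PDA.triv (M.fst b)).cC_Fin (fun a => h a b) L (FS.e ι)))
    L' (FS.e κ))

end dec

/-! ### Elements with given support -/

variable (k : Type u) [Field k] {G : Type} {ι κ : Type}

/-- the elements with support in `S` -/
def MS (S : Set G) : Submodule k (AddMonoidAlgebra k G) := AddMonoidAlgebra.supported k k S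

/-- the underlying element -/
def MS.v {k : Type u} [Field k] {S : Set G} (x : MS k S) : AddMonoidAlgebra k G := x.1

/-- the monomial -/
def mo (g : G) : AddMonoidAlgebra k G := AddMonoidAlgebra.single g 1

variable {k}

theorem MS_mono {S T : Set G} (h : S ⊆ T) : MS k S ≤ MS k T := AddMonoidAlgebra.supported_mono h

theorem mo_mem {S : Set G} {g : G} (h : g ∈ S) : mo k g ∈ MS k S := by
  unfold MS
  rw [AddMonoidAlgebra.supported_eq_span_single]
  exact Submodule.subset_span ⟨g, h, rfl⟩

theorem MS_ind {S : Set G} {P : AddMonoidAlgebra k G → Prop} (h0 : P 0)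
    (hadd : ∀ x y, P x → P y → P (x + y)) (hsm : ∀ (c : k) x, P x → P (c • x))
    (hm : ∀ g ∈ S, P (mo k g)) {x : AddMonoidAlgebra k G} (hx : x ∈ MS k S) : P x := by
  unfold MS at hx
  rw [AddMonoidAlgebra.supported_eq_span_single] at hx
  induction hx using Submodule.span_induction with
  | mem x hx =>
    obtain ⟨e, he, rfl⟩ := hx
    exact hm e he
  | zero => exact h0
  | add x y _ _ hx hy => exact hadd x y hx hy
  | smul c x _ hx => exact hsm c x hx

theorem MS_empty {S : Set G} (h : ∀ g, g ∉ S) : Subsingleton (MS k S) := by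
  have h1 : ∀ x ∈ MS k S, x = 0 := fun x hx =>
    MS_ind (P := fun x => x = (0 : AddMonoidAlgebra k G)) rfl
      (fun x y hx hy => (congrArg₂ (· + ·) hx hy).trans (add_zero _))
      (fun c x hx => (congrArg (c • ·) hx).trans (smul_zero c)) (fun g hg => absurd hg (h g)) hx
  exact ⟨fun x y => Subtype.ext ((h1 x.1 x.2).trans (h1 y.1 y.2).symm)⟩

theorem MS_finite {S : Set G} (h : S.Finite) : Module.Finite k (MS k S) := by
  unfold MS
  rw [AddMonoidAlgebra.supported_eq_span_single]
  exact Module.Finite.span_of_finite k (h.image _)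

open Classical in
/-- The projection to the elements with support in `P`. -/
def pj (P : Set G) : AddMonoidAlgebra k G →ₗ[k] AddMonoidAlgebra k G :=
  (AddMonoidAlgebra.coeffLinearEquiv k).symm.toLinearMap ∘ₗ
    ((Finsupp.supported k k P).subtype ∘ₗ Finsupp.restrictDom k k P) ∘ₗ
    (AddMonoidAlgebra.coeffLinearEquiv k).toLinearMap

theorem pj_pos {P : Set G} {g : G} (h : g ∈ P) : pj P (mo k g) = mo k g := by
  classical
  unfold pj mo
  change (AddMonoidAlgebra.coeffLinearEquiv k).symm
    ((Finsupp.restrictDom k k P (Finsupp.single g 1) : Finsupp.supported k k P) : G →₀ k) = _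
  rw [Finsupp.restrictDom_apply, Finsupp.filter_single_of_pos _ h]
  rfl

theorem pj_neg {P : Set G} {g : G} (h : g ∉ P) : pj P (mo k g) = 0 := by
  classical
  unfold pj mo
  change (AddMonoidAlgebra.coeffLinearEquiv k).symm
    ((Finsupp.restrictDom k k P (Finsupp.single g 1) : Finsupp.supported k k P) : G →₀ k) = _
  rw [Finsupp.restrictDom_apply, Finsupp.filter_single_of_neg _ h]
  exact map_zero _

theorem pj_mem {P S : Set G} {x : AddMonoidAlgebra k G} (hx : x ∈ MS k S) :
    pj P x ∈ MS k (S ∩ P) := by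
  refine MS_ind (P := fun x => pj P x ∈ MS k (S ∩ P)) ?_ ?_ ?_ ?_ hx
  · rw [map_zero]
    exact zero_mem _
  · intro x y hx hy
    rw [map_add]
    exact add_mem hx hy
  · intro c x hx
    rw [map_smul]
    exact Submodule.smul_mem _ _ hx
  · intro g hg
    by_cases h : g ∈ P
    · rw [pj_pos h]
      exact mo_mem ⟨hg, h⟩
    · rw [pj_neg h]
      exact zero_mem _

theorem sum_pj {I : Type*} [Fintype I] (cls : G → I) {S : Set G} {x : AddMonoidAlgebra k G}
    (hx : x ∈ MS k S) : ∑ q, pj {g | cls g = q} x = x := by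
  classical
  refine MS_ind (P := fun x => ∑ q, pj {g | cls g = q} x = x) ?_ ?_ ?_ ?_ hx
  · simp only [map_zero, Finset.sum_const_zero]
  · intro x y hx hy
    simp only [map_add, Finset.sum_add_distrib]
    rw [hx, hy]
  · intro c x hx
    simp only [map_smul]
    rw [← Finset.smul_sum, hx]
  · intro g _
    rw [Finset.sum_eq_single (cls g)]
    · exact pj_pos rfl
    · intro q _ hq
      exact pj_neg fun h => hq h.symm
    · intro h
      exact absurd (Finset.mem_univ _) h

/-! ### Monomial presheaves in two variables -/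

/-- the monomial presheaf -/
def mono2 (k : Type u) [Field k] (S : Ch ι → Ch κ → Set G)
    (hS : ∀ {a a' : Ch ι} {b b' : Ch κ}, a ≤ a' → b ≤ b' → S a b ⊆ S a' b') : PC2 k ι κ where
  X := fun a b => Cx.conc k (MS k (S a b))
  ρ := fun h h' => concH (Submodule.inclusion (MS_mono (hS h h')))
  ρ_id := fun _ _ _ => rfl
  ρ_ρ := fun _ _ _ _ _ => rfl

section two

variable {S : Ch ι → Ch κ → Set G}
  {hS : ∀ {a a' : Ch ι} {b b' : Ch κ}, a ≤ a' → b ≤ b' → S a b ⊆ S a' b'}

/-- the part of the monomial presheaf with exponents in `P` -/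
def part2 (k : Type u) [Field k] (S : Ch ι → Ch κ → Set G)
    (hS : ∀ {a a' : Ch ι} {b b' : Ch κ}, a ≤ a' → b ≤ b' → S a b ⊆ S a' b') (P : Set G) :
    PC2 k ι κ :=
  mono2 k (fun a b => S a b ∩ P) (fun h h' => Set.inter_subset_inter_left P (hS h h'))

/-- the inclusion -/
def part2_e (P : Set G) : PC2H (part2 k S hS P) (mono2 k S hS) where
  f := fun a b => concH (Submodule.inclusion (MS_mono Set.inter_subset_left))
  nat := fun _ _ _ => rfl

/-- the projection -/
def part2_p (P : Set G) : PC2H (mono2 k S hS) (part2 k S hS P) where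
  f := fun a b => concH ((pj P).restrict (fun x hx => pj_mem hx))
  nat := fun _ _ _ => rfl

theorem incl_bij {A B : Set G} (h : A ⊆ B) (h' : B ⊆ A) :
    Function.Bijective (Submodule.inclusion (MS_mono (k := k) h)) :=
  ⟨Submodule.inclusion_injective _, fun x => ⟨⟨x.1, MS_mono h' x.2⟩, rfl⟩⟩

/-- The cohomology of a monomial presheaf: `cls1 g = some l` means that the exponent `g` does not
feel the inversion of `x_l` and does not occur on the chart `{l}`. -/
theorem mono2_fgt [Fintype ι] [Fintype κ] (cls1 : G → Option ι) (cls2 : G → Option κ)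
    (h1 : ∀ l g, cls1 g = some l → (∀ (a : Ch ι) b, g ∈ S (a.fs.ins l) b → g ∈ S a b) ∧
      ∀ b, g ∉ S ((FS.e ι).ins l) b)
    (h2 : ∀ l g, cls2 g = some l → (∀ a (b : Ch κ), g ∈ S a (b.fs.ins l) → g ∈ S a b) ∧
      ∀ a, g ∉ S a ((FS.e κ).ins l))
    (h3 : {g | cls1 g = none ∧ cls2 g = none ∧ ∃ a b, g ∈ S a b}.Finite)
    {L : List ι} {L' : List κ} (hL : ∀ l, l ∈ L) (hL' : ∀ l, l ∈ L') :
    (DAct.triv (T2 (mono2 k S hS) L L')).FGt := by
  refine DAct.FGt.of_dec (I := Option ι × Option κ)
    (Y := fun q => T2 (part2 k S hS {g | (cls1 g, cls2 g) = q}) L L')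
    (b := fun q => DAct.triv _) (fun q => T2H (part2_p _) L L')
    (fun q => T2H (part2_e _) L L') (fun q r x => map_smul _ _ _) ?_ ?_
  · refine T2_dec _ _ _ (fun a b x => ?_) L L'
    refine Subtype.ext ?_
    have h4 := sum_pj (fun g => (cls1 g, cls2 g)) (show MS k (S a b) from x).2
    refine Eq.trans ?_ h4
    exact AddSubmonoidClass.coe_finsetSum (S := MS k (S a b)) _ _
  · rintro ⟨y, z⟩
    rcases y with _ | l
    · rcases z with _ | l'
      · refine (T2_FGm (fun a b => ?_) L L').fgt
        have hfin : Module.Finite k (MS k (S a b ∩ {g | (cls1 g, cls2 g) = (none, none)})) :=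
          MS_finite (h3.subset fun g hg => ⟨congrArg Prod.fst hg.2, congrArg Prod.snd hg.2,
            a, b, hg.1⟩)
        exact DAct.FGm.of_module fun _ _ => rfl
      · refine DAct.FGt.of_acyc _ (cone_acyc _ l' (fun c => ?_) ?_ L' (hL' l'))
        · refine cH_bij _ Set.univ (fun a _ => ?_) L (fun _ _ => Set.mem_univ _) _
            (Set.subset_univ _)
          refine incl_bij (Set.inter_subset_inter_left _ (hS (le_refl a) (le_ins' c l')))
            fun g hg => ⟨?_, hg.2⟩
          exact (h2 l' g (congrArg Prod.snd hg.2)).1 a c hg.1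
        · refine cC_sub (fun a => ?_) L _
          refine MS_empty (k := k) fun g hg => ?_
          exact (h2 l' g (congrArg Prod.snd hg.2)).2 a hg.1
    · refine DAct.FGt.of_acyc _ (cC_acy (fun b => ?_) L' _)
      refine cone_acyc _ l (fun c => ?_) ?_ L (hL l)
      · refine incl_bij (Set.inter_subset_inter_left _ (hS (le_ins' c l) (le_refl b)))
          fun g hg => ⟨?_, hg.2⟩
        exact (h1 l g (congrArg Prod.fst hg.2)).1 c b hg.1
      · refine MS_empty (k := k) fun g hg => ?_
        exact (h1 l g (congrArg Prod.fst hg.2)).2 b hg.1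

end two

/-! ### Monomial presheaves in one variable, with the action of a commutative ring -/

/-- the monomial presheaf -/
def mono1 (k : Type u) [Field k] (S : Ch κ → Set G)
    (hS : ∀ {b b' : Ch κ}, b ≤ b' → S b ⊆ S b') : PC k κ where
  X := fun b => Cx.conc k (MS k (S b))
  ρ := fun h' => concH (Submodule.inclusion (MS_mono (hS h')))
  ρ_id := fun _ _ => rfl
  ρ_ρ := fun _ _ _ => rfl

section one

variable [AddCommMonoid G] {D : Type v} [CommRing D] [Algebra k D]
  {θ : D →ₐ[k] AddMonoidAlgebra k G}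

theorem MS_mul {S T U : Set G} (h : ∀ e ∈ S, ∀ e' ∈ T, e + e' ∈ U)
    {x y : AddMonoidAlgebra k G} (hx : x ∈ MS k S) (hy : y ∈ MS k T) : x * y ∈ MS k U := by
  refine MS_ind (P := fun x => x * y ∈ MS k U) ?_ ?_ ?_ ?_ hx
  · rw [zero_mul]
    exact zero_mem _
  · intro a b ha hb
    rw [add_mul]
    exact add_mem ha hb
  · intro c a ha
    rw [smul_mul_assoc]
    exact Submodule.smul_mem _ _ ha
  · intro e he
    refine MS_ind (P := fun y => mo k e * y ∈ MS k U) ?_ ?_ ?_ ?_ hy
    · rw [mul_zero]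
      exact zero_mem _
    · intro a b ha hb
      rw [mul_add]
      exact add_mem ha hb
    · intro c a ha
      rw [mul_smul_comm]
      exact Submodule.smul_mem _ _ ha
    · intro e' he'
      have e1 : mo k e * mo k e' = mo k (e + e') := by
        unfold mo
        rw [AddMonoidAlgebra.single_mul_single, one_mul]
      rw [e1]
      exact mo_mem (h e he e' he')

/-- The action by multiplication on the elements with support in `S`. -/
def mend (θ : D →ₐ[k] AddMonoidAlgebra k G) (S : Set G)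
    (h : ∀ r, ∀ x ∈ MS k S, θ r * x ∈ MS k S) : DAct D (Cx.conc k (MS k S)) where
  φ :=
    { toFun := fun r => (LinearMap.mulLeft k (θ r)).restrict (h r)
      map_one' := LinearMap.ext fun x => Subtype.ext (by
        change θ 1 * x.1 = x.1
        rw [map_one, one_mul])
      map_mul' := fun r s => LinearMap.ext fun x => Subtype.ext (by
        change θ (r * s) * x.1 = θ r * (θ s * x.1)
        rw [map_mul, mul_assoc])
      map_zero' := LinearMap.ext fun x => Subtype.ext (by
        change θ 0 * x.1 = 0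
        rw [map_zero, zero_mul])
      map_add' := fun r s => LinearMap.ext fun x => Subtype.ext (by
        change θ (r + s) * x.1 = θ r * x.1 + θ s * x.1
        rw [map_add, add_mul])
      commutes' := fun c => LinearMap.ext fun x => Subtype.ext (by
        change θ (algebraMap k D c) * x.1 = c • x.1
        rw [AlgHom.commutes, Algebra.smul_def]) }
  deg := fun {j} r {x} hx => conc_map _ hx
  d := fun r x => (map_zero _).symm

/-- The action by multiplication on the monomial presheaf. -/
def mact (θ : D →ₐ[k] AddMonoidAlgebra k G) (S : Ch κ → Set G)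
    (hS : ∀ {b b' : Ch κ}, b ≤ b' → S b ⊆ S b')
    (h : ∀ b r, ∀ x ∈ MS k (S b), θ r * x ∈ MS k (S b)) : PDA D (mono1 k S hS) where
  a := fun b => mend θ (S b) (h b)
  eqv := fun _ _ _ => rfl

/-- The module of the elements with support in `S` is generated by finitely many monomials. -/
theorem mend_FGm {S : Set G} {h : ∀ r, ∀ x ∈ MS k S, θ r * x ∈ MS k S} {F : Set G}
    (hF : F.Finite) (hFS : F ⊆ S)
    (hg : ∀ g ∈ S, ∃ g0 ∈ F, ∃ r : D, mo k g = θ r * mo k g0) : (mend θ S h).FGm := by
  classical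
  have hfin : Fintype F := hF.fintype
  refine DAct.FGm.of_fintype (I := F) (fun g => (⟨mo k g.1, mo_mem (hFS g.2)⟩ : MS k S)) ?_
  have key : ∀ x ∈ MS k S, ∃ r : F → D, x = ∑ g : F, θ (r g) * mo k g.1 := by
    intro x hx
    refine MS_ind (P := fun x => ∃ r : F → D, x = ∑ g : F, θ (r g) * mo k g.1) ?_ ?_ ?_ ?_ hx
    · refine ⟨0, ?_⟩
      simp only [Pi.zero_apply, map_zero, zero_mul, Finset.sum_const_zero]
    · rintro x y ⟨r, hr⟩ ⟨s, hs⟩
      refine ⟨r + s, ?_⟩
      simp only [Pi.add_apply, map_add, add_mul, Finset.sum_add_distrib]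
      rw [← hr, ← hs]
    · rintro c x ⟨r, hr⟩
      refine ⟨c • r, ?_⟩
      simp only [Pi.smul_apply, map_smul, smul_mul_assoc]
      rw [← Finset.smul_sum, ← hr]
    · intro g hgS
      obtain ⟨g0, hg0, r, hr⟩ := hg g hgS
      refine ⟨Pi.single ⟨g0, hg0⟩ r, ?_⟩
      rw [Finset.sum_eq_single (⟨g0, hg0⟩ : F), Pi.single_eq_same]
      · exact hr
      · intro q _ hq
        rw [Pi.single_eq_of_ne hq, map_zero, zero_mul]
      · intro h
        exact absurd (Finset.mem_univ _) h
  rintro ⟨x, hx⟩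
  obtain ⟨r, hr⟩ := key x hx
  refine ⟨r, Subtype.ext ?_⟩
  refine hr.trans ?_
  exact (AddSubmonoidClass.coe_finsetSum (S := MS k S)
    (fun g : F => (⟨θ (r g) * mo k g.1, h _ _ (mo_mem (hFS g.2))⟩ : MS k S)) Finset.univ).symm

/-- The cohomology of a monomial presheaf is finitely generated. -/
theorem mono1_fgt [IsNoetherianRing D] [Fintype κ] {S : Ch κ → Set G}
    {hS : ∀ {b b' : Ch κ}, b ≤ b' → S b ⊆ S b'} (T : Set G) (hθT : ∀ r, θ r ∈ MS k T)
    (hT : ∀ t ∈ T, ∀ b, ∀ g ∈ S b, t + g ∈ S b) (cls : G → Option κ)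
    (hc : ∀ t ∈ T, ∀ g, cls (t + g) = cls g)
    (h2 : ∀ l g, cls g = some l → (∀ b : Ch κ, g ∈ S (b.fs.ins l) → g ∈ S b) ∧
      g ∉ S ((FS.e κ).ins l))
    (hf : ∀ b, ∃ F : Set G, F.Finite ∧ (∀ g ∈ F, g ∈ S b ∧ cls g = none) ∧
      ∀ g ∈ S b, cls g = none → ∃ g0 ∈ F, ∃ r : D, mo k g = θ r * mo k g0)
    {L' : List κ} (hL' : ∀ l, l ∈ L') (P : PDA D (mono1 k S hS))
    (hP : ∀ b r (x : MS k (S b)), MS.v (S := S b) ((P.a b).φ r x) = θ r * x.1) :
    (P.cC L' (FS.e κ)).FGt := by
  have hm : ∀ (q : Option κ) (b : Ch κ) (r : D), ∀ x ∈ MS k (S b ∩ {g | cls g = q}),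
      θ r * x ∈ MS k (S b ∩ {g | cls g = q}) := fun q b r x hx =>
    MS_mul (S := T) (T := S b ∩ {g | cls g = q}) (U := S b ∩ {g | cls g = q})
      (fun t ht g hg => ⟨hT t ht b g hg.1, (hc t ht g).trans hg.2⟩) (hθT r) hx
  have hSq : ∀ (q : Option κ) {b b' : Ch κ}, b ≤ b' → S b ∩ {g | cls g = q} ⊆
      S b' ∩ {g | cls g = q} := fun q _ _ h => Set.inter_subset_inter_left _ (hS h)
  let M' : Option κ → PC k κ := fun q => mono1 k (fun b => S b ∩ {g | cls g = q}) (hSq q)
  let p : ∀ q, PCH (mono1 k S hS) (M' q) := fun q =>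
    { f := fun b => concH ((pj {g | cls g = q}).restrict (fun x hx => pj_mem hx))
      nat := fun _ _ => rfl }
  let e : ∀ q, PCH (M' q) (mono1 k S hS) := fun q =>
    { f := fun b => concH (Submodule.inclusion (MS_mono Set.inter_subset_left))
      nat := fun _ _ => rfl }
  refine DAct.FGt.of_dec (I := Option κ) (Y := fun q => (cC (M' q) L').X (FS.e κ))
    (b := fun q => (mact θ (fun b => S b ∩ {g | cls g = q}) (hSq q) (hm q)).cC L' (FS.e κ))
    (fun q => (cH (p q) L').g (FS.e κ)) (fun q => (cH (e q) L').g (FS.e κ)) (fun q => ?_) ?_ ?_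
  · refine PDA.cH _ P (e q) (fun b r x => ?_) L' (FS.e κ)
    refine Subtype.ext ?_
    exact (hP b r (Submodule.inclusion (MS_mono Set.inter_subset_left)
      (show MS k (S b ∩ {g | cls g = q}) from x))).symm
  · refine cH_dec M' p e (fun b x => Subtype.ext ?_) L' (FS.e κ)
    have h4 := sum_pj cls (show MS k (S b) from x).2
    refine Eq.trans ?_ h4
    exact AddSubmonoidClass.coe_finsetSum (S := MS k (S b)) _ _
  · intro q
    rcases q with _ | l
    · refine PDA.cC_fin _ (fun b => ?_) L' _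
      obtain ⟨F, hF, hF1, hF2⟩ := hf b
      exact mend_FGm hF (fun g hg => hF1 g hg) fun g hg => hF2 g hg.1 hg.2
    · refine DAct.FGt.of_acyc _ (cone_acyc _ l (fun c => ?_) ?_ L' (hL' l))
      · refine incl_bij (Set.inter_subset_inter_left _ (hS (le_ins' c l)))
          fun g hg => ⟨?_, hg.2⟩
        exact (h2 l g hg.2).1 c hg.1
      · exact MS_empty (k := k) fun g hg => (h2 l g hg.2).2 hg.1

end one

end Pool.Agent.MP_6e5bed_ag_PN
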