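import Pool.Agent.Lib.MP_6e5bed_ag_PN.TbR

set_option autoImplicit false
set_option linter.unusedVariables false

/-!
# MP_6e5bed_ag, THEOREM G: `X ⊗_W G_r(N) = G_r(X ⊗_W N)`

`ExL X N Q`: the presheaf `Q` of bimodules receives compatible maps from the `X ⊗_W N b`. Then
`X ⊗_W cBL N L c → cBL Q L c` (`ExL.th`), which is bijective if all maps on the charts are.
-/

noncomputable section

namespace Pool.Agent.MP_6e5bed_ag_PN

open Pool.Agent.MP_6e5bed_ag_NC Pool.Agent.MP_6e5bed_ag_NS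

universe u

variable {k : Type u} [CommRing k] {κ : Type} {B : PA k κ} {W D : DGA k}

/-- Compatible maps `X ⊗_W N b → Q b`. -/
structure ExL (X : Bim D W) (N : PB (PA.con κ W) B) (Q : PB (PA.con κ D) B) where
  β : ∀ b, GMap 0 (tb X (N.M b)) (Q.M b)
  dd : ∀ b, (β b).dd = 0
  nat : ∀ {b b' : Ch κ} (h : b ≤ b') (x : X.M) (n : (N.M b).M),
    (Q.ρ h).f ((β b).f (tm x n)) = (β b').f (tm (M := X) (N := N.M b') x ((N.ρ h).f n))

variable {X : Bim D W} {N : PB (PA.con κ W) B} {Q : PB (PA.con κ D) B}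

namespace ExL

variable (E : ExL X N Q)

/-- the pairing of the constant presheaf `X` with the presheaf `N` -/
def pp : PP (PC.con κ (bcx X)) N.pc Q.pc where
  p := fun b => cprT (E.β b) (E.dd b)
  nat := fun {b b'} h x y => E.nat h x y

theorem ch_l (b : Ch κ) (d : D.A) (x : X.M) (n : (N.M b).M) :
    (E.β b).f (tm (M := X) (N := N.M b) (X.l d x) n) = (Q.M b).l d ((E.β b).f (tm x n)) := by
  have h1 := (E.β b).map_l d (tm x n)
  rw [Dg.sp_zero, tb_l] at h1
  exact h1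

theorem ch_r (b : Ch κ) (x : X.M) (n : (N.M b).M) (r : (B.A b).A) :
    (Q.M b).r r ((E.β b).f (tm x n)) =
      (E.β b).f (tm (M := X) (N := N.M b) x ((N.M b).r r n)) := by
  have h1 := (E.β b).map_r r (tm x n)
  rw [tb_r] at h1
  exact h1.symm

variable (L : List κ) (c : FS κ)

/-- the bilinear map -/
def bl : X.M →ₗ[k] (cBL N L c).M →ₗ[k] (cBL Q L c).M :=
  ((cP E.pp L).q c).m ∘ₗ (kX (bcx X) L c).f

theorem bl_apply (x : X.M) (n : (cBL N L c).M) :
    E.bl L c x n = ((cP E.pp L).q c).m ((kX (bcx X) L c).f x) n := rfl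

theorem bl_bal (x : X.M) (w : W.A) (n : (cBL N L c).M) :
    E.bl L c (X.r w x) n = E.bl L c x ((cBL N L c).l w n) := by
  have h := cP_assoc (PP.con κ (cprR X)) E.pp N.pl E.pp (fun b x w n => by
    exact congrArg (E.β b).f (tm_r_l (M := X) (N := N.M b) x w n)) L c
    ((kX (bcx X) L c).f x) ((kX (acx W) L c).f w) n
  refine Eq.trans ?_ h
  exact congrArg (fun z => ((cP E.pp L).q c).m z n) (cP_con (cprR X) L c x w).symm

theorem bl_l (d : D.A) (x : X.M) (n : (cBL N L c).M) :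
    E.bl L c (X.l d x) n = (cBL Q L c).l d (E.bl L c x n) := by
  have h := cP_assoc (PP.con κ (cprL X)) E.pp E.pp Q.pl (fun b d x n => E.ch_l b d x n) L c
    ((kX (acx D) L c).f d) ((kX (bcx X) L c).f x) n
  refine Eq.trans ?_ h
  exact congrArg (fun z => ((cP E.pp L).q c).m z n) (cP_con (cprL X) L c d x).symm

theorem bl_r (r : (cA B L c).A) (x : X.M) (n : (cBL N L c).M) :
    E.bl L c x ((cBL N L c).r r n) = (cBL Q L c).r r (E.bl L c x n) :=
  (cP_assoc E.pp Q.pr N.pr E.pp (fun b x n r => E.ch_r b x n r) L c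
    ((kX (bcx X) L c).f x) n r).symm

/-- the underlying linear map -/
def thf : (tb X (cBL N L c)).M →ₗ[k] (cBL Q L c).M := tlift (E.bl L c) (E.bl_bal L c)

theorem thf_tm (x : X.M) (n : (cBL N L c).M) :
    E.thf L c (tm x n) = ((cP E.pp L).q c).m ((kX (bcx X) L c).f x) n :=
  tlift_tm _ (E.bl_bal L c) x n

theorem thf_deg {i : ℤ} {x : (tb X (cBL N L c)).M} (hx : (tb X (cBL N L c)).dg.IsDeg i x) :
    (cBL Q L c).dg.IsDeg (i + 0) (E.thf L c x) := by
  refine tb_degMap (Z := (cBL Q L c).dg) (n := 0) (E.thf L c) (fun {i j v w} hv hw => ?_) hx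
  rw [E.thf_tm, add_zero]
  exact ((cP E.pp L).q c).deg ((kX (bcx X) L c).deg hv) hw

theorem thf_l (d : D.A) (x : (tb X (cBL N L c)).M) :
    E.thf L c ((tb X (cBL N L c)).l d x) = (cBL Q L c).l d (E.thf L c x) := by
  refine tb_ind (P := fun x => E.thf L c ((tb X (cBL N L c)).l d x) =
    (cBL Q L c).l d (E.thf L c x)) ?_ ?_ ?_ x
  · simp only [map_zero]
  · intro x y hx hy
    rw [map_add, map_add, map_add, map_add, hx, hy]
  · intro m n
    rw [tb_l, E.thf_tm, E.thf_tm]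
    exact E.bl_l L c d m n

theorem thf_r (r : (cA B L c).A) (x : (tb X (cBL N L c)).M) :
    E.thf L c ((tb X (cBL N L c)).r r x) = (cBL Q L c).r r (E.thf L c x) := by
  refine tb_ind (P := fun x => E.thf L c ((tb X (cBL N L c)).r r x) =
    (cBL Q L c).r r (E.thf L c x)) ?_ ?_ ?_ x
  · simp only [map_zero]
  · intro x y hx hy
    rw [map_add, map_add, map_add, map_add, hx, hy]
  · intro m n
    rw [tb_r, E.thf_tm, E.thf_tm]
    exact E.bl_r L c r m n

theorem thf_d (x : (tb X (cBL N L c)).M) :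
    (cBL Q L c).dg.d (E.thf L c x) = E.thf L c ((tb X (cBL N L c)).dg.d x) := by
  refine tb_ind (P := fun x => (cBL Q L c).dg.d (E.thf L c x) =
    E.thf L c ((tb X (cBL N L c)).dg.d x)) ?_ ?_ ?_ x
  · simp only [map_zero]
  · intro x y hx hy
    rw [map_add, map_add, map_add, map_add, hx, hy]
  · intro m n
    rw [tb_d, map_add, E.thf_tm, E.thf_tm, E.thf_tm]
    refine (((cP E.pp L).q c).d ((kX (bcx X) L c).f m) n).trans ?_
    have e1 := (kX (bcx X) L c).d m
    have e2 := (kX (bcx X) L c).s m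
    exact congrArg₂ (fun z w => ((cP E.pp L).q c).m z n + ((cP E.pp L).q c).m w
      (((cC N.pc L).X c).dg.d n)) e1 e2

/-- The map `X ⊗_W G_r(N) → G_r(Q)`. -/
def th : GMap 0 (tb X (cBL N L c)) (cBL Q L c) where
  f := E.thf L c
  deg := fun hx => E.thf_deg L c hx
  map_l := fun d x => by
    rw [Dg.sp_zero]
    exact E.thf_l L c d x
  map_r := fun r x => E.thf_r L c r x

theorem th_tm (x : X.M) (n : (cBL N L c).M) :
    (E.th L c).f (tm x n) = ((cP E.pp L).q c).m ((kX (bcx X) L c).f x) n := E.thf_tm L c x n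

theorem th_dd : (E.th L c).dd = 0 := by
  refine LinearMap.ext (fun x => ?_)
  rw [GMap.dd_apply, sg_zero, one_smul, LinearMap.zero_apply, sub_eq_zero]
  exact E.thf_d L c x

/-! ### Bijectivity -/

section comp

variable (N) (l : κ)

/-- the components of the Čech complex -/
def q0 : (cBL N (l :: L) c).M →ₗ[k] (cBL N L c).M :=
  LinearMap.fst k (cBL N L c).M (N.M (c.ins l)).M ∘ₗ
    LinearMap.fst k ((cBL N L c).M × (N.M (c.ins l)).M) (cBL N L (c.ins l).fs).M

def q1 : (cBL N (l :: L) c).M →ₗ[k] (N.M (c.ins l)).M :=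
  LinearMap.snd k (cBL N L c).M (N.M (c.ins l)).M ∘ₗ
    LinearMap.fst k ((cBL N L c).M × (N.M (c.ins l)).M) (cBL N L (c.ins l).fs).M

def q01 : (cBL N (l :: L) c).M →ₗ[k] (cBL N L (c.ins l).fs).M :=
  LinearMap.snd k ((cBL N L c).M × (N.M (c.ins l)).M) (cBL N L (c.ins l).fs).M

def i0 : (cBL N L c).M →ₗ[k] (cBL N (l :: L) c).M :=
  LinearMap.inl k ((cBL N L c).M × (N.M (c.ins l)).M) (cBL N L (c.ins l).fs).M ∘ₗ
    LinearMap.inl k (cBL N L c).M (N.M (c.ins l)).M

def i1 : (N.M (c.ins l)).M →ₗ[k] (cBL N (l :: L) c).M :=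
  LinearMap.inl k ((cBL N L c).M × (N.M (c.ins l)).M) (cBL N L (c.ins l).fs).M ∘ₗ
    LinearMap.inr k (cBL N L c).M (N.M (c.ins l)).M

def i01 : (cBL N L (c.ins l).fs).M →ₗ[k] (cBL N (l :: L) c).M :=
  LinearMap.inr k ((cBL N L c).M × (N.M (c.ins l)).M) (cBL N L (c.ins l).fs).M

theorem q0_l (w : W.A) (x : (cBL N (l :: L) c).M) :
    q0 N L c l ((cBL N (l :: L) c).l w x) = (cBL N L c).l (W.dg.sp 0 w) (q0 N L c l x) := by
  obtain ⟨⟨x0, x1⟩, ξ⟩ := x
  rw [Dg.sp_zero]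
  exact congrArg (fun z => z.1.1) (cBL_l N l L c w x0 x1 ξ)

theorem q1_l (w : W.A) (x : (cBL N (l :: L) c).M) :
    q1 N L c l ((cBL N (l :: L) c).l w x) =
      (N.M (c.ins l)).l (W.dg.sp 0 w) (q1 N L c l x) := by
  obtain ⟨⟨x0, x1⟩, ξ⟩ := x
  rw [Dg.sp_zero]
  exact congrArg (fun z => z.1.2) (cBL_l N l L c w x0 x1 ξ)

theorem q01_l (w : W.A) (x : (cBL N (l :: L) c).M) :
    q01 N L c l ((cBL N (l :: L) c).l w x) =
      (cBL N L (c.ins l).fs).l (W.dg.sp 1 w) (q01 N L c l x) := by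
  obtain ⟨⟨x0, x1⟩, ξ⟩ := x
  rw [Dg.sp_one]
  exact congrArg (fun z => z.2) (cBL_l N l L c w x0 x1 ξ)

theorem i0_l (w : W.A) (x : (cBL N L c).M) :
    i0 N L c l ((cBL N L c).l w x) = (cBL N (l :: L) c).l (W.dg.sp 0 w) (i0 N L c l x) := by
  rw [Dg.sp_zero]
  refine Eq.trans ?_ (cBL_l N l L c w x 0 0).symm
  rw [map_zero, map_zero]
  rfl

theorem i1_l (w : W.A) (x : (N.M (c.ins l)).M) :
    i1 N L c l ((N.M (c.ins l)).l w x) =
      (cBL N (l :: L) c).l (W.dg.sp 0 w) (i1 N L c l x) := by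
  rw [Dg.sp_zero]
  refine Eq.trans ?_ (cBL_l N l L c w 0 x 0).symm
  rw [map_zero, map_zero]
  rfl

theorem i01_l (w : W.A) (x : (cBL N L (c.ins l).fs).M) :
    i01 N L c l ((cBL N L (c.ins l).fs).l w x) =
      (cBL N (l :: L) c).l (W.dg.sp 1 w) (i01 N L c l x) := by
  rw [Dg.sp_one]
  refine Eq.trans ?_ (cBL_l N l L c (W.dg.s w) 0 0 x).symm
  rw [map_zero, map_zero, Dg.s_s]
  rfl

theorem qi_sum (x : (cBL N (l :: L) c).M) : i0 N L c l (q0 N L c l x) +
    (i1 N L c l (q1 N L c l x) + i01 N L c l (q01 N L c l x)) = x := by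
  obtain ⟨⟨x0, x1⟩, ξ⟩ := x
  refine Prod.ext (Prod.ext ?_ ?_) ?_
  · have h : x0 + ((0 : ((cC N.pc L).X c).V) + 0) = x0 := by rw [add_zero, add_zero]
    exact h
  · have h : (0 : (N.pc.X (c.ins l)).V) + (x1 + 0) = x1 := by rw [add_zero, zero_add]
    exact h
  · have h : (0 : ((cC N.pc L).X (c.ins l).fs).V) + (0 + ξ) = ξ := by rw [zero_add, zero_add]
    exact h

variable (X)

/-- the components of the tensor product -/
def P0 : (tb X (cBL N (l :: L) c)).M →ₗ[k] (tb X (cBL N L c)).M :=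
  tbg 0 X (q0 N L c l) (q0_l N L c l)

def P1 : (tb X (cBL N (l :: L) c)).M →ₗ[k] (tb X (N.M (c.ins l))).M :=
  tbg 0 X (q1 N L c l) (q1_l N L c l)

def P01 : (tb X (cBL N (l :: L) c)).M →ₗ[k] (tb X (cBL N L (c.ins l).fs)).M :=
  tbg 1 X (q01 N L c l) (q01_l N L c l)

def J0 : (tb X (cBL N L c)).M →ₗ[k] (tb X (cBL N (l :: L) c)).M :=
  tbg 0 X (i0 N L c l) (i0_l N L c l)

def J1 : (tb X (N.M (c.ins l))).M →ₗ[k] (tb X (cBL N (l :: L) c)).M :=
  tbg 0 X (i1 N L c l) (i1_l N L c l)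

def J01 : (tb X (cBL N L (c.ins l).fs)).M →ₗ[k] (tb X (cBL N (l :: L) c)).M :=
  tbg 1 X (i01 N L c l) (i01_l N L c l)

theorem P0_tm (x : X.M) (m : (cBL N (l :: L) c).M) :
    P0 X N L c l (tm x m) = tm x (q0 N L c l m) := by
  refine (tbg_tm _ _ _ _ _ _).trans ?_
  rw [Dg.sp_zero]

theorem P1_tm (x : X.M) (m : (cBL N (l :: L) c).M) :
    P1 X N L c l (tm x m) = tm x (q1 N L c l m) := by
  refine (tbg_tm _ _ _ _ _ _).trans ?_
  rw [Dg.sp_zero]

theorem P01_tm (x : X.M) (m : (cBL N (l :: L) c).M) :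
    P01 X N L c l (tm x m) = tm (X.dg.s x) (q01 N L c l m) := by
  refine (tbg_tm _ _ _ _ _ _).trans ?_
  rw [Dg.sp_one]

theorem J0_tm (x : X.M) (m : (cBL N L c).M) :
    J0 X N L c l (tm x m) = tm x (i0 N L c l m) := by
  refine (tbg_tm _ _ _ _ _ _).trans ?_
  rw [Dg.sp_zero]

theorem J1_tm (x : X.M) (m : (N.M (c.ins l)).M) :
    J1 X N L c l (tm x m) = tm x (i1 N L c l m) := by
  refine (tbg_tm _ _ _ _ _ _).trans ?_
  rw [Dg.sp_zero]

theorem J01_tm (x : X.M) (m : (cBL N L (c.ins l).fs).M) :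
    J01 X N L c l (tm x m) = tm (X.dg.s x) (i01 N L c l m) := by
  refine (tbg_tm _ _ _ _ _ _).trans ?_
  rw [Dg.sp_one]

theorem tb_sum (z : (tb X (cBL N (l :: L) c)).M) :
    J0 X N L c l (P0 X N L c l z) + (J1 X N L c l (P1 X N L c l z) +
      J01 X N L c l (P01 X N L c l z)) = z := by
  have h : J0 X N L c l ∘ₗ P0 X N L c l + (J1 X N L c l ∘ₗ P1 X N L c l +
      J01 X N L c l ∘ₗ P01 X N L c l) = LinearMap.id := by
    refine tb_hom_ext (fun m n => ?_)
    rw [LinearMap.add_apply, LinearMap.add_apply, LinearMap.comp_apply, LinearMap.comp_apply,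
      LinearMap.comp_apply, P0_tm, P1_tm, P01_tm, J0_tm, J1_tm, J01_tm, Dg.s_s,
      ← tm_add_right, ← tm_add_right, qi_sum, LinearMap.id_apply]
  exact LinearMap.congr_fun h z

theorem P0_J0 (z : (tb X (cBL N L c)).M) : P0 X N L c l (J0 X N L c l z) = z := by
  refine tb_ind (P := fun z => P0 X N L c l (J0 X N L c l z) = z) ?_ ?_ ?_ z
  · rw [map_zero, map_zero]
  · intro x y hx hy
    rw [map_add, map_add, hx, hy]
  · intro m n
    rw [J0_tm, P0_tm]
    rfl

theorem P1_J1 (z : (tb X (N.M (c.ins l))).M) : P1 X N L c l (J1 X N L c l z) = z := by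
  refine tb_ind (P := fun z => P1 X N L c l (J1 X N L c l z) = z) ?_ ?_ ?_ z
  · rw [map_zero, map_zero]
  · intro x y hx hy
    rw [map_add, map_add, hx, hy]
  · intro m n
    rw [J1_tm, P1_tm]
    rfl

theorem P01_J01 (z : (tb X (cBL N L (c.ins l).fs)).M) :
    P01 X N L c l (J01 X N L c l z) = z := by
  refine tb_ind (P := fun z => P01 X N L c l (J01 X N L c l z) = z) ?_ ?_ ?_ z
  · rw [map_zero, map_zero]
  · intro x y hx hy
    rw [map_add, map_add, hx, hy]
  · intro m n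
    rw [J01_tm, P01_tm, Dg.s_s]
    rfl

theorem P0_J1 (z : (tb X (N.M (c.ins l))).M) : P0 X N L c l (J1 X N L c l z) = 0 := by
  refine tb_ind (P := fun z => P0 X N L c l (J1 X N L c l z) = 0) ?_ ?_ ?_ z
  · rw [map_zero, map_zero]
  · intro x y hx hy
    rw [map_add, map_add, hx, hy, add_zero]
  · intro m n
    rw [J1_tm, P0_tm]
    exact tm_zero_right (M := X) (N := cBL N L c) m

theorem P0_J01 (z : (tb X (cBL N L (c.ins l).fs)).M) :
    P0 X N L c l (J01 X N L c l z) = 0 := by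
  refine tb_ind (P := fun z => P0 X N L c l (J01 X N L c l z) = 0) ?_ ?_ ?_ z
  · rw [map_zero, map_zero]
  · intro x y hx hy
    rw [map_add, map_add, hx, hy, add_zero]
  · intro m n
    rw [J01_tm, P0_tm]
    exact tm_zero_right (M := X) (N := cBL N L c) _

theorem P1_J0 (z : (tb X (cBL N L c)).M) : P1 X N L c l (J0 X N L c l z) = 0 := by
  refine tb_ind (P := fun z => P1 X N L c l (J0 X N L c l z) = 0) ?_ ?_ ?_ z
  · rw [map_zero, map_zero]
  · intro x y hx hy
    rw [map_add, map_add, hx, hy, add_zero]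
  · intro m n
    rw [J0_tm, P1_tm]
    exact tm_zero_right (M := X) (N := N.M (c.ins l)) _

theorem P1_J01 (z : (tb X (cBL N L (c.ins l).fs)).M) :
    P1 X N L c l (J01 X N L c l z) = 0 := by
  refine tb_ind (P := fun z => P1 X N L c l (J01 X N L c l z) = 0) ?_ ?_ ?_ z
  · rw [map_zero, map_zero]
  · intro x y hx hy
    rw [map_add, map_add, hx, hy, add_zero]
  · intro m n
    rw [J01_tm, P1_tm]
    exact tm_zero_right (M := X) (N := N.M (c.ins l)) _

theorem P01_J0 (z : (tb X (cBL N L c)).M) : P01 X N L c l (J0 X N L c l z) = 0 := by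
  refine tb_ind (P := fun z => P01 X N L c l (J0 X N L c l z) = 0) ?_ ?_ ?_ z
  · rw [map_zero, map_zero]
  · intro x y hx hy
    rw [map_add, map_add, hx, hy, add_zero]
  · intro m n
    rw [J0_tm, P01_tm]
    exact tm_zero_right (M := X) (N := cBL N L (c.ins l).fs) _

theorem P01_J1 (z : (tb X (N.M (c.ins l))).M) : P01 X N L c l (J1 X N L c l z) = 0 := by
  refine tb_ind (P := fun z => P01 X N L c l (J1 X N L c l z) = 0) ?_ ?_ ?_ z
  · rw [map_zero, map_zero]
  · intro x y hx hy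
    rw [map_add, map_add, hx, hy, add_zero]
  · intro m n
    rw [J1_tm, P01_tm]
    exact tm_zero_right (M := X) (N := cBL N L (c.ins l).fs) _

end comp

theorem thf_cons (l : κ) (z : (tb X (cBL N (l :: L) c)).M) :
    E.thf (l :: L) c z = ((E.thf L c (P0 X N L c l z), (E.β (c.ins l)).f (P1 X N L c l z)),
      E.thf L (c.ins l).fs (P01 X N L c l z)) := by
  obtain ⟨G, hG⟩ : ∃ G : (tb X (cBL N (l :: L) c)).M →ₗ[k] (cBL Q (l :: L) c).M,
      G = ((E.thf L c ∘ₗ P0 X N L c l).prod ((E.β (c.ins l)).f ∘ₗ P1 X N L c l)).prod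
        (E.thf L (c.ins l).fs ∘ₗ P01 X N L c l) := ⟨_, rfl⟩
  have h : E.thf (l :: L) c = G := by
    refine tb_hom_ext (fun m n => ?_)
    obtain ⟨⟨x0, x1⟩, ξ⟩ := n
    rw [E.thf_tm, hG]
    refine (cP_kL E.pp l L c x0 x1 ξ m).trans ?_
    refine Prod.ext (Prod.ext ?_ ?_) ?_
    · refine Eq.trans ?_ (congrArg (E.thf L c) (P0_tm X N L c l m ((x0, x1), ξ))).symm
      exact (E.thf_tm L c m x0).symm
    · refine Eq.trans ?_ (congrArg (E.β (c.ins l)).f (P1_tm X N L c l m ((x0, x1), ξ))).symm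
      rfl
    · refine Eq.trans ?_ (congrArg (E.thf L (c.ins l).fs)
        (P01_tm X N L c l m ((x0, x1), ξ))).symm
      exact (E.thf_tm L (c.ins l).fs (X.dg.s m) ξ).symm
  rw [h, hG]
  rfl

theorem thf_bij (h : ∀ b, Function.Bijective (E.β b).f) : ∀ (L : List κ) (c : FS κ),
    Function.Bijective (E.thf L c)
  | [], c => by
    refine ⟨fun x y _ => ?_, fun y => ⟨0, rfl⟩⟩
    have h0 : ∀ z : (tb X (cBL N [] c)).M, z = 0 := by
      refine tb_ind rfl (fun x y hx hy => by rw [hx, hy, add_zero]) (fun m n => ?_)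
      have h1 : n = 0 := rfl
      rw [h1, tm_zero_right]
    rw [h0 x, h0 y]
  | l :: L, c => by
    have b0 := thf_bij h L c
    have b1 := h (c.ins l)
    have b01 := thf_bij h L (c.ins l).fs
    constructor
    · rw [injective_iff_map_eq_zero]
      intro z hz
      rw [E.thf_cons] at hz
      have e0 : E.thf L c (P0 X N L c l z) = 0 := congrArg (fun y => y.1.1) hz
      have e1 : (E.β (c.ins l)).f (P1 X N L c l z) = 0 := congrArg (fun y => y.1.2) hz
      have e01 : E.thf L (c.ins l).fs (P01 X N L c l z) = 0 := congrArg (fun y => y.2) hz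
      have f0 := (injective_iff_map_eq_zero _).1 b0.1 _ e0
      have f1 := (injective_iff_map_eq_zero _).1 b1.1 _ e1
      have f01 := (injective_iff_map_eq_zero _).1 b01.1 _ e01
      rw [← tb_sum X N L c l z, f0, f1, f01, map_zero, map_zero, map_zero, add_zero, add_zero]
    · rintro ⟨⟨y0, y1⟩, υ⟩
      obtain ⟨z0, h0⟩ := b0.2 y0
      obtain ⟨z1, h1⟩ := b1.2 y1
      obtain ⟨z01, h01⟩ := b01.2 υ
      refine ⟨J0 X N L c l z0 + (J1 X N L c l z1 + J01 X N L c l z01), ?_⟩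
      rw [E.thf_cons]
      refine Prod.ext (Prod.ext ?_ ?_) ?_
      · refine Eq.trans (congrArg (E.thf L c) ?_) h0
        rw [map_add, map_add, P0_J0, P0_J1, P0_J01, add_zero, add_zero]
      · refine Eq.trans (congrArg (E.β (c.ins l)).f ?_) h1
        rw [map_add, map_add, P1_J0, P1_J1, P1_J01, add_zero, zero_add]
      · refine Eq.trans (congrArg (E.thf L (c.ins l).fs) ?_) h01
        rw [map_add, map_add, P01_J0, P01_J1, P01_J01, zero_add, zero_add]

/-- `X ⊗_W G_r(N) → G_r(Q)` is bijective if the maps `X ⊗_W N b → Q b` are. -/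
theorem th_bij (h : ∀ b, Function.Bijective (E.β b).f) (L : List κ) (c : FS κ) :
    Function.Bijective (E.th L c).f := E.thf_bij h L c

end ExL

end Pool.Agent.MP_6e5bed_ag_PN
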