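import Pool.Agent.Lib.MP_6e5bed_ag_PN.Cx

set_option autoImplicit false
set_option linter.unusedVariables false

/-!
# MP_6e5bed_ag, THEOREM G: Čech complexes for an arbitrary index type

This is `Lib/MP_6e5bed_ag_NS/WC.lean` with an arbitrary index type `ι` of open sets in the place of
the nonzero linear forms. A chart is a nonempty finite set `c` of indices; it stands for the
intersection of the open sets `U_l`, `l ∈ c`.

`PC` is a presheaf of complexes on the charts. `WC V` is a presheaf of complexes `X` on the finite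
(possibly empty) sets of indices, with a map `V → X` on the charts. For an index `l` the
next one is `c ↦ (X c → X (c ∪ l) ← V (c ∪ l))` (`WC.cons`), and `cC V L` is the Čech complex with
respect to the list `L` of indices: `(cC V L).X c` is the Čech complex of `V` on the
intersection of `c` with the union of the charts `U_l`, `l ∈ L`.
-/

noncomputable section

namespace Pool.Agent.MP_6e5bed_ag_PN

open Pool.Agent.MP_6e5bed_ag_NC Pool.Agent.MP_6e5bed_ag_NS

universe u

variable {k : Type u} [CommRing k] {ι : Type}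

/-- the charts: nonempty finite sets of indices -/
abbrev Ch (ι : Type) : Type := {c : Set ι // c.Nonempty ∧ c.Finite}

/-- the finite sets of indices -/
abbrev FS (ι : Type) : Type := {c : Set ι // c.Finite}

/-- a chart as a finite set -/
def Ch.fs (c : Ch ι) : FS ι := ⟨c.1, c.2.2⟩

/-- the empty set -/
def FS.e (ι : Type) : FS ι := ⟨∅, Set.finite_empty⟩

/-- the intersection with `U_l` -/
def FS.ins (c : FS ι) (l : ι) : Ch ι := ⟨insert l c.1, Set.insert_nonempty l c.1, c.2.insert l⟩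

theorem fs_mono {c d : Ch ι} (h : c ≤ d) : c.fs ≤ d.fs := h

theorem le_ins (c : FS ι) (l : ι) : c ≤ (c.ins l).fs := Set.subset_insert l c.1

theorem le_ins' (c : Ch ι) (l : ι) : c ≤ c.fs.ins l := Set.subset_insert l c.1

theorem ins_mono {c d : FS ι} (h : c ≤ d) (l : ι) : c.ins l ≤ d.ins l :=
  Set.insert_subset_insert h

theorem ins_ins (c : FS ι) (l : ι) : (c.ins l).fs.ins l ≤ c.ins l :=
  Set.insert_subset (Set.mem_insert l c.1) le_rfl

/-- Presheaves of complexes on the charts. -/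
structure PC (k : Type u) [CommRing k] (ι : Type) where
  X : Ch ι → Cx k
  ρ : ∀ {c d : Ch ι}, c ≤ d → CHom (X c) (X d)
  ρ_id : ∀ {c : Ch ι} (h : c ≤ c) x, (ρ h).f x = x
  ρ_ρ : ∀ {c d e : Ch ι} (h : c ≤ d) (h' : d ≤ e) x,
    (ρ h').f ((ρ h).f x) = (ρ (h.trans h')).f x

/-- Presheaves of complexes on the finite sets of indices, under `V`. -/
structure WC (V : PC k ι) where
  X : FS ι → Cx k
  ρ : ∀ {c d : FS ι}, c ≤ d → CHom (X c) (X d)
  ρ_id : ∀ {c : FS ι} (h : c ≤ c) x, (ρ h).f x = x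
  ρ_ρ : ∀ {c d e : FS ι} (h : c ≤ d) (h' : d ≤ e) x,
    (ρ h').f ((ρ h).f x) = (ρ (h.trans h')).f x
  a : ∀ c : Ch ι, CHom (V.X c) (X c.fs)
  a_ρ : ∀ {c d : Ch ι} (h : c ≤ d) x, (ρ (fs_mono h)).f ((a c).f x) = (a d).f ((V.ρ h).f x)

/-- The zero presheaf. -/
def WC.nil (V : PC k ι) : WC V where
  X := fun _ => Cx.zero k
  ρ := fun _ => CHom.id _
  ρ_id := fun _ _ => rfl
  ρ_ρ := fun _ _ _ => rfl
  a := fun c => toZero (V.X c)
  a_ρ := fun _ _ => rfl

/-- The step of the recursion. -/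
def WC.cons {V : PC k ι} (W : WC V) (l : ι) : WC V where
  X := fun c => co (W.ρ (le_ins c l)) (W.a (c.ins l))
  ρ := fun {c d} h => co.map _ _ _ _ (W.ρ h) (V.ρ (ins_mono h l)) (W.ρ (fs_mono (ins_mono h l)))
    (fun x => by rw [W.ρ_ρ, W.ρ_ρ]) (fun x => (W.a_ρ _ x).symm)
  ρ_id := fun {c} h x => by
    obtain ⟨⟨x0, x1⟩, ξ⟩ := x
    exact Prod.ext (Prod.ext (W.ρ_id _ x0) (V.ρ_id _ x1)) (W.ρ_id _ ξ)
  ρ_ρ := fun {c d e} h h' x => by
    obtain ⟨⟨x0, x1⟩, ξ⟩ := x
    exact Prod.ext (Prod.ext (W.ρ_ρ _ _ x0) (V.ρ_ρ _ _ x1)) (W.ρ_ρ _ _ ξ)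
  a := fun c => co.aug _ _ (W.a c) (V.ρ (le_ins' c l)) (fun x => W.a_ρ (le_ins' c l) x)
  a_ρ := fun {c d} h x => by
    refine Prod.ext (Prod.ext (W.a_ρ h x) ?_) ?_
    · exact (V.ρ_ρ _ _ x).trans (V.ρ_ρ _ _ x).symm
    · exact map_zero (W.ρ (fs_mono (ins_mono (fs_mono h) l))).f

/-- The Čech complexes of `V` with respect to a list of indices. -/
def cC (V : PC k ι) : List ι → WC V
  | [] => WC.nil V
  | l :: L => (cC V L).cons l

/-- Morphisms of presheaves of complexes. -/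
structure PCH (V V' : PC k ι) where
  f : ∀ c, CHom (V.X c) (V'.X c)
  nat : ∀ {c d : Ch ι} (h : c ≤ d) x, (V'.ρ h).f ((f c).f x) = (f d).f ((V.ρ h).f x)

/-- the identity -/
def PCH.id (V : PC k ι) : PCH V V where
  f := fun _ => CHom.id _
  nat := fun _ _ => rfl

/-- the composition -/
def PCH.comp {V V' V'' : PC k ι} (f : PCH V V') (g : PCH V' V'') : PCH V V'' where
  f := fun c => (f.f c).comp (g.f c)
  nat := fun {c d} h x => by
    change (V''.ρ h).f ((g.f c).f ((f.f c).f x)) = (g.f d).f ((f.f d).f ((V.ρ h).f x))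
    rw [g.nat, f.nat]

/-- Morphisms over a morphism of presheaves of complexes. -/
structure WCH {V V' : PC k ι} (f : PCH V V') (W : WC V) (W' : WC V') where
  g : ∀ c, CHom (W.X c) (W'.X c)
  nat : ∀ {c d : FS ι} (h : c ≤ d) x, (W'.ρ h).f ((g c).f x) = (g d).f ((W.ρ h).f x)
  a : ∀ (c : Ch ι) x, (g c.fs).f ((W.a c).f x) = (W'.a c).f ((f.f c).f x)

/-- the morphism to the zero presheaf -/
def WCH.toNil {V V' : PC k ι} (f : PCH V V') (W : WC V) : WCH f W (WC.nil V') where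
  g := fun c => toZero _
  nat := fun _ _ => rfl
  a := fun _ _ => rfl

/-- The step of the recursion. -/
def WCH.cons {V V' : PC k ι} {f : PCH V V'} {W : WC V} {W' : WC V'} (g : WCH f W W') (l : ι) :
    WCH f (W.cons l) (W'.cons l) where
  g := fun c => co.map _ _ _ _ (g.g c) (f.f (c.ins l)) (g.g (c.ins l).fs)
    (fun x => g.nat _ x) (fun x => (g.a _ x).symm)
  nat := fun {c d} h x => by
    obtain ⟨⟨x0, x1⟩, ξ⟩ := x
    exact Prod.ext (Prod.ext (g.nat _ x0) (f.nat _ x1)) (g.nat _ ξ)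
  a := fun c x => Prod.ext (Prod.ext (g.a c x) (f.nat _ x).symm)
    (map_zero (g.g (c.fs.ins l).fs).f)

/-- A morphism of presheaves of complexes induces a morphism of the Čech complexes. -/
def cH {V V' : PC k ι} (f : PCH V V') : ∀ L : List ι, WCH f (cC V L) (cC V' L)
  | [] => WCH.toNil f _
  | l :: L => (cH f L).cons l

/-- The projection which forgets the tail of the list. -/
def cT (V : PC k ι) (L : List ι) : ∀ L' : List ι,
    WCH (PCH.id V) (cC V (L' ++ L)) (cC V L')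
  | [] => WCH.toNil _ _
  | l :: L' => (cT V L L').cons l

/-- The projection which forgets the head of the list. -/
def WC.pr {V : PC k ι} (W : WC V) (l : ι) : WCH (PCH.id V) (W.cons l) W where
  g := fun c => co.pr0 _ _
  nat := fun {c d} h x => rfl
  a := fun c x => rfl

/-- Pairings of presheaves of complexes. -/
structure PP (V V' V'' : PC k ι) where
  p : ∀ c, CPr (V.X c) (V'.X c) (V''.X c)
  nat : ∀ {c d : Ch ι} (h : c ≤ d) x y,
    (V''.ρ h).f ((p c).m x y) = (p d).m ((V.ρ h).f x) ((V'.ρ h).f y)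

/-- Pairings over a pairing of presheaves of complexes. -/
structure WP {V V' V'' : PC k ι} (p : PP V V' V'') (W : WC V) (W' : WC V') (W'' : WC V'') where
  q : ∀ c, CPr (W.X c) (W'.X c) (W''.X c)
  nat : ∀ {c d : FS ι} (h : c ≤ d) x y,
    (W''.ρ h).f ((q c).m x y) = (q d).m ((W.ρ h).f x) ((W'.ρ h).f y)
  a : ∀ (c : Ch ι) x y, (W''.a c).f ((p.p c).m x y) = (q c.fs).m ((W.a c).f x) ((W'.a c).f y)

/-- the zero pairing -/
def WP.nil {V V' V'' : PC k ι} (p : PP V V' V'') : WP p (WC.nil V) (WC.nil V') (WC.nil V'') where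
  q := fun c => zPr _ _
  nat := fun _ _ _ => rfl
  a := fun _ _ _ => rfl

/-- The step of the recursion. -/
def WP.cons {V V' V'' : PC k ι} {p : PP V V' V''} {W : WC V} {W' : WC V'} {W'' : WC V''}
    (q : WP p W W' W'') (l : ι) : WP p (W.cons l) (W'.cons l) (W''.cons l) where
  q := fun c => co.pair _ _ _ _ _ _ (q.q c) (p.p (c.ins l)) (q.q (c.ins l).fs)
    (fun x y => q.nat _ x y) (fun x y => q.a _ x y)
  nat := fun {c d} h x y => by
    obtain ⟨⟨x0, x1⟩, ξ⟩ := x
    obtain ⟨⟨y0, y1⟩, υ⟩ := y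
    refine Prod.ext (Prod.ext (q.nat _ x0 y0) (p.nat _ x1 y1)) ?_
    change (W''.ρ _).f ((q.q _).m ((W.ρ _).f ((W.X c).dg.s x0)) υ +
      (q.q _).m ξ ((W'.a _).f y1)) =
      (q.q _).m ((W.ρ _).f ((W.X d).dg.s ((W.ρ h).f x0))) ((W'.ρ _).f υ) +
      (q.q _).m ((W.ρ _).f ξ) ((W'.a _).f ((V'.ρ _).f y1))
    rw [map_add, q.nat, q.nat, (W.ρ h).s, W.ρ_ρ, W.ρ_ρ, W'.a_ρ]
  a := fun c x y => by
    refine Prod.ext (Prod.ext (q.a c x y) (p.nat _ x y)) ?_
    change (0 : (W''.X _).V) = (q.q _).m ((W.ρ _).f ((W.X _).dg.s ((W.a c).f x))) 0 +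
      (q.q _).m 0 ((W'.a _).f ((V'.ρ _).f y))
    rw [map_zero, map_zero, LinearMap.zero_apply, add_zero]

/-- Cup products. -/
def cP {V V' V'' : PC k ι} (p : PP V V' V'') : ∀ L : List ι,
    WP p (cC V L) (cC V' L) (cC V'' L)
  | [] => WP.nil p
  | l :: L => (cP p L).cons l

end Pool.Agent.MP_6e5bed_ag_PN
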